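import Pool.Agent.LibSM47.Defs

/-! # Sixth moment of zeta, second board (SM56): weights `c(m,n) = (mn)^{-1/2} ∑_{de=m} φ(d)/d P(log d, log e, log n)`

Convention of the variables of `P`: `(z, z', y) = (log d, log e, log n) / log T`. -/

set_option autoImplicit false

namespace Pool.Agent.LibSM56

open MeasureTheory Set Filter Topology Complex ProbabilityTheory
open scoped NNReal ComplexConjugate
open Pool.Agent.LibZM Pool.Agent.LibSM47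

/-- The space of the five variables `(α, β, γ, δ, y)`. -/
abbrev V5 : Type := ℝ × ℝ × ℝ × ℝ × ℝ

/-- The positive octant of `ℝ⁵`. -/
def Oct5 : Set V5 := (Ioi (0 : ℝ)) ×ˢ (Ioi (0 : ℝ)) ×ˢ (Ioi (0 : ℝ)) ×ˢ (Ioi (0 : ℝ)) ×ˢ (Ioi (0 : ℝ))

/-- `(α + β, γ + δ, y)`: the factorization `(d, e)`. -/
def pr (v : V5) : ℝ × ℝ × ℝ := (v.1 + v.2.1, v.2.2.1 + v.2.2.2.1, v.2.2.2.2)

/-- `(α + γ, β + δ, y)`: the factorization `(d', e')`. -/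
def pr' (v : V5) : ℝ × ℝ × ℝ := (v.1 + v.2.2.1, v.2.1 + v.2.2.2.1, v.2.2.2.2)

/-- The coefficients. -/
noncomputable def cP (P : ℝ × ℝ × ℝ → ℝ) (T : ℝ) (q : ℕ × ℕ) : ℝ :=
  ((q.1 : ℝ) * q.2) ^ (-(1 / 2) : ℝ) * ∑ x ∈ q.1.divisorsAntidiagonal, (Nat.totient x.1 : ℝ) / x.1 *
    P (Real.log x.1 / Real.log T, Real.log x.2 / Real.log T, Real.log q.2 / Real.log T)

/-- The Dirichlet polynomial with coefficients `c`. -/
noncomputable def Dc (c : ℕ × ℕ → ℝ) (T t : ℝ) : ℂ :=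
  ∑ q ∈ idx T, (c q : ℂ) * ch ((q.1 : ℝ) / q.2) (-t)

/-- `J₁(P)`. -/
noncomputable def J1 (P : ℝ × ℝ × ℝ → ℝ) : ℝ := ∫ v in Oct5, P (pr v) * P (pr' v)

/-- `J₂(P)`. -/
noncomputable def J2 (P : ℝ × ℝ × ℝ → ℝ) : ℝ := ∫ v in Oct5, P (pr v) * QQ (pr' v)

/-- The main term of one fraction. -/
noncomputable def mainT (u : ℝ) (q : ℕ × ℕ) : ℝ :=
  ((q.1 : ℝ) * q.2) ^ (-(1 / 2) : ℝ) *
    mainS q.1 (Real.log (u / (2 * Real.pi)) + Real.log q.1 - Real.log q.2)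

/-- The Vandermonde polynomial of `z, z', 1 - y`. -/
noncomputable def Vd (x : ℝ × ℝ × ℝ) : ℝ := (x.2.1 - x.1) * (1 - x.2.2 - x.1) * (1 - x.2.2 - x.2.1)

/-- Admissible weights: continuous, compact support, and the supports needed for orthogonality and for the cross term. -/
def AdmP (ε : ℝ) (P : ℝ × ℝ × ℝ → ℝ) : Prop :=
  Continuous P ∧ HasCompactSupport P ∧
    ∀ z z' y : ℝ, 0 ≤ z → 0 ≤ z' → 0 ≤ y → P (z, z', y) ≠ 0 →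
      z + z' + y ≤ 1 - ε ∧ z + z' - y ≤ 1 / 2 - ε ∧ z + z' ≤ 3 / 4 - ε

/-- The twisted third moment is known on average for the weight `P`. -/
def ErrOK (P : ℝ × ℝ × ℝ → ℝ) : Prop :=
  ∀ ε₁ : ℝ, 0 < ε₁ → ∃ δ₀ : ℝ, 0 < δ₀ ∧ ∀ δ : ℝ, 0 < δ → δ ≤ δ₀ → ∃ C T₀ : ℝ, ∀ T : ℝ, T₀ ≤ T →
    ∀ u : ℝ, ε₁ * T ≤ u → u ≤ T →
      |(∑ q ∈ idx T, cP P T q * (II (T ^ (1 - δ)) u q.1 q.2).re) - ∑ q ∈ idx T, cP P T q * mainT u q| ≤
        C * (Real.log T) ^ 6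

/-- A product of three one-variable weights. -/
def bx (a b c : ℝ → ℝ) (x : ℝ × ℝ × ℝ) : ℝ := a x.1 * b x.2.1 * c x.2.2

end Pool.Agent.LibSM56
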