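import Pool.Agent.LibSM56.Defs
import Pool.Agent.LibSM47.M_A2c

/-! SM56 W_02 (SHORT).  Copy of `LibSM47/M_A2c.lean` (`cc_bound`).  `|P| ≤ M`, so `|cP| ≤ (mn)^{-1/2} M ∑_{de=m} φ(d)/d = M hh(m) (mn)^{-1/2}`
(`Nat.sum_divisorsAntidiagonal`).  If `cP P T q ≠ 0`, some term is nonzero: `P (log d/L, log e/L, log n/L) ≠ 0` with `de = m`, so
`log m/L + log n/L ≤ 1 - ε`, `log m/L - log n/L ≤ 1/2 - ε`, `log m/L ≤ 3/4 - ε`. -/

set_option autoImplicit false

namespace Pool.Agent.LibSM56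

open MeasureTheory Set Filter Topology Complex ProbabilityTheory
open scoped NNReal ComplexConjugate
open Pool.Agent.LibZM Pool.Agent.LibSM47

theorem cP_bound (P : ℝ × ℝ × ℝ → ℝ) (ε : ℝ) (hP : AdmP ε P) : ∃ M : ℝ, 0 < M ∧ ∀ T : ℝ, 2 ≤ T → ∀ q ∈ idx T,
    |cP P T q| ≤ M * hh q.1 * ((q.1 : ℝ) * q.2) ^ (-(1 / 2) : ℝ) ∧
    (cP P T q ≠ 0 → (q.1 : ℝ) * q.2 ≤ T ^ (1 - ε) ∧ (q.1 : ℝ) / q.2 ≤ T ^ (1 / 2 - ε) ∧
      (q.1 : ℝ) ≤ T ^ (3 / 4 - ε)) := by
  obtain ⟨hc, hs, hA⟩ := hP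
  obtain ⟨C, hC⟩ := hc.bounded_above_of_compact_support hs
  refine ⟨max C 1, lt_max_of_lt_right one_pos, ?_⟩
  intro T hT q hq
  obtain ⟨m, n⟩ := q
  simp only [idx, Finset.mem_filter, Finset.mem_product, Finset.mem_Icc] at hq
  obtain ⟨⟨⟨hm1, _⟩, hn1, _⟩, _⟩ := hq
  have hm : (1 : ℝ) ≤ m := by exact_mod_cast hm1
  have hn : (1 : ℝ) ≤ n := by exact_mod_cast hn1
  have hm0 : (0 : ℝ) < m := by linarith
  have hn0 : (0 : ℝ) < n := by linarith
  have hT0 : (0 : ℝ) < T := by linarith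
  have hT1 : (1 : ℝ) ≤ T := by linarith
  have hlT : 0 < Real.log T := Real.log_pos (by linarith)
  have hlm : 0 ≤ Real.log m := Real.log_nonneg hm
  have hln : 0 ≤ Real.log n := Real.log_nonneg hn
  have hbd : ∀ x : ℝ × ℝ × ℝ, |P x| ≤ max C 1 := fun x => by
    have := hC x
    rw [Real.norm_eq_abs] at this
    exact this.trans (le_max_left _ _)
  refine ⟨?_, ?_⟩
  · simp only [cP]
    have h1 : (0 : ℝ) ≤ ((m : ℝ) * n) ^ (-(1 / 2) : ℝ) := Real.rpow_nonneg (by positivity) _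
    rw [abs_mul, abs_of_nonneg h1]
    have h2 : |∑ x ∈ m.divisorsAntidiagonal, (Nat.totient x.1 : ℝ) / x.1 *
        P (Real.log x.1 / Real.log T, Real.log x.2 / Real.log T, Real.log n / Real.log T)| ≤
        max C 1 * hh m := by
      have h3 : hh m = ∑ x ∈ m.divisorsAntidiagonal, (Nat.totient x.1 : ℝ) / x.1 := by
        unfold hh
        rw [Nat.sum_divisorsAntidiagonal (fun d _ => (Nat.totient d : ℝ) / d)]
      rw [h3, Finset.mul_sum]
      refine (Finset.abs_sum_le_sum_abs _ _).trans (Finset.sum_le_sum fun x _ => ?_)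
      have h4 : (0 : ℝ) ≤ (Nat.totient x.1 : ℝ) / x.1 :=
        div_nonneg (Nat.cast_nonneg _) (Nat.cast_nonneg _)
      rw [abs_mul, abs_of_nonneg h4, mul_comm]
      exact mul_le_mul_of_nonneg_right (hbd _) h4
    calc ((m : ℝ) * n) ^ (-(1 / 2) : ℝ) * |∑ x ∈ m.divisorsAntidiagonal, (Nat.totient x.1 : ℝ) / x.1 *
        P (Real.log x.1 / Real.log T, Real.log x.2 / Real.log T, Real.log n / Real.log T)|
        ≤ ((m : ℝ) * n) ^ (-(1 / 2) : ℝ) * (max C 1 * hh m) := mul_le_mul_of_nonneg_left h2 h1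
      _ = max C 1 * hh m * ((m : ℝ) * n) ^ (-(1 / 2) : ℝ) := by ring
  · intro hne
    have hs0 : ∑ x ∈ m.divisorsAntidiagonal, (Nat.totient x.1 : ℝ) / x.1 *
        P (Real.log x.1 / Real.log T, Real.log x.2 / Real.log T, Real.log n / Real.log T) ≠ 0 := by
      intro h0
      apply hne
      simp only [cP]
      rw [h0, mul_zero]
    obtain ⟨x, hx, hx0⟩ := Finset.exists_ne_zero_of_sum_ne_zero hs0
    rw [Nat.mem_divisorsAntidiagonal] at hx
    obtain ⟨hxm, hmne⟩ := hx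
    have hx1 : x.1 ≠ 0 := by
      rintro h
      rw [h, zero_mul] at hxm
      exact hmne hxm.symm
    have hx2 : x.2 ≠ 0 := by
      rintro h
      rw [h, mul_zero] at hxm
      exact hmne hxm.symm
    have hx1' : (1 : ℝ) ≤ x.1 := by exact_mod_cast Nat.one_le_iff_ne_zero.2 hx1
    have hx2' : (1 : ℝ) ≤ x.2 := by exact_mod_cast Nat.one_le_iff_ne_zero.2 hx2
    have hl1 : 0 ≤ Real.log x.1 := Real.log_nonneg hx1'
    have hl2 : 0 ≤ Real.log x.2 := Real.log_nonneg hx2'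
    have hPne := right_ne_zero_of_mul hx0
    obtain ⟨h1, h2, h3⟩ := hA _ _ _ (div_nonneg hl1 hlT.le) (div_nonneg hl2 hlT.le)
      (div_nonneg hln hlT.le) hPne
    have hlog : Real.log x.1 / Real.log T + Real.log x.2 / Real.log T =
        Real.log m / Real.log T := by
      rw [← add_div, ← Real.log_mul (by linarith) (by linarith)]
      congr 2
      exact_mod_cast hxm
    rw [hlog] at h1 h2 h3
    obtain ⟨X, hX⟩ : ∃ X, X = Real.log m / Real.log T := ⟨_, rfl⟩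
    obtain ⟨Y, hY⟩ : ∃ Y, Y = Real.log n / Real.log T := ⟨_, rfl⟩
    rw [← hX] at h1 h2 h3
    rw [← hY] at h1 h2
    have hmx : Real.log m = Real.log T * X := by rw [hX]; field_simp
    have hny : Real.log n = Real.log T * Y := by rw [hY]; field_simp
    have hmT : (m : ℝ) = T ^ X := by
      rw [Real.rpow_def_of_pos hT0, ← hmx, Real.exp_log hm0]
    have hnT : (n : ℝ) = T ^ Y := by
      rw [Real.rpow_def_of_pos hT0, ← hny, Real.exp_log hn0]
    refine ⟨?_, ?_, ?_⟩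
    · simp only
      rw [hmT, hnT, ← Real.rpow_add hT0]
      exact Real.rpow_le_rpow_of_exponent_le hT1 h1
    · simp only
      rw [hmT, hnT, ← Real.rpow_sub hT0]
      exact Real.rpow_le_rpow_of_exponent_le hT1 h2
    · simp only
      rw [hmT]
      exact Real.rpow_le_rpow_of_exponent_le hT1 h3

end Pool.Agent.LibSM56
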