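import Pool.Agent.LibSM56.Final
import Pool.Agent.LibSM56A.A_X4
import Pool.Agent.LibSM56B.B_Main
import Pool.Agent.LibSM56C.S_GoodC

/-! # SM56: the sixth moment, constant `14967713/373248 = 40.1012…` -/

set_option autoImplicit false

namespace Pool.Agent.LibSM56

open MeasureTheory Set Filter Topology

theorem sixth (θ : ℝ) (hθ : 0 < θ) :
    ∃ δ T₀ : ℝ, 0 < δ ∧ ∀ T : ℝ, T₀ ≤ T → ∀ a b : ℝ, 0 ≤ a → b ≤ T → T ^ (1 - δ) ≤ b - a →
      (LibZM.Aconst 3 * (2 * (14967713 / 373248 / 725760)) - θ) * (b - a) * (Real.log T) ^ 9 ≤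
        ∫ t in a..b, ‖riemannZeta (LibZM.crit t)‖ ^ 6 :=
  final_A (fun x h1 h2 h3 h4 h5 => LibSM56A.goodAt_B LibSM56B.B_main x ⟨h1, h2, h3, h5, by linarith⟩ h4)
    (fun x hx h0 h1 h2 => LibSM56C.good_C_proof x hx h0 h1 h2) θ hθ

end Pool.Agent.LibSM56
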