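import Pool.Agent.LibSM56.F_Defs

set_option autoImplicit false

namespace Pool.Agent.LibSM56.FL

open MeasureTheory Set Filter Topology
open Pool.Agent.LibZM
open Pool.Agent.LibSM47.FL (rr cv)

/-! ROW F_01 (SHORT): elementary properties of the term `W5`.
`Real.log_natCast_nonneg` gives `0 ≤ log d` for all natural numbers (also `log 0 = 0`). -/

/-- The point of a term has nonnegative coordinates. -/
theorem pt5_nonneg (L : ℝ) (hL : 0 < L) (x y : ℕ × ℕ) (n : ℕ) : NN5 (pt5 L x y n) := by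
  refine ⟨?_, ?_, ?_, ?_, ?_⟩ <;>
    exact div_nonneg (Real.log_natCast_nonneg _) hL.le

theorem W5_nonneg (g : R5 → ℝ) (L : ℝ) (hL : 0 < L) (hg : ∀ x : R5, NN5 x → 0 ≤ g x) (m n : ℕ) : 0 ≤ W5 g L m n := by
  unfold W5
  split_ifs
  · refine mul_nonneg (by positivity) (Finset.sum_nonneg fun x _ => Finset.sum_nonneg fun y _ => ?_)
    exact mul_nonneg (by positivity) (hg _ (pt5_nonneg L hL x y n))
  · exact le_rfl

/-- Triangle inequality, termwise. -/
theorem abs_W5_sub_le (g h k : R5 → ℝ) (L : ℝ) (hL : 0 < L) (H : ∀ x : R5, NN5 x → |g x - h x| ≤ k x) (m n : ℕ) :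
    |W5 g L m n - W5 h L m n| ≤ W5 k L m n := by
  unfold W5
  split_ifs
  · rw [← mul_sub, abs_mul, abs_of_nonneg (by positivity : (0 : ℝ) ≤ ((m : ℝ) * n)⁻¹),
      ← Finset.sum_sub_distrib]
    refine mul_le_mul_of_nonneg_left ?_ (by positivity)
    refine (Finset.abs_sum_le_sum_abs _ _).trans (Finset.sum_le_sum fun x _ => ?_)
    rw [← Finset.sum_sub_distrib]
    refine (Finset.abs_sum_le_sum_abs _ _).trans (Finset.sum_le_sum fun y _ => ?_)
    rw [← mul_sub, abs_mul, abs_of_nonneg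
      (by positivity : (0 : ℝ) ≤ ((Nat.totient x.1 : ℝ) / x.1) * ((Nat.totient y.1 : ℝ) / y.1))]
    exact mul_le_mul_of_nonneg_left (H _ (pt5_nonneg L hL x y n)) (by positivity)
  · simp

theorem W5_sum {ι : Type*} (s : Finset ι) (c : ι → ℝ) (g : ι → R5 → ℝ) (L : ℝ) (m n : ℕ) :
    W5 (fun x => ∑ i ∈ s, c i * g i x) L m n = ∑ i ∈ s, c i * W5 (g i) L m n := by
  unfold W5
  split_ifs
  · have h1 : ∀ i ∈ s, c i * (((m : ℝ) * n)⁻¹ * ∑ x ∈ m.divisorsAntidiagonal, ∑ y ∈ m.divisorsAntidiagonal,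
        ((Nat.totient x.1 : ℝ) / x.1) * ((Nat.totient y.1 : ℝ) / y.1) * g i (pt5 L x y n)) =
        ((m : ℝ) * n)⁻¹ * ∑ x ∈ m.divisorsAntidiagonal, ∑ y ∈ m.divisorsAntidiagonal,
        ((Nat.totient x.1 : ℝ) / x.1) * ((Nat.totient y.1 : ℝ) / y.1) * (c i * g i (pt5 L x y n)) := by
      intro i _
      rw [mul_left_comm, Finset.mul_sum]
      congr 1
      refine Finset.sum_congr rfl fun x _ => ?_
      rw [Finset.mul_sum]
      refine Finset.sum_congr rfl fun y _ => ?_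
      ring
    refine Eq.trans ?_ (Finset.sum_congr rfl h1).symm
    rw [← Finset.mul_sum]
    congr 1
    refine Eq.trans ?_ Finset.sum_comm
    refine Finset.sum_congr rfl fun x _ => ?_
    refine Eq.trans ?_ Finset.sum_comm
    refine Finset.sum_congr rfl fun y _ => ?_
    rw [Finset.mul_sum]
  · simp

theorem W5_smul (t : ℝ) (g : R5 → ℝ) (L : ℝ) (m n : ℕ) : W5 (fun x => t * g x) L m n = t * W5 g L m n := by
  have h := W5_sum ({()} : Finset Unit) (fun _ => t) (fun _ => g) L m n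
  simpa using h

end Pool.Agent.LibSM56.FL
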