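import Pool.Agent.LibSM56.F_Defs

set_option autoImplicit false

namespace Pool.Agent.LibSM56.FL

open MeasureTheory Set Filter Topology
open Pool.Agent.LibZM
open Pool.Agent.LibSM47.FL (rr cv)

/-! ROW F_02 (SHORT/MEDIUM): the term `W5` of an exponential.
For `x ∈ m.divisorsAntidiagonal` (`x.1 x.2 = m`, both positive) and `y` likewise:
`(mn)⁻¹ (φ(x.1)/x.1)(φ(y.1)/y.1) x.1^{-a/L} x.2^{-b/L} y.1^{-a'/L} y.2^{-b'/L} n^{-c/L}
 = n^{-(1+c/L)} · m · [φ(x.1) x.1^{-(2+a/L)} x.2^{-(1+b/L)}] · [φ(y.1) y.1^{-(2+a'/L)} y.2^{-(1+b'/L)}]`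
because `x.1 x.2 = y.1 y.2 = m`; the double sum is a product (`Finset.sum_mul_sum`). `exp(-(a (log d/L))) = d^{-(a/L)}`
(`Real.rpow_def_of_pos`, also for `L = 0`). -/

theorem W5_e5 (a b a' b' c L : ℝ) (m n : ℕ) (hm : 1 ≤ m) (hn : 1 ≤ n) :
    W5 (e5 a b a' b' c) L m n = K4 (a / L) (b / L) (a' / L) (b' / L) (c / L) m n := by
  have hm0 : (0 : ℝ) < m := by exact_mod_cast hm
  have hn0 : (0 : ℝ) < n := by exact_mod_cast hn
  unfold W5 K4
  by_cases h : Nat.Coprime m n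
  · simp only [if_pos h]
    have key : ∀ x ∈ m.divisorsAntidiagonal, ∀ y ∈ m.divisorsAntidiagonal,
        ((m : ℝ) * n)⁻¹ * (((Nat.totient x.1 : ℝ) / x.1) * ((Nat.totient y.1 : ℝ) / y.1) *
          e5 a b a' b' c (pt5 L x y n)) =
        (n : ℝ) ^ (-(1 + c / L)) * ((m : ℝ) *
          (((Nat.totient x.1 : ℝ) * (x.1 : ℝ) ^ (-(2 + a / L)) * (x.2 : ℝ) ^ (-(1 + b / L))) *
          ((Nat.totient y.1 : ℝ) * (y.1 : ℝ) ^ (-(2 + a' / L)) *
            (y.2 : ℝ) ^ (-(1 + b' / L))))) := by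
      intro x hx y hy
      have hx' := Nat.mem_divisorsAntidiagonal.1 hx
      have hy' := Nat.mem_divisorsAntidiagonal.1 hy
      have pos : ∀ z : ℕ × ℕ, z.1 * z.2 = m → (0 : ℝ) < z.1 ∧ (0 : ℝ) < z.2 ∧
          (z.1 : ℝ) * z.2 = m := by
        intro z hz
        refine ⟨?_, ?_, by exact_mod_cast hz⟩
        · have : 0 < z.1 := Nat.pos_of_ne_zero fun h0 => by
            rw [h0, zero_mul] at hz
            omega
          exact_mod_cast this
        · have : 0 < z.2 := Nat.pos_of_ne_zero fun h0 => by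
            rw [h0, mul_zero] at hz
            omega
          exact_mod_cast this
      obtain ⟨x1, x2, x3⟩ := pos x hx'.1
      obtain ⟨y1, y2, y3⟩ := pos y hy'.1
      have e1 : e5 a b a' b' c (pt5 L x y n) = (x.1 : ℝ) ^ (-(a / L)) * (x.2 : ℝ) ^ (-(b / L)) *
          ((y.1 : ℝ) ^ (-(a' / L)) * (y.2 : ℝ) ^ (-(b' / L))) * (n : ℝ) ^ (-(c / L)) := by
        rw [e5, pt5, Real.rpow_def_of_pos x1, Real.rpow_def_of_pos x2, Real.rpow_def_of_pos y1,
          Real.rpow_def_of_pos y2, Real.rpow_def_of_pos hn0, ← Real.exp_add, ← Real.exp_add,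
          ← Real.exp_add, ← Real.exp_add]
        congr 1
        ring
      have two : ∀ (u t : ℝ), 0 < u → u ^ (-(2 + t)) = u ^ (-t) / u ^ 2 := by
        intro u t hu
        rw [neg_add, Real.rpow_add hu, Real.rpow_neg hu.le 2, Real.rpow_two]
        field_simp
      have one : ∀ (u t : ℝ), 0 < u → u ^ (-(1 + t)) = u ^ (-t) / u := by
        intro u t hu
        rw [neg_add, Real.rpow_add hu, Real.rpow_neg hu.le 1, Real.rpow_one]
        field_simp
      rw [e1, two _ _ x1, two _ _ y1, one _ _ x2, one _ _ y2, one _ _ hn0]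
      have e2 : ((x.1 : ℝ) * x.2)⁻¹ * ((y.1 : ℝ) * y.2)⁻¹ * m = (m : ℝ)⁻¹ := by
        rw [x3, y3]
        field_simp
      have e3 : ((m : ℝ) * n)⁻¹ = (m : ℝ)⁻¹ * (n : ℝ)⁻¹ := mul_inv _ _
      rw [e3, ← e2]
      field_simp
    unfold cv
    rw [mul_assoc (m : ℝ), Finset.sum_mul_sum, Finset.mul_sum, Finset.mul_sum, Finset.mul_sum]
    refine Finset.sum_congr rfl fun x hx => ?_
    rw [Finset.mul_sum, Finset.mul_sum, Finset.mul_sum]
    exact Finset.sum_congr rfl fun y hy => key x hx y hy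
  · simp only [if_neg h]

end Pool.Agent.LibSM56.FL
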