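import Pool.Agent.LibSM56.F_Defs
import Pool.Agent.LibSM47.F_02

set_option autoImplicit false

namespace Pool.Agent.LibSM56.FL

open MeasureTheory Set Filter Topology
open Pool.Agent.LibZM
open Pool.Agent.LibSM47.FL (rr cv)

/-! ROW F_03 (MEDIUM): convergence. `cv a b m ≤ τ(m) m^{-(1+δ)}` if `δ ≤ a`, `δ ≤ b`, `0 ≤ δ` (`φ(d) ≤ d`, `d^{-(1+a)} e^{-(1+b)} ≤ (de)^{-(1+δ)}` for
`d, e ≥ 1`), so `m cv cv' ≤ τ(m)² m^{-(1+2δ)}`; `Σ τ(m)² m^{-σ}` converges: `LibZM.summable_tau_sq` with `κ = 2` and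
`tau 2 n = card (divisors n)` for `n ≠ 0` (the private lemma of `LibSM47/F_02.lean`: copy it, or use `LibSM47.FL.tau_summable`-style);
`0 ≤ rr c m ≤ 1` for `0 ≤ c` (factors in `[0,1]`; `LibSM47/F_04.lean`, `FF_nonneg`, has the argument). -/

private theorem F_03_tau_two {n : ℕ} (hn : n ≠ 0) : tau 2 n = (n.divisors.card : ℝ) := by
  have h : (2 : ℝ) = 1 + 1 := by norm_num
  rw [h, ← tau_mul, ArithmeticFunction.mul_apply]
  have h1 : ∀ x ∈ n.divisorsAntidiagonal, tau 1 x.1 * tau 1 x.2 = 1 := by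
    intro x hx
    have h2 := Nat.mem_divisorsAntidiagonal.1 hx
    have h3 : x.1 ≠ 0 := by
      intro h0
      rw [h0, zero_mul] at h2
      exact hn h2.1.symm
    have h4 : x.2 ≠ 0 := by
      intro h0
      rw [h0, mul_zero] at h2
      exact hn h2.1.symm
    rw [tau_one_apply h3, tau_one_apply h4, one_mul]
  rw [Finset.sum_congr rfl h1, Finset.sum_const, nsmul_eq_mul, mul_one]
  congr 1
  rw [← Nat.map_div_right_divisors, Finset.card_map]

private theorem F_03_card (m : ℕ) : m.divisorsAntidiagonal.card = m.divisors.card := by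
  rw [← Nat.map_div_right_divisors, Finset.card_map]

theorem cv_nonneg (a b : ℝ) (m : ℕ) : 0 ≤ cv a b m := by
  exact Finset.sum_nonneg fun x _ => by positivity

theorem cv_le (a b δ : ℝ) (hδ : 0 ≤ δ) (ha : δ ≤ a) (hb : δ ≤ b) (m : ℕ) :
    cv a b m ≤ (m.divisors.card : ℝ) * (m : ℝ) ^ (-(1 + δ)) := by
  have h1 : ∀ x ∈ m.divisorsAntidiagonal,
      (Nat.totient x.1 : ℝ) * (x.1 : ℝ) ^ (-(2 + a)) * (x.2 : ℝ) ^ (-(1 + b)) ≤
        (m : ℝ) ^ (-(1 + δ)) := by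
    intro x hx
    obtain ⟨hx1, hx2⟩ := Nat.mem_divisorsAntidiagonal.1 hx
    have p1 : 0 < x.1 := Nat.pos_of_ne_zero fun h0 => by
      rw [h0, zero_mul] at hx1
      exact hx2 hx1.symm
    have p2 : 0 < x.2 := Nat.pos_of_ne_zero fun h0 => by
      rw [h0, mul_zero] at hx1
      exact hx2 hx1.symm
    have q1 : (0 : ℝ) < x.1 := by exact_mod_cast p1
    have q2 : (0 : ℝ) < x.2 := by exact_mod_cast p2
    have r1 : (1 : ℝ) ≤ x.1 := by exact_mod_cast p1
    have r2 : (1 : ℝ) ≤ x.2 := by exact_mod_cast p2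
    have t1 : (Nat.totient x.1 : ℝ) ≤ x.1 := by exact_mod_cast Nat.totient_le x.1
    have e1 : (x.1 : ℝ) * (x.1 : ℝ) ^ (-(2 + a)) = (x.1 : ℝ) ^ (-(1 + a)) := by
      have h2 := Real.rpow_add q1 1 (-(2 + a))
      rw [Real.rpow_one] at h2
      rw [← h2]
      congr 1
      ring
    have e2 : (m : ℝ) ^ (-(1 + δ)) = (x.1 : ℝ) ^ (-(1 + δ)) * (x.2 : ℝ) ^ (-(1 + δ)) := by
      rw [← Real.mul_rpow q1.le q2.le, ← hx1]
      push_cast
      rfl
    have e3 : (x.1 : ℝ) ^ (-(1 + a)) ≤ (x.1 : ℝ) ^ (-(1 + δ)) :=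
      Real.rpow_le_rpow_of_exponent_le r1 (by linarith)
    have e4 : (x.2 : ℝ) ^ (-(1 + b)) ≤ (x.2 : ℝ) ^ (-(1 + δ)) :=
      Real.rpow_le_rpow_of_exponent_le r2 (by linarith)
    rw [e2]
    calc (Nat.totient x.1 : ℝ) * (x.1 : ℝ) ^ (-(2 + a)) * (x.2 : ℝ) ^ (-(1 + b))
        ≤ (x.1 : ℝ) * (x.1 : ℝ) ^ (-(2 + a)) * (x.2 : ℝ) ^ (-(1 + b)) := by gcongr
      _ = (x.1 : ℝ) ^ (-(1 + a)) * (x.2 : ℝ) ^ (-(1 + b)) := by rw [e1]
      _ ≤ _ := mul_le_mul e3 e4 (by positivity) (by positivity)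
  calc cv a b m ≤ ∑ _x ∈ m.divisorsAntidiagonal, (m : ℝ) ^ (-(1 + δ)) := Finset.sum_le_sum h1
    _ = _ := by rw [Finset.sum_const, nsmul_eq_mul, F_03_card]

theorem rr_mem (c : ℝ) (hc : 0 ≤ c) (m : ℕ) : 0 ≤ rr c m ∧ rr c m ≤ 1 := by
  have h1 : ∀ p ∈ m.primeFactors, 0 ≤ 1 - (p : ℝ) ^ (-(1 + c)) ∧ 1 - (p : ℝ) ^ (-(1 + c)) ≤ 1 := by
    intro p hp
    have h2 : (1 : ℝ) ≤ p := by exact_mod_cast (Nat.prime_of_mem_primeFactors hp).one_lt.le
    have h3 : (p : ℝ) ^ (-(1 + c)) ≤ 1 := Real.rpow_le_one_of_one_le_of_nonpos h2 (by linarith)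
    have h4 : 0 ≤ (p : ℝ) ^ (-(1 + c)) := by positivity
    exact ⟨by linarith, by linarith⟩
  exact ⟨Finset.prod_nonneg fun p hp => (h1 p hp).1,
    Finset.prod_le_one (fun p hp => (h1 p hp).1) fun p hp => (h1 p hp).2⟩

theorem div_sq_summable (σ : ℝ) (hσ : 1 < σ) : Summable fun m : ℕ => (m.divisors.card : ℝ) ^ 2 * (m : ℝ) ^ (-σ) := by
  refine (summable_tau_sq (κ := 2) (by norm_num) hσ).congr fun n => ?_
  rcases Nat.eq_zero_or_pos n with h | h
  · rw [h, Nat.cast_zero, Real.zero_rpow (by linarith)]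
    simp
  · rw [F_03_tau_two h.ne']

theorem cvcv_summable (a b a' b' : ℝ) (ha : 0 < a) (hb : 0 < b) (ha' : 0 < a') (hb' : 0 < b') :
    Summable fun m : ℕ => (m : ℝ) * cv a b m * cv a' b' m := by
  obtain ⟨δ, hδ⟩ : ∃ δ : ℝ, δ = min (min a b) (min a' b') := ⟨_, rfl⟩
  have hδ0 : 0 < δ := by
    rw [hδ]
    exact lt_min (lt_min ha hb) (lt_min ha' hb')
  have h1 : δ ≤ a := by rw [hδ]; exact (min_le_left _ _).trans (min_le_left _ _)
  have h2 : δ ≤ b := by rw [hδ]; exact (min_le_left _ _).trans (min_le_right _ _)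
  have h3 : δ ≤ a' := by rw [hδ]; exact (min_le_right _ _).trans (min_le_left _ _)
  have h4 : δ ≤ b' := by rw [hδ]; exact (min_le_right _ _).trans (min_le_right _ _)
  refine Summable.of_nonneg_of_le (fun m => ?_) (fun m => ?_)
    (div_sq_summable (1 + 2 * δ) (by linarith))
  · exact mul_nonneg (mul_nonneg (Nat.cast_nonneg m) (cv_nonneg a b m)) (cv_nonneg a' b' m)
  · rcases Nat.eq_zero_or_pos m with h | h
    · rw [h, Nat.cast_zero, Real.zero_rpow (by linarith)]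
      simp
    · have hm : (0 : ℝ) < m := by exact_mod_cast h
      have h5 := cv_le a b δ hδ0.le h1 h2 m
      have h6 := cv_le a' b' δ hδ0.le h3 h4 m
      have e1 : (m : ℝ) * ((m : ℝ) ^ (-(1 + δ)) * (m : ℝ) ^ (-(1 + δ))) =
          (m : ℝ) ^ (-(1 + 2 * δ)) := by
        have h7 := Real.rpow_add hm 1 (-(1 + δ) + -(1 + δ))
        rw [Real.rpow_one] at h7
        rw [← Real.rpow_add hm, ← h7]
        congr 1
        ring
      calc (m : ℝ) * cv a b m * cv a' b' m = m * (cv a b m * cv a' b' m) := by ring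
        _ ≤ m * (((m.divisors.card : ℝ) * (m : ℝ) ^ (-(1 + δ))) *
            ((m.divisors.card : ℝ) * (m : ℝ) ^ (-(1 + δ)))) := by
            apply mul_le_mul_of_nonneg_left _ hm.le
            exact mul_le_mul h5 h6 (cv_nonneg a' b' m) (by positivity)
        _ = (m.divisors.card : ℝ) ^ 2 *
            ((m : ℝ) * ((m : ℝ) ^ (-(1 + δ)) * (m : ℝ) ^ (-(1 + δ)))) := by ring
        _ = _ := by rw [e1]

theorem F4_summable (a b a' b' c : ℝ) (ha : 0 < a) (hb : 0 < b) (ha' : 0 < a') (hb' : 0 < b') (hc : 0 ≤ c) :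
    Summable fun m : ℕ => F4 a b a' b' c m := by
  refine Summable.of_nonneg_of_le (fun m => ?_) (fun m => ?_) (cvcv_summable a b a' b' ha hb ha' hb')
  · exact mul_nonneg (mul_nonneg (mul_nonneg (Nat.cast_nonneg m) (rr_mem c hc m).1)
      (cv_nonneg a b m)) (cv_nonneg a' b' m)
  · unfold F4
    apply mul_le_mul_of_nonneg_right _ (cv_nonneg a' b' m)
    apply mul_le_mul_of_nonneg_right _ (cv_nonneg a b m)
    exact mul_le_of_le_one_right (Nat.cast_nonneg m) (rr_mem c hc m).2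

theorem K4_nonneg (a b a' b' c : ℝ) (m n : ℕ) : 0 ≤ K4 a b a' b' c m n := by
  unfold K4
  split_ifs
  · exact mul_nonneg (by positivity) (mul_nonneg (mul_nonneg (Nat.cast_nonneg m)
      (cv_nonneg a b m)) (cv_nonneg a' b' m))
  · exact le_rfl

/-- `Summable.mul_of_nonneg` with `cvcv_summable` (composed with `PNat.coe_injective`) and `Real.summable_nat_rpow`, then
`Summable.of_nonneg_of_le`. -/
theorem K4_summable (a b a' b' c : ℝ) (ha : 0 < a) (hb : 0 < b) (ha' : 0 < a') (hb' : 0 < b') (hc : 0 < c) :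
    Summable fun q : ℕ+ × ℕ+ => K4 a b a' b' c q.1 q.2 := by
  have h1 := (cvcv_summable a b a' b' ha hb ha' hb').comp_injective PNat.coe_injective
  have h2 : Summable fun n : ℕ => (n : ℝ) ^ (-(1 + c)) := Real.summable_nat_rpow.2 (by linarith)
  have h3 := h2.comp_injective PNat.coe_injective
  have h4 := h1.mul_of_nonneg h3
    (fun m => mul_nonneg (mul_nonneg (Nat.cast_nonneg (m : ℕ)) (cv_nonneg a b m))
      (cv_nonneg a' b' m))
    (fun n => Real.rpow_nonneg (Nat.cast_nonneg (n : ℕ)) _)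
  refine Summable.of_nonneg_of_le (fun q => K4_nonneg _ _ _ _ _ _ _) (fun q => ?_) h4
  simp only [Function.comp_apply]
  unfold K4
  have h5 : (0 : ℝ) ≤ ((q.2 : ℕ) : ℝ) ^ (-(1 + c)) := Real.rpow_nonneg (Nat.cast_nonneg _) _
  have h6 : 0 ≤ ((q.1 : ℕ) : ℝ) * cv a b q.1 * cv a' b' q.1 :=
    mul_nonneg (mul_nonneg (Nat.cast_nonneg _) (cv_nonneg a b _)) (cv_nonneg a' b' _)
  split_ifs
  · exact (mul_comm _ _).le
  · exact mul_nonneg h6 h5

end Pool.Agent.LibSM56.FL
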