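import Pool.Agent.LibSM56.F_Defs
import Pool.Agent.LibSM56.F_03
import Pool.Agent.LibSM47.F_03

set_option autoImplicit false

namespace Pool.Agent.LibSM56.FL

open MeasureTheory Set Filter Topology
open Pool.Agent.LibZM
open Pool.Agent.LibSM47.FL (rr cv)

/-! ROW F_04 (SHORT/MEDIUM): the sum over `n`. `Summable.tsum_prod` (`K4_summable`), inner sum over `n` by `LibSM47.FL.n_sum c hc m`:
`Σ_n [gcd(m,n)=1] n^{-(1+c)} = Zt (1+c) * rr c m`; then from `ℕ+` to `ℕ` (`F4 … 0 = 0`; end of the proof of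
`LibSM47/F_04.lean`, `triple_eq`). -/

theorem K4_tsum (a b a' b' c : ℝ) (ha : 0 < a) (hb : 0 < b) (ha' : 0 < a') (hb' : 0 < b') (hc : 0 < c) :
    ∑' q : ℕ+ × ℕ+, K4 a b a' b' c q.1 q.2 = Zt (1 + c) * ∑' m : ℕ, F4 a b a' b' c m := by
  have hs := K4_summable a b a' b' c ha hb ha' hb' hc
  have inner : ∀ m : ℕ+, ∑' n : ℕ+, K4 a b a' b' c m n = Zt (1 + c) * F4 a b a' b' c m := by
    intro m
    have h1 : ∀ n : ℕ+, K4 a b a' b' c m n = (((m : ℕ) : ℝ) * cv a b m * cv a' b' m) *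
        (if Nat.Coprime (m : ℕ) n then (n : ℝ) ^ (-(1 + c)) else 0) := by
      intro n
      unfold K4
      by_cases h : Nat.Coprime (m : ℕ) n
      · rw [if_pos h, if_pos h]
        ring
      · rw [if_neg h, if_neg h, mul_zero]
    rw [tsum_congr h1, tsum_mul_left, (Pool.Agent.LibSM47.FL.n_sum c hc (m : ℕ) m.pos).2]
    unfold F4
    ring
  have hinj : Function.Injective (fun m : ℕ+ => (m : ℕ)) := PNat.coe_injective
  rw [hs.tsum_prod]
  simp only [inner]
  rw [tsum_mul_left]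
  congr 1
  refine hinj.tsum_eq (f := fun m : ℕ => F4 a b a' b' c m) ?_
  intro x hx
  by_contra h
  have hx0 : x = 0 := by
    rcases Nat.eq_zero_or_pos x with h0 | h0
    · exact h0
    · exact absurd ⟨⟨x, h0⟩, rfl⟩ h
  apply hx
  show F4 a b a' b' c x = 0
  rw [hx0]
  simp [F4]

end Pool.Agent.LibSM56.FL
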