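import Pool.Agent.LibSM56.F_Defs

set_option autoImplicit false

namespace Pool.Agent.LibSM56.FL

open MeasureTheory Set Filter Topology
open Pool.Agent.LibZM
open Pool.Agent.LibSM47.FL (rr cv)

/-! ROW F_05 (SHORT): multiplicativity. Template `LibSM47/F_05.lean` (copy the private lemmas for `cv` and `rr`). -/

private noncomputable def F_05_f2 (a : ℝ) : ArithmeticFunction ℝ :=
  ⟨fun n => (Nat.totient n : ℝ) * (n : ℝ) ^ (-(2 + a)), by simp⟩

private noncomputable def F_05_f3 (b : ℝ) : ArithmeticFunction ℝ :=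
  ⟨fun n => if n = 0 then 0 else (n : ℝ) ^ (-(1 + b)), by simp⟩

private theorem F_05_m2 (a : ℝ) : (F_05_f2 a).IsMultiplicative := by
  rw [ArithmeticFunction.IsMultiplicative.iff_ne_zero]
  refine ⟨by simp [F_05_f2], fun {m n} hm hn h => ?_⟩
  simp only [F_05_f2, ArithmeticFunction.coe_mk]
  rw [Nat.totient_mul h]
  push_cast
  rw [Real.mul_rpow (Nat.cast_nonneg m) (Nat.cast_nonneg n)]
  ring

private theorem F_05_m3 (b : ℝ) : (F_05_f3 b).IsMultiplicative := by
  rw [ArithmeticFunction.IsMultiplicative.iff_ne_zero]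
  refine ⟨by simp [F_05_f3], fun {m n} hm hn h => ?_⟩
  simp only [F_05_f3, ArithmeticFunction.coe_mk]
  rw [if_neg hm, if_neg hn, if_neg (Nat.mul_ne_zero hm hn)]
  push_cast
  rw [Real.mul_rpow (Nat.cast_nonneg m) (Nat.cast_nonneg n)]

private theorem F_05_cv (a b : ℝ) (m : ℕ) : cv a b m = (F_05_f2 a * F_05_f3 b) m := by
  rw [ArithmeticFunction.mul_apply, cv]
  refine Finset.sum_congr rfl fun x hx => ?_
  have h2 : x.2 ≠ 0 := (Nat.ne_zero_of_mem_divisorsAntidiagonal hx).2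
  simp only [F_05_f2, F_05_f3, ArithmeticFunction.coe_mk]
  rw [if_neg h2]

private theorem F_05_cvmul (a b : ℝ) (m n : ℕ) (h : Nat.Coprime m n) :
    cv a b (m * n) = cv a b m * cv a b n := by
  rw [F_05_cv, F_05_cv, F_05_cv]
  exact ((F_05_m2 a).mul (F_05_m3 b)).map_mul_of_coprime h

theorem F4_zero (a b a' b' c : ℝ) : F4 a b a' b' c 0 = 0 := by
  simp [F4]

theorem F4_one (a b a' b' c : ℝ) : F4 a b a' b' c 1 = 1 := by
  simp [F4, rr, cv]

theorem F4_mul (a b a' b' c : ℝ) (m n : ℕ) (h : Nat.Coprime m n) :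
    F4 a b a' b' c (m * n) = F4 a b a' b' c m * F4 a b a' b' c n := by
  have h3 : rr c (m * n) = rr c m * rr c n := by
    rw [rr, rr, rr, h.primeFactors_mul, Finset.prod_union h.disjoint_primeFactors]
  rw [F4, F4, F4, F_05_cvmul a b m n h, F_05_cvmul a' b' m n h, h3]
  push_cast
  ring

end Pool.Agent.LibSM56.FL
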