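import Pool.Agent.LibSM56.F_Defs

set_option autoImplicit false

namespace Pool.Agent.LibSM56.FL

open MeasureTheory Set Filter Topology
open Pool.Agent.LibZM
open Pool.Agent.LibSM47.FL (rr cv)

/-! ROW F_06 (SHORT/MEDIUM): values at prime powers. Template `LibSM47/F_06.lean` (copy the private lemma `F_06_cv`:
`cv a b (p^j) = (p^{-(1+b)})^j + (1-u) Σ_{i=1}^j (p^{-(1+a)})^i (p^{-(1+b)})^{j-i}`, and `p^{-(1+a)} = p⁻¹ p^{-a}`, so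
`cv a b (p^j) = (p⁻¹)^j cj (p^{-a}) (p^{-b}) p⁻¹ j`), `rr c (p^j) = 1 - p^{-(1+c)}`, `p^j (p⁻¹)^j = 1`. -/

private theorem F_06_tot (p : ℕ) (hp : p.Prime) (i : ℕ) (hi : 1 ≤ i) :
    (Nat.totient (p ^ i) : ℝ) = (1 - (p : ℝ)⁻¹) * (p : ℝ) ^ i := by
  obtain ⟨k, rfl⟩ : ∃ k, i = k + 1 := ⟨i - 1, by omega⟩
  have hp0 : (p : ℝ) ≠ 0 := Nat.cast_ne_zero.2 hp.ne_zero
  rw [Nat.totient_prime_pow_succ hp, Nat.cast_mul, Nat.cast_pow, Nat.cast_sub hp.one_le,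
    Nat.cast_one, pow_succ]
  field_simp

private theorem F_06_cv (a b : ℝ) (p : ℕ) (hp : p.Prime) (j : ℕ) :
    cv a b (p ^ j) = ((p : ℝ) ^ (-(1 + b))) ^ j + (1 - (p : ℝ)⁻¹) *
        ∑ i ∈ Finset.Icc 1 j, ((p : ℝ) ^ (-(1 + a))) ^ i * ((p : ℝ) ^ (-(1 + b))) ^ (j - i) := by
  have hp0 : (0 : ℝ) < p := Nat.cast_pos.2 hp.pos
  have hpow : ∀ (k : ℕ) (s : ℝ), ((p ^ k : ℕ) : ℝ) ^ s = ((p : ℝ) ^ s) ^ k := by
    intro k s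
    rw [Nat.cast_pow, ← Real.rpow_natCast, ← Real.rpow_natCast, ← Real.rpow_mul hp0.le,
      ← Real.rpow_mul hp0.le, mul_comm]
  rw [cv, Nat.sum_divisorsAntidiagonal (fun x y => (Nat.totient x : ℝ) * (x : ℝ) ^ (-(2 + a)) *
    (y : ℝ) ^ (-(1 + b))), Nat.sum_divisors_prime_pow hp, Finset.range_eq_Ico,
    Finset.sum_eq_sum_Ico_succ_bot (Nat.succ_pos j)]
  congr 1
  · rw [pow_zero, Nat.totient_one, Nat.div_one, hpow j]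
    simp
  · rw [Finset.mul_sum]
    have hI : Finset.Ico (0 + 1) (j + 1) = Finset.Icc 1 j := by
      ext x
      simp only [Finset.mem_Ico, Finset.mem_Icc]
      omega
    rw [hI]
    refine Finset.sum_congr rfl fun i hi => ?_
    obtain ⟨h1, h2⟩ := Finset.mem_Icc.1 hi
    rw [F_06_tot p hp i h1, Nat.pow_div h2 hp.pos, hpow, hpow]
    have h3 : (p : ℝ) ^ (-(2 + a)) = (p : ℝ) ^ (-(1 + a)) * (p : ℝ)⁻¹ := by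
      rw [← Real.rpow_neg_one, ← Real.rpow_add hp0]
      congr 1
      ring
    rw [h3, mul_pow, inv_pow]
    have h4 : (p : ℝ) ^ i ≠ 0 := pow_ne_zero _ hp0.ne'
    field_simp

private theorem F_06_split (a : ℝ) (p : ℕ) (hp : p.Prime) :
    (p : ℝ) ^ (-(1 + a)) = (p : ℝ)⁻¹ * (p : ℝ) ^ (-a) := by
  have hp0 : (0 : ℝ) < p := Nat.cast_pos.2 hp.pos
  rw [← Real.rpow_neg_one, ← Real.rpow_add hp0]
  congr 1
  ring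

theorem cv_prime_pow (a b : ℝ) (p : ℕ) (hp : p.Prime) (j : ℕ) :
    cv a b (p ^ j) = ((p : ℝ)⁻¹) ^ j * cj ((p : ℝ) ^ (-a)) ((p : ℝ) ^ (-b)) (p : ℝ)⁻¹ j := by
  rw [F_06_cv a b p hp j, F_06_split a p hp, F_06_split b p hp, cj, mul_add, mul_pow]
  congr 1
  rw [mul_left_comm]
  congr 1
  rw [Finset.mul_sum]
  refine Finset.sum_congr rfl fun i hi => ?_
  obtain ⟨_, h2⟩ := Finset.mem_Icc.1 hi
  rw [mul_pow, mul_pow]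
  have h3 : ((p : ℝ)⁻¹) ^ j = ((p : ℝ)⁻¹) ^ i * ((p : ℝ)⁻¹) ^ (j - i) := by
    rw [← pow_add]
    congr 1
    omega
  rw [h3]
  ring

theorem F4_prime_pow (a b a' b' c : ℝ) (p : ℕ) (hp : p.Prime) (j : ℕ) (hj : 1 ≤ j) :
    F4 a b a' b' c (p ^ j) = (1 - (p : ℝ) ^ (-(1 + c))) * (((p : ℝ)⁻¹) ^ j *
      (cj ((p : ℝ) ^ (-a)) ((p : ℝ) ^ (-b)) (p : ℝ)⁻¹ j * cj ((p : ℝ) ^ (-a')) ((p : ℝ) ^ (-b')) (p : ℝ)⁻¹ j)) := by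
  have hr : rr c (p ^ j) = 1 - (p : ℝ) ^ (-(1 + c)) := by
    rw [rr, Nat.primeFactors_prime_pow (by omega) hp, Finset.prod_singleton]
  have hp0 : (p : ℝ) ≠ 0 := Nat.cast_ne_zero.2 hp.ne_zero
  have h1 : (p : ℝ) ^ j * ((p : ℝ)⁻¹) ^ j = 1 := by
    rw [← mul_pow, mul_inv_cancel₀ hp0, one_pow]
  rw [F4, cv_prime_pow a b p hp j, cv_prime_pow a' b' p hp j, hr, Nat.cast_pow]
  generalize cj ((p : ℝ) ^ (-a)) ((p : ℝ) ^ (-b)) (p : ℝ)⁻¹ j = A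
  generalize cj ((p : ℝ) ^ (-a')) ((p : ℝ) ^ (-b')) (p : ℝ)⁻¹ j = B
  calc (p : ℝ) ^ j * (1 - (p : ℝ) ^ (-(1 + c))) * (((p : ℝ)⁻¹) ^ j * A) * (((p : ℝ)⁻¹) ^ j * B)
      = ((p : ℝ) ^ j * ((p : ℝ)⁻¹) ^ j) * ((1 - (p : ℝ) ^ (-(1 + c))) * (((p : ℝ)⁻¹) ^ j * (A * B))) := by ring
    _ = _ := by rw [h1, one_mul]

end Pool.Agent.LibSM56.FL
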