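import Pool.Agent.LibSM56.F_Defs

set_option autoImplicit false

namespace Pool.Agent.LibSM56.FL

open MeasureTheory Set Filter Topology
open Pool.Agent.LibZM
open Pool.Agent.LibSM47.FL (rr cv)

/-! ROW F_07 (MEDIUM, only Mathlib): the local sum `S4 = Σ_j u^j c_j(x,y) c_j(x',y')`.
`0 ≤ c_j ≤ j + 1` for `x, y, u ∈ [0,1]` (each term of the sum is `≤ 1`), `c_0 = 1`, `c_1 = y + (1-u) x`.
Tail: `Σ_{j≥2} u^j (j+1)² = u² Σ_{j≥0} u^j (j+3)² ≤ u² Σ_{j≥0} 2^{-j} (j+3)² = 36 u²`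
(`(j+3)² = 2 C(j+2,2) + 3 (j+1) + 4` and `hasSum_choose_mul_geometric_of_norm_lt_one`, or
`tsum_geometric_of_lt_one`, `tsum_coe_mul_geometric_of_norm_lt_one`; any constant `≤ 36` proved in another way is fine). -/

private theorem F_07_hs (u : ℝ) (hu0 : 0 ≤ u) (hu1 : u < 1) :
    HasSum (fun j : ℕ => u ^ j * ((j : ℝ) + 1) ^ 2) (2 * (1 / (1 - u) ^ 3) - 1 / (1 - u) ^ 2) := by
  have hn : ‖u‖ < 1 := by rwa [Real.norm_of_nonneg hu0]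
  have h2 := hasSum_choose_mul_geometric_of_norm_lt_one 2 hn
  have h1 := hasSum_choose_mul_geometric_of_norm_lt_one 1 hn
  have h := (h2.mul_left 2).sub h1
  have e : (fun j : ℕ => u ^ j * ((j : ℝ) + 1) ^ 2) = fun n : ℕ =>
      2 * (((n + 2).choose 2 : ℝ) * u ^ n) - ((n + 1).choose 1 : ℝ) * u ^ n := by
    funext n
    have h3 : ((n : ℝ) + 2) * ((n : ℝ) + 1) = ((n + 2).choose 2 : ℝ) * 2 := by
      have h := Nat.add_one_mul_choose_eq (n + 1) 1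
      rw [Nat.choose_one_right] at h
      exact_mod_cast h
    rw [Nat.choose_one_right]
    push_cast
    linear_combination (u ^ n) * h3
  rw [e]
  exact h

theorem cj_zero (x y u : ℝ) : cj x y u 0 = 1 := by
  simp [cj]

theorem cj_one (x y u : ℝ) : cj x y u 1 = y + (1 - u) * x := by
  simp [cj]

theorem cj_nonneg (x y u : ℝ) (hx : 0 ≤ x) (hy : 0 ≤ y) (hu : u ≤ 1) (j : ℕ) : 0 ≤ cj x y u j := by
  unfold cj
  have h1 : 0 ≤ ∑ i ∈ Finset.Icc 1 j, x ^ i * y ^ (j - i) :=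
    Finset.sum_nonneg fun i _ => by positivity
  have h2 : 0 ≤ 1 - u := by linarith
  positivity

theorem cj_le (x y u : ℝ) (hx : 0 ≤ x) (hx1 : x ≤ 1) (hy : 0 ≤ y) (hy1 : y ≤ 1) (hu0 : 0 ≤ u) (hu : u ≤ 1) (j : ℕ) :
    cj x y u j ≤ (j : ℝ) + 1 := by
  unfold cj
  have h1 : ∑ i ∈ Finset.Icc 1 j, x ^ i * y ^ (j - i) ≤ j := by
    calc ∑ i ∈ Finset.Icc 1 j, x ^ i * y ^ (j - i) ≤ ∑ _i ∈ Finset.Icc 1 j, (1 : ℝ) :=
          Finset.sum_le_sum fun i _ =>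
            mul_le_one₀ (pow_le_one₀ hx hx1) (by positivity) (pow_le_one₀ hy hy1)
      _ = j := by simp
  have h0 : 0 ≤ ∑ i ∈ Finset.Icc 1 j, x ^ i * y ^ (j - i) :=
    Finset.sum_nonneg fun i _ => by positivity
  have h2 : y ^ j ≤ 1 := pow_le_one₀ hy hy1
  have h3 : (1 - u) * ∑ i ∈ Finset.Icc 1 j, x ^ i * y ^ (j - i) ≤
      ∑ i ∈ Finset.Icc 1 j, x ^ i * y ^ (j - i) := mul_le_of_le_one_left h0 (by linarith)
  linarith

theorem cj_diag (u : ℝ) (j : ℕ) : cj 1 1 u j = 1 + j * (1 - u) := by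
  unfold cj
  simp
  ring

/-- The majorant of `S4`. -/
theorem maj_summable (u : ℝ) (hu0 : 0 ≤ u) (hu1 : u < 1) : Summable fun j : ℕ => u ^ j * ((j : ℝ) + 1) ^ 2 :=
  (F_07_hs u hu0 hu1).summable

private theorem F_07_term (x y x' y' u : ℝ) (hx : 0 ≤ x) (hx1 : x ≤ 1) (hy : 0 ≤ y) (hy1 : y ≤ 1)
    (hx' : 0 ≤ x') (hx1' : x' ≤ 1) (hy' : 0 ≤ y') (hy1' : y' ≤ 1) (hu0 : 0 ≤ u) (hu1 : u ≤ 1)
    (j : ℕ) : 0 ≤ u ^ j * (cj x y u j * cj x' y' u j) ∧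
      u ^ j * (cj x y u j * cj x' y' u j) ≤ u ^ j * ((j : ℝ) + 1) ^ 2 := by
  have h1 := cj_nonneg x y u hx hy hu1 j
  have h2 := cj_nonneg x' y' u hx' hy' hu1 j
  have h3 := cj_le x y u hx hx1 hy hy1 hu0 hu1 j
  have h4 := cj_le x' y' u hx' hx1' hy' hy1' hu0 hu1 j
  refine ⟨by positivity, mul_le_mul_of_nonneg_left ?_ (by positivity)⟩
  rw [sq]
  exact mul_le_mul h3 h4 h2 (by positivity)

theorem S4_summable (x y x' y' u : ℝ) (hx : 0 ≤ x) (hx1 : x ≤ 1) (hy : 0 ≤ y) (hy1 : y ≤ 1)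
    (hx' : 0 ≤ x') (hx1' : x' ≤ 1) (hy' : 0 ≤ y') (hy1' : y' ≤ 1) (hu0 : 0 ≤ u) (hu1 : u < 1) :
    Summable fun j : ℕ => u ^ j * (cj x y u j * cj x' y' u j) :=
  Summable.of_nonneg_of_le
    (fun j => (F_07_term x y x' y' u hx hx1 hy hy1 hx' hx1' hy' hy1' hu0 hu1.le j).1)
    (fun j => (F_07_term x y x' y' u hx hx1 hy hy1 hx' hx1' hy' hy1' hu0 hu1.le j).2)
    (maj_summable u hu0 hu1)

theorem S4_bounds (x y x' y' u : ℝ) (hx : 0 ≤ x) (hx1 : x ≤ 1) (hy : 0 ≤ y) (hy1 : y ≤ 1)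
    (hx' : 0 ≤ x') (hx1' : x' ≤ 1) (hy' : 0 ≤ y') (hy1' : y' ≤ 1) (hu0 : 0 ≤ u) (hu : u ≤ 1 / 2) :
    1 + u * ((y + (1 - u) * x) * (y' + (1 - u) * x')) ≤ S4 x y x' y' u ∧
      S4 x y x' y' u ≤ 1 + u * ((y + (1 - u) * x) * (y' + (1 - u) * x')) + 36 * u ^ 2 := by
  have hs := S4_summable x y x' y' u hx hx1 hy hy1 hx' hx1' hy' hy1' hu0 (by linarith)
  have ht := F_07_term x y x' y' u hx hx1 hy hy1 hx' hx1' hy' hy1' hu0 (by linarith)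
  have hsplit := hs.sum_add_tsum_nat_add 2
  have h2 : ∑ i ∈ Finset.range 2, u ^ i * (cj x y u i * cj x' y' u i) =
      1 + u * ((y + (1 - u) * x) * (y' + (1 - u) * x')) := by
    rw [Finset.sum_range_succ, Finset.sum_range_one, cj_zero, cj_zero, cj_one, cj_one]
    ring
  rw [h2] at hsplit
  have hg0 := F_07_hs (1 / 2) (by norm_num) (by norm_num)
  have hg := (hasSum_nat_add_iff' 2).2 hg0
  have hval : (2 * (1 / (1 - (1 / 2 : ℝ)) ^ 3) - 1 / (1 - (1 / 2 : ℝ)) ^ 2) -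
      ∑ i ∈ Finset.range 2, (1 / 2 : ℝ) ^ i * ((i : ℝ) + 1) ^ 2 = 9 := by
    rw [Finset.sum_range_succ, Finset.sum_range_one]
    norm_num
  rw [hval] at hg
  have hg4 := hg.mul_left (4 * u ^ 2)
  have htail0 : 0 ≤ ∑' i : ℕ, u ^ (i + 2) * (cj x y u (i + 2) * cj x' y' u (i + 2)) :=
    tsum_nonneg fun i => (ht (i + 2)).1
  have htail1 : ∑' i : ℕ, u ^ (i + 2) * (cj x y u (i + 2) * cj x' y' u (i + 2)) ≤
      4 * u ^ 2 * 9 := by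
    rw [← hg4.tsum_eq]
    refine Summable.tsum_le_tsum (fun i => ?_) ((summable_nat_add_iff 2).2 hs) hg4.summable
    refine (ht (i + 2)).2.trans ?_
    have h3 : u ^ (i + 2) ≤ 4 * u ^ 2 * (1 / 2) ^ (i + 2) := by
      calc u ^ (i + 2) = u ^ 2 * u ^ i := by ring
        _ ≤ u ^ 2 * (1 / 2) ^ i :=
          mul_le_mul_of_nonneg_left (pow_le_pow_left₀ hu0 hu i) (by positivity)
        _ = 4 * u ^ 2 * (1 / 2) ^ (i + 2) := by ring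
    calc u ^ (i + 2) * (((i + 2 : ℕ) : ℝ) + 1) ^ 2 ≤
          (4 * u ^ 2 * (1 / 2) ^ (i + 2)) * (((i + 2 : ℕ) : ℝ) + 1) ^ 2 :=
          mul_le_mul_of_nonneg_right h3 (by positivity)
      _ = _ := by ring
  unfold S4
  rw [← hsplit]
  constructor <;> linarith

end Pool.Agent.LibSM56.FL
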