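import Pool.Agent.LibSM56.F_Defs
import Pool.Agent.LibSM56.F_07

set_option autoImplicit false

namespace Pool.Agent.LibSM56.FL

open MeasureTheory Set Filter Topology
open Pool.Agent.LibZM
open Pool.Agent.LibSM47.FL (rr cv)

/-! ROW F_08 (MEDIUM, only algebra): the normalised local factor. Let `A` be the product of the four factors `1 - t_i`,
`t_i ∈ [0,u]`, and `B = z + (1-z) S4 = 1 + (1-z)(S4 - 1)`. With `Σ = Σ t_i = u (x+y)(x'+y') ≤ 4u`: `1 - Σ ≤ A ≤ 1 - Σ + 6u²`;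
`S4 - 1 ∈ [Σ - 4u², Σ + 36u²]` (`S4_bounds`: `(y+(1-u)x)(y'+(1-u)x') = (x+y)(x'+y') - u(…)` with `0 ≤ (…) ≤ 4`), so
`B - 1 ∈ [Σ - 26u², Σ + 36u²]` (`z (S4 - 1) ≤ u (4u + 36u²) ≤ 22u²`). Then `AB - 1 = (A-1) + (B-1) + (A-1)(B-1)`,
`|(A-1)+(B-1)| ≤ 42u²`, `|A-1| ≤ 4u`, `|B-1| ≤ 22u`. Lower bound: `A ≥ (1-u)^4 ≥ 1/16`, `B ≥ 1` (`S4 ≥ 1`).
`|log E| ≤ 16 |E - 1|`: see the end of `LibSM47/F_08.lean`. -/

/-- The product of the four factors. -/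
private theorem F_08_A (t1 t2 t3 t4 u : ℝ) (h1 : 0 ≤ t1) (h1' : t1 ≤ u) (h2 : 0 ≤ t2)
    (h2' : t2 ≤ u) (h3 : 0 ≤ t3) (h3' : t3 ≤ u) (h4 : 0 ≤ t4) (h4' : t4 ≤ u) (hu : u ≤ 1 / 2) :
    1 - (t1 + t2 + t3 + t4) ≤ (1 - t1) * (1 - t2) * (1 - t3) * (1 - t4) ∧
      (1 - t1) * (1 - t2) * (1 - t3) * (1 - t4) ≤ 1 - (t1 + t2 + t3 + t4) + 6 * u ^ 2 ∧
      (1 - t1) * (1 - t2) * (1 - t3) * (1 - t4) ≤ 1 ∧
      1 / 16 ≤ (1 - t1) * (1 - t2) * (1 - t3) * (1 - t4) := by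
  have hu0 : 0 ≤ u := h1.trans h1'
  have m1 : 0 ≤ t1 * t2 := mul_nonneg h1 h2
  have m2 : 0 ≤ t3 * t4 := mul_nonneg h3 h4
  have m1' : t1 * t2 ≤ u ^ 2 := by
    rw [sq]
    exact mul_le_mul h1' h2' h2 hu0
  have m2' : t3 * t4 ≤ u ^ 2 := by
    rw [sq]
    exact mul_le_mul h3' h4' h4 hu0
  have ms : 0 ≤ (t1 + t2) * (t3 + t4) := mul_nonneg (by linarith) (by linarith)
  have ms' : (t1 + t2) * (t3 + t4) ≤ 4 * u ^ 2 := by
    calc (t1 + t2) * (t3 + t4) ≤ (2 * u) * (2 * u) :=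
          mul_le_mul (by linarith) (by linarith) (by linarith) (by linarith)
      _ = _ := by ring
  have p1 : 0 ≤ 1 - t1 := by linarith
  have p2 : 0 ≤ 1 - t2 := by linarith
  have p3 : 0 ≤ 1 - t3 := by linarith
  have p4 : 0 ≤ 1 - t4 := by linarith
  have q : 0 ≤ (1 - t3) * (1 - t4) := mul_nonneg p3 p4
  have e1 : (1 - t1) * (1 - t2) * (1 - t3) * (1 - t4) = 1 - (t1 + t2 + t3 + t4) +
      (t1 * t2 * ((1 - t3) * (1 - t4)) + t3 * t4 * (1 - (t1 + t2)) +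
        (t1 + t2) * (t3 + t4)) := by ring
  have n1 : 0 ≤ t1 * t2 * ((1 - t3) * (1 - t4)) := mul_nonneg m1 q
  have n2 : 0 ≤ t3 * t4 * (1 - (t1 + t2)) := mul_nonneg m2 (by linarith)
  have q1 : (1 - t3) * (1 - t4) ≤ 1 := mul_le_one₀ (by linarith) p4 (by linarith)
  have n1' : t1 * t2 * ((1 - t3) * (1 - t4)) ≤ t1 * t2 := mul_le_of_le_one_right m1 q1
  have n2' : t3 * t4 * (1 - (t1 + t2)) ≤ t3 * t4 := mul_le_of_le_one_right m2 (by linarith)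
  refine ⟨by rw [e1]; linarith, by rw [e1]; linarith, ?_, ?_⟩
  · have r1 : (1 - t1) * (1 - t2) ≤ 1 := mul_le_one₀ (by linarith) p2 (by linarith)
    have r2 : (1 - t1) * (1 - t2) * (1 - t3) ≤ 1 := mul_le_one₀ r1 p3 (by linarith)
    exact mul_le_one₀ r2 p4 (by linarith)
  · have r1 : 1 / 4 ≤ (1 - t1) * (1 - t2) := by
      calc (1 : ℝ) / 4 = 1 / 2 * (1 / 2) := by norm_num
        _ ≤ _ := mul_le_mul (by linarith) (by linarith) (by norm_num) p1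
    have r2 : 1 / 4 ≤ (1 - t3) * (1 - t4) := by
      calc (1 : ℝ) / 4 = 1 / 2 * (1 / 2) := by norm_num
        _ ≤ _ := mul_le_mul (by linarith) (by linarith) (by norm_num) p3
    calc (1 : ℝ) / 16 = 1 / 4 * (1 / 4) := by norm_num
      _ ≤ ((1 - t1) * (1 - t2)) * ((1 - t3) * (1 - t4)) :=
        mul_le_mul r1 r2 (by norm_num) (mul_nonneg p1 p2)
      _ = _ := by ring

private theorem F_08_t (a b u : ℝ) (ha : 0 ≤ a) (ha1 : a ≤ 1) (hb : 0 ≤ b) (hb1 : b ≤ 1)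
    (hu0 : 0 ≤ u) : 0 ≤ u * (a * b) ∧ u * (a * b) ≤ u :=
  ⟨by positivity, mul_le_of_le_one_right hu0 (mul_le_one₀ ha1 hb hb1)⟩

theorem E4_sub_one (x y x' y' z u : ℝ) (hx : 0 ≤ x) (hx1 : x ≤ 1) (hy : 0 ≤ y) (hy1 : y ≤ 1)
    (hx' : 0 ≤ x') (hx1' : x' ≤ 1) (hy' : 0 ≤ y') (hy1' : y' ≤ 1) (hz : 0 ≤ z) (hzu : z ≤ u) (hu : u ≤ 1 / 2) :
    |E4 x y x' y' z u - 1| ≤ 150 * u ^ 2 := by
  have hu0 : 0 ≤ u := hz.trans hzu
  obtain ⟨a1, a1'⟩ := F_08_t x x' u hx hx1 hx' hx1' hu0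
  obtain ⟨a2, a2'⟩ := F_08_t x y' u hx hx1 hy' hy1' hu0
  obtain ⟨a3, a3'⟩ := F_08_t y x' u hy hy1 hx' hx1' hu0
  obtain ⟨a4, a4'⟩ := F_08_t y y' u hy hy1 hy' hy1' hu0
  obtain ⟨A1, A2, A3, -⟩ := F_08_A _ _ _ _ u a1 a1' a2 a2' a3 a3' a4 a4' hu
  obtain ⟨S1, S2⟩ := S4_bounds x y x' y' u hx hx1 hy hy1 hx' hx1' hy' hy1' hu0 hu
  have hE : E4 x y x' y' z u = (1 - u * (x * x')) * (1 - u * (x * y')) * (1 - u * (y * x')) *
      (1 - u * (y * y')) * (1 + (1 - z) * (S4 x y x' y' u - 1)) := by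
    unfold E4
    ring
  rw [hE]
  generalize S4 x y x' y' u = S at S1 S2 ⊢
  generalize hAg : (1 - u * (x * x')) * (1 - u * (x * y')) * (1 - u * (y * x')) *
      (1 - u * (y * y')) = A at A1 A2 A3 ⊢
  have hSig : u * (x * x') + u * (x * y') + u * (y * x') + u * (y * y') =
      u * ((x + y) * (x' + y')) := by ring
  rw [hSig] at A1 A2
  -- the linear term
  have hX : 0 ≤ (x + y) * (x' + y') := mul_nonneg (by linarith) (by linarith)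
  have hX4 : (x + y) * (x' + y') ≤ 4 := by
    calc (x + y) * (x' + y') ≤ 2 * 2 :=
          mul_le_mul (by linarith) (by linarith) (by linarith) (by linarith)
      _ = 4 := by norm_num
  have hd : (x + y) * (x' + y') - (y + (1 - u) * x) * (y' + (1 - u) * x') =
      u * (x * (x' + y') + x' * ((1 - u) * x + y)) := by ring
  have hd0 : 0 ≤ x * (x' + y') + x' * ((1 - u) * x + y) := by
    have : 0 ≤ 1 - u := by linarith
    positivity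
  have hd4 : x * (x' + y') + x' * ((1 - u) * x + y) ≤ 4 := by
    have e1 : x * (x' + y') ≤ 1 * 2 := mul_le_mul hx1 (by linarith) (by linarith) (by norm_num)
    have e2 : (1 - u) * x ≤ x := mul_le_of_le_one_left hx (by linarith)
    have e3 : 0 ≤ (1 - u) * x := mul_nonneg (by linarith) hx
    have e4 : x' * ((1 - u) * x + y) ≤ 1 * 2 :=
      mul_le_mul hx1' (by linarith) (by linarith) (by norm_num)
    linarith
  have hw1 : u * ((y + (1 - u) * x) * (y' + (1 - u) * x')) ≤ u * ((x + y) * (x' + y')) := by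
    refine mul_le_mul_of_nonneg_left ?_ hu0
    have e1 := mul_nonneg hu0 hd0
    rw [← hd] at e1
    exact sub_nonneg.1 e1
  have hw2 : u * ((x + y) * (x' + y')) - 4 * u ^ 2 ≤
      u * ((y + (1 - u) * x) * (y' + (1 - u) * x')) := by
    have e1 : u * (x * (x' + y') + x' * ((1 - u) * x + y)) ≤ u * 4 :=
      mul_le_mul_of_nonneg_left hd4 hu0
    have e2 : u * ((x + y) * (x' + y') - (y + (1 - u) * x) * (y' + (1 - u) * x')) ≤ u * (u * 4) :=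
      mul_le_mul_of_nonneg_left (by rw [hd]; exact e1) hu0
    have e3 : u * (u * 4) = 4 * u ^ 2 := by ring
    rw [mul_sub, e3] at e2
    linarith
  have hw0 : 0 ≤ u * ((y + (1 - u) * x) * (y' + (1 - u) * x')) := by
    have : 0 ≤ 1 - u := by linarith
    positivity
  have hs4 : u * ((x + y) * (x' + y')) ≤ 4 * u := by
    have := mul_le_mul_of_nonneg_left hX4 hu0
    linarith
  have hs0 : 0 ≤ u * ((x + y) * (x' + y')) := mul_nonneg hu0 hX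
  generalize u * ((x + y) * (x' + y')) = Sg at A1 A2 hw1 hw2 hs4 hs0
  generalize u * ((y + (1 - u) * x) * (y' + (1 - u) * x')) = w at S1 S2 hw1 hw2 hw0
  have hu2 : 36 * u ^ 2 ≤ 18 * u := by nlinarith
  have hSm0 : 0 ≤ S - 1 := by linarith
  have hSm1 : S - 1 ≤ 22 * u := by linarith
  have hz0 : 0 ≤ z * (S - 1) := mul_nonneg hz hSm0
  have hz1 : z * (S - 1) ≤ 22 * u ^ 2 := by
    calc z * (S - 1) ≤ u * (22 * u) := mul_le_mul hzu hSm1 hSm0 hu0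
      _ = _ := by ring
  have hB : (1 - z) * (S - 1) = (S - 1) - z * (S - 1) := by ring
  have hB0 : 0 ≤ (1 - z) * (S - 1) := mul_nonneg (by linarith) hSm0
  have hB1 : (1 - z) * (S - 1) ≤ 22 * u := by rw [hB]; linarith
  have hB2 : (1 - z) * (S - 1) ≤ Sg + 36 * u ^ 2 := by rw [hB]; linarith
  have hB3 : Sg - 26 * u ^ 2 ≤ (1 - z) * (S - 1) := by rw [hB]; linarith
  generalize (1 - z) * (S - 1) = B at hB hB0 hB1 hB2 hB3 ⊢
  have hAB : A * (1 + B) - 1 = (A - 1) + B - (1 - A) * B := by ring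
  have hA0 : 0 ≤ 1 - A := by linarith
  have hA4 : 1 - A ≤ 4 * u := by linarith
  have hp0 : 0 ≤ (1 - A) * B := mul_nonneg hA0 hB0
  have hp1 : (1 - A) * B ≤ 88 * u ^ 2 := by
    calc (1 - A) * B ≤ (4 * u) * (22 * u) := mul_le_mul hA4 hB1 hB0 (by linarith)
      _ = _ := by ring
  have hu2' : 0 ≤ u ^ 2 := sq_nonneg u
  rw [hAB, abs_le]
  constructor <;> linarith

theorem E4_lower (x y x' y' z u : ℝ) (hx : 0 ≤ x) (hx1 : x ≤ 1) (hy : 0 ≤ y) (hy1 : y ≤ 1)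
    (hx' : 0 ≤ x') (hx1' : x' ≤ 1) (hy' : 0 ≤ y') (hy1' : y' ≤ 1) (hz : 0 ≤ z) (hz1 : z ≤ 1) (hu0 : 0 ≤ u) (hu : u ≤ 1 / 2) :
    1 / 16 ≤ E4 x y x' y' z u := by
  obtain ⟨a1, a1'⟩ := F_08_t x x' u hx hx1 hx' hx1' hu0
  obtain ⟨a2, a2'⟩ := F_08_t x y' u hx hx1 hy' hy1' hu0
  obtain ⟨a3, a3'⟩ := F_08_t y x' u hy hy1 hx' hx1' hu0
  obtain ⟨a4, a4'⟩ := F_08_t y y' u hy hy1 hy' hy1' hu0
  obtain ⟨-, -, -, A4⟩ := F_08_A _ _ _ _ u a1 a1' a2 a2' a3 a3' a4 a4' hu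
  obtain ⟨S1, -⟩ := S4_bounds x y x' y' u hx hx1 hy hy1 hx' hx1' hy' hy1' hu0 hu
  have hE : E4 x y x' y' z u = (1 - u * (x * x')) * (1 - u * (x * y')) * (1 - u * (y * x')) *
      (1 - u * (y * y')) * (1 + (1 - z) * (S4 x y x' y' u - 1)) := by
    unfold E4
    ring
  have hw0 : 0 ≤ u * ((y + (1 - u) * x) * (y' + (1 - u) * x')) := by
    have : 0 ≤ 1 - u := by linarith
    positivity
  have hB : 0 ≤ (1 - z) * (S4 x y x' y' u - 1) := mul_nonneg (by linarith) (by linarith)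
  rw [hE]
  calc (1 : ℝ) / 16 ≤ (1 - u * (x * x')) * (1 - u * (x * y')) * (1 - u * (y * x')) *
      (1 - u * (y * y')) := A4
    _ ≤ _ := le_mul_of_one_le_right (by linarith) (by linarith)

theorem abs_log_E4 (x y x' y' z u : ℝ) (hx : 0 ≤ x) (hx1 : x ≤ 1) (hy : 0 ≤ y) (hy1 : y ≤ 1)
    (hx' : 0 ≤ x') (hx1' : x' ≤ 1) (hy' : 0 ≤ y') (hy1' : y' ≤ 1) (hz : 0 ≤ z) (hzu : z ≤ u) (hu : u ≤ 1 / 2) :
    |Real.log (E4 x y x' y' z u)| ≤ 2400 * u ^ 2 := by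
  have hu0 : 0 ≤ u := hz.trans hzu
  have h1 := E4_sub_one x y x' y' z u hx hx1 hy hy1 hx' hx1' hy' hy1' hz hzu hu
  have h2 := E4_lower x y x' y' z u hx hx1 hy hy1 hx' hx1' hy' hy1' hz (by linarith) hu0 hu
  have hE : 0 < E4 x y x' y' z u := by linarith
  have h3 := Real.log_le_sub_one_of_pos hE
  have h4 := Real.one_sub_inv_le_log_of_pos hE
  have h5 : -(2400 * u ^ 2) ≤ 1 - (E4 x y x' y' z u)⁻¹ := by
    rw [abs_le] at h1
    have h6 : 1 - (E4 x y x' y' z u)⁻¹ = (E4 x y x' y' z u - 1) / E4 x y x' y' z u := by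
      field_simp
    rw [h6, le_div_iff₀ hE]
    nlinarith [sq_nonneg u]
  rw [abs_le] at h1 ⊢
  constructor
  · linarith
  · nlinarith [sq_nonneg u]

end Pool.Agent.LibSM56.FL
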