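import Pool.Agent.LibSM56.F_Defs
import Pool.Agent.LibSM56.F_07
import Pool.Agent.LibSM47.F_09

set_option autoImplicit false

namespace Pool.Agent.LibSM56.FL

open MeasureTheory Set Filter Topology
open Pool.Agent.LibZM
open Pool.Agent.LibSM47.FL (rr cv)

/-! ROW F_09 (SHORT/MEDIUM): the diagonal value. `cj_diag`; `Σ_j u^j (1 + j(1-u))² = (1+3u+u²)/(1-u)`
(`hasSum_geometric_of_lt_one`, `hasSum_coe_mul_geometric_of_norm_lt_one`, and `j² = 2 C(j+2,2) - 3 j - 2` with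
`hasSum_choose_mul_geometric_of_norm_lt_one 2`: `Σ j² u^j = u(1+u)/(1-u)³`); so `u + (1-u) S4 = 1+4u+u²`, and
`E4 1 1 1 1 u u = (1-u)^4 (1+4u+u²) = EE u u u u = Efac 3 u` (`LibSM47.FL.EE_diag`, `unfold EE PS; ring`). -/

private theorem F_09_S4 (u : ℝ) (hu : 0 ≤ u) (hu1 : u < 1) :
    S4 1 1 1 1 u = 2 * (1 - u) ^ 2 * (1 / (1 - u) ^ 3) +
      (2 * (1 - u) - 3 * (1 - u) ^ 2) * (1 / (1 - u) ^ 2) + u ^ 2 * (1 / (1 - u) ^ 1) := by
  have hn : ‖u‖ < 1 := by rwa [Real.norm_of_nonneg hu]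
  have h2 := hasSum_choose_mul_geometric_of_norm_lt_one 2 hn
  have h1 := hasSum_choose_mul_geometric_of_norm_lt_one 1 hn
  have h0 := hasSum_choose_mul_geometric_of_norm_lt_one 0 hn
  have h := ((h2.mul_left (2 * (1 - u) ^ 2)).add (h1.mul_left (2 * (1 - u) - 3 * (1 - u) ^ 2))).add
    (h0.mul_left (u ^ 2))
  unfold S4
  have e : (fun j : ℕ => u ^ j * (cj 1 1 u j * cj 1 1 u j)) = fun n : ℕ =>
      2 * (1 - u) ^ 2 * (((n + 2).choose 2 : ℝ) * u ^ n) +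
        (2 * (1 - u) - 3 * (1 - u) ^ 2) * (((n + 1).choose 1 : ℝ) * u ^ n) +
        u ^ 2 * (((n + 0).choose 0 : ℝ) * u ^ n) := by
    funext n
    have h3 : ((n : ℝ) + 2) * ((n : ℝ) + 1) = ((n + 2).choose 2 : ℝ) * 2 := by
      have h := Nat.add_one_mul_choose_eq (n + 1) 1
      rw [Nat.choose_one_right] at h
      exact_mod_cast h
    rw [cj_diag, Nat.choose_one_right, Nat.choose_zero_right]
    push_cast
    linear_combination (u ^ n * (1 - u) ^ 2) * h3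
  rw [e]
  exact h.tsum_eq

theorem E4_diag (u : ℝ) (hu : 0 ≤ u) (hu1 : u < 1) : E4 1 1 1 1 u u = Efac 3 u := by
  have h1 : 1 - u ≠ 0 := by linarith
  rw [← LibSM47.FL.EE_diag u hu hu1]
  unfold E4
  rw [F_09_S4 u hu hu1]
  unfold LibSM47.FL.EE LibSM47.FL.PS
  field_simp
  ring

end Pool.Agent.LibSM56.FL
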