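import Pool.Agent.LibSM56.F_Defs
import Pool.Agent.LibSM56.F_03
import Pool.Agent.LibSM56.F_04
import Pool.Agent.LibSM56.F_05
import Pool.Agent.LibSM56.F_06
import Pool.Agent.LibSM56.F_07
import Pool.Agent.LibSM56.F_08

set_option autoImplicit false

namespace Pool.Agent.LibSM56.FL

open MeasureTheory Set Filter Topology
open Pool.Agent.LibZM
open Pool.Agent.LibSM47.FL (rr cv)

/-! ROW F_10 (MEDIUM): the Euler product. Template `LibSM47/F_10.lean`. -/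

/-- `p^{-a} ∈ [0,1]` for `a ≥ 0`. -/
theorem F_10_mem (a : ℝ) (ha : 0 ≤ a) (p : Nat.Primes) : 0 ≤ (p : ℝ) ^ (-a) ∧ (p : ℝ) ^ (-a) ≤ 1 := by
  have h1 : (1 : ℝ) ≤ (p : ℝ) := by exact_mod_cast p.prop.one_lt.le
  exact ⟨Real.rpow_nonneg (by linarith) _, Real.rpow_le_one_of_one_le_of_nonpos h1 (by linarith)⟩

/-- `p^{-(1+c)} ∈ [0, p⁻¹]` for `c ≥ 0`, `p⁻¹ ∈ (0, 1/2]`. -/
theorem F_10_mem' (c : ℝ) (hc : 0 ≤ c) (p : Nat.Primes) :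
    0 ≤ (p : ℝ) ^ (-(1 + c)) ∧ (p : ℝ) ^ (-(1 + c)) ≤ (p : ℝ)⁻¹ ∧ 0 < (p : ℝ)⁻¹ ∧ (p : ℝ)⁻¹ ≤ 1 / 2 := by
  have h2 : (2 : ℝ) ≤ (p : ℝ) := by exact_mod_cast p.prop.two_le
  refine ⟨Real.rpow_nonneg (by linarith) _, ?_, by positivity, ?_⟩
  · rw [← Real.rpow_neg_one]
    exact Real.rpow_le_rpow_of_exponent_le (by linarith) (by linarith)
  · rw [inv_le_comm₀ (by linarith) (by norm_num)]
    linarith

/-- `p^{-(1+a+a')} = p⁻¹ (p^{-a} p^{-a'})`. -/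
theorem F_10_split (a a' : ℝ) (p : ℕ) (hp : p.Prime) :
    (p : ℝ) ^ (-(1 + a + a')) = (p : ℝ)⁻¹ * ((p : ℝ) ^ (-a) * (p : ℝ) ^ (-a')) := by
  have h0 : (0 : ℝ) < (p : ℝ) := by exact_mod_cast hp.pos
  rw [← Real.rpow_neg_one, ← Real.rpow_add h0, ← Real.rpow_add h0]
  congr 1
  ring

/-- `Σ'_j F4 (p^j) = z + (1-z) S4` (`F4_one`, `F4_prime_pow`, `cj_zero`), `p^{-(1+a+a')} = p⁻¹ (p^{-a} p^{-a'})`. -/
theorem F4_local (a b a' b' c : ℝ) (ha : 0 < a) (hb : 0 < b) (ha' : 0 < a') (hb' : 0 < b') (hc : 0 < c) (p : ℕ) (hp : p.Prime) :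
    (1 - (p : ℝ) ^ (-(1 + a + a'))) * (1 - (p : ℝ) ^ (-(1 + a + b'))) * (1 - (p : ℝ) ^ (-(1 + b + a'))) *
        (1 - (p : ℝ) ^ (-(1 + b + b'))) * ∑' j : ℕ, F4 a b a' b' c (p ^ j) =
      E4 ((p : ℝ) ^ (-a)) ((p : ℝ) ^ (-b)) ((p : ℝ) ^ (-a')) ((p : ℝ) ^ (-b')) ((p : ℝ) ^ (-(1 + c))) (p : ℝ)⁻¹ := by
  obtain ⟨hx0, hx1⟩ := F_10_mem a ha.le ⟨p, hp⟩
  obtain ⟨hy0, hy1⟩ := F_10_mem b hb.le ⟨p, hp⟩
  obtain ⟨hx0', hx1'⟩ := F_10_mem a' ha'.le ⟨p, hp⟩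
  obtain ⟨hy0', hy1'⟩ := F_10_mem b' hb'.le ⟨p, hp⟩
  obtain ⟨hz0, hz1, hu0, hu1⟩ := F_10_mem' c hc.le ⟨p, hp⟩
  simp only [] at hx0 hx1 hy0 hy1 hx0' hx1' hy0' hy1' hz0 hz1 hu0 hu1
  rw [F_10_split a a' p hp, F_10_split a b' p hp, F_10_split b a' p hp, F_10_split b b' p hp]
  set x := (p : ℝ) ^ (-a) with hx
  set y := (p : ℝ) ^ (-b) with hy
  set x' := (p : ℝ) ^ (-a') with hx'
  set y' := (p : ℝ) ^ (-b') with hy'
  set z := (p : ℝ) ^ (-(1 + c)) with hz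
  set u := (p : ℝ)⁻¹ with hu
  have hS : HasSum (fun j : ℕ => u ^ j * (cj x y u j * cj x' y' u j)) (S4 x y x' y' u) :=
    (S4_summable x y x' y' u hx0 hx1 hy0 hy1 hx0' hx1' hy0' hy1' hu0.le (by linarith)).hasSum
  have h1 : HasSum (fun j : ℕ => F4 a b a' b' c (p ^ j)) ((1 - z) * S4 x y x' y' u + z) := by
    have h2 := (hS.mul_left (1 - z)).add (hasSum_ite_eq (0 : ℕ) z)
    have e : (fun j : ℕ => F4 a b a' b' c (p ^ j)) = fun j : ℕ =>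
        (1 - z) * (u ^ j * (cj x y u j * cj x' y' u j)) + (if j = 0 then z else 0) := by
      funext j
      rcases Nat.eq_zero_or_pos j with rfl | hj
      · simp [F4_one, cj_zero]
      · rw [F4_prime_pow a b a' b' c p hp j hj, if_neg (by omega), add_zero]
    rw [e]
    exact h2
  rw [h1.tsum_eq]
  unfold E4
  ring

/-- `abs_log_E4` and `Σ p^{-2}`. -/
theorem lg4_summable (a b a' b' c : ℝ) (ha : 0 ≤ a) (hb : 0 ≤ b) (ha' : 0 ≤ a') (hb' : 0 ≤ b') (hc : 0 ≤ c) :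
    Summable fun p : Nat.Primes => lg4 a b a' b' c p := by
  have hs : Summable fun p : Nat.Primes => 2400 * (p : ℝ) ^ (-2 : ℝ) :=
    (Nat.Primes.summable_rpow.mpr (by norm_num)).mul_left _
  refine Summable.of_norm_bounded hs fun p => ?_
  obtain ⟨hx0, hx1⟩ := F_10_mem a ha p
  obtain ⟨hy0, hy1⟩ := F_10_mem b hb p
  obtain ⟨hx0', hx1'⟩ := F_10_mem a' ha' p
  obtain ⟨hy0', hy1'⟩ := F_10_mem b' hb' p
  obtain ⟨hz0, hz1, hu0, hu1⟩ := F_10_mem' c hc p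
  rw [Real.norm_eq_abs]
  unfold lg4
  refine (abs_log_E4 _ _ _ _ _ _ hx0 hx1 hy0 hy1 hx0' hx1' hy0' hy1' hz0 hz1 hu1).trans (le_of_eq ?_)
  congr 1
  rw [show (-2 : ℝ) = -((2 : ℕ) : ℝ) by norm_num, Real.rpow_neg (Nat.cast_nonneg _), Real.rpow_natCast, inv_pow]

/-- Euler product (`EulerProduct.eulerProduct_hasProd`, `F4_one`, `F4_mul`, `F4_summable`, `F4_zero`; `hasProd_Zt_rpow` with exponent
`1` four times; `K4_tsum`). -/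
theorem Phi5_eq (a b a' b' c : ℝ) (ha : 0 < a) (hb : 0 < b) (ha' : 0 < a') (hb' : 0 < b') (hc : 0 < c) :
    ∑' q : ℕ+ × ℕ+, K4 a b a' b' c q.1 q.2 =
      Zt (1 + c) * (Zt (1 + (a + a')) * Zt (1 + (a + b')) * Zt (1 + (b + a')) * Zt (1 + (b + b'))) *
        Real.exp (∑' p : Nat.Primes, lg4 a b a' b' c p) := by
  have hprod : HasProd (fun p : Nat.Primes => ∑' j : ℕ, F4 a b a' b' c ((p : ℕ) ^ j)) (∑' m : ℕ, F4 a b a' b' c m) :=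
    EulerProduct.eulerProduct_hasProd (R := ℝ) (f := fun m : ℕ => F4 a b a' b' c m) (F4_one a b a' b' c)
      (fun {m n} h => F4_mul a b a' b' c m n h) (F4_summable a b a' b' c ha hb ha' hb' hc.le).norm (F4_zero a b a' b' c)
  have hA := hasProd_Zt_rpow (σ := 1 + (a + a')) (by linarith) 1
  have hB := hasProd_Zt_rpow (σ := 1 + (a + b')) (by linarith) 1
  have hC := hasProd_Zt_rpow (σ := 1 + (b + a')) (by linarith) 1
  have hD := hasProd_Zt_rpow (σ := 1 + (b + b')) (by linarith) 1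
  have h1 := (((hA.mul hB).mul hC).mul hD).mul hprod
  have e : (fun p : Nat.Primes => (1 - (p : ℝ) ^ (-(1 + (a + a')))) ^ (1 : ℝ) * (1 - (p : ℝ) ^ (-(1 + (a + b')))) ^ (1 : ℝ) *
      (1 - (p : ℝ) ^ (-(1 + (b + a')))) ^ (1 : ℝ) * (1 - (p : ℝ) ^ (-(1 + (b + b')))) ^ (1 : ℝ) *
      ∑' j : ℕ, F4 a b a' b' c ((p : ℕ) ^ j)) = fun p : Nat.Primes =>
        E4 ((p : ℝ) ^ (-a)) ((p : ℝ) ^ (-b)) ((p : ℝ) ^ (-a')) ((p : ℝ) ^ (-b')) ((p : ℝ) ^ (-(1 + c))) (p : ℝ)⁻¹ := by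
    funext p
    rw [← F4_local a b a' b' c ha hb ha' hb' hc p p.prop]
    simp only [Real.rpow_one, add_assoc]
  rw [e] at h1
  have h2 : HasProd (fun p : Nat.Primes =>
      E4 ((p : ℝ) ^ (-a)) ((p : ℝ) ^ (-b)) ((p : ℝ) ^ (-a')) ((p : ℝ) ^ (-b')) ((p : ℝ) ^ (-(1 + c))) (p : ℝ)⁻¹)
      (Real.exp (∑' p : Nat.Primes, lg4 a b a' b' c p)) := by
    apply Real.hasProd_of_hasSum_log
    · intro p
      obtain ⟨hx0, hx1⟩ := F_10_mem a ha.le p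
      obtain ⟨hy0, hy1⟩ := F_10_mem b hb.le p
      obtain ⟨hx0', hx1'⟩ := F_10_mem a' ha'.le p
      obtain ⟨hy0', hy1'⟩ := F_10_mem b' hb'.le p
      obtain ⟨hz0, hz1, hu0, hu1⟩ := F_10_mem' c hc.le p
      have := E4_lower _ _ _ _ _ _ hx0 hx1 hy0 hy1 hx0' hx1' hy0' hy1' hz0
        (by linarith : (p : ℝ) ^ (-(1 + c)) ≤ 1) hu0.le hu1
      linarith
    · exact (lg4_summable a b a' b' c ha.le hb.le ha'.le hb'.le hc.le).hasSum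
  rw [K4_tsum a b a' b' c ha hb ha' hb' hc, ← h1.unique h2]
  have hz : ∀ s : ℝ, 0 < s → Zt (1 + s) * Zt (1 + s) ^ (-1 : ℝ) = 1 := by
    intro s hs
    have hZ := Zt_pos (σ := 1 + s) (by linarith)
    rw [Real.rpow_neg_one]
    exact mul_inv_cancel₀ hZ.ne'
  have e1 := hz (a + a') (by linarith)
  have e2 := hz (a + b') (by linarith)
  have e3 := hz (b + a') (by linarith)
  have e4 := hz (b + b') (by linarith)
  calc Zt (1 + c) * ∑' m : ℕ, F4 a b a' b' c m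
      = Zt (1 + c) * (Zt (1 + (a + a')) * Zt (1 + (a + a')) ^ (-1 : ℝ)) * (Zt (1 + (a + b')) * Zt (1 + (a + b')) ^ (-1 : ℝ)) *
          (Zt (1 + (b + a')) * Zt (1 + (b + a')) ^ (-1 : ℝ)) * (Zt (1 + (b + b')) * Zt (1 + (b + b')) ^ (-1 : ℝ)) *
          ∑' m : ℕ, F4 a b a' b' c m := by rw [e1, e2, e3, e4]; ring
    _ = _ := by ring

end Pool.Agent.LibSM56.FL
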