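import Pool.Agent.LibSM56.F_Defs
import Pool.Agent.LibSM56.F_07
import Pool.Agent.LibSM56.F_08
import Pool.Agent.LibSM56.F_09

set_option autoImplicit false

namespace Pool.Agent.LibSM56.FL

open MeasureTheory Set Filter Topology
open Pool.Agent.LibZM
open Pool.Agent.LibSM47.FL (rr cv)

/-! ROW F_11 (MEDIUM): dominated convergence of the logarithms (`tendsto_tsum_of_dominated_convergence`, bound `2400 p^{-2}` from
`abs_log_E4`). At a fixed prime: `S4 (p^{-iδ}) … → S4 1 1 1 1 u` again by dominated convergence over `j` (terms are polynomials in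
`x, y, x', y'`, bound `u^j (j+1)²`: `cj_le`, `maj_summable`), `p^{-iδ} → 1`, `p^{-(1+kδ)} → p⁻¹`; `log` is continuous at the positive
value (`E4_lower`); `E4_diag`. Template `LibSM47/F_11.lean`. -/

private theorem F_11_le (p : Nat.Primes) (c δ : ℝ) (hc : 0 < c) (hδ : 0 < δ) :
    0 ≤ (p : ℝ) ^ (-(1 + c * δ)) ∧ (p : ℝ) ^ (-(1 + c * δ)) ≤ (p : ℝ)⁻¹ := by
  have hp1 : (1 : ℝ) ≤ p := by exact_mod_cast p.prop.one_lt.le
  refine ⟨Real.rpow_nonneg (by linarith) _, ?_⟩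
  rw [← Real.rpow_neg_one]
  apply Real.rpow_le_rpow_of_exponent_le hp1
  have := mul_pos hc hδ
  linarith

private theorem F_11_le1 (p : Nat.Primes) (a δ : ℝ) (ha : 0 < a) (hδ : 0 < δ) :
    0 ≤ (p : ℝ) ^ (-(a * δ)) ∧ (p : ℝ) ^ (-(a * δ)) ≤ 1 := by
  have hp1 : (1 : ℝ) ≤ p := by exact_mod_cast p.prop.one_lt.le
  refine ⟨Real.rpow_nonneg (by linarith) _, Real.rpow_le_one_of_one_le_of_nonpos hp1 ?_⟩
  have := mul_pos ha hδ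
  linarith

private theorem F_11_tend (p : Nat.Primes) (c : ℝ) :
    Tendsto (fun δ : ℝ => (p : ℝ) ^ (-(1 + c * δ))) (𝓝[>] 0) (𝓝 ((p : ℝ)⁻¹)) := by
  have hp0 : (0 : ℝ) < p := by exact_mod_cast p.prop.pos
  have h1 : Tendsto (fun δ : ℝ => (p : ℝ) ^ (-(1 + c * δ))) (𝓝 0)
      (𝓝 ((p : ℝ) ^ (-(1 + c * (0 : ℝ))))) := by
    apply Continuous.tendsto
    exact Continuous.rpow continuous_const (by fun_prop) (fun _ => Or.inl hp0.ne')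
  rw [mul_zero, add_zero, Real.rpow_neg_one] at h1
  exact h1.mono_left nhdsWithin_le_nhds

private theorem F_11_tend1 (p : Nat.Primes) (a : ℝ) :
    Tendsto (fun δ : ℝ => (p : ℝ) ^ (-(a * δ))) (𝓝[>] 0) (𝓝 1) := by
  have hp0 : (0 : ℝ) < p := by exact_mod_cast p.prop.pos
  have h1 : Tendsto (fun δ : ℝ => (p : ℝ) ^ (-(a * δ))) (𝓝 0)
      (𝓝 ((p : ℝ) ^ (-(a * (0 : ℝ))))) := by
    apply Continuous.tendsto
    exact Continuous.rpow continuous_const (by fun_prop) (fun _ => Or.inl hp0.ne')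
  rw [mul_zero, neg_zero, Real.rpow_zero] at h1
  exact h1.mono_left nhdsWithin_le_nhds

private theorem F_11_cj (u : ℝ) (j : ℕ) : Continuous fun q : ℝ × ℝ => cj q.1 q.2 u j := by
  unfold cj
  fun_prop

private theorem F_11_S4 {u : ℝ} (hu0 : 0 ≤ u) (hu1 : u < 1) {x y x' y' : ℝ → ℝ} {l : Filter ℝ}
    (hx : Tendsto x l (𝓝 1)) (hy : Tendsto y l (𝓝 1)) (hx' : Tendsto x' l (𝓝 1))
    (hy' : Tendsto y' l (𝓝 1))
    (h : ∀ᶠ δ in l, (0 ≤ x δ ∧ x δ ≤ 1) ∧ (0 ≤ y δ ∧ y δ ≤ 1) ∧ (0 ≤ x' δ ∧ x' δ ≤ 1) ∧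
      (0 ≤ y' δ ∧ y' δ ≤ 1)) :
    Tendsto (fun δ => S4 (x δ) (y δ) (x' δ) (y' δ) u) l (𝓝 (S4 1 1 1 1 u)) := by
  unfold S4
  refine tendsto_tsum_of_dominated_convergence (maj_summable u hu0 hu1) ?_ ?_
  · intro j
    have h1 : Tendsto (fun δ => cj (x δ) (y δ) u j) l (𝓝 (cj 1 1 u j)) :=
      ((F_11_cj u j).tendsto ((1 : ℝ), (1 : ℝ))).comp (hx.prodMk_nhds hy)
    have h2 : Tendsto (fun δ => cj (x' δ) (y' δ) u j) l (𝓝 (cj 1 1 u j)) :=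
      ((F_11_cj u j).tendsto ((1 : ℝ), (1 : ℝ))).comp (hx'.prodMk_nhds hy')
    exact (h1.mul h2).const_mul _
  · filter_upwards [h] with δ hδ j
    obtain ⟨⟨a1, a2⟩, ⟨b1, b2⟩, ⟨c1, c2⟩, ⟨d1, d2⟩⟩ := hδ
    have n1 := cj_nonneg (x δ) (y δ) u a1 b1 hu1.le j
    have n2 := cj_nonneg (x' δ) (y' δ) u c1 d1 hu1.le j
    have m1 := cj_le (x δ) (y δ) u a1 a2 b1 b2 hu0 hu1.le j
    have m2 := cj_le (x' δ) (y' δ) u c1 c2 d1 d2 hu0 hu1.le j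
    rw [Real.norm_of_nonneg (mul_nonneg (pow_nonneg hu0 j) (mul_nonneg n1 n2)), sq]
    exact mul_le_mul_of_nonneg_left (mul_le_mul m1 m2 n2 (by positivity)) (pow_nonneg hu0 j)

theorem log_limit5 (a b a' b' c : ℝ) (ha : 0 < a) (hb : 0 < b) (ha' : 0 < a') (hb' : 0 < b') (hc : 0 < c) :
    Tendsto (fun δ : ℝ => ∑' p : Nat.Primes, lg4 (a * δ) (b * δ) (a' * δ) (b' * δ) (c * δ) p) (𝓝[>] 0)
      (𝓝 (∑' p : Nat.Primes, Real.log (Efac 3 ((p : ℝ) ^ (-(1 : ℝ)))))) := by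
  have hs : Summable fun p : Nat.Primes => (2400 : ℝ) * (p : ℝ) ^ (-2 : ℝ) :=
    (Nat.Primes.summable_rpow.mpr (by norm_num)).mul_left _
  have hp2 : ∀ p : Nat.Primes, (0 : ℝ) < (p : ℝ)⁻¹ ∧ (p : ℝ)⁻¹ ≤ 1 / 2 := by
    intro p
    have h2 : (2 : ℝ) ≤ p := by exact_mod_cast p.prop.two_le
    refine ⟨by positivity, ?_⟩
    rw [one_div]
    exact inv_anti₀ (by norm_num) h2
  apply tendsto_tsum_of_dominated_convergence hs
  · intro p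
    obtain ⟨h0, h1⟩ := hp2 p
    have hS := F_11_S4 (u := (p : ℝ)⁻¹) (l := 𝓝[>] 0) h0.le (by linarith) (F_11_tend1 p a)
      (F_11_tend1 p b) (F_11_tend1 p a') (F_11_tend1 p b') (by
        filter_upwards [self_mem_nhdsWithin] with δ hδ
        exact ⟨F_11_le1 p a δ ha hδ, F_11_le1 p b δ hb hδ, F_11_le1 p a' δ ha' hδ,
          F_11_le1 p b' δ hb' hδ⟩)
    have hcont : Continuous fun q : ℝ × ℝ × ℝ × ℝ × ℝ × ℝ =>
        (1 - (p : ℝ)⁻¹ * (q.1 * q.2.2.1)) * (1 - (p : ℝ)⁻¹ * (q.1 * q.2.2.2.1)) *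
          (1 - (p : ℝ)⁻¹ * (q.2.1 * q.2.2.1)) * (1 - (p : ℝ)⁻¹ * (q.2.1 * q.2.2.2.1)) *
            (q.2.2.2.2.1 + (1 - q.2.2.2.2.1) * q.2.2.2.2.2) := by
      fun_prop
    have ht := (F_11_tend1 p a).prodMk_nhds ((F_11_tend1 p b).prodMk_nhds
      ((F_11_tend1 p a').prodMk_nhds ((F_11_tend1 p b').prodMk_nhds
        ((F_11_tend p c).prodMk_nhds hS))))
    have h2 : Tendsto (fun δ : ℝ => E4 ((p : ℝ) ^ (-(a * δ))) ((p : ℝ) ^ (-(b * δ)))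
        ((p : ℝ) ^ (-(a' * δ))) ((p : ℝ) ^ (-(b' * δ))) ((p : ℝ) ^ (-(1 + c * δ))) (p : ℝ)⁻¹)
        (𝓝[>] 0) (𝓝 (E4 1 1 1 1 (p : ℝ)⁻¹ (p : ℝ)⁻¹)) :=
      (hcont.tendsto _).comp ht
    have h3 : E4 1 1 1 1 (p : ℝ)⁻¹ (p : ℝ)⁻¹ ≠ 0 := by
      have := E4_lower 1 1 1 1 (p : ℝ)⁻¹ (p : ℝ)⁻¹ zero_le_one le_rfl zero_le_one le_rfl
        zero_le_one le_rfl zero_le_one le_rfl h0.le (by linarith) h0.le h1
      intro h
      rw [h] at this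
      norm_num at this
    have h4 := h2.log h3
    rw [Real.rpow_neg_one, ← E4_diag _ h0.le (by linarith)]
    exact h4
  · filter_upwards [self_mem_nhdsWithin] with δ hδ p
    have hδ' : (0 : ℝ) < δ := hδ
    obtain ⟨h0, h1⟩ := hp2 p
    obtain ⟨a1, a2⟩ := F_11_le1 p a δ ha hδ'
    obtain ⟨b1, b2⟩ := F_11_le1 p b δ hb hδ'
    obtain ⟨c1, c2⟩ := F_11_le1 p a' δ ha' hδ'
    obtain ⟨d1, d2⟩ := F_11_le1 p b' δ hb' hδ'
    obtain ⟨e1, e2⟩ := F_11_le p c δ hc hδ'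
    rw [Real.norm_eq_abs]
    refine (abs_log_E4 _ _ _ _ _ _ a1 a2 b1 b2 c1 c2 d1 d2 e1 e2 h1).trans ?_
    have h4 : ((p : ℝ)⁻¹) ^ 2 = (p : ℝ) ^ (-2 : ℝ) := by
      rw [← Real.rpow_neg_one, ← Real.rpow_natCast, ← Real.rpow_mul (Nat.cast_nonneg _)]
      norm_num
    rw [h4]

end Pool.Agent.LibSM56.FL
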