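import Pool.Agent.LibSM56.F_Defs
import Pool.Agent.LibSM56.F_02
import Pool.Agent.LibSM56.F_03
import Pool.Agent.LibSM56.F_10
import Pool.Agent.LibSM56.F_11

set_option autoImplicit false

namespace Pool.Agent.LibSM56.FL

open MeasureTheory Set Filter Topology
open Pool.Agent.LibZM
open Pool.Agent.LibSM47.FL (rr cv)

/-! ROW F_12 (MEDIUM): the Laplace transform converges. Template `LibSM47/F_12.lean`: `W5_e5`, `Phi5_eq` at `a/L = a δ` etc.,
`δ = 1/L → 0+`, `LibZM.tendsto_Zt` five times, `log_limit5`, `LibZM.Aconst_eq`. -/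

theorem e5_summable (a b a' b' c L : ℝ) (ha : 0 < a) (hb : 0 < b) (ha' : 0 < a') (hb' : 0 < b') (hc : 0 < c) (hL : 0 < L) :
    Summable fun q : ℕ+ × ℕ+ => W5 (e5 a b a' b' c) L q.1 q.2 := by
  refine (K4_summable (a / L) (b / L) (a' / L) (b' / L) (c / L) (div_pos ha hL) (div_pos hb hL)
    (div_pos ha' hL) (div_pos hb' hL) (div_pos hc hL)).congr fun q => ?_
  exact (W5_e5 a b a' b' c L q.1 q.2 q.1.pos q.2.pos).symm

theorem SL5_exp (a b a' b' c : ℝ) (ha : 0 < a) (hb : 0 < b) (ha' : 0 < a') (hb' : 0 < b') (hc : 0 < c) :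
    Tendsto (SL5 (e5 a b a' b' c)) atTop
      (𝓝 (Aconst 3 * (1 / ((a + a') * (a + b') * (b + a') * (b + b') * c)))) := by
  have hlog := (Real.continuous_exp.tendsto _).comp (log_limit5 a b a' b' c ha hb ha' hb' hc)
  have h0 := tendsto_Zt hc
  have h1 := tendsto_Zt (add_pos ha ha')
  have h2 := tendsto_Zt (add_pos ha hb')
  have h3 := tendsto_Zt (add_pos hb ha')
  have h4 := tendsto_Zt (add_pos hb hb')
  have h := (h0.mul (((h1.mul h2).mul h3).mul h4)).mul hlog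
  have hδ : Tendsto (fun L : ℝ => L⁻¹) atTop (𝓝[>] 0) := tendsto_inv_atTop_nhdsGT_zero
  have h' := h.comp hδ
  have hlim : c⁻¹ * ((a + a')⁻¹ * (a + b')⁻¹ * (b + a')⁻¹ * (b + b')⁻¹) *
      Real.exp (∑' p : Nat.Primes, Real.log (Efac 3 ((p : ℝ) ^ (-(1 : ℝ))))) =
      Aconst 3 * (1 / ((a + a') * (a + b') * (b + a') * (b + b') * c)) := by
    rw [Aconst_eq (by norm_num : (0 : ℝ) ≤ 3)]
    have e1 : a + a' ≠ 0 := by positivity
    have e2 : a + b' ≠ 0 := by positivity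
    have e3 : b + a' ≠ 0 := by positivity
    have e4 : b + b' ≠ 0 := by positivity
    field_simp
  rw [← hlim]
  refine h'.congr' ?_
  filter_upwards [eventually_gt_atTop 0] with L hL
  have hd : 0 < L⁻¹ := inv_pos.2 hL
  have hP := Phi5_eq (a * L⁻¹) (b * L⁻¹) (a' * L⁻¹) (b' * L⁻¹) (c * L⁻¹) (mul_pos ha hd)
    (mul_pos hb hd) (mul_pos ha' hd) (mul_pos hb' hd) (mul_pos hc hd)
  have hS : SL5 (e5 a b a' b' c) L = (L ^ 5)⁻¹ * ∑' q : ℕ+ × ℕ+,
      K4 (a * L⁻¹) (b * L⁻¹) (a' * L⁻¹) (b' * L⁻¹) (c * L⁻¹) q.1 q.2 := by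
    unfold SL5
    congr 1
    refine tsum_congr fun q => ?_
    rw [W5_e5 a b a' b' c L q.1 q.2 q.1.pos q.2.pos]
    simp only [div_eq_mul_inv]
  rw [hS, hP]
  simp only [Function.comp]
  rw [← inv_pow]
  ring_nf

end Pool.Agent.LibSM56.FL
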