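import Pool.Agent.LibSM56.F_Defs

set_option autoImplicit false

namespace Pool.Agent.LibSM56.FL

open MeasureTheory Set Filter Topology
open Pool.Agent.LibZM
open Pool.Agent.LibSM47.FL (rr cv)

/-! ROW F_13 (SHORT/MEDIUM, only Mathlib): Weierstrass in five variables. Template `LibSM47/F_13.lean`. -/

/-- The unit cube. -/
def Cube5 : Set R5 :=
  Icc (0 : ℝ) 1 ×ˢ Icc (0 : ℝ) 1 ×ˢ Icc (0 : ℝ) 1 ×ˢ Icc (0 : ℝ) 1 ×ˢ Icc (0 : ℝ) 1

theorem weier5 (H : R5 → ℝ) (hH : ContinuousOn H Cube5) (ε : ℝ) (hε : 0 < ε) :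
    ∃ p : MvPolynomial (Fin 5) ℝ, ∀ x ∈ Cube5,
      |H x - MvPolynomial.eval ![x.1, x.2.1, x.2.2.1, x.2.2.2.1, x.2.2.2.2] p| ≤ ε := by
  classical
  have hK : IsCompact Cube5 :=
    isCompact_Icc.prod (isCompact_Icc.prod (isCompact_Icc.prod (isCompact_Icc.prod isCompact_Icc)))
  have : CompactSpace (Cube5 : Set R5) := isCompact_iff_compactSpace.mp hK
  let c : Fin 5 → C((Cube5 : Set R5), ℝ) :=
    ![⟨fun x => x.1.1, by fun_prop⟩, ⟨fun x => x.1.2.1, by fun_prop⟩,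
      ⟨fun x => x.1.2.2.1, by fun_prop⟩, ⟨fun x => x.1.2.2.2.1, by fun_prop⟩,
      ⟨fun x => x.1.2.2.2.2, by fun_prop⟩]
  have hsep : (Algebra.adjoin ℝ (Set.range c)).SeparatesPoints := by
    intro x y hxy
    by_cases h1 : x.1.1 = y.1.1
    · by_cases h2 : x.1.2.1 = y.1.2.1
      · by_cases h3 : x.1.2.2.1 = y.1.2.2.1
        · by_cases h4 : x.1.2.2.2.1 = y.1.2.2.2.1
          · have h5 : x.1.2.2.2.2 ≠ y.1.2.2.2.2 := fun h5 => hxy (Subtype.ext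
              (Prod.ext h1 (Prod.ext h2 (Prod.ext h3 (Prod.ext h4 h5)))))
            exact ⟨_, ⟨c 4, Algebra.subset_adjoin ⟨4, rfl⟩, rfl⟩, h5⟩
          · exact ⟨_, ⟨c 3, Algebra.subset_adjoin ⟨3, rfl⟩, rfl⟩, h4⟩
        · exact ⟨_, ⟨c 2, Algebra.subset_adjoin ⟨2, rfl⟩, rfl⟩, h3⟩
      · exact ⟨_, ⟨c 1, Algebra.subset_adjoin ⟨1, rfl⟩, rfl⟩, h2⟩
    · exact ⟨_, ⟨c 0, Algebra.subset_adjoin ⟨0, rfl⟩, rfl⟩, h1⟩
  obtain ⟨g, hg⟩ := ContinuousMap.exists_mem_subalgebra_near_continuous_of_separatesPoints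
    (Algebra.adjoin ℝ (Set.range c)) hsep
    (fun x : (Cube5 : Set R5) => H x.1)
    (continuousOn_iff_continuous_restrict.mp hH) ε hε
  have hmem : (g : C((Cube5 : Set R5), ℝ)) ∈
      (MvPolynomial.aeval c : MvPolynomial (Fin 5) ℝ →ₐ[ℝ] _).range := by
    rw [← Algebra.adjoin_range_eq_range_aeval]
    exact g.2
  obtain ⟨p, hp⟩ := hmem
  refine ⟨p, fun x hx => ?_⟩
  have h1 := hg ⟨x, hx⟩
  have h2 : (g : C((Cube5 : Set R5), ℝ)) ⟨x, hx⟩ =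
      MvPolynomial.eval ![x.1, x.2.1, x.2.2.1, x.2.2.2.1, x.2.2.2.2] p := by
    rw [← hp]
    have h3 := MvPolynomial.comp_aeval_apply (R := ℝ) (f := c)
      (ContinuousMap.evalAlgHom ℝ ℝ (⟨x, hx⟩ : (Cube5 : Set R5))) p
    have h4 : (fun i => (ContinuousMap.evalAlgHom ℝ ℝ (⟨x, hx⟩ : (Cube5 : Set R5))) (c i)) =
        ![x.1, x.2.1, x.2.2.1, x.2.2.2.1, x.2.2.2.2] := by
      funext i
      fin_cases i <;> rfl
    rw [h4] at h3
    rw [MvPolynomial.aeval_eq_eval] at h3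
    exact h3
  rw [← h2, abs_sub_comm]
  exact h1.le

end Pool.Agent.LibSM56.FL
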