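import Pool.Agent.LibSM56.F_Defs

set_option autoImplicit false

namespace Pool.Agent.LibSM56.FL

open MeasureTheory Set Filter Topology
open Pool.Agent.LibZM
open Pool.Agent.LibSM47.FL (rr cv)

/-! ROW F_15 (MEDIUM, only Mathlib): the Laplace transform of the limit.
`e5 a b a' b' c (Lin5 x) = exp(-(a+a') α) exp(-(a+b') β) exp(-(b+a') γ) exp(-(b+b') δ) exp(-c y)`; iterate
`Integrable.mul_prod` and `setIntegral_prod_mul` four times (as in `LibSM47/F_15.lean`), `∫_0^∞ e^{-kt} dt = 1/k`. -/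

private theorem F_15_B {k : ℝ} (hk : 0 < k) :
    IntegrableOn (fun z : ℝ => Real.exp (-(k * z))) (Ioi 0) ∧
      ∫ z in Ioi (0 : ℝ), Real.exp (-(k * z)) = 1 / k := by
  have h1 := Real.integral_rpow_mul_exp_neg_mul_Ioi (a := 1) (r := k) (by norm_num) hk
  have h2 : ∫ z in Ioi (0 : ℝ), Real.exp (-(k * z)) = 1 / k := by
    have h3 : ∫ z in Ioi (0 : ℝ), Real.exp (-(k * z)) =
        ∫ t : ℝ in Ioi 0, t ^ ((1 : ℝ) - 1) * Real.exp (-(k * t)) := by
      refine setIntegral_congr_fun measurableSet_Ioi fun t _ => ?_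
      simp
    rw [h3, h1, Real.Gamma_one, mul_one, Real.rpow_one]
  refine ⟨?_, h2⟩
  by_contra h
  have h4 := integral_undef h
  rw [h2] at h4
  have : (0 : ℝ) < 1 / k := by positivity
  linarith

private theorem F_15_S {Y : Type} [MeasureSpace Y] [SFinite (volume : Measure Y)] {s : Set Y}
    {k : ℝ} (hk : 0 < k) {g : Y → ℝ} {J : ℝ} (hg : IntegrableOn g s) (hJ : ∫ y in s, g y = J) :
    IntegrableOn (fun x : ℝ × Y => Real.exp (-(k * x.1)) * g x.2) (Ioi (0 : ℝ) ×ˢ s) ∧
      ∫ x in Ioi (0 : ℝ) ×ˢ s, Real.exp (-(k * x.1)) * g x.2 = 1 / k * J := by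
  obtain ⟨h1, h2⟩ := F_15_B hk
  constructor
  · unfold IntegrableOn
    rw [Measure.volume_eq_prod, ← Measure.prod_restrict]
    exact Integrable.mul_prod (f := fun z : ℝ => Real.exp (-(k * z))) (g := g) h1 hg
  · have h3 := setIntegral_prod_mul (μ := (volume : Measure ℝ)) (ν := (volume : Measure Y))
      (fun z : ℝ => Real.exp (-(k * z))) g (Ioi (0 : ℝ)) s
    rw [← Measure.volume_eq_prod] at h3
    rw [h3, h2, hJ]

theorem measurableSet_Oct5 : MeasurableSet Oct5 := by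
  unfold Oct5
  exact measurableSet_Ioi.prod (measurableSet_Ioi.prod (measurableSet_Ioi.prod
    (measurableSet_Ioi.prod measurableSet_Ioi)))

theorem IL5_exp (a b a' b' c : ℝ) (ha : 0 < a) (hb : 0 < b) (ha' : 0 < a') (hb' : 0 < b') (hc : 0 < c) :
    IntegrableOn (fun x : R5 => e5 a b a' b' c (Lin5 x)) Oct5 ∧
      IL5 (e5 a b a' b' c) = 1 / ((a + a') * (a + b') * (b + a') * (b + b') * c) := by
  obtain ⟨h0, h0'⟩ := F_15_B hc
  obtain ⟨h1, h1'⟩ := F_15_S (k := b + b') (by positivity) h0 h0'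
  obtain ⟨h2, h2'⟩ := F_15_S (k := b + a') (by positivity) h1 h1'
  obtain ⟨h3, h3'⟩ := F_15_S (k := a + b') (by positivity) h2 h2'
  obtain ⟨h4, h4'⟩ := F_15_S (k := a + a') (by positivity) h3 h3'
  have hfun : (fun x : R5 => e5 a b a' b' c (Lin5 x)) = fun x : R5 =>
      Real.exp (-((a + a') * x.1)) * (Real.exp (-((a + b') * x.2.1)) *
        (Real.exp (-((b + a') * x.2.2.1)) * (Real.exp (-((b + b') * x.2.2.2.1)) *
          Real.exp (-(c * x.2.2.2.2))))) := by
    funext x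
    unfold e5 Lin5
    simp only
    rw [← Real.exp_add, ← Real.exp_add, ← Real.exp_add, ← Real.exp_add]
    congr 1
    ring
  constructor
  · rw [hfun]
    exact h4
  · unfold IL5
    rw [hfun]
    unfold Oct5
    refine h4'.trans ?_
    field_simp

end Pool.Agent.LibSM56.FL
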