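import Pool.Agent.LibSM56.F_Defs
import Pool.Agent.LibSM56.F_01
import Pool.Agent.LibSM56.F_12
import Pool.Agent.LibSM56.F_15

set_option autoImplicit false

namespace Pool.Agent.LibSM56.FL

open MeasureTheory Set Filter Topology
open Pool.Agent.LibZM
open Pool.Agent.LibSM47.FL (rr cv)

/-! ROW F_16 (MEDIUM): the limit for `pe5 p`. Template `LibSM47/F_16.lean`. -/

theorem pe5_eq (p : MvPolynomial (Fin 5) ℝ) (x : R5) :
    pe5 p x = ∑ s ∈ p.support, p.coeff s *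
      e5 ((s 0 : ℝ) + 1) ((s 1 : ℝ) + 1) ((s 2 : ℝ) + 1) ((s 3 : ℝ) + 1) ((s 4 : ℝ) + 1) x := by
  unfold pe5
  rw [MvPolynomial.eval_eq', Finset.mul_sum]
  refine Finset.sum_congr rfl fun s _ => ?_
  have h : ∏ i : Fin 5, (![Real.exp (-x.1), Real.exp (-x.2.1), Real.exp (-x.2.2.1),
      Real.exp (-x.2.2.2.1), Real.exp (-x.2.2.2.2)] i) ^ s i =
      Real.exp (-x.1) ^ s 0 * Real.exp (-x.2.1) ^ s 1 * Real.exp (-x.2.2.1) ^ s 2 *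
        Real.exp (-x.2.2.2.1) ^ s 3 * Real.exp (-x.2.2.2.2) ^ s 4 := by
    rw [Fin.prod_univ_five]
    rfl
  rw [h]
  unfold e5
  rw [← Real.exp_nat_mul, ← Real.exp_nat_mul, ← Real.exp_nat_mul, ← Real.exp_nat_mul,
    ← Real.exp_nat_mul, ← Real.exp_add, ← Real.exp_add, ← Real.exp_add, ← Real.exp_add,
    mul_left_comm, ← Real.exp_add]
  congr 2
  ring

theorem SL5_pe (p : MvPolynomial (Fin 5) ℝ) :
    IntegrableOn (fun x : R5 => pe5 p (Lin5 x)) Oct5 ∧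
    (∀ L : ℝ, 0 < L → Summable fun q : ℕ+ × ℕ+ => W5 (pe5 p) L q.1 q.2) ∧
    Tendsto (SL5 (pe5 p)) atTop (𝓝 (Aconst 3 * IL5 (pe5 p))) := by
  have hpos : ∀ n : ℕ, (0 : ℝ) < (n : ℝ) + 1 := fun n => by positivity
  have e1 : (fun x : R5 => pe5 p (Lin5 x)) = fun x => ∑ s ∈ p.support,
      p.coeff s * e5 ((s 0 : ℝ) + 1) ((s 1 : ℝ) + 1) ((s 2 : ℝ) + 1) ((s 3 : ℝ) + 1)
        ((s 4 : ℝ) + 1) (Lin5 x) := by
    funext x
    rw [pe5_eq]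
  have hI : ∀ s ∈ p.support, IntegrableOn (fun x : R5 =>
      p.coeff s * e5 ((s 0 : ℝ) + 1) ((s 1 : ℝ) + 1) ((s 2 : ℝ) + 1) ((s 3 : ℝ) + 1)
        ((s 4 : ℝ) + 1) (Lin5 x)) Oct5 :=
    fun s _ => (IL5_exp _ _ _ _ _ (hpos _) (hpos _) (hpos _) (hpos _) (hpos _)).1.const_mul _
  have i2 : IL5 (pe5 p) = ∑ s ∈ p.support,
      p.coeff s * IL5 (e5 ((s 0 : ℝ) + 1) ((s 1 : ℝ) + 1) ((s 2 : ℝ) + 1) ((s 3 : ℝ) + 1)
        ((s 4 : ℝ) + 1)) := by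
    show (∫ x in Oct5, (fun x : R5 => pe5 p (Lin5 x)) x) = _
    rw [e1, integral_finsetSum _ hI]
    refine Finset.sum_congr rfl fun s _ => ?_
    rw [integral_const_mul]
    rfl
  have s1 : ∀ L : ℝ, 0 < L → ∀ s ∈ p.support, Summable fun q : ℕ+ × ℕ+ =>
      p.coeff s * W5 (e5 ((s 0 : ℝ) + 1) ((s 1 : ℝ) + 1) ((s 2 : ℝ) + 1) ((s 3 : ℝ) + 1)
        ((s 4 : ℝ) + 1)) L q.1 q.2 :=
    fun L hL s _ => (e5_summable _ _ _ _ _ L (hpos _) (hpos _) (hpos _) (hpos _) (hpos _)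
      hL).mul_left _
  have e2 : ∀ L : ℝ, (fun q : ℕ+ × ℕ+ => W5 (pe5 p) L q.1 q.2) =
      fun q => ∑ s ∈ p.support,
        p.coeff s * W5 (e5 ((s 0 : ℝ) + 1) ((s 1 : ℝ) + 1) ((s 2 : ℝ) + 1) ((s 3 : ℝ) + 1)
          ((s 4 : ℝ) + 1)) L q.1 q.2 := by
    intro L
    funext q
    rw [show pe5 p = fun x => ∑ s ∈ p.support, p.coeff s *
      e5 ((s 0 : ℝ) + 1) ((s 1 : ℝ) + 1) ((s 2 : ℝ) + 1) ((s 3 : ℝ) + 1) ((s 4 : ℝ) + 1) x from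
      funext fun x => pe5_eq p x]
    exact W5_sum p.support (fun s => p.coeff s) (fun s => e5 ((s 0 : ℝ) + 1) ((s 1 : ℝ) + 1)
      ((s 2 : ℝ) + 1) ((s 3 : ℝ) + 1) ((s 4 : ℝ) + 1)) L q.1 q.2
  refine ⟨?_, ?_, ?_⟩
  · rw [e1]
    exact integrable_finsetSum _ hI
  · intro L hL
    rw [e2 L]
    exact summable_sum (s1 L hL)
  · have t1 : ∀ L : ℝ, 0 < L → SL5 (pe5 p) L = ∑ s ∈ p.support,
        p.coeff s * SL5 (e5 ((s 0 : ℝ) + 1) ((s 1 : ℝ) + 1) ((s 2 : ℝ) + 1) ((s 3 : ℝ) + 1)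
          ((s 4 : ℝ) + 1)) L := by
      intro L hL
      unfold SL5
      rw [e2 L, Summable.tsum_finsetSum (s1 L hL), Finset.mul_sum]
      refine Finset.sum_congr rfl fun s _ => ?_
      rw [tsum_mul_left]
      ring
    have t2 : Tendsto (fun L => ∑ s ∈ p.support,
        p.coeff s * SL5 (e5 ((s 0 : ℝ) + 1) ((s 1 : ℝ) + 1) ((s 2 : ℝ) + 1) ((s 3 : ℝ) + 1)
          ((s 4 : ℝ) + 1)) L) atTop
        (𝓝 (∑ s ∈ p.support, p.coeff s * (Aconst 3 *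
          (1 / ((((s 0 : ℝ) + 1) + ((s 2 : ℝ) + 1)) * (((s 0 : ℝ) + 1) + ((s 3 : ℝ) + 1)) *
            (((s 1 : ℝ) + 1) + ((s 2 : ℝ) + 1)) * (((s 1 : ℝ) + 1) + ((s 3 : ℝ) + 1)) *
            ((s 4 : ℝ) + 1)))))) :=
      tendsto_finsetSum _ fun s _ =>
        (SL5_exp _ _ _ _ _ (hpos _) (hpos _) (hpos _) (hpos _) (hpos _)).const_mul _
    have t3 : Aconst 3 * IL5 (pe5 p) = ∑ s ∈ p.support, p.coeff s * (Aconst 3 *
          (1 / ((((s 0 : ℝ) + 1) + ((s 2 : ℝ) + 1)) * (((s 0 : ℝ) + 1) + ((s 3 : ℝ) + 1)) *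
            (((s 1 : ℝ) + 1) + ((s 2 : ℝ) + 1)) * (((s 1 : ℝ) + 1) + ((s 3 : ℝ) + 1)) *
            ((s 4 : ℝ) + 1)))) := by
      rw [i2, Finset.mul_sum]
      refine Finset.sum_congr rfl fun s _ => ?_
      rw [(IL5_exp _ _ _ _ _ (hpos _) (hpos _) (hpos _) (hpos _) (hpos _)).2]
      ring
    rw [t3]
    refine t2.congr' ?_
    filter_upwards [eventually_gt_atTop 0] with L hL
    exact (t1 L hL).symm

end Pool.Agent.LibSM56.FL
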