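import Pool.Agent.LibSM56.F_Defs
import Pool.Agent.LibSM56.F_01
import Pool.Agent.LibSM56.F_14
import Pool.Agent.LibSM56.F_16

set_option autoImplicit false

namespace Pool.Agent.LibSM56.FL

open MeasureTheory Set Filter Topology
open Pool.Agent.LibZM
open Pool.Agent.LibSM47.FL (rr cv)

/-! ROW F_17 (MEDIUM): the limit for test functions. Template `LibSM47/F_17.lean`. -/

private theorem F_17_term (g : R5 → ℝ) (p : MvPolynomial (Fin 5) ℝ) (ε : ℝ)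
    (h : ∀ x : R5, NN5 x → |g x - pe5 p x| ≤ ε * e5 1 1 1 1 1 x) (L : ℝ) (hL : 0 < L) (m n : ℕ) :
    ‖W5 g L m n - W5 (pe5 p) L m n‖ ≤ ε * W5 (e5 1 1 1 1 1) L m n := by
  rw [Real.norm_eq_abs, ← W5_smul]
  exact abs_W5_sub_le g (pe5 p) (fun x => ε * e5 1 1 1 1 1 x) L hL h m n

private theorem F_17_sum (g : R5 → ℝ) (p : MvPolynomial (Fin 5) ℝ) (ε : ℝ)
    (h : ∀ x : R5, NN5 x → |g x - pe5 p x| ≤ ε * e5 1 1 1 1 1 x) (L : ℝ) (hL : 0 < L) :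
    Summable fun q : ℕ+ × ℕ+ => (W5 g L q.1 q.2 - W5 (pe5 p) L q.1 q.2) :=
  Summable.of_norm_bounded
    ((e5_summable 1 1 1 1 1 L one_pos one_pos one_pos one_pos one_pos hL).mul_left ε)
    fun q => F_17_term g p ε h L hL q.1 q.2

theorem W5_summable (g : R5 → ℝ) (p : MvPolynomial (Fin 5) ℝ) (ε : ℝ)
    (h : ∀ x : R5, NN5 x → |g x - pe5 p x| ≤ ε * e5 1 1 1 1 1 x) (L : ℝ) (hL : 0 < L) :
    Summable fun q : ℕ+ × ℕ+ => W5 g L q.1 q.2 := by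
  have h1 := (F_17_sum g p ε h L hL).add ((SL5_pe p).2.1 L hL)
  have h2 : (fun q : ℕ+ × ℕ+ => W5 g L q.1 q.2) =
      fun q : ℕ+ × ℕ+ => (W5 g L q.1 q.2 - W5 (pe5 p) L q.1 q.2) + W5 (pe5 p) L q.1 q.2 := by
    funext q
    ring
  rw [h2]
  exact h1

theorem SL5_sub_le (g : R5 → ℝ) (p : MvPolynomial (Fin 5) ℝ) (ε : ℝ) (hε : 0 < ε)
    (h : ∀ x : R5, NN5 x → |g x - pe5 p x| ≤ ε * e5 1 1 1 1 1 x) (L : ℝ) (hL : 0 < L) :
    |SL5 g L - SL5 (pe5 p) L| ≤ ε * SL5 (e5 1 1 1 1 1) L := by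
  have hG := W5_summable g p ε h L hL
  have hP := (SL5_pe p).2.1 L hL
  have hE := e5_summable 1 1 1 1 1 L one_pos one_pos one_pos one_pos one_pos hL
  have h1 : SL5 g L - SL5 (pe5 p) L =
      (L ^ 5)⁻¹ * ∑' q : ℕ+ × ℕ+, (W5 g L q.1 q.2 - W5 (pe5 p) L q.1 q.2) := by
    unfold SL5
    rw [← mul_sub, ← hG.tsum_sub hP]
  have h2 : |∑' q : ℕ+ × ℕ+, (W5 g L q.1 q.2 - W5 (pe5 p) L q.1 q.2)| ≤
      ε * ∑' q : ℕ+ × ℕ+, W5 (e5 1 1 1 1 1) L q.1 q.2 := by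
    rw [← tsum_mul_left]
    exact tsum_of_norm_bounded (hE.mul_left ε).hasSum fun q => F_17_term g p ε h L hL q.1 q.2
  have hL5 : 0 < (L ^ 5)⁻¹ := by positivity
  rw [h1, abs_mul, abs_of_pos hL5]
  unfold SL5
  calc (L ^ 5)⁻¹ * |∑' q : ℕ+ × ℕ+, (W5 g L q.1 q.2 - W5 (pe5 p) L q.1 q.2)|
      ≤ (L ^ 5)⁻¹ * (ε * ∑' q : ℕ+ × ℕ+, W5 (e5 1 1 1 1 1) L q.1 q.2) :=
        mul_le_mul_of_nonneg_left h2 hL5.le
    _ = ε * ((L ^ 5)⁻¹ * ∑' q : ℕ+ × ℕ+, W5 (e5 1 1 1 1 1) L q.1 q.2) := by ring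

private theorem F_17_lin {x : R5} (hx : x ∈ Oct5) : NN5 (Lin5 x) := by
  have h1 : 0 < x.1 := hx.1
  have h2 : 0 < x.2.1 := hx.2.1
  have h3 : 0 < x.2.2.1 := hx.2.2.1
  have h4 : 0 < x.2.2.2.1 := hx.2.2.2.1
  have h5 : 0 < x.2.2.2.2 := hx.2.2.2.2
  exact ⟨(add_pos h1 h2).le, (add_pos h3 h4).le, (add_pos h1 h3).le, (add_pos h2 h4).le, h5.le⟩

private theorem F_17_cont : Continuous Lin5 := by
  unfold Lin5
  fun_prop

/-- `IL5 (e5 1 1 1 1 1) = 1/16 ≤ 1`; `fun x => g (Lin5 x)` is continuous and vanishes on `Oct5` outside a compact set, so it is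
integrable on `Oct5` (e.g. `g (Lin5 x)` on `Oct5` is bounded by `‖g‖_∞ e^{R'} e5 1 1 1 1 1 (Lin5 x)`, or
`IntegrableOn` on `Oct5 ∩ closedBall`, zero elsewhere; or: `(g - pe5 p) ∘ Lin5` is continuous and dominated by
`ε e5 1 1 1 1 1 ∘ Lin5`, `Integrable.mono'`). -/
theorem IL5_sub_le (g : R5 → ℝ) (hg : Continuous g) (p : MvPolynomial (Fin 5) ℝ) (ε : ℝ) (hε : 0 < ε)
    (h : ∀ x : R5, NN5 x → |g x - pe5 p x| ≤ ε * e5 1 1 1 1 1 x) : |IL5 g - IL5 (pe5 p)| ≤ ε := by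
  obtain ⟨hE, hE1⟩ := IL5_exp 1 1 1 1 1 one_pos one_pos one_pos one_pos one_pos
  have hP := (SL5_pe p).1
  have hb : ∀ᵐ x ∂(volume.restrict Oct5), ‖g (Lin5 x) - pe5 p (Lin5 x)‖ ≤
      ε * e5 1 1 1 1 1 (Lin5 x) :=
    ae_restrict_of_forall_mem measurableSet_Oct5 fun x hx => h _ (F_17_lin hx)
  have hD : IntegrableOn (fun x : R5 => g (Lin5 x) - pe5 p (Lin5 x)) Oct5 :=
    Integrable.mono' (hE.const_mul ε)
      ((hg.comp F_17_cont).aestronglyMeasurable.sub hP.aestronglyMeasurable) hb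
  have hG : IntegrableOn (fun x : R5 => g (Lin5 x)) Oct5 := by
    have h1 := hD.add hP
    refine h1.congr (ae_of_all _ fun x => ?_)
    show (g (Lin5 x) - pe5 p (Lin5 x)) + pe5 p (Lin5 x) = g (Lin5 x)
    ring
  have h1 : IL5 g - IL5 (pe5 p) = ∫ x in Oct5, (g (Lin5 x) - pe5 p (Lin5 x)) := by
    unfold IL5
    rw [integral_sub hG hP]
  rw [h1, ← Real.norm_eq_abs]
  have h2 : ‖∫ x in Oct5, (g (Lin5 x) - pe5 p (Lin5 x))‖ ≤
      ∫ x in Oct5, ε * e5 1 1 1 1 1 (Lin5 x) := norm_integral_le_of_norm_le (hE.const_mul ε) hb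
  refine h2.trans ?_
  rw [integral_const_mul]
  have h3 : ∫ x in Oct5, e5 1 1 1 1 1 (Lin5 x) = IL5 (e5 1 1 1 1 1) := rfl
  rw [h3, hE1]
  have h4 : (1 : ℝ) / ((1 + 1) * (1 + 1) * (1 + 1) * (1 + 1) * 1) ≤ 1 := by norm_num
  calc ε * (1 / ((1 + 1) * (1 + 1) * (1 + 1) * (1 + 1) * 1)) ≤ ε * 1 :=
        mul_le_mul_of_nonneg_left h4 hε.le
    _ = ε := mul_one ε

theorem SL5_limit (g : R5 → ℝ) (hg : Continuous g) (hgc : HasCompactSupport g) :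
    Tendsto (SL5 g) atTop (𝓝 (Aconst 3 * IL5 g)) := by
  rw [Metric.tendsto_atTop]
  intro η hη
  obtain ⟨A, hA⟩ : ∃ A : ℝ, A = Aconst 3 := ⟨_, rfl⟩
  rw [← hA]
  have hA1 : 0 < |A| + 1 := by positivity
  obtain ⟨ε, hεd⟩ : ∃ ε : ℝ, ε = η / (3 * (|A| + 1)) := ⟨_, rfl⟩
  have hε : 0 < ε := by rw [hεd]; positivity
  have he : ε * (|A| + 1) = η / 3 := by
    rw [hεd]
    field_simp
  obtain ⟨p, hp⟩ := g5_approx g hg hgc ε hε
  have h1 := (SL5_pe p).2.2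
  have h2 := SL5_exp 1 1 1 1 1 one_pos one_pos one_pos one_pos one_pos
  rw [Metric.tendsto_atTop, ← hA] at h1 h2
  obtain ⟨N1, hN1⟩ := h1 (η / 3) (by positivity)
  obtain ⟨N2, hN2⟩ := h2 1 one_pos
  refine ⟨max 1 (max N1 N2), ?_⟩
  intro L hL
  have hL0 : 0 < L := lt_of_lt_of_le one_pos ((le_max_left _ _).trans hL)
  have a1 := hN1 L ((le_max_left N1 N2).trans ((le_max_right _ _).trans hL))
  have a2 := hN2 L ((le_max_right N1 N2).trans ((le_max_right _ _).trans hL))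
  rw [Real.dist_eq] at a1 a2 ⊢
  have hb := SL5_sub_le g p ε hε hp L hL0
  have hc := IL5_sub_le g hg p ε hε hp
  have hd : SL5 (e5 1 1 1 1 1) L ≤ |A| + 1 := by
    have h3 := (abs_lt.mp a2).2
    have h4 : A * (1 / (((1 : ℝ) + 1) * (1 + 1) * (1 + 1) * (1 + 1) * 1)) = A / 16 := by
      norm_num
      ring
    rw [h4] at h3
    have h5 := le_abs_self A
    have h6 := abs_nonneg A
    linarith
  have hf : |A * IL5 (pe5 p) - A * IL5 g| ≤ |A| * ε := by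
    rw [← mul_sub, abs_mul, abs_sub_comm]
    exact mul_le_mul_of_nonneg_left hc (abs_nonneg A)
  have hg1 : |SL5 g L - SL5 (pe5 p) L| ≤ η / 3 := by
    refine hb.trans ?_
    rw [← he]
    exact mul_le_mul_of_nonneg_left hd hε.le
  have hg2 : |A| * ε ≤ η / 3 := by
    rw [← he]
    nlinarith [abs_nonneg A]
  have key : |SL5 g L - A * IL5 g| ≤ |SL5 g L - SL5 (pe5 p) L| +
      (|SL5 (pe5 p) L - A * IL5 (pe5 p)| + |A * IL5 (pe5 p) - A * IL5 g|) :=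
    (abs_sub_le _ (SL5 (pe5 p) L) _).trans (by
      gcongr
      exact abs_sub_le _ (A * IL5 (pe5 p)) _)
  linarith

end Pool.Agent.LibSM56.FL
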