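import Pool.Agent.LibSM47.F_Defs
import Pool.Agent.LibSM47.F_03

/-! # Board SM56-F: the arithmetic weak limit in five variables.

`L^{-5} Σ_{(m,n)=1} (mn)^{-1} Σ_{de=m} Σ_{d'e'=m} (φ(d)/d)(φ(d')/d') g(log d, log e, log d', log e', log n over L)`
tends to `Aconst 3 * ∫_{(0,∞)^5} g(α+β, γ+δ, α+γ, β+δ, y)`.

Method of LibSM47/F_*: Laplace transform (Euler product), Stone-Weierstrass, density. -/

set_option autoImplicit false

namespace Pool.Agent.LibSM56.FL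

open MeasureTheory Set Filter Topology
open Pool.Agent.LibZM
open Pool.Agent.LibSM47.FL (rr cv)

/-- Five real variables. -/
abbrev R5 : Type := ℝ × ℝ × ℝ × ℝ × ℝ

/-- The positive orthant. -/
def Oct5 : Set R5 := Ioi (0 : ℝ) ×ˢ Ioi (0 : ℝ) ×ˢ Ioi (0 : ℝ) ×ˢ Ioi (0 : ℝ) ×ˢ Ioi (0 : ℝ)

/-- All coordinates nonnegative. -/
def NN5 (x : R5) : Prop := 0 ≤ x.1 ∧ 0 ≤ x.2.1 ∧ 0 ≤ x.2.2.1 ∧ 0 ≤ x.2.2.2.1 ∧ 0 ≤ x.2.2.2.2

/-- The exponential test function. -/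
noncomputable def e5 (a b a' b' c : ℝ) (x : R5) : ℝ :=
  Real.exp (-(a * x.1 + b * x.2.1 + a' * x.2.2.1 + b' * x.2.2.2.1 + c * x.2.2.2.2))

/-- The point `(log d, log e, log d', log e', log n) / L`. -/
noncomputable def pt5 (L : ℝ) (x y : ℕ × ℕ) (n : ℕ) : R5 :=
  (Real.log x.1 / L, Real.log x.2 / L, Real.log y.1 / L, Real.log y.2 / L, Real.log n / L)

/-- The term of the pair `(m, n)`. -/
noncomputable def W5 (g : R5 → ℝ) (L : ℝ) (m n : ℕ) : ℝ :=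
  if Nat.Coprime m n then
    ((m : ℝ) * n)⁻¹ * ∑ x ∈ m.divisorsAntidiagonal, ∑ y ∈ m.divisorsAntidiagonal,
      ((Nat.totient x.1 : ℝ) / x.1) * ((Nat.totient y.1 : ℝ) / y.1) * g (pt5 L x y n)
  else 0

/-- The normalised sum. -/
noncomputable def SL5 (g : R5 → ℝ) (L : ℝ) : ℝ := (L ^ 5)⁻¹ * ∑' q : ℕ+ × ℕ+, W5 g L q.1 q.2

/-- `(α, β, γ, δ, y) ↦ (α+β, γ+δ, α+γ, β+δ, y)`. -/
def Lin5 (x : R5) : R5 := (x.1 + x.2.1, x.2.2.1 + x.2.2.2.1, x.1 + x.2.2.1, x.2.1 + x.2.2.2.1, x.2.2.2.2)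

/-- The limit functional. -/
noncomputable def IL5 (g : R5 → ℝ) : ℝ := ∫ x in Oct5, g (Lin5 x)

/-- The multiplicative function of `m` after the summation over `n` (exponential test function). -/
noncomputable def F4 (a b a' b' c : ℝ) (m : ℕ) : ℝ := m * rr c m * cv a b m * cv a' b' m

/-- The term of the pair `(m, n)` for the exponential test function. -/
noncomputable def K4 (a b a' b' c : ℝ) (m n : ℕ) : ℝ :=
  if Nat.Coprime m n then (n : ℝ) ^ (-(1 + c)) * (m * cv a b m * cv a' b' m) else 0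

/-- `c_j(x,y) = y^j + (1-u) Σ_{i=1}^j x^i y^{j-i}`. -/
noncomputable def cj (x y u : ℝ) (j : ℕ) : ℝ := y ^ j + (1 - u) * ∑ i ∈ Finset.Icc 1 j, x ^ i * y ^ (j - i)

/-- The local sum without the `n`-factor. -/
noncomputable def S4 (x y x' y' u : ℝ) : ℝ := ∑' j : ℕ, u ^ j * (cj x y u j * cj x' y' u j)

/-- The normalised local factor. -/
noncomputable def E4 (x y x' y' z u : ℝ) : ℝ :=
  (1 - u * (x * x')) * (1 - u * (x * y')) * (1 - u * (y * x')) * (1 - u * (y * y')) * (z + (1 - z) * S4 x y x' y' u)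

/-- The logarithms of the local factors at the point `(a, b, a', b', c)`. -/
noncomputable def lg4 (a b a' b' c : ℝ) (p : Nat.Primes) : ℝ :=
  Real.log (E4 ((p : ℝ) ^ (-a)) ((p : ℝ) ^ (-b)) ((p : ℝ) ^ (-a')) ((p : ℝ) ^ (-b')) ((p : ℝ) ^ (-(1 + c))) (p : ℝ)⁻¹)

/-- `e^{-(x₁+…+x₅)} p(e^{-x₁}, …, e^{-x₅})`. -/
noncomputable def pe5 (p : MvPolynomial (Fin 5) ℝ) (x : R5) : ℝ :=
  e5 1 1 1 1 1 x * MvPolynomial.eval
    ![Real.exp (-x.1), Real.exp (-x.2.1), Real.exp (-x.2.2.1), Real.exp (-x.2.2.2.1), Real.exp (-x.2.2.2.2)] p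

end Pool.Agent.LibSM56.FL
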