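import Pool.Agent.LibSM56.Defs
import Pool.Agent.LibSM56.F_17

set_option autoImplicit false

namespace Pool.Agent.LibSM56

open MeasureTheory Set Filter Topology Complex ProbabilityTheory
open scoped NNReal ComplexConjugate
open Pool.Agent.LibZM Pool.Agent.LibSM47

/-- F. The arithmetic weak limit in five variables. -/
theorem F5_limit (g : V5 → ℝ) (hg : Continuous g) (hgc : HasCompactSupport g) :
    Tendsto (fun L : ℝ => (L ^ 5)⁻¹ * ∑' q : ℕ+ × ℕ+,
        (if Nat.Coprime (q.1 : ℕ) q.2 then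
          ((q.1 : ℝ) * q.2)⁻¹ * ∑ x ∈ (q.1 : ℕ).divisorsAntidiagonal, ∑ x' ∈ (q.1 : ℕ).divisorsAntidiagonal,
            (Nat.totient x.1 : ℝ) / x.1 * ((Nat.totient x'.1 : ℝ) / x'.1) *
            g (Real.log x.1 / L, Real.log x.2 / L, Real.log x'.1 / L, Real.log x'.2 / L, Real.log q.2 / L) else 0)) atTop
      (𝓝 (LibZM.Aconst 3 * ∫ v in Oct5, g ((pr v).1, (pr v).2.1, (pr' v).1, (pr' v).2.1, v.2.2.2.2))) :=
  FL.SL5_limit g hg hgc

end Pool.Agent.LibSM56
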