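import Pool.Agent.LibSM56.V_02

/-! SM56 V_05 (MEDIUM).  The region of parts (A) + (B) and of LibSM47: `{x ≤ 1/2, x+y ≤ 1} ∪ {3x/2+y ≤ 1, x-y ≤ 1/2}`.  `OmB_iter`: as V_02
(delivered: V_02.lean, V_03.lean): `0 < x < 1/2`: `y` in `(0, 1-x)`; `1/2 < x < 3/5`: `y` in `(x-1/2, 1-3x/2)`; `x ≥ 3/5`: nothing; all `z`.
`val4`: polynomial integral, value checked with exact rationals (compare V_04). -/

set_option autoImplicit false

namespace Pool.Agent.LibSM56

open MeasureTheory Set Filter Topology Complex ProbabilityTheory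
open scoped NNReal ComplexConjugate
open Pool.Agent.LibZM Pool.Agent.LibSM47

/-- The region of (A), (B) and LibSM47. -/
def OmB : Set (ℝ × ℝ × ℝ) :=
  {x | x ∈ Base ∧ (x.1 + x.2.1 < 1 / 2 ∨ 3 * (x.1 + x.2.1) / 2 + x.2.2 < 1)}

private lemma V_05_open : IsOpen OmB := by
  have e : OmB = {x : ℝ × ℝ × ℝ | (0 < x.1 ∧ 0 < x.2.1 ∧ 0 < x.2.2 ∧ x.1 + x.2.1 + x.2.2 < 1 ∧
      x.1 + x.2.1 - x.2.2 < 1 / 2) ∧
      (x.1 + x.2.1 < 1 / 2 ∨ 3 * (x.1 + x.2.1) / 2 + x.2.2 < 1)} := rfl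
  rw [e]
  have c1 : Continuous fun x : ℝ × ℝ × ℝ => x.1 := by fun_prop
  have c2 : Continuous fun x : ℝ × ℝ × ℝ => x.2.1 := by fun_prop
  have c3 : Continuous fun x : ℝ × ℝ × ℝ => x.2.2 := by fun_prop
  have c4 : Continuous fun x : ℝ × ℝ × ℝ => x.1 + x.2.1 + x.2.2 := by fun_prop
  have c5 : Continuous fun x : ℝ × ℝ × ℝ => x.1 + x.2.1 - x.2.2 := by fun_prop
  have c6 : Continuous fun x : ℝ × ℝ × ℝ => x.1 + x.2.1 := by fun_prop
  have c7 : Continuous fun x : ℝ × ℝ × ℝ => 3 * (x.1 + x.2.1) / 2 + x.2.2 := by fun_prop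
  exact ((isOpen_lt continuous_const c1).inter ((isOpen_lt continuous_const c2).inter
    ((isOpen_lt continuous_const c3).inter ((isOpen_lt c4 continuous_const).inter
      (isOpen_lt c5 continuous_const))))).inter
    ((isOpen_lt c6 continuous_const).union (isOpen_lt c7 continuous_const))

private lemma V_05_int : Integrable (OmB.indicator fun v => Vd v ^ 2) := by
  rw [integrable_indicator_iff V_05_open.measurableSet]
  have h1 : Continuous (fun v : ℝ × ℝ × ℝ => Vd v ^ 2) := by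
    unfold Vd
    fun_prop
  have h2 : IntegrableOn (fun v : ℝ × ℝ × ℝ => Vd v ^ 2)
      (Icc (0 : ℝ) 1 ×ˢ Icc (0 : ℝ) 1 ×ˢ Icc (0 : ℝ) 1) :=
    h1.continuousOn.integrableOn_compact (isCompact_Icc.prod (isCompact_Icc.prod isCompact_Icc))
  refine h2.mono_set ?_
  rintro ⟨z, z', y⟩ ⟨⟨h3, h4, h5, h6, h7⟩, -⟩
  simp only at h3 h4 h5 h6 h7
  refine ⟨⟨h3.le, ?_⟩, ⟨h4.le, ?_⟩, ⟨h5.le, ?_⟩⟩
  · show z ≤ 1
    linarith
  · show z' ≤ 1
    linarith
  · show y ≤ 1
    linarith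

private lemma V_05_full (x y : ℝ) (hx : 0 < x) (h : ∀ z ∈ Ioo (0 : ℝ) x, (z, x - z, y) ∈ OmB) :
    ∫ z in (0 : ℝ)..x, OmB.indicator (fun v => Vd v ^ 2) (z, x - z, y) = AF x (1 - y) := by
  rw [← AF_eq, intervalIntegral.integral_of_le hx.le, intervalIntegral.integral_of_le hx.le,
    integral_Ioc_eq_integral_Ioo, integral_Ioc_eq_integral_Ioo]
  refine setIntegral_congr_fun measurableSet_Ioo fun z hz => ?_
  rw [indicator_of_mem (h z hz)]
  unfold Vd
  simp only
  ring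

private lemma V_05_zero (x y : ℝ) (hx : 0 < x) (h : ∀ z ∈ Ioo (0 : ℝ) x, (z, x - z, y) ∉ OmB) :
    ∫ z in (0 : ℝ)..x, OmB.indicator (fun v => Vd v ^ 2) (z, x - z, y) = 0 := by
  rw [intervalIntegral.integral_of_le hx.le, integral_Ioc_eq_integral_Ioo]
  exact setIntegral_eq_zero_of_forall_eq_zero fun z hz => indicator_of_notMem (h z hz) _

private lemma V_05_cont (F : ℝ → ℝ → ℝ) (hF : Continuous (Function.uncurry F)) (a b : ℝ → ℝ)
    (ha : Continuous a) (hb : Continuous b) :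
    Continuous fun x => ∫ y in (a x)..(b x), F x y := by
  have h : (fun x => ∫ y in (a x)..(b x), F x y) =
      fun x => (∫ y in (0 : ℝ)..(b x), F x y) - ∫ y in (0 : ℝ)..(a x), F x y := by
    funext x
    have hc : Continuous (F x) := hF.comp (by fun_prop : Continuous fun y : ℝ => (x, y))
    rw [intervalIntegral.integral_interval_sub_left (hc.intervalIntegrable _ _)
      (hc.intervalIntegrable _ _)]
  rw [h]
  exact (intervalIntegral.continuous_parametric_intervalIntegral_of_continuous hF hb).sub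
    (intervalIntegral.continuous_parametric_intervalIntegral_of_continuous hF ha)

/-- Integral over `y > 0` of a function living on a bounded interval. -/
private lemma V_05_y (F : ℝ → ℝ) (hF : Continuous F) (a b : ℝ) (ha : 0 ≤ a) (hab : a ≤ b) :
    IntegrableOn ((Ioo a b).indicator F) (Ioi 0) ∧
      ∫ y in Ioi (0 : ℝ), (Ioo a b).indicator F y = ∫ y in a..b, F y := by
  have hi : Integrable ((Ioo a b).indicator F) :=
    (integrable_indicator_iff measurableSet_Ioo).2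
      ((hF.continuousOn.integrableOn_compact isCompact_Icc).mono_set Ioo_subset_Icc_self)
  refine ⟨hi.integrableOn, ?_⟩
  rw [setIntegral_indicator measurableSet_Ioo, intervalIntegral.integral_of_le hab,
    integral_Ioc_eq_integral_Ioo]
  congr 2
  ext y
  constructor
  · rintro ⟨-, h⟩
    exact h
  · intro h
    exact ⟨lt_of_le_of_lt ha h.1, h⟩

private lemma V_05_yc (F : ℝ → ℝ) (hF : Continuous F) (a b : ℝ) (ha : 0 < a) (hab : a ≤ b) :
    IntegrableOn ((Ico a b).indicator F) (Ioi 0) ∧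
      ∫ y in Ioi (0 : ℝ), (Ico a b).indicator F y = ∫ y in a..b, F y := by
  have hi : Integrable ((Ico a b).indicator F) :=
    (integrable_indicator_iff measurableSet_Ico).2
      ((hF.continuousOn.integrableOn_compact isCompact_Icc).mono_set Ico_subset_Icc_self)
  refine ⟨hi.integrableOn, ?_⟩
  rw [setIntegral_indicator measurableSet_Ico, intervalIntegral.integral_of_le hab,
    integral_Ioc_eq_integral_Ioo, ← integral_Ico_eq_integral_Ioo]
  congr 2
  ext y
  constructor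
  · rintro ⟨-, h⟩
    exact h
  · intro h
    exact ⟨lt_of_lt_of_le ha h.1, h⟩

private lemma V_05_AFc (x : ℝ) : Continuous fun y : ℝ => AF x (1 - y) := by
  unfold AF
  fun_prop

/-- The case `x < 1/2`. -/
private lemma V_05_low (x : ℝ) (hx : 0 < x) (hx2 : x < 1 / 2) :
    ∫ y in Ioi (0 : ℝ), ∫ z in (0 : ℝ)..x, OmB.indicator (fun v => Vd v ^ 2) (z, x - z, y) =
      ∫ y in (0 : ℝ)..(1 - x), AF x (1 - y) := by
  rw [← (V_05_y _ (V_05_AFc x) 0 (1 - x) le_rfl (by linarith)).2]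
  refine setIntegral_congr_fun measurableSet_Ioi fun y hy => ?_
  rw [mem_Ioi] at hy
  by_cases h : y < 1 - x
  · rw [indicator_of_mem (show y ∈ Ioo 0 (1 - x) from ⟨hy, h⟩)]
    refine V_05_full x y hx fun z hz => ?_
    refine ⟨⟨hz.1, ?_, hy, ?_, ?_⟩, Or.inl ?_⟩
    · show 0 < x - z
      linarith [hz.2]
    · show z + (x - z) + y < 1
      linarith
    · show z + (x - z) - y < 1 / 2
      linarith
    · show z + (x - z) < 1 / 2
      linarith
  · rw [indicator_of_notMem fun h1 => h h1.2]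
    refine V_05_zero x y hx fun z hz => ?_
    rintro ⟨⟨-, -, -, h4, -⟩, -⟩
    simp only at h4
    linarith

/-- The case `1/2 ≤ x < 3/5`. -/
private lemma V_05_mid (x : ℝ) (hx : 1 / 2 ≤ x) (hx2 : x < 3 / 5) :
    ∫ y in Ioi (0 : ℝ), ∫ z in (0 : ℝ)..x, OmB.indicator (fun v => Vd v ^ 2) (z, x - z, y) =
      ∫ y in (x - 1 / 2)..(1 - 3 * x / 2), AF x (1 - y) := by
  have hx0 : 0 < x := by linarith
  rw [← (V_05_y _ (V_05_AFc x) (x - 1 / 2) (1 - 3 * x / 2) (by linarith) (by linarith)).2]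
  refine setIntegral_congr_fun measurableSet_Ioi fun y hy => ?_
  rw [mem_Ioi] at hy
  by_cases c1 : x - 1 / 2 < y
  · by_cases c2 : y < 1 - 3 * x / 2
    · rw [indicator_of_mem (show y ∈ Ioo (x - 1 / 2) (1 - 3 * x / 2) from ⟨c1, c2⟩)]
      refine V_05_full x y hx0 fun z hz => ?_
      refine ⟨⟨hz.1, ?_, hy, ?_, ?_⟩, Or.inr ?_⟩
      · show 0 < x - z
        linarith [hz.2]
      · show z + (x - z) + y < 1
        linarith
      · show z + (x - z) - y < 1 / 2
        linarith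
      · show 3 * (z + (x - z)) / 2 + y < 1
        linarith
    · rw [indicator_of_notMem fun h1 => c2 h1.2]
      refine V_05_zero x y hx0 fun z hz => ?_
      rintro ⟨-, h | h⟩
      · simp only at h
        linarith
      · simp only at h
        linarith
  · rw [indicator_of_notMem fun h1 => c1 h1.1]
    refine V_05_zero x y hx0 fun z hz => ?_
    rintro ⟨⟨-, -, -, -, h5⟩, -⟩
    simp only at h5
    linarith

/-- The case `3/5 ≤ x`. -/
private lemma V_05_high (x : ℝ) (hx : 3 / 5 ≤ x) :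
    ∫ y in Ioi (0 : ℝ), ∫ z in (0 : ℝ)..x, OmB.indicator (fun v => Vd v ^ 2) (z, x - z, y) = 0 := by
  refine setIntegral_eq_zero_of_forall_eq_zero fun y hy => ?_
  refine V_05_zero x y (by linarith) fun z hz => ?_
  rintro ⟨⟨-, -, -, -, h5⟩, h | h⟩
  · simp only at h
    linarith
  · simp only at h h5
    linarith

private theorem V_05_poly (L : List ℝ) (n : ℕ) (a b : ℝ) :
    ∫ x in a..b, ∑ i ∈ Finset.range n, L.getD i 0 * x ^ i =
      ∑ i ∈ Finset.range n, L.getD i 0 * ((b ^ (i + 1) - a ^ (i + 1)) / ((i : ℝ) + 1)) := by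
  rw [intervalIntegral.integral_finsetSum]
  · refine Finset.sum_congr rfl fun i _ => ?_
    rw [intervalIntegral.integral_const_mul, integral_pow]
  · intro i _
    exact Continuous.intervalIntegrable (by fun_prop) _ _

private theorem V_05_AF (x a b : ℝ) : ∫ u in a..b, AF x u =
    x ^ 7 / 210 * (b - a) - x ^ 6 / 15 * ((b ^ 2 - a ^ 2) / 2) + 2 * x ^ 5 / 5 * ((b ^ 3 - a ^ 3) / 3)
      - 2 * x ^ 4 / 3 * ((b ^ 4 - a ^ 4) / 4) + x ^ 3 / 3 * ((b ^ 5 - a ^ 5) / 5) := by
  have h1 : (fun u : ℝ => AF x u) = fun u : ℝ => ∑ i ∈ Finset.range 5,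
      ([x ^ 7 / 210, -(x ^ 6 / 15), 2 * x ^ 5 / 5, -(2 * x ^ 4 / 3), x ^ 3 / 3] : List ℝ).getD i 0 *
        u ^ i := by
    funext u
    simp only [Finset.sum_range_succ, Finset.sum_range_zero, AF, List.getD_cons_succ,
      List.getD_cons_zero]
    ring
  rw [h1, V_05_poly]
  simp only [Finset.sum_range_succ, Finset.sum_range_zero, List.getD_cons_succ,
      List.getD_cons_zero]
  push_cast
  ring

theorem OmB_ok : IsOpen OmB ∧ OmB ⊆ Base ∧ ∀ z z' y : ℝ, (z, z', y) ∈ OmB → (z', z, y) ∈ OmB := by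
  refine ⟨V_05_open, fun x hx => hx.1, ?_⟩
  rintro z z' y ⟨⟨h1, h2, h3, h4, h5⟩, h⟩
  simp only at h1 h2 h3 h4 h5 h
  refine ⟨⟨h2, h1, h3, ?_, ?_⟩, ?_⟩
  · show z' + z + y < 1
    linarith
  · show z' + z - y < 1 / 2
    linarith
  · show z' + z < 1 / 2 ∨ 3 * (z' + z) / 2 + y < 1
    rw [add_comm z' z]
    exact h

theorem OmB_iter : ∫ x in OmB, Vd x ^ 2 =
    (∫ x in (0 : ℝ)..(1 / 2), ∫ y in (0 : ℝ)..(1 - x), AF x (1 - y)) +
    ∫ x in (1 / 2 : ℝ)..(3 / 5), ∫ y in (x - 1 / 2)..(1 - 3 * x / 2), AF x (1 - y) := by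
  have h0 : ∫ x in OmB, Vd x ^ 2 = ∫ x in Oct, OmB.indicator (fun v => Vd v ^ 2) x := by
    rw [setIntegral_indicator V_05_open.measurableSet]
    congr 2
    ext v
    constructor
    · intro h
      exact ⟨⟨h.1.1, h.1.2.1, h.1.2.2.1⟩, h⟩
    · intro h
      exact h.2
  rw [h0, tri_eq _ V_05_int.integrableOn]
  have hAFc : Continuous (Function.uncurry fun x y : ℝ => AF x (1 - y)) := by
    unfold AF Function.uncurry
    fun_prop
  have cA : Continuous fun x : ℝ => ∫ y in (0 : ℝ)..(1 - x), AF x (1 - y) :=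
    V_05_cont _ hAFc (fun _ => 0) (fun x => 1 - x) (by fun_prop) (by fun_prop)
  have cB : Continuous fun x : ℝ => ∫ y in (x - 1 / 2)..(1 - 3 * x / 2), AF x (1 - y) :=
    V_05_cont _ hAFc (fun x => x - 1 / 2) (fun x => 1 - 3 * x / 2) (by fun_prop) (by fun_prop)
  have iA := V_05_y _ cA 0 (1 / 2) le_rfl (by norm_num)
  have iB := V_05_yc _ cB (1 / 2) (3 / 5) (by norm_num) (by norm_num)
  rw [← iA.2, ← iB.2, ← integral_add iA.1 iB.1]
  refine setIntegral_congr_fun measurableSet_Ioi fun x hx => ?_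
  rw [mem_Ioi] at hx
  by_cases c1 : x < 1 / 2
  · rw [indicator_of_mem (show x ∈ Ioo (0 : ℝ) (1 / 2) from ⟨hx, c1⟩),
      indicator_of_notMem fun h1 => absurd h1.1 (not_le.2 c1), add_zero]
    exact V_05_low x hx c1
  · by_cases c2 : x < 3 / 5
    · rw [indicator_of_notMem fun h1 => c1 h1.2,
        indicator_of_mem (show x ∈ Ico (1 / 2 : ℝ) (3 / 5) from ⟨not_lt.1 c1, c2⟩), zero_add]
      exact V_05_mid x (not_lt.1 c1) c2
    · rw [indicator_of_notMem fun h1 => c1 h1.2, indicator_of_notMem fun h1 => c2 h1.2, add_zero]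
      exact V_05_high x (not_lt.1 c2)

theorem val4 : ∫ x in (1 / 2 : ℝ)..(3 / 5), ∫ y in (x - 1 / 2)..(1 - 3 * x / 2), AF x (1 - y) =
    28550959 / 378000000000 := by
  have h : ∀ x : ℝ, (∫ y in (x - 1 / 2)..(1 - 3 * x / 2), AF x (1 - y)) = ∑ i ∈ Finset.range 9,
      ([0, 0, 0, 81 / 160, -(81 / 32), 99 / 20, -(189 / 40), 309 / 140,
        -(151 / 336)] : List ℝ).getD i 0 * x ^ i := by
    intro x
    rw [intervalIntegral.integral_comp_sub_left (fun u => AF x u) 1, V_05_AF]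
    simp only [Finset.sum_range_succ, Finset.sum_range_zero, List.getD_cons_succ,
      List.getD_cons_zero]
    ring
  simp only [h]
  rw [V_05_poly]
  simp only [Finset.sum_range_succ, Finset.sum_range_zero, List.getD_cons_succ,
      List.getD_cons_zero]
  push_cast
  norm_num

end Pool.Agent.LibSM56
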