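import Pool.Agent.LibSM56.W_Defs

set_option autoImplicit false

namespace Pool.Agent.LibSM56.WL

open MeasureTheory Set Filter Topology
open Pool.Agent.LibZM Pool.Agent.LibSM47

/-! ROW W_1 (SHORT/MEDIUM): the test function `gW P R`.
Support: if `gW P R x ≠ 0` then `(x.1, x.2.1, x.2.2.2.2) ∈ tsupport P` (bounded) and `|x.2.2.1| < 2`, `|x.2.2.2.1| < 2`;
`HasCompactSupport.intro (isCompact_closedBall 0 r)`. Template `LibSM47/H_02.lean` (`F_02_supp`). -/

theorem ct_cont : Continuous ct := by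
  unfold ct
  exact continuous_const.max (continuous_const.min (continuous_const.sub continuous_abs))

theorem ct_one (t : ℝ) (h0 : 0 ≤ t) (h1 : t ≤ 1) : ct t = 1 := by
  unfold ct
  rw [abs_of_nonneg h0, min_eq_left (by linarith), max_eq_right (by norm_num)]

theorem ct_zero (t : ℝ) (h : 2 ≤ |t|) : ct t = 0 := by
  unfold ct
  exact max_eq_left ((min_le_right _ _).trans (by linarith))

theorem gW_cont (P R : ℝ × ℝ × ℝ → ℝ) (hP : Continuous P) (hR : Continuous R) : Continuous (gW P R) := by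
  unfold gW
  have h1 : Continuous (fun x : V5 => P (x.1, x.2.1, x.2.2.2.2)) := hP.comp (by fun_prop)
  have h2 : Continuous (fun x : V5 => R (x.2.2.1, x.2.2.2.1, x.2.2.2.2)) := hR.comp (by fun_prop)
  have h3 : Continuous (fun x : V5 => ct x.2.2.1) := ct_cont.comp (by fun_prop)
  have h4 : Continuous (fun x : V5 => ct x.2.2.2.1) := ct_cont.comp (by fun_prop)
  exact h1.mul (h2.mul (h3.mul h4))

theorem gW_supp (P R : ℝ × ℝ × ℝ → ℝ) (hP : HasCompactSupport P) : HasCompactSupport (gW P R) := by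
  obtain ⟨r, hr⟩ := hP.isBounded.subset_closedBall (0 : ℝ × ℝ × ℝ)
  refine HasCompactSupport.intro (isCompact_closedBall (0 : V5) (max r 2)) fun x hx => ?_
  by_contra hne
  apply hx
  unfold gW at hne
  have h1 : P (x.1, x.2.1, x.2.2.2.2) ≠ 0 := left_ne_zero_of_mul hne
  have h2 := right_ne_zero_of_mul (right_ne_zero_of_mul hne)
  have h3 : ct x.2.2.1 ≠ 0 := left_ne_zero_of_mul h2
  have h4 : ct x.2.2.2.1 ≠ 0 := right_ne_zero_of_mul h2
  have h5 : |x.2.2.1| ≤ 2 := by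
    by_contra h; exact h3 (ct_zero _ (le_of_lt (not_le.1 h)))
  have h6 : |x.2.2.2.1| ≤ 2 := by
    by_contra h; exact h4 (ct_zero _ (le_of_lt (not_le.1 h)))
  have h7 : (x.1, x.2.1, x.2.2.2.2) ∈ Metric.closedBall (0 : ℝ × ℝ × ℝ) r :=
    hr (subset_tsupport P h1)
  rw [mem_closedBall_zero_iff, Prod.norm_def, Prod.norm_def] at h7
  simp only [Real.norm_eq_abs] at h7
  have h8 : |x.1| ≤ r := (le_max_left _ _).trans h7
  have h9 := (le_max_right _ _).trans h7
  have h10 : |x.2.1| ≤ r := (le_max_left _ _).trans h9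
  have h11 : |x.2.2.2.2| ≤ r := (le_max_right _ _).trans h9
  rw [mem_closedBall_zero_iff, Prod.norm_def, Prod.norm_def, Prod.norm_def, Prod.norm_def]
  simp only [Real.norm_eq_abs]
  exact max_le (h8.trans (le_max_left _ _)) (max_le (h10.trans (le_max_left _ _))
    (max_le (h5.trans (le_max_right _ _)) (max_le (h6.trans (le_max_right _ _)) (h11.trans (le_max_left _ _)))))

/-- On the octant the cutoff can be dropped: if `P (pr v) ≠ 0` then `α+β+γ+δ ≤ 1`, so `α+γ, β+δ ∈ [0,1]`. -/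
theorem gW_int (P R : ℝ × ℝ × ℝ → ℝ) (hP : Sup1 P) :
    ∫ v in Oct5, gW P R ((pr v).1, (pr v).2.1, (pr' v).1, (pr' v).2.1, v.2.2.2.2) = ∫ v in Oct5, P (pr v) * R (pr' v) := by
  have hm : MeasurableSet Oct5 :=
    measurableSet_Ioi.prod (measurableSet_Ioi.prod (measurableSet_Ioi.prod (measurableSet_Ioi.prod measurableSet_Ioi)))
  refine setIntegral_congr_fun hm fun v hv => ?_
  obtain ⟨h1, h2, h3, h4, h5⟩ := hv
  simp only [mem_Ioi] at h1 h2 h3 h4 h5
  show P (pr v) * (R (pr' v) * (ct (pr' v).1 * ct (pr' v).2.1)) = P (pr v) * R (pr' v)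
  by_cases hz : P (pr v) = 0
  · rw [hz, zero_mul, zero_mul]
  · have h6 := (hP (v.1 + v.2.1) (v.2.2.1 + v.2.2.2.1) v.2.2.2.2 (by linarith) (by linarith) (by linarith) hz).1
    have h7 : ct (pr' v).1 = 1 := ct_one _ (show 0 ≤ v.1 + v.2.2.1 by linarith) (show v.1 + v.2.2.1 ≤ 1 by linarith)
    have h8 : ct (pr' v).2.1 = 1 :=
      ct_one _ (show 0 ≤ v.2.1 + v.2.2.2.1 by linarith) (show v.2.1 + v.2.2.2.1 ≤ 1 by linarith)
    rw [h7, h8, mul_one, mul_one]

theorem sup1_of_adm (P : ℝ × ℝ × ℝ → ℝ) (ε : ℝ) (hε : 0 < ε) (hP : AdmP ε P) : Sup1 P := by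
  intro z z' y hz hz' hy hne
  obtain ⟨h1, -, -⟩ := hP.2.2 z z' y hz hz' hy hne
  exact ⟨by linarith, by linarith⟩

end Pool.Agent.LibSM56.WL
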