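import Pool.Agent.LibSM56.W_Defs
import Pool.Agent.LibSM56.W_1

set_option autoImplicit false

namespace Pool.Agent.LibSM56.WL

open MeasureTheory Set Filter Topology
open Pool.Agent.LibZM Pool.Agent.LibSM47

/-! ROW W_2 (MEDIUM): the infinite sum over `ℕ+ × ℕ+` is the finite sum over `idx T`. A term with `P(…) ≠ 0` for some
`x ∈ m.divisorsAntidiagonal` has `(log x.1 + log x.2)/log T = log m/log T ≤ 1`, `log n/log T ≤ 1`, so `(m,n) ∈ idx T`. For `(m,n) ∈ idx T` and
`y ∈ m.divisorsAntidiagonal` the cutoffs are `1` (`1 ≤ y.i ≤ m ≤ T`: `ct_one`); the double sum is a product (`Finset.sum_mul_sum`).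
Use `tsum_eq_sum` over the image of `idx T` under `q ↦ (q.1.toPNat', q.2.toPNat')` and `Finset.sum_image` (as in `LibSM47/H_01.lean`), or
`Summable`-free: `tsum_eq_sum'`/`Finset.map`. -/

/-- the pair of positive integers -/
private def W_2_phi (q : ℕ × ℕ) : ℕ+ × ℕ+ := (q.1.toPNat', q.2.toPNat')

private theorem W_2_coe {n : ℕ} (h : 1 ≤ n) : ((n.toPNat' : ℕ+) : ℕ) = n := by
  rw [Nat.toPNat'_coe, if_pos (by omega)]

private theorem W_2_idx {T : ℝ} (hT : 1 < T) {p : ℕ × ℕ} :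
    p ∈ idx T ↔ 1 ≤ p.1 ∧ (p.1 : ℝ) ≤ T ∧ 1 ≤ p.2 ∧ (p.2 : ℝ) ≤ T ∧ Nat.Coprime p.1 p.2 := by
  unfold idx
  rw [Finset.mem_filter, Finset.mem_product, Finset.mem_Icc, Finset.mem_Icc,
    Nat.le_floor_iff (by linarith), Nat.le_floor_iff (by linarith)]
  tauto

/-- members of the antidiagonal: positive, and at most `m` -/
private theorem W_2_mem {m : ℕ} {x : ℕ × ℕ} (hx : x ∈ m.divisorsAntidiagonal) :
    x.1 * x.2 = m ∧ 1 ≤ x.1 ∧ 1 ≤ x.2 := by
  obtain ⟨h1, h2⟩ := Nat.mem_divisorsAntidiagonal.1 hx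
  refine ⟨h1, ?_, ?_⟩
  · rcases Nat.eq_zero_or_pos x.1 with h | h
    · rw [h, zero_mul] at h1
      exact absurd h1.symm h2
    · exact h
  · rcases Nat.eq_zero_or_pos x.2 with h | h
    · rw [h, mul_zero] at h1
      exact absurd h1.symm h2
    · exact h

private theorem W_2_log {T : ℝ} (hT : 1 < T) {n : ℕ} (h1 : 1 ≤ n) (h2 : (n : ℝ) ≤ T) :
    0 ≤ Real.log n / Real.log T ∧ Real.log n / Real.log T ≤ 1 := by
  have hL : 0 < Real.log T := Real.log_pos hT
  have hn : (1 : ℝ) ≤ n := by exact_mod_cast h1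
  refine ⟨div_nonneg (Real.log_nonneg hn) hL.le, ?_⟩
  rw [div_le_one hL]
  exact Real.log_le_log (by linarith) h2

theorem reindex5 (P R : ℝ × ℝ × ℝ → ℝ) (T : ℝ) (hT : 1 < T) (hP : Sup1 P) :
    ∑' q : ℕ+ × ℕ+,
        (if Nat.Coprime (q.1 : ℕ) q.2 then
          ((q.1 : ℝ) * q.2)⁻¹ * ∑ x ∈ (q.1 : ℕ).divisorsAntidiagonal, ∑ x' ∈ (q.1 : ℕ).divisorsAntidiagonal,
            (Nat.totient x.1 : ℝ) / x.1 * ((Nat.totient x'.1 : ℝ) / x'.1) *
            gW P R (Real.log x.1 / Real.log T, Real.log x.2 / Real.log T, Real.log x'.1 / Real.log T,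
              Real.log x'.2 / Real.log T, Real.log q.2 / Real.log T) else 0) = wS P R T := by
  classical
  have hL : 0 < Real.log T := Real.log_pos hT
  have hT0 : 0 < T := by linarith
  rw [tsum_eq_sum (s := (idx T).image W_2_phi) (fun q hq => ?_)]
  · rw [Finset.sum_image (fun x hx y hy hxy => ?_)]
    · unfold wS
      refine Finset.sum_congr rfl fun p hp => ?_
      obtain ⟨hp1, hpT, hp2, -, hpc⟩ := (W_2_idx hT).1 hp
      have c1 : (((W_2_phi p).1 : ℕ+) : ℕ) = p.1 := W_2_coe hp1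
      have c2 : (((W_2_phi p).2 : ℕ+) : ℕ) = p.2 := W_2_coe hp2
      rw [c1, c2, if_pos hpc]
      congr 1
      unfold inS
      rw [Finset.sum_mul_sum]
      refine Finset.sum_congr rfl fun x _ => Finset.sum_congr rfl fun y hy => ?_
      obtain ⟨h1, h2, h3⟩ := W_2_mem hy
      have hy1 : (y.1 : ℝ) ≤ T := by
        refine le_trans ?_ hpT
        exact_mod_cast (Nat.le_mul_of_pos_right y.1 h3).trans h1.le
      have hy2 : (y.2 : ℝ) ≤ T := by
        refine le_trans ?_ hpT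
        exact_mod_cast (Nat.le_mul_of_pos_left y.2 h2).trans h1.le
      obtain ⟨k1, k2⟩ := W_2_log hT h2 hy1
      obtain ⟨k3, k4⟩ := W_2_log hT h3 hy2
      unfold gW
      simp only
      rw [ct_one _ k1 k2, ct_one _ k3 k4]
      ring
    · -- injectivity
      obtain ⟨hx1, -, hx2, -, -⟩ := (W_2_idx hT).1 (Finset.mem_coe.1 hx)
      obtain ⟨hy1, -, hy2, -, -⟩ := (W_2_idx hT).1 (Finset.mem_coe.1 hy)
      have k1 := congrArg (fun q : ℕ+ × ℕ+ => (q.1 : ℕ)) hxy
      have k2 := congrArg (fun q : ℕ+ × ℕ+ => (q.2 : ℕ)) hxy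
      simp only [W_2_phi] at k1 k2
      rw [W_2_coe hx1, W_2_coe hy1] at k1
      rw [W_2_coe hx2, W_2_coe hy2] at k2
      exact Prod.ext k1 k2
  · -- zero outside
    obtain ⟨m, n⟩ := q
    by_contra hne
    simp only [ite_eq_right_iff, Classical.not_imp] at hne
    obtain ⟨hc, hne⟩ := hne
    obtain ⟨x, hx, hne1⟩ := Finset.exists_ne_zero_of_sum_ne_zero (right_ne_zero_of_mul hne)
    obtain ⟨y, -, hne2⟩ := Finset.exists_ne_zero_of_sum_ne_zero hne1
    have hg := right_ne_zero_of_mul hne2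
    unfold gW at hg
    have hP0 := left_ne_zero_of_mul hg
    simp only at hP0
    obtain ⟨h1, h2, h3⟩ := W_2_mem hx
    have hx1 : (1 : ℝ) ≤ x.1 := by exact_mod_cast h2
    have hx2 : (1 : ℝ) ≤ x.2 := by exact_mod_cast h3
    have hn1 : (1 : ℝ) ≤ (n : ℕ) := by exact_mod_cast n.pos
    obtain ⟨g1, g2⟩ := hP _ _ _ (div_nonneg (Real.log_nonneg hx1) hL.le)
      (div_nonneg (Real.log_nonneg hx2) hL.le) (div_nonneg (Real.log_nonneg hn1) hL.le) hP0
    rw [← add_div, div_le_one hL, ← Real.log_mul (by positivity) (by positivity),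
      Real.log_le_log_iff (by positivity) hT0] at g1
    rw [div_le_one hL, Real.log_le_log_iff (by positivity) hT0] at g2
    apply hq
    rw [Finset.mem_image]
    refine ⟨((m : ℕ), (n : ℕ)), ?_, ?_⟩
    · rw [W_2_idx hT]
      refine ⟨m.pos, ?_, n.pos, g2, hc⟩
      have : (((m : ℕ) : ℝ)) = (x.1 : ℝ) * x.2 := by
        rw [← h1]
        push_cast
        rfl
      simp only
      rw [this]
      exact g1
    · unfold W_2_phi
      exact Prod.ext (PNat.coe_injective (W_2_coe m.pos)) (PNat.coe_injective (W_2_coe n.pos))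

end Pool.Agent.LibSM56.WL
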