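import Pool.Agent.LibSM56.W_Defs
import Pool.Agent.LibSM56.W_1
import Pool.Agent.LibSM56.W_2

set_option autoImplicit false

namespace Pool.Agent.LibSM56.WL

open MeasureTheory Set Filter Topology
open Pool.Agent.LibZM Pool.Agent.LibSM47

/-! ROW W_3 (SHORT): `F5_limit` with `g = gW P R`, `L = log T` (`Real.tendsto_log_atTop`), `reindex5`, `gW_int`; and the first sum:
`cP P T q = (mn)^{-1/2} inS P T q` (definition), `((mn)^{-1/2})² = (mn)⁻¹` (`LibSM47/H_03a.lean`). -/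

theorem weak5 (P R : ℝ × ℝ × ℝ → ℝ) (hPc : Continuous P) (hPs : HasCompactSupport P) (hP : Sup1 P) (hR : Continuous R) :
    Tendsto (fun T : ℝ => wS P R T / (Real.log T) ^ 5) atTop (𝓝 (LibZM.Aconst 3 * ∫ v in Oct5, P (pr v) * R (pr' v))) := by
  have hlim := (F5_limit (gW P R) (gW_cont P R hPc hR) (gW_supp P R hPs)).comp Real.tendsto_log_atTop
  rw [gW_int P R hP] at hlim
  refine hlim.congr' ?_
  filter_upwards [eventually_gt_atTop (1 : ℝ)] with T hT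
  simp only [Function.comp_apply]
  rw [reindex5 P R T hT hP, div_eq_inv_mul]

theorem S1_limit' (P : ℝ × ℝ × ℝ → ℝ) (ε : ℝ) (hε : 0 < ε) (hP : AdmP ε P) :
    Tendsto (fun T : ℝ => (∑ q ∈ idx T, cP P T q ^ 2) / (Real.log T) ^ 5) atTop (𝓝 (LibZM.Aconst 3 * J1 P)) := by
  have h := weak5 P P hP.1 hP.2.1 (sup1_of_adm P ε hε hP) hP.1
  have e0 : J1 P = ∫ v in Oct5, P (pr v) * P (pr' v) := rfl
  rw [e0]
  refine h.congr fun T => ?_
  congr 1
  unfold wS
  refine Finset.sum_congr rfl fun q hq => ?_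
  have hq' := (Finset.mem_filter.mp hq).1
  rw [Finset.mem_product, Finset.mem_Icc, Finset.mem_Icc] at hq'
  have hm : (0 : ℝ) < (q.1 : ℝ) := by exact_mod_cast hq'.1.1
  have hn : (0 : ℝ) < (q.2 : ℝ) := by exact_mod_cast hq'.2.1
  have e1 : cP P T q = ((q.1 : ℝ) * q.2) ^ (-(1 / 2) : ℝ) * inS P T q := rfl
  have e4 : (((q.1 : ℝ) * q.2) ^ (-(1 / 2) : ℝ)) ^ 2 = ((q.1 : ℝ) * q.2)⁻¹ := by
    rw [← Real.rpow_natCast, ← Real.rpow_mul (by positivity), ← Real.rpow_neg_one]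
    congr 1
    norm_num
  rw [e1, mul_pow, e4]
  ring

end Pool.Agent.LibSM56.WL
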