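import Pool.Agent.LibSM56.W_Defs

set_option autoImplicit false

namespace Pool.Agent.LibSM56.WL

open MeasureTheory Set Filter Topology
open Pool.Agent.LibZM Pool.Agent.LibSM47

/-! ROW W_4 (SHORT/MEDIUM): the algebra of the second sum. `mainS` is a sum over `d ∣ m`; `Nat.sum_divisorsAntidiagonal` turns it
into a sum over `y ∈ m.divisorsAntidiagonal`, `d = y.1`, and `log y.2 = log m - log y.1`; copy `mainS_scale` (pure algebra) from
`LibSM47/H_03a.lean` as a private lemma (do not import it). Template: the proof of `H_03b_id` in `LibSM47/H_03b.lean` (with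
`L = log T`, `U = log (u/2π)`). -/

private theorem W_4_scale (L u m n d c₀ : ℝ) (hL : L ≠ 0) (hc : c₀ = u - L) :
    (1 / 2 : ℝ) * (3 * (u + m - n - m) ^ 2 - 3 * (u + m - n - d) ^ 2 + (u + m - n) ^ 2) =
      L ^ 2 * QQ (d / L, (m - d) / L, n / L) + c₀ * L * (1 - n / L + m / L - 3 * ((m - d) / L)) + c₀ ^ 2 / 2 := by
  unfold QQ
  have hu : u = c₀ + L := by rw [hc]; ring
  subst hu
  field_simp
  ring

/-- `mainS` in terms of the three sums. -/
theorem mainS_inS (T u : ℝ) (hT : 1 < T) (q : ℕ × ℕ) (hq : 1 ≤ q.1) :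
    mainS q.1 (Real.log (u / (2 * Real.pi)) + Real.log q.1 - Real.log q.2) =
      Real.log T ^ 2 * inS QQ T q +
        (Real.log (u / (2 * Real.pi)) - Real.log T) * Real.log T * inS A1 T q +
        (Real.log (u / (2 * Real.pi)) - Real.log T) ^ 2 / 2 * inS (fun _ => 1) T q := by
  have hL : 0 < Real.log T := Real.log_pos hT
  set U := Real.log (u / (2 * Real.pi)) with hU
  set L := Real.log T with hLd
  unfold mainS inS
  have e0 := Nat.sum_divisorsAntidiagonal (n := q.1) (fun (d _ : ℕ) => (1 : ℝ) / 2 * ((Nat.totient d : ℝ) / (d : ℝ) *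
      (3 * (U + Real.log q.1 - Real.log q.2 - Real.log q.1) ^ 2 -
        3 * (U + Real.log q.1 - Real.log q.2 - Real.log (d : ℝ)) ^ 2 + (U + Real.log q.1 - Real.log q.2) ^ 2)))
  rw [Finset.mul_sum, Finset.mul_sum, Finset.mul_sum, Finset.mul_sum, ← Finset.sum_add_distrib,
    ← Finset.sum_add_distrib, ← e0]
  refine Finset.sum_congr rfl fun x hx => ?_
  obtain ⟨h1, h2⟩ := Nat.mem_divisorsAntidiagonal.1 hx
  have hx1 : x.1 ≠ 0 := by
    rintro h0
    rw [h0, zero_mul] at h1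
    exact h2 h1.symm
  have hx2 : x.2 ≠ 0 := by
    rintro h0
    rw [h0, mul_zero] at h1
    exact h2 h1.symm
  have hx1' : (x.1 : ℝ) ≠ 0 := by exact_mod_cast hx1
  have hx2' : (x.2 : ℝ) ≠ 0 := by exact_mod_cast hx2
  have hlog : Real.log x.2 = Real.log q.1 - Real.log x.1 := by
    rw [← h1, Nat.cast_mul, Real.log_mul hx1' hx2']
    ring
  have e4 := W_4_scale L U (Real.log q.1) (Real.log q.2) (Real.log x.1) (U - L) hL.ne' rfl
  have e5 : A1 (Real.log x.1 / L, Real.log x.2 / L, Real.log q.2 / L) =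
      1 - Real.log q.2 / L + Real.log q.1 / L - 3 * ((Real.log q.1 - Real.log x.1) / L) := by
    rw [hlog]
    unfold A1
    simp only
    field_simp
    ring
  rw [e5, hlog]
  have e6 : 1 / 2 * ((Nat.totient x.1 : ℝ) / x.1 *
      (3 * (U + Real.log q.1 - Real.log q.2 - Real.log q.1) ^ 2 -
        3 * (U + Real.log q.1 - Real.log q.2 - Real.log x.1) ^ 2 + (U + Real.log q.1 - Real.log q.2) ^ 2)) =
      (Nat.totient x.1 : ℝ) / x.1 * (1 / 2 * (3 * (U + Real.log q.1 - Real.log q.2 - Real.log q.1) ^ 2 -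
        3 * (U + Real.log q.1 - Real.log q.2 - Real.log x.1) ^ 2 + (U + Real.log q.1 - Real.log q.2) ^ 2)) := by
    ring
  rw [e6, e4]
  ring

theorem S2_id (P : ℝ × ℝ × ℝ → ℝ) (T u : ℝ) (hT : 1 < T) :
    ∑ q ∈ idx T, cP P T q * mainT u q =
      Real.log T ^ 2 * wS P QQ T +
        (Real.log (u / (2 * Real.pi)) - Real.log T) * Real.log T * wS P A1 T +
        (Real.log (u / (2 * Real.pi)) - Real.log T) ^ 2 / 2 * wS P (fun _ => 1) T := by
  have hL : 0 < Real.log T := Real.log_pos hT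
  unfold wS
  rw [Finset.mul_sum, Finset.mul_sum, Finset.mul_sum, ← Finset.sum_add_distrib,
    ← Finset.sum_add_distrib]
  refine Finset.sum_congr rfl fun q hq => ?_
  have hq1 : 1 ≤ q.1 ∧ 1 ≤ q.2 := by
    simp only [idx, Finset.mem_filter, Finset.mem_product, Finset.mem_Icc] at hq
    exact ⟨hq.1.1.1, hq.1.2.1⟩
  have hm : (0 : ℝ) < q.1 := by exact_mod_cast hq1.1
  have hn : (0 : ℝ) < q.2 := by exact_mod_cast hq1.2
  have hmn : (0 : ℝ) < (q.1 : ℝ) * q.2 := mul_pos hm hn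
  have hr : ((q.1 : ℝ) * q.2) ^ (-(1 / 2) : ℝ) * ((q.1 : ℝ) * q.2) ^ (-(1 / 2) : ℝ) =
      ((q.1 : ℝ) * q.2)⁻¹ := by
    rw [← Real.rpow_add hmn, show (-(1 / 2) + -(1 / 2) : ℝ) = -1 by norm_num, Real.rpow_neg_one]
  have e1 : cP P T q = ((q.1 : ℝ) * q.2) ^ (-(1 / 2) : ℝ) * inS P T q := rfl
  unfold mainT
  rw [e1, mainS_inS T u hT q hq1.1]
  generalize ((q.1 : ℝ) * q.2) ^ (-(1 / 2) : ℝ) = a at hr ⊢
  rw [← hr]
  ring

end Pool.Agent.LibSM56.WL
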