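import Pool.Agent.LibSM56.W_Defs
import Pool.Agent.LibSM56.W_1
import Pool.Agent.LibSM56.W_3
import Pool.Agent.LibSM56.W_4

set_option autoImplicit false

namespace Pool.Agent.LibSM56.WL

open MeasureTheory Set Filter Topology
open Pool.Agent.LibZM Pool.Agent.LibSM47

/-! ROW W_5 (MEDIUM): second arithmetic sum. Template: `S2_limit'` in `LibSM47/H_03b.lean` (same proof: `weak5` with `R = QQ`, `A1`, `1`). -/

theorem S2_limit' (P : ℝ × ℝ × ℝ → ℝ) (ε ε₁ : ℝ) (hε : 0 < ε) (hε1 : 0 < ε₁) (hP : AdmP ε P) (θ : ℝ) (hθ : 0 < θ) :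
    ∃ T₀ : ℝ, ∀ T : ℝ, T₀ ≤ T → ∀ u : ℝ, ε₁ * T ≤ u → u ≤ T →
      |(∑ q ∈ idx T, cP P T q * mainT u q) - LibZM.Aconst 3 * J2 P * (Real.log T) ^ 7| ≤ θ * (Real.log T) ^ 7 := by
  have hQQ : Continuous QQ := by
    unfold QQ
    fun_prop
  have hA : Continuous A1 := by
    unfold A1
    fun_prop
  have w1 := weak5 P QQ hP.1 hP.2.1 (sup1_of_adm P ε hε hP) hQQ
  have w2 := weak5 P A1 hP.1 hP.2.1 (sup1_of_adm P ε hε hP) hA
  have w3 := weak5 P (fun _ => 1) hP.1 hP.2.1 (sup1_of_adm P ε hε hP) continuous_const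
  have hb : ∀ (R : ℝ × ℝ × ℝ → ℝ) (l : ℝ),
      Tendsto (fun T : ℝ => wS P R T / (Real.log T) ^ 5) atTop (𝓝 l) →
      ∀ᶠ T : ℝ in atTop, |wS P R T / (Real.log T) ^ 5| ≤ |l| + 1 := by
    intro R l h
    have h1 := h.abs.eventually (eventually_le_nhds (show |l| < |l| + 1 by linarith))
    exact h1
  have b2 := hb A1 _ w2
  have b3 := hb (fun _ => 1) _ w3
  set l2 := LibZM.Aconst 3 * ∫ v in Oct5, P (pr v) * A1 (pr' v) with hl2
  set l3 := LibZM.Aconst 3 * ∫ v in Oct5, P (pr v) * (fun _ => (1 : ℝ)) (pr' v) with hl3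
  set K := |Real.log ε₁| + Real.log (2 * Real.pi) with hK
  have hpi : 1 < 2 * Real.pi := by linarith [Real.pi_gt_three]
  have hK0 : 0 ≤ K := by
    have := Real.log_pos hpi
    positivity
  have b1 : ∀ᶠ T : ℝ in atTop, |wS P QQ T / (Real.log T) ^ 5 - LibZM.Aconst 3 * J2 P| ≤ θ / 2 := by
    have h1 := (Metric.tendsto_nhds.1 w1) (θ / 2) (by positivity)
    filter_upwards [h1] with T h2
    rw [Real.dist_eq] at h2
    exact h2.le
  have b4 : ∀ᶠ T : ℝ in atTop, (K * (|l2| + 1) + K ^ 2 / 2 * (|l3| + 1)) * (2 / θ) ≤ Real.log T :=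
    Real.tendsto_log_atTop.eventually (eventually_ge_atTop _)
  have b5 : ∀ᶠ T : ℝ in atTop, 1 ≤ Real.log T :=
    Real.tendsto_log_atTop.eventually (eventually_ge_atTop _)
  obtain ⟨T₀, hT₀⟩ := eventually_atTop.1 (b1.and (b2.and (b3.and (b4.and (b5.and
    (eventually_gt_atTop (1 : ℝ)))))))
  refine ⟨T₀, fun T hT u hu hu' => ?_⟩
  obtain ⟨c1, c2, c3, c4, c5, c6⟩ := hT₀ T hT
  rw [S2_id P T u c6]
  set L := Real.log T with hL
  have hL0 : 0 < L := by linarith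
  have hT0 : 0 < T := by linarith
  have hu0 : 0 < u := lt_of_lt_of_le (by positivity) hu
  set c := Real.log (u / (2 * Real.pi)) - L with hc
  have hcK : |c| ≤ K := by
    have d1 : c = Real.log (u / T) - Real.log (2 * Real.pi) := by
      rw [hc, hL, Real.log_div hu0.ne' (by positivity), Real.log_div hu0.ne' hT0.ne']
      ring
    have d2 : Real.log ε₁ ≤ Real.log (u / T) :=
      Real.log_le_log hε1 ((le_div_iff₀ hT0).2 hu)
    have d3 : Real.log (u / T) ≤ 0 :=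
      Real.log_nonpos (by positivity) ((div_le_one hT0).2 hu')
    have d4 := neg_abs_le (Real.log ε₁)
    have d5 := Real.log_pos hpi
    rw [d1, abs_le, hK]
    constructor
    · linarith
    · have d6 := abs_nonneg (Real.log ε₁)
      linarith
  have f1 : wS P QQ T = wS P QQ T / L ^ 5 * L ^ 5 := by field_simp
  have f2 : wS P A1 T = wS P A1 T / L ^ 5 * L ^ 5 := by field_simp
  have f3 : wS P (fun _ => 1) T = wS P (fun _ => 1) T / L ^ 5 * L ^ 5 := by field_simp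
  set s1 := wS P QQ T / L ^ 5 with hs1
  set s2 := wS P A1 T / L ^ 5 with hs2
  set s3 := wS P (fun _ => 1) T / L ^ 5 with hs3
  rw [f1, f2, f3]
  have g1 : L ^ 2 * (s1 * L ^ 5) + c * L * (s2 * L ^ 5) + c ^ 2 / 2 * (s3 * L ^ 5) -
      LibZM.Aconst 3 * J2 P * L ^ 7 =
      (s1 - LibZM.Aconst 3 * J2 P) * L ^ 7 + (c * s2 * L + c ^ 2 / 2 * s3) * L ^ 5 := by ring
  rw [g1]
  have g2 : |(s1 - LibZM.Aconst 3 * J2 P) * L ^ 7| ≤ θ / 2 * L ^ 7 := by
    rw [abs_mul, abs_of_pos (by positivity : 0 < L ^ 7)]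
    exact mul_le_mul_of_nonneg_right c1 (by positivity)
  have g3 : |c * s2 * L + c ^ 2 / 2 * s3| ≤ (K * (|l2| + 1) + K ^ 2 / 2 * (|l3| + 1)) * L := by
    have i1 : |c * s2 * L| ≤ K * (|l2| + 1) * L := by
      rw [abs_mul, abs_mul, abs_of_pos hL0]
      exact mul_le_mul_of_nonneg_right (mul_le_mul hcK c2 (abs_nonneg _) hK0) hL0.le
    have i2 : |c ^ 2 / 2 * s3| ≤ K ^ 2 / 2 * (|l3| + 1) := by
      rw [abs_mul, abs_of_nonneg (by positivity : 0 ≤ c ^ 2 / 2)]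
      have i3 : c ^ 2 ≤ K ^ 2 := by
        rw [← sq_abs c]
        exact pow_le_pow_left₀ (abs_nonneg _) hcK 2
      exact mul_le_mul (by linarith) c3 (abs_nonneg _) (by positivity)
    have i4 : K ^ 2 / 2 * (|l3| + 1) ≤ K ^ 2 / 2 * (|l3| + 1) * L :=
      le_mul_of_one_le_right (by positivity) c5
    calc |c * s2 * L + c ^ 2 / 2 * s3| ≤ |c * s2 * L| + |c ^ 2 / 2 * s3| := abs_add_le _ _
      _ ≤ K * (|l2| + 1) * L + K ^ 2 / 2 * (|l3| + 1) * L := by linarith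
      _ = _ := by ring
  have g4 : (K * (|l2| + 1) + K ^ 2 / 2 * (|l3| + 1)) * L ≤ θ / 2 * L ^ 2 := by
    have j1 : (K * (|l2| + 1) + K ^ 2 / 2 * (|l3| + 1)) ≤ θ / 2 * L := by
      have j2 := mul_le_mul_of_nonneg_left c4 (by positivity : 0 ≤ θ / 2)
      calc (K * (|l2| + 1) + K ^ 2 / 2 * (|l3| + 1)) = θ / 2 *
          ((K * (|l2| + 1) + K ^ 2 / 2 * (|l3| + 1)) * (2 / θ)) := by field_simp
        _ ≤ _ := j2
    calc _ ≤ θ / 2 * L * L := mul_le_mul_of_nonneg_right j1 hL0.le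
      _ = _ := by ring
  have g5 : |(c * s2 * L + c ^ 2 / 2 * s3) * L ^ 5| ≤ θ / 2 * L ^ 7 := by
    rw [abs_mul, abs_of_pos (by positivity : 0 < L ^ 5)]
    calc _ ≤ θ / 2 * L ^ 2 * L ^ 5 := mul_le_mul_of_nonneg_right (g3.trans g4) (by positivity)
      _ = _ := by ring
  calc _ ≤ |(s1 - LibZM.Aconst 3 * J2 P) * L ^ 7| + |(c * s2 * L + c ^ 2 / 2 * s3) * L ^ 5| :=
      abs_add_le _ _
    _ ≤ θ / 2 * L ^ 7 + θ / 2 * L ^ 7 := add_le_add g2 g5
    _ = θ * L ^ 7 := by ring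

end Pool.Agent.LibSM56.WL
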