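import Pool.Agent.LibSM56.W_3
import Pool.Agent.LibSM56.W_5

set_option autoImplicit false

namespace Pool.Agent.LibSM56

open MeasureTheory Set Filter Topology Complex ProbabilityTheory
open scoped NNReal ComplexConjugate
open Pool.Agent.LibZM Pool.Agent.LibSM47

/-- S1. -/
theorem S1_limit (P : ℝ × ℝ × ℝ → ℝ) (ε : ℝ) (hε : 0 < ε) (hP : AdmP ε P) :
    Tendsto (fun T : ℝ => (∑ q ∈ idx T, cP P T q ^ 2) / (Real.log T) ^ 5) atTop (𝓝 (LibZM.Aconst 3 * J1 P)) :=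
  WL.S1_limit' P ε hε hP

/-- S2, uniform in the centre `u`. -/
theorem S2_limit (P : ℝ × ℝ × ℝ → ℝ) (ε ε₁ : ℝ) (hε : 0 < ε) (hε1 : 0 < ε₁) (hP : AdmP ε P) (θ : ℝ) (hθ : 0 < θ) :
    ∃ T₀ : ℝ, ∀ T : ℝ, T₀ ≤ T → ∀ u : ℝ, ε₁ * T ≤ u → u ≤ T →
      |(∑ q ∈ idx T, cP P T q * mainT u q) - LibZM.Aconst 3 * J2 P * (Real.log T) ^ 7| ≤ θ * (Real.log T) ^ 7 :=
  WL.S2_limit' P ε ε₁ hε hε1 hP θ hθ

end Pool.Agent.LibSM56
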