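import Pool.Agent.LibSM56.W_09
import Pool.Agent.LibSM56.W_Main
import Pool.Agent.LibSM56.V_05

/-! # SM56: the three final forms, from the good points -/

set_option autoImplicit false

namespace Pool.Agent.LibSM56

open MeasureTheory Set Filter Topology Complex ProbabilityTheory
open scoped NNReal ComplexConjugate
open Pool.Agent.LibZM Pool.Agent.LibSM47

/-- The theorem for a region of good points. -/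
theorem interval_region (Ω : Set (ℝ × ℝ × ℝ)) (hΩ : IsOpen Ω ∧ Ω ⊆ Base ∧ ∀ z z' y : ℝ, (z, z', y) ∈ Ω → (z', z, y) ∈ Ω)
    (hgood : ∀ x ∈ Ω, x.1 ≤ x.2.1 → GoodAt x) (v : ℝ) (hv : (1 / 8) * (∫ x in Ω, Vd x ^ 2) = v / 725760)
    (θ : ℝ) (hθ : 0 < θ) :
    ∃ δ T₀ : ℝ, 0 < δ ∧ ∀ T : ℝ, T₀ ≤ T → ∀ a b : ℝ, 0 ≤ a → b ≤ T → T ^ (1 - δ) ≤ b - a →
      (LibZM.Aconst 3 * (2 * (v / 725760)) - θ) * (b - a) * (Real.log T) ^ 9 ≤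
        ∫ t in a..b, ‖riemannZeta (crit t)‖ ^ 6 := by
  rw [← hv]
  exact interval_all' Ω hΩ.1 hΩ.2.1 hΩ.2.2 hgood (fun P ε hε hP => S1_limit P ε hε hP)
    (fun P ε ε₁ hε hε1 hP θ' hθ' => S2_limit P ε ε₁ hε hε1 hP θ' hθ') θ hθ

/-- Parts (A) + (B) + LibSM47: constant 35.09. -/
theorem final_B (hB : ∀ x : ℝ × ℝ × ℝ, 0 < x.1 → 0 < x.2.1 → 0 < x.2.2 → x.1 + x.2.1 < 1 / 2 →
      x.1 + x.2.1 + x.2.2 < 1 → GoodAt x)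
    (h47 : ∀ x ∈ Base, 3 * (x.1 + x.2.1) / 2 + x.2.2 < 1 → GoodAt x) (θ : ℝ) (hθ : 0 < θ) :
    ∃ δ T₀ : ℝ, 0 < δ ∧ ∀ T : ℝ, T₀ ≤ T → ∀ a b : ℝ, 0 ≤ a → b ≤ T → T ^ (1 - δ) ≤ b - a →
      (LibZM.Aconst 3 * (2 * (1754720883 / 50000000 / 725760)) - θ) * (b - a) * (Real.log T) ^ 9 ≤
        ∫ t in a..b, ‖riemannZeta (crit t)‖ ^ 6 := by
  refine interval_region OmB OmB_ok (fun x hx _ => ?_) _ ?_ θ hθ
  · obtain ⟨hb, h1 | h2⟩ := hx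
    · exact hB x hb.1 hb.2.1 hb.2.2.1 h1 hb.2.2.2.1
    · exact h47 x hb h2
  · rw [OmB_iter, val1, val4]
    norm_num

/-- All parts: constant 40.10. -/
theorem final_A (hB : ∀ x : ℝ × ℝ × ℝ, 0 < x.1 → 0 < x.2.1 → 0 < x.2.2 → x.1 + x.2.1 < 1 / 2 →
      x.1 + x.2.1 + x.2.2 < 1 → GoodAt x)
    (hC : ∀ x ∈ Base, x.1 ≤ x.2.1 → 2 * (x.1 + x.2.1) + x.2.2 < 3 / 2 → x.1 < 1 / 2 - x.2.2 → GoodAt x)
    (θ : ℝ) (hθ : 0 < θ) :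
    ∃ δ T₀ : ℝ, 0 < δ ∧ ∀ T : ℝ, T₀ ≤ T → ∀ a b : ℝ, 0 ≤ a → b ≤ T → T ^ (1 - δ) ≤ b - a →
      (LibZM.Aconst 3 * (2 * (14967713 / 373248 / 725760)) - θ) * (b - a) * (Real.log T) ^ 9 ≤
        ∫ t in a..b, ‖riemannZeta (crit t)‖ ^ 6 := by
  refine interval_region OmA OmA_ok (fun x hx hz => ?_) _ OmA_value θ hθ
  obtain ⟨hb, h1 | ⟨h2, h3⟩⟩ := hx
  · exact hB x hb.1 hb.2.1 hb.2.2.1 h1 hb.2.2.2.1
  · exact hC x hb hz h2 (by rwa [min_eq_left hz] at h3)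

end Pool.Agent.LibSM56
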