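import Pool.Agent.LibSM56.Defs

/-! SM56 J_01 (ONLY MATHLIB + Defs, MEDIUM).  The linear substitution of the five variables,
`(x, y, z, s, a) ↦ (a, z - a, s - a, x - z - s + a, y)`, preserves the Lebesgue measure of ℝ⁵ (determinant ±1).
Plan: compose elementary maps: coordinate permutations of the nested product (`Prod.swap`, `MeasurableEquiv.prodAssoc`,
`MeasurePreserving.prod`, `volume_preserving_prodAssoc`, `Measure.measurePreserving_swap`) and shears
`(a, b) ↦ (a, b + f a)` (`MeasurePreserving.skew_product` with `map_add_right_eq_self` / `measurePreserving_add_right`), as in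
`LibSM47/H_04a.lean` (`H_04a_e`, `H_04a_mp`).  The map is a linear bijection (inverse: `a = v.1`, `z = v.1 + v.2.1`,
`s = v.1 + v.2.2.1`, `x = v.1 + v.2.1 + v.2.2.1 + v.2.2.2.1`, `y = v.2.2.2.2`), continuous, so it is a measurable embedding.
Another way: `MeasureTheory.Measure.map_linearMap_addHaar_eq_smul_addHaar` and a determinant. -/

set_option autoImplicit false

namespace Pool.Agent.LibSM56

open MeasureTheory Set Filter Topology Complex ProbabilityTheory
open scoped NNReal ComplexConjugate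
open Pool.Agent.LibZM Pool.Agent.LibSM47

/-- The substitution. -/
def sb (w : V5) : V5 :=
  (w.2.2.2.2, w.2.2.1 - w.2.2.2.2, w.2.2.2.1 - w.2.2.2.2, w.1 - w.2.2.1 - w.2.2.2.1 + w.2.2.2.2, w.2.1)

private theorem J_01_assoc {α β γ : Type} [MeasureSpace α] [MeasureSpace β] [MeasureSpace γ]
    [SFinite (volume : Measure α)] [SFinite (volume : Measure β)] [SFinite (volume : Measure γ)] :
    MeasurePreserving (fun p : (α × β) × γ => (p.1.1, p.1.2, p.2))
      (volume : Measure ((α × β) × γ)) (volume : Measure (α × β × γ)) :=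
  volume_preserving_prodAssoc

private theorem J_01_assoc' {α β γ : Type} [MeasureSpace α] [MeasureSpace β] [MeasureSpace γ]
    [SFinite (volume : Measure α)] [SFinite (volume : Measure β)] [SFinite (volume : Measure γ)] :
    MeasurePreserving (fun p : α × β × γ => ((p.1, p.2.1), p.2.2))
      (volume : Measure (α × β × γ)) (volume : Measure ((α × β) × γ)) :=
  MeasurePreserving.symm MeasurableEquiv.prodAssoc volume_preserving_prodAssoc

private theorem J_01_swap {α β : Type} [MeasureSpace α] [MeasureSpace β]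
    [SFinite (volume : Measure α)] [SFinite (volume : Measure β)] :
    MeasurePreserving (fun p : α × β => (p.2, p.1))
      (volume : Measure (α × β)) (volume : Measure (β × α)) :=
  Measure.measurePreserving_swap

private theorem J_01_sw {α β γ : Type} [MeasureSpace α] [MeasureSpace β] [MeasureSpace γ]
    [SFinite (volume : Measure α)] [SFinite (volume : Measure β)] [SFinite (volume : Measure γ)] :
    MeasurePreserving (fun p : α × β × γ => (p.2.1, p.1, p.2.2))
      (volume : Measure (α × β × γ)) (volume : Measure (β × α × γ)) := by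
  have h1 : MeasurePreserving (Prod.map (fun p : α × β => (p.2, p.1)) (id : γ → γ))
      (volume : Measure ((α × β) × γ)) (volume : Measure ((β × α) × γ)) :=
    J_01_swap.prod (MeasurePreserving.id _)
  exact J_01_assoc.comp (h1.comp J_01_assoc')

private theorem J_01_id {α β γ : Type} [MeasureSpace α] [MeasureSpace β] [MeasureSpace γ]
    [SFinite (volume : Measure α)] [SFinite (volume : Measure β)] [SFinite (volume : Measure γ)]
    {f : β → γ} (hf : MeasurePreserving f (volume : Measure β) (volume : Measure γ)) :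
    MeasurePreserving (fun p : α × β => (p.1, f p.2))
      (volume : Measure (α × β)) (volume : Measure (α × γ)) :=
  (MeasurePreserving.id _).prod hf

private theorem J_01_shear {α β : Type} [MeasureSpace α] [SFinite (volume : Measure α)]
    [AddGroup β] [MeasureSpace β] [SFinite (volume : Measure β)] [MeasurableAdd₂ β]
    (hi : (volume : Measure β).IsAddLeftInvariant) {f : α → β} (hf : Measurable f) :
    MeasurePreserving (fun p : α × β => (p.1, f p.1 + p.2))
      (volume : Measure (α × β)) (volume : Measure (α × β)) := by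
  refine (MeasurePreserving.id _).skew_product (g := fun a b => f a + b) ?_ ?_
  · exact (hf.comp measurable_fst).add measurable_snd
  · exact Filter.Eventually.of_forall fun a => map_add_left_eq_self _ _

private theorem J_01_i2 : (volume : Measure (ℝ × ℝ)).IsAddLeftInvariant :=
  inferInstanceAs ((volume : Measure ℝ).prod (volume : Measure ℝ)).IsAddLeftInvariant

private theorem J_01_i3 : (volume : Measure (ℝ × ℝ × ℝ)).IsAddLeftInvariant := by
  have := J_01_i2
  exact inferInstanceAs ((volume : Measure ℝ).prod (volume : Measure (ℝ × ℝ))).IsAddLeftInvariant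

private theorem J_01_i4 : (volume : Measure (ℝ × ℝ × ℝ × ℝ)).IsAddLeftInvariant := by
  have := J_01_i3
  exact inferInstanceAs ((volume : Measure ℝ).prod
    (volume : Measure (ℝ × ℝ × ℝ))).IsAddLeftInvariant

private theorem J_01_perm : MeasurePreserving
    (fun w : V5 => ((w.2.2.2.2, w.2.2.1, w.2.2.2.1, w.1, w.2.1) : V5))
    (volume : Measure V5) (volume : Measure V5) := by
  have h1 : MeasurePreserving (fun p : ℝ × ℝ × (ℝ × ℝ × ℝ) => ((p.1, p.2.1), p.2.2)) volume volume :=
    J_01_assoc'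
  have h2 : MeasurePreserving (fun p : (ℝ × ℝ) × (ℝ × ℝ × ℝ) => (p.2, p.1)) volume volume :=
    J_01_swap
  have h3 : MeasurePreserving (fun p : (ℝ × (ℝ × ℝ)) × (ℝ × ℝ) => (p.1.1, p.1.2, p.2))
    volume volume := J_01_assoc
  have h4 : MeasurePreserving (fun p : ℝ × ((ℝ × ℝ) × (ℝ × ℝ)) => (p.1, (p.2.1.1, p.2.1.2, p.2.2)))
    volume volume := J_01_id J_01_assoc
  have h5 : MeasurePreserving (fun p : ℝ × (ℝ × (ℝ × (ℝ × ℝ))) => (p.1, (p.2.2.1, p.2.1, p.2.2.2)))
    volume volume := J_01_id J_01_sw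
  have h6 : MeasurePreserving (fun p : ℝ × (ℝ × (ℝ × (ℝ × ℝ))) => (p.2.1, p.1, p.2.2))
    volume volume := J_01_sw
  exact h6.comp (h5.comp (h4.comp (h3.comp (h2.comp h1))))

theorem sb_mp : MeasurePreserving sb (volume : Measure V5) (volume : Measure V5) := by
  have s1 : MeasurePreserving (fun p : ℝ × (ℝ × ℝ × ℝ × ℝ) =>
      (p.1, ((-p.1, -p.1, -p.1, 0) : ℝ × ℝ × ℝ × ℝ) + p.2)) volume volume :=
    J_01_shear J_01_i4 (f := fun a : ℝ => ((-a, -a, -a, 0) : ℝ × ℝ × ℝ × ℝ)) (by fun_prop)
  have s2 : MeasurePreserving (fun p : ℝ × (ℝ × ℝ × ℝ) =>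
      (p.1, ((0, -p.1, 0) : ℝ × ℝ × ℝ) + p.2)) volume volume :=
    J_01_shear J_01_i3 (f := fun a : ℝ => ((0, -a, 0) : ℝ × ℝ × ℝ)) (by fun_prop)
  have s3 : MeasurePreserving (fun p : ℝ × (ℝ × ℝ) =>
      (p.1, ((-p.1, 0) : ℝ × ℝ) + p.2)) volume volume :=
    J_01_shear J_01_i2 (f := fun a : ℝ => ((-a, 0) : ℝ × ℝ)) (by fun_prop)
  have s4 : MeasurePreserving (fun p : ℝ × (ℝ × (ℝ × ℝ)) =>
      (p.1, (p.2.1, ((-p.2.1, 0) : ℝ × ℝ) + p.2.2))) volume volume := J_01_id s3
  have s5 := J_01_id (α := ℝ) (s4.comp s2)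
  have h := s5.comp (s1.comp J_01_perm)
  have he : sb = (fun p : ℝ × ℝ × ℝ × ℝ × ℝ => (p.1, ((fun p : ℝ × (ℝ × (ℝ × ℝ)) =>
      (p.1, (p.2.1, ((-p.2.1, 0) : ℝ × ℝ) + p.2.2))) ∘ fun p : ℝ × (ℝ × ℝ × ℝ) =>
      (p.1, ((0, -p.1, 0) : ℝ × ℝ × ℝ) + p.2)) p.2)) ∘ ((fun p : ℝ × (ℝ × ℝ × ℝ × ℝ) =>
      (p.1, ((-p.1, -p.1, -p.1, 0) : ℝ × ℝ × ℝ × ℝ) + p.2)) ∘
      fun w : V5 => ((w.2.2.2.2, w.2.2.1, w.2.2.2.1, w.1, w.2.1) : V5)) := by
    funext w
    obtain ⟨x, y, z, s, a⟩ := w
    simp only [sb, Function.comp_apply, Prod.mk_add_mk, Prod.mk.injEq]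
    refine ⟨trivial, ?_, ?_, ?_, ?_⟩ <;> ring
  rw [he]
  exact h

theorem sb_emb : MeasurableEmbedding sb := by
  have hc : Continuous sb := by
    unfold sb
    fun_prop
  refine hc.measurableEmbedding ?_
  rintro ⟨x, y, z, s, a⟩ ⟨x', y', z', s', a'⟩ h
  simp only [sb, Prod.mk.injEq] at h
  obtain ⟨h1, h2, h3, h4, h5⟩ := h
  subst h1 h5
  have hz : z = z' := by linarith
  have hs : s = s' := by linarith
  subst hz hs
  have hx : x = x' := by linarith
  rw [hx]

end Pool.Agent.LibSM56
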