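import Pool.Agent.LibSM56.J_01

/-! SM56 J_02 (MEDIUM).  From `sb_mp`, `sb_emb`: `pr (sb w) = (z, x - z, y)`, `pr' (sb w) = (s, x - s, y)` for `w = (x, y, z, s, a)`, and
`sb w ∈ Oct5 ↔ 0 < a ∧ a < z ∧ a < s ∧ z + s - x < a ∧ 0 < y`.  The function `1_{Oct5}(v) P(pr v) R(pr' v)` is integrable on ℝ⁵
(measurable, bounded, zero outside a bounded set: for `v ∈ Oct5` with `P (pr v) ≠ 0` all coordinates are in `[0, r]`; `R` is
continuous, so bounded on the bounded set).  `MeasurePreserving.integral_comp`, then `integral_prod` four times, and the inner integral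
over `a` is the length of `{a : max 0 (z+s-x) < a < min z s}`, i.e. `kk x z s` if `0 < z < x` and `0 < s < x`, else `0`
(also `x > 0` is then automatic). -/

set_option autoImplicit false

namespace Pool.Agent.LibSM56

open MeasureTheory Set Filter Topology Complex ProbabilityTheory
open scoped NNReal ComplexConjugate
open Pool.Agent.LibZM Pool.Agent.LibSM47

/-- The kernel `min(z, s, x-z, x-s)`. -/
def kk (x z s : ℝ) : ℝ := min (min z s) (min (x - z) (x - s))

private theorem J_02_iter (G : V5 → ℝ) (hG : Integrable G) :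
    ∫ w, G w = ∫ x, ∫ y, ∫ z, ∫ s, ∫ a, G (x, y, z, s, a) := by
  rw [show (∫ w, G w) = ∫ x, ∫ w', G (x, w') from integral_prod _ hG]
  apply integral_congr_ae
  filter_upwards [hG.prod_right_ae] with x hx
  rw [show (∫ w', G (x, w')) = ∫ y, ∫ w'', G (x, y, w'') from integral_prod _ hx]
  apply integral_congr_ae
  filter_upwards [hx.prod_right_ae] with y hy
  rw [show (∫ w'', G (x, y, w'')) = ∫ z, ∫ w3, G (x, y, z, w3) from integral_prod _ hy]
  apply integral_congr_ae
  filter_upwards [hy.prod_right_ae] with z hz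
  exact integral_prod _ hz

private theorem J_02_oct (x y z s a : ℝ) :
    sb (x, y, z, s, a) ∈ Oct5 ↔ (0 < y ∧ a ∈ Ioo (max 0 (z + s - x)) (min z s)) := by
  simp only [sb, Oct5, mem_prod, mem_Ioi, mem_Ioo, max_lt_iff, lt_min_iff]
  constructor
  · rintro ⟨h1, h2, h3, h4, h5⟩
    exact ⟨h5, ⟨h1, by linarith⟩, by linarith, by linarith⟩
  · rintro ⟨h5, ⟨h1, h4⟩, h2, h3⟩
    exact ⟨h1, by linarith, by linarith, by linarith, h5⟩

private theorem J_02_pr (x y z s a : ℝ) : pr (sb (x, y, z, s, a)) = (z, x - z, y) := by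
  simp only [sb, pr, Prod.mk.injEq]
  refine ⟨by ring, by ring, trivial⟩

private theorem J_02_pr' (x y z s a : ℝ) : pr' (sb (x, y, z, s, a)) = (s, x - s, y) := by
  simp only [sb, pr', Prod.mk.injEq]
  refine ⟨by ring, by ring, trivial⟩

private theorem J_02_len (x z s : ℝ) : min z s - max 0 (z + s - x) = kk x z s := by
  unfold kk
  rcases le_total z s with h | h
  · rw [min_eq_left h, min_eq_right (by linarith : x - s ≤ x - z)]
    rcases le_total 0 (z + s - x) with h2 | h2
    · rw [max_eq_right h2, min_eq_right (by linarith)]; ring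
    · rw [max_eq_left h2, min_eq_left (by linarith)]; ring
  · rw [min_eq_right h, min_eq_left (by linarith : x - z ≤ x - s)]
    rcases le_total 0 (z + s - x) with h2 | h2
    · rw [max_eq_right h2, min_eq_right (by linarith)]; ring
    · rw [max_eq_left h2, min_eq_left (by linarith)]; ring

private theorem J_02_inner (g : V5 → ℝ) (H : ℝ) (x y z s : ℝ) (hy : 0 < y)
    (hg : ∀ a, g (sb (x, y, z, s, a)) = H) :
    ∫ a, Oct5.indicator g (sb (x, y, z, s, a)) = H * max (kk x z s) 0 := by
  have h1 : (fun a : ℝ => Oct5.indicator g (sb (x, y, z, s, a))) =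
      (Ioo (max 0 (z + s - x)) (min z s)).indicator (fun _ => H) := by
    funext a
    by_cases ha : a ∈ Ioo (max 0 (z + s - x)) (min z s)
    · rw [indicator_of_mem ha, indicator_of_mem ((J_02_oct x y z s a).2 ⟨hy, ha⟩), hg]
    · rw [indicator_of_notMem ha, indicator_of_notMem]
      intro h
      exact ha ((J_02_oct x y z s a).1 h).2
  rw [h1, integral_indicator_const _ measurableSet_Ioo, Real.volume_real_Ioo, J_02_len, smul_eq_mul,
    mul_comm]

private theorem J_02_int (P R : ℝ × ℝ × ℝ → ℝ) (hP : Continuous P) (hc : HasCompactSupport P)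
    (hR : Continuous R) : Integrable (Oct5.indicator (fun v => P (pr v) * R (pr' v))) := by
  obtain ⟨r, hr⟩ : ∃ r : ℝ, ∀ p : ℝ × ℝ × ℝ, P p ≠ 0 → |p.1| ≤ r ∧ |p.2.1| ≤ r ∧ |p.2.2| ≤ r := by
    obtain ⟨r, hr⟩ := hc.isBounded.exists_norm_le
    refine ⟨r, fun p hp => ?_⟩
    have h1 := hr p (subset_tsupport _ hp)
    have h2 : ‖p.2‖ ≤ ‖p‖ := norm_snd_le p
    have h3 := norm_fst_le p
    have h4 := norm_fst_le p.2
    have h5 := norm_snd_le p.2
    simp only [Real.norm_eq_abs] at h3 h4 h5
    exact ⟨by linarith, by linarith, by linarith⟩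
  obtain ⟨B, hB⟩ : ∃ B : Set V5, B = Icc 0 r ×ˢ Icc 0 r ×ˢ Icc 0 r ×ˢ Icc 0 r ×ˢ Icc 0 r := ⟨_, rfl⟩
  have hBc : IsCompact B := by
    rw [hB]
    exact isCompact_Icc.prod (isCompact_Icc.prod (isCompact_Icc.prod (isCompact_Icc.prod isCompact_Icc)))
  have hpr : Continuous pr := by unfold pr; fun_prop
  have hpr' : Continuous pr' := by unfold pr'; fun_prop
  have hg : Continuous (fun v : V5 => P (pr v) * R (pr' v)) := (hP.comp hpr).mul (hR.comp hpr')
  have hO : MeasurableSet Oct5 := by
    unfold Oct5
    exact measurableSet_Ioi.prod (measurableSet_Ioi.prod (measurableSet_Ioi.prod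
      (measurableSet_Ioi.prod measurableSet_Ioi)))
  have h1 : Oct5.indicator (fun v => P (pr v) * R (pr' v)) =
      (Oct5 ∩ B).indicator (fun v => P (pr v) * R (pr' v)) := by
    funext v
    by_cases hv : v ∈ Oct5
    · by_cases hvB : v ∈ B
      · rw [indicator_of_mem hv, indicator_of_mem (show v ∈ Oct5 ∩ B from ⟨hv, hvB⟩)]
      · rw [indicator_of_mem hv, indicator_of_notMem (fun h : v ∈ Oct5 ∩ B => hvB h.2)]
        have h0 : P (pr v) = 0 := by
          by_contra h0
          apply hvB
          have h2 := hr _ h0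
          have h3 := hv
          simp only [Oct5, mem_prod, mem_Ioi] at h3
          obtain ⟨a1, a2, a3, a4, a5⟩ := h3
          simp only [pr] at h2
          obtain ⟨b1, b2, b3⟩ := h2
          rw [abs_le] at b1 b2 b3
          rw [hB]
          simp only [mem_prod, mem_Icc]
          exact ⟨⟨a1.le, by linarith⟩, ⟨a2.le, by linarith⟩, ⟨a3.le, by linarith⟩, ⟨a4.le, by linarith⟩,
            a5.le, by linarith⟩
        rw [h0, zero_mul]
    · rw [indicator_of_notMem hv, indicator_of_notMem (fun h : v ∈ Oct5 ∩ B => hv h.1)]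
  rw [h1, integrable_indicator_iff (hO.inter hBc.measurableSet)]
  exact (hg.continuousOn.integrableOn_compact hBc).mono_set inter_subset_right

theorem bil_eq (P R : ℝ × ℝ × ℝ → ℝ) (hP : Continuous P) (hc : HasCompactSupport P) (hR : Continuous R) :
    ∫ v in Oct5, P (pr v) * R (pr' v) =
      ∫ x in Ioi (0 : ℝ), ∫ y in Ioi (0 : ℝ), ∫ z in (0 : ℝ)..x, ∫ s in (0 : ℝ)..x,
        P (z, x - z, y) * R (s, x - s, y) * kk x z s := by
  have hO : MeasurableSet Oct5 := by
    unfold Oct5
    exact measurableSet_Ioi.prod (measurableSet_Ioi.prod (measurableSet_Ioi.prod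
      (measurableSet_Ioi.prod measurableSet_Ioi)))
  obtain ⟨g, hgd⟩ : ∃ g : V5 → ℝ, g = fun v => P (pr v) * R (pr' v) := ⟨_, rfl⟩
  have hF : Integrable (Oct5.indicator g) := by rw [hgd]; exact J_02_int P R hP hc hR
  have hG : Integrable (fun w => Oct5.indicator g (sb w)) :=
    (sb_mp.integrable_comp_emb sb_emb).2 hF
  have e1 : ∫ v in Oct5, P (pr v) * R (pr' v) = ∫ w, Oct5.indicator g (sb w) := by
    rw [sb_mp.integral_comp sb_emb, integral_indicator hO, hgd]
  rw [e1, J_02_iter _ hG]
  have hgv : ∀ x y z s a, g (sb (x, y, z, s, a)) = P (z, x - z, y) * R (s, x - s, y) := by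
    intro x y z s a
    rw [hgd]
    simp only [J_02_pr, J_02_pr']
  have hy0 : ∀ x y, ¬ 0 < y → ∫ z, ∫ s, ∫ a, Oct5.indicator g (sb (x, y, z, s, a)) = 0 := by
    intro x y hy
    have : ∀ z s a, Oct5.indicator g (sb (x, y, z, s, a)) = 0 := by
      intro z s a
      apply indicator_of_notMem
      intro h
      exact hy ((J_02_oct x y z s a).1 h).1
    simp only [this, integral_zero]
  have hin : ∀ x y z s, 0 < y → ∫ a, Oct5.indicator g (sb (x, y, z, s, a)) =
      P (z, x - z, y) * R (s, x - s, y) * max (kk x z s) 0 := by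
    intro x y z s hy
    exact J_02_inner g _ x y z s hy (hgv x y z s)
  have hk1 : ∀ x z s, kk x z s ≤ z := fun x z s => (min_le_left _ _).trans (min_le_left _ _)
  have hk2 : ∀ x z s, kk x z s ≤ s := fun x z s => (min_le_left _ _).trans (min_le_right _ _)
  have hk3 : ∀ x z s, kk x z s ≤ x - z := fun x z s => (min_le_right _ _).trans (min_le_left _ _)
  have hk4 : ∀ x z s, kk x z s ≤ x - s := fun x z s => (min_le_right _ _).trans (min_le_right _ _)
  have hx0 : ∀ x y, ¬ 0 < x → ∫ z, ∫ s, ∫ a, Oct5.indicator g (sb (x, y, z, s, a)) = 0 := by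
    intro x y hx
    by_cases hy : 0 < y
    · have : ∀ z s, ∫ a, Oct5.indicator g (sb (x, y, z, s, a)) = 0 := by
        intro z s
        rw [hin x y z s hy, max_eq_right, mul_zero]
        have := hk1 x z s
        have := hk3 x z s
        linarith
      simp only [this, integral_zero]
    · exact hy0 x y hy
  have hmain : ∀ x y, 0 < x → 0 < y → ∫ z, ∫ s, ∫ a, Oct5.indicator g (sb (x, y, z, s, a)) =
      ∫ z in (0 : ℝ)..x, ∫ s in (0 : ℝ)..x, P (z, x - z, y) * R (s, x - s, y) * kk x z s := by
    intro x y hx hy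
    rw [intervalIntegral.integral_of_le hx.le]
    rw [← setIntegral_eq_integral_of_forall_compl_eq_zero (s := Ioc 0 x)]
    · apply setIntegral_congr_fun measurableSet_Ioc
      intro z hz
      simp only
      rw [intervalIntegral.integral_of_le hx.le]
      rw [← setIntegral_eq_integral_of_forall_compl_eq_zero (s := Ioc 0 x)]
      · apply setIntegral_congr_fun measurableSet_Ioc
        intro s hs
        simp only
        rw [hin x y z s hy, max_eq_left]
        unfold kk
        have := hz.1; have := hz.2; have := hs.1; have := hs.2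
        exact le_min (le_min (by linarith) (by linarith)) (le_min (by linarith) (by linarith))
      · intro s hs
        rw [hin x y z s hy, max_eq_right, mul_zero]
        by_contra h
        push Not at h
        apply hs
        have := hk2 x z s
        have := hk4 x z s
        exact ⟨by linarith, by linarith⟩
    · intro z hz
      have : ∀ s, ∫ a, Oct5.indicator g (sb (x, y, z, s, a)) = 0 := by
        intro s
        rw [hin x y z s hy, max_eq_right, mul_zero]
        by_contra h
        push Not at h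
        apply hz
        have := hk1 x z s
        have := hk3 x z s
        exact ⟨by linarith, by linarith⟩
      simp only [this, integral_zero]
  rw [← setIntegral_eq_integral_of_forall_compl_eq_zero (s := Ioi (0 : ℝ))]
  · apply setIntegral_congr_fun measurableSet_Ioi
    intro x hx
    simp only
    rw [← setIntegral_eq_integral_of_forall_compl_eq_zero (s := Ioi (0 : ℝ))]
    · apply setIntegral_congr_fun measurableSet_Ioi
      intro y hy
      exact hmain x y hx hy
    · intro y hy
      exact hy0 x y hy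
  · intro x hx
    have : ∀ y, ∫ z, ∫ s, ∫ a, Oct5.indicator g (sb (x, y, z, s, a)) = 0 := fun y => hx0 x y hx
    simp only [this, integral_zero]

end Pool.Agent.LibSM56
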