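import Pool.Agent.LibSM56.Defs

/-! SM56 J_03.  Fubini after the shear `(z, z', y) ↦ (x, y, z)`, `x = z + z'`. -/

set_option autoImplicit false

namespace Pool.Agent.LibSM56

open MeasureTheory Set Filter Topology Complex ProbabilityTheory
open scoped NNReal ComplexConjugate
open Pool.Agent.LibZM Pool.Agent.LibSM47

/-- the map `((x, y), z) ↦ (z, x - z, y)` -/
private def J_03_e : ((ℝ × ℝ) × ℝ) ≃ᵐ (ℝ × ℝ × ℝ) where
  toFun w := (w.2, w.1.1 - w.2, w.1.2)
  invFun v := ((v.1 + v.2.1, v.2.2), v.1)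
  left_inv w := by simp
  right_inv v := by simp
  measurable_toFun := by
    show Measurable fun w : (ℝ × ℝ) × ℝ => (w.2, w.1.1 - w.2, w.1.2)
    fun_prop
  measurable_invFun := by
    show Measurable fun v : ℝ × ℝ × ℝ => ((v.1 + v.2.1, v.2.2), v.1)
    fun_prop

private theorem J_03_mp : MeasurePreserving J_03_e (volume : Measure ((ℝ × ℝ) × ℝ))
    (volume : Measure (ℝ × ℝ × ℝ)) := by
  have h5 : MeasurePreserving (Prod.swap : (ℝ × ℝ) × ℝ → ℝ × (ℝ × ℝ))
      (volume : Measure ((ℝ × ℝ) × ℝ)) (volume : Measure (ℝ × ℝ × ℝ)) :=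
    Measure.measurePreserving_swap (μ := (volume : Measure (ℝ × ℝ))) (ν := (volume : Measure ℝ))
  have h4 : MeasurePreserving (fun p : ℝ × (ℝ × ℝ) => (p.1, (p.2.1 - p.1, p.2.2)))
      (volume : Measure (ℝ × ℝ × ℝ)) (volume : Measure (ℝ × ℝ × ℝ)) := by
    refine (MeasurePreserving.id (volume : Measure ℝ)).skew_product
      (g := fun (z : ℝ) (q : ℝ × ℝ) => (q.1 - z, q.2)) ?_ ?_
    · show Measurable fun p : ℝ × (ℝ × ℝ) => (p.2.1 - p.1, p.2.2)
      fun_prop
    · refine Filter.Eventually.of_forall fun z => ?_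
      exact ((measurePreserving_sub_right (volume : Measure ℝ) z).prod
        (MeasurePreserving.id (volume : Measure ℝ))).map_eq
  exact h4.comp h5

theorem tri_eq (f : ℝ × ℝ × ℝ → ℝ) (hf : IntegrableOn f Oct) :
    ∫ x in Oct, f x = ∫ x in Ioi (0 : ℝ), ∫ y in Ioi (0 : ℝ), ∫ z in (0 : ℝ)..x, f (z, x - z, y) := by
  have hmo : MeasurableSet (J_03_e ⁻¹' Oct) :=
    J_03_e.measurable ((measurableSet_Ioi).prod ((measurableSet_Ioi).prod measurableSet_Ioi))
  have hs := J_03_mp.setIntegral_preimage_emb J_03_e.measurableEmbedding f Oct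
  have hi := (J_03_mp.integrableOn_comp_preimage J_03_e.measurableEmbedding (f := f) (s := Oct)).2 hf
  have hmem : ∀ w : (ℝ × ℝ) × ℝ, w ∈ J_03_e ⁻¹' Oct ↔ 0 < w.2 ∧ w.2 < w.1.1 ∧ 0 < w.1.2 := by
    intro w
    show (0 < w.2 ∧ 0 < w.1.1 - w.2 ∧ 0 < w.1.2) ↔ _
    rw [sub_pos]
  rw [← hs]
  have hi' : IntegrableOn (fun w : (ℝ × ℝ) × ℝ => f (w.2, w.1.1 - w.2, w.1.2)) (J_03_e ⁻¹' Oct) volume :=
    hi.congr_fun (fun w _ => rfl) hmo
  have hF : ∀ w : (ℝ × ℝ) × ℝ, f (J_03_e w) = f (w.2, w.1.1 - w.2, w.1.2) := fun w => rfl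
  simp only [hF]
  rw [← integral_indicator hmo]
  have hi2 : Integrable ((J_03_e ⁻¹' Oct).indicator
      (fun w : (ℝ × ℝ) × ℝ => f (w.2, w.1.1 - w.2, w.1.2))) (volume.prod volume) :=
    (integrable_indicator_iff hmo).2 hi'
  have key : ∫ w, (J_03_e ⁻¹' Oct).indicator (fun w : (ℝ × ℝ) × ℝ => f (w.2, w.1.1 - w.2, w.1.2)) w =
      ∫ p : ℝ × ℝ, ∫ t : ℝ, (J_03_e ⁻¹' Oct).indicator
        (fun w : (ℝ × ℝ) × ℝ => f (w.2, w.1.1 - w.2, w.1.2)) (p, t) :=
    integral_prod _ hi2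
  have hin : ∀ x y : ℝ, ∫ t : ℝ, (J_03_e ⁻¹' Oct).indicator
      (fun w : (ℝ × ℝ) × ℝ => f (w.2, w.1.1 - w.2, w.1.2)) ((x, y), t) =
      (Ioi (0 : ℝ)).indicator (fun x' => (Ioi (0 : ℝ)).indicator
        (fun y' => ∫ z in (0 : ℝ)..x', f (z, x' - z, y')) y) x := by
    intro x y
    by_cases hx : 0 < x
    · rw [indicator_of_mem (show x ∈ Ioi (0 : ℝ) from hx)]
      by_cases hy : 0 < y
      · rw [indicator_of_mem (show y ∈ Ioi (0 : ℝ) from hy)]
        have h6 : ∀ t : ℝ, (J_03_e ⁻¹' Oct).indicator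
            (fun w : (ℝ × ℝ) × ℝ => f (w.2, w.1.1 - w.2, w.1.2)) ((x, y), t) =
            (Ioo (0 : ℝ) x).indicator (fun t => f (t, x - t, y)) t := by
          intro t
          by_cases ht : t ∈ Ioo (0 : ℝ) x
          · rw [indicator_of_mem ht, indicator_of_mem]
            exact (hmem ((x, y), t)).2 ⟨ht.1, ht.2, hy⟩
          · rw [indicator_of_notMem ht, indicator_of_notMem]
            intro h
            have h7 := (hmem ((x, y), t)).1 h
            exact ht ⟨h7.1, h7.2.1⟩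
        simp only [h6]
        rw [integral_indicator measurableSet_Ioo, intervalIntegral.integral_of_le hx.le,
          integral_Ioc_eq_integral_Ioo]
      · rw [indicator_of_notMem (show y ∉ Ioi (0 : ℝ) from hy)]
        have h6 : ∀ t : ℝ, (J_03_e ⁻¹' Oct).indicator
            (fun w : (ℝ × ℝ) × ℝ => f (w.2, w.1.1 - w.2, w.1.2)) ((x, y), t) = 0 := by
          intro t
          rw [indicator_of_notMem]
          intro h
          exact hy ((hmem ((x, y), t)).1 h).2.2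
        simp only [h6]
        exact integral_zero _ _
    · rw [indicator_of_notMem (show x ∉ Ioi (0 : ℝ) from hx)]
      have h6 : ∀ t : ℝ, (J_03_e ⁻¹' Oct).indicator
          (fun w : (ℝ × ℝ) × ℝ => f (w.2, w.1.1 - w.2, w.1.2)) ((x, y), t) = 0 := by
        intro t
        rw [indicator_of_notMem]
        intro h
        have h7 := (hmem ((x, y), t)).1 h
        exact hx (h7.1.trans h7.2.1)
      simp only [h6]
      exact integral_zero _ _
  have hi3 : Integrable (fun p : ℝ × ℝ => ∫ t : ℝ, (J_03_e ⁻¹' Oct).indicator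
        (fun w : (ℝ × ℝ) × ℝ => f (w.2, w.1.1 - w.2, w.1.2)) (p, t)) (volume.prod volume) :=
    hi2.integral_prod_left
  have key2 : ∫ p : ℝ × ℝ, ∫ t : ℝ, (J_03_e ⁻¹' Oct).indicator
        (fun w : (ℝ × ℝ) × ℝ => f (w.2, w.1.1 - w.2, w.1.2)) (p, t) =
      ∫ x : ℝ, ∫ y : ℝ, ∫ t : ℝ, (J_03_e ⁻¹' Oct).indicator
        (fun w : (ℝ × ℝ) × ℝ => f (w.2, w.1.1 - w.2, w.1.2)) ((x, y), t) :=
    integral_prod _ hi3
  rw [key, key2]
  simp only [hin]
  have hx : ∀ x : ℝ, ∫ y : ℝ, (Ioi (0 : ℝ)).indicator (fun x' => (Ioi (0 : ℝ)).indicator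
        (fun y' => ∫ z in (0 : ℝ)..x', f (z, x' - z, y')) y) x =
      (Ioi (0 : ℝ)).indicator (fun x' => ∫ y in Ioi (0 : ℝ), ∫ z in (0 : ℝ)..x', f (z, x' - z, y)) x := by
    intro x
    by_cases hx : x ∈ Ioi (0 : ℝ)
    · simp only [indicator_of_mem hx]
      rw [integral_indicator measurableSet_Ioi]
    · simp only [indicator_of_notMem hx]
      exact integral_zero _ _
  simp only [hx]
  rw [integral_indicator measurableSet_Ioi]

end Pool.Agent.LibSM56
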