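import Pool.Agent.LibSM56.J_02

/-! SM56 J_04 (ONLY MATHLIB + the definition `kk`, MEDIUM).  One variable identity.  `G z = ∫_0^x w'(s) kk x z s ds = -2 ∫_0^z w` for
`0 ≤ z ≤ x`: integrate by parts on the three pieces of the piecewise linear function `s ↦ kk x z s` (for `z ≤ x/2`: `s` on `[0,z]`,
`z` on `[z,x-z]`, `x-s` on `[x-z,x]`; for `z ≥ x/2`: `s` on `[0,x-z]`, `x-z` on `[x-z,z]`, `x-s` on `[z,x]`), and the antisymmetry
`w (x-s) = - w s` gives `∫_{x-z}^x w = -∫_0^z w`.  Then `∫_0^x w' G = [w G]_0^x - ∫ w G' = 2 ∫_0^x w²` (`w 0 = w x = 0`). -/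

set_option autoImplicit false

namespace Pool.Agent.LibSM56

open MeasureTheory Set Filter Topology Complex ProbabilityTheory
open scoped NNReal ComplexConjugate
open Pool.Agent.LibZM Pool.Agent.LibSM47

private lemma J_04_tail (x : ℝ) (w : ℝ → ℝ) (ha : ∀ z, w (x - z) = - w z) (z : ℝ) :
    ∫ s in (x - z)..x, w s = - ∫ s in (0 : ℝ)..z, w s := by
  have h : ∫ s in (0 : ℝ)..z, w (x - s) = ∫ s in (x - z)..(x - 0), w s :=
    intervalIntegral.integral_comp_sub_left w x
  rw [sub_zero] at h
  rw [← h, ← intervalIntegral.integral_neg]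
  exact intervalIntegral.integral_congr fun s _ => ha s

private lemma J_04_low (x : ℝ) (w w' : ℝ → ℝ) (hw : ∀ z, HasDerivAt w (w' z) z) (hc : Continuous w')
    (ha : ∀ z, w (x - z) = - w z) (z : ℝ) (hz : 0 ≤ z) (hz2 : z ≤ x / 2) :
    ∫ s in (0 : ℝ)..x, w' s * kk x z s = -2 * ∫ s in (0 : ℝ)..z, w s := by
  have hkk : Continuous (fun s => kk x z s) := by unfold kk; fun_prop
  have hI : ∀ a b, IntervalIntegrable (fun s => w' s * kk x z s) volume a b :=
    fun a b => (hc.mul hkk).intervalIntegrable a b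
  have hwx : w x = - w 0 := by simpa using ha 0
  rw [← intervalIntegral.integral_add_adjacent_intervals (hI 0 (x - z)) (hI (x - z) x),
    ← intervalIntegral.integral_add_adjacent_intervals (hI 0 z) (hI z (x - z))]
  have e1 : ∫ s in (0 : ℝ)..z, w' s * kk x z s = z * w z - ∫ s in (0 : ℝ)..z, w s := by
    have h1 : ∫ s in (0 : ℝ)..z, w' s * kk x z s = ∫ s in (0 : ℝ)..z, s * w' s := by
      apply intervalIntegral.integral_congr
      intro s hs
      rw [uIcc_of_le hz] at hs
      have h2 : kk x z s = s := by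
        unfold kk
        rw [min_eq_right hs.2, min_eq_left]
        apply le_min <;> linarith [hs.1, hs.2]
      change w' s * kk x z s = s * w' s
      rw [h2, mul_comm]
    rw [h1, intervalIntegral.integral_mul_deriv_eq_deriv_mul (u := fun s => s) (u' := fun _ => 1)
      (v := w) (v' := w') (fun s _ => hasDerivAt_id s) (fun s _ => hw s)
      (continuous_const.intervalIntegrable _ _) (hc.intervalIntegrable _ _)]
    simp
  have e2 : ∫ s in z..(x - z), w' s * kk x z s = z * (w (x - z) - w z) := by
    have h1 : ∫ s in z..(x - z), w' s * kk x z s = ∫ s in z..(x - z), z * w' s := by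
      apply intervalIntegral.integral_congr
      intro s hs
      rw [uIcc_of_le (by linarith)] at hs
      have h2 : kk x z s = z := by
        unfold kk
        rw [min_eq_left hs.1, min_eq_left]
        apply le_min <;> linarith [hs.1, hs.2]
      change w' s * kk x z s = z * w' s
      rw [h2, mul_comm]
    rw [h1, intervalIntegral.integral_const_mul,
      intervalIntegral.integral_eq_sub_of_hasDerivAt (fun s _ => hw s) (hc.intervalIntegrable _ _)]
  have e3 : ∫ s in (x - z)..x, w' s * kk x z s = - (z * w (x - z)) + ∫ s in (x - z)..x, w s := by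
    have h1 : ∫ s in (x - z)..x, w' s * kk x z s = ∫ s in (x - z)..x, (x - s) * w' s := by
      apply intervalIntegral.integral_congr
      intro s hs
      rw [uIcc_of_le (by linarith)] at hs
      have h2 : kk x z s = x - s := by
        unfold kk
        rw [min_eq_right (a := x - z) (b := x - s) (by linarith [hs.1]), min_eq_right]
        apply le_min <;> linarith [hs.1, hs.2]
      change w' s * kk x z s = (x - s) * w' s
      rw [h2, mul_comm]
    rw [h1, intervalIntegral.integral_mul_deriv_eq_deriv_mul (u := fun s => x - s) (u' := fun _ => -1)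
      (v := w) (v' := w') (fun s _ => by simpa using (hasDerivAt_id s).const_sub x) (fun s _ => hw s)
      (continuous_const.intervalIntegrable _ _) (hc.intervalIntegrable _ _)]
    simp
  rw [e1, e2, e3, J_04_tail x w ha, ha z]
  ring

private lemma J_04_all (x : ℝ) (w w' : ℝ → ℝ) (hw : ∀ z, HasDerivAt w (w' z) z) (hc : Continuous w')
    (ha : ∀ z, w (x - z) = - w z) (z : ℝ) (hz : 0 ≤ z) (hz2 : z ≤ x) :
    ∫ s in (0 : ℝ)..x, w' s * kk x z s = -2 * ∫ s in (0 : ℝ)..z, w s := by
  rcases le_or_gt z (x / 2) with h | h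
  · exact J_04_low x w w' hw hc ha z hz h
  · have hwc : Continuous w := continuous_iff_continuousAt.2 fun z => (hw z).continuousAt
    have h1 := J_04_low x w w' hw hc ha (x - z) (by linarith) (by linarith)
    have h2 : ∀ s, kk x (x - z) s = kk x z s := by
      intro s
      unfold kk
      rw [sub_sub_cancel]
      rw [min_comm (x - z) s, min_min_min_comm, min_comm (s) z, min_comm (x - z) (x - s),
        min_min_min_comm]
    rw [show (∫ s in (0 : ℝ)..x, w' s * kk x z s) = ∫ s in (0 : ℝ)..x, w' s * kk x (x - z) s by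
      simp only [h2], h1]
    have h3 := intervalIntegral.integral_add_adjacent_intervals
      (hwc.intervalIntegrable (μ := volume) 0 (x - z)) (hwc.intervalIntegrable (x - z) x)
    have h4 := J_04_tail x w ha z
    have h5 := J_04_tail x w ha x
    rw [sub_self] at h5
    linarith

theorem ker_sq (x : ℝ) (hx : 0 < x) (w w' : ℝ → ℝ) (hw : ∀ z, HasDerivAt w (w' z) z) (hc : Continuous w') (h0 : w 0 = 0)
    (ha : ∀ z, w (x - z) = - w z) :
    ∫ z in (0 : ℝ)..x, ∫ s in (0 : ℝ)..x, w' z * w' s * kk x z s = 2 * ∫ z in (0 : ℝ)..x, w z ^ 2 := by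
  have hwc : Continuous w := continuous_iff_continuousAt.2 fun z => (hw z).continuousAt
  have hwx : w x = 0 := by simpa [h0] using ha 0
  have h1 : ∫ z in (0 : ℝ)..x, ∫ s in (0 : ℝ)..x, w' z * w' s * kk x z s =
      ∫ z in (0 : ℝ)..x, -2 * ((∫ s in (0 : ℝ)..z, w s) * w' z) := by
    apply intervalIntegral.integral_congr
    intro z hz
    rw [uIcc_of_le hx.le] at hz
    change ∫ s in (0 : ℝ)..x, w' z * w' s * kk x z s = -2 * ((∫ s in (0 : ℝ)..z, w s) * w' z)
    rw [show (∫ s in (0 : ℝ)..x, w' z * w' s * kk x z s) = ∫ s in (0 : ℝ)..x, w' z * (w' s * kk x z s) by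
      simp only [mul_assoc], intervalIntegral.integral_const_mul, J_04_all x w w' hw hc ha z hz.1 hz.2]
    ring
  have hW : ∀ z : ℝ, HasDerivAt (fun z => ∫ s in (0 : ℝ)..z, w s) (w z) z := fun z =>
    intervalIntegral.integral_hasDerivAt_right (hwc.intervalIntegrable _ _)
      (hwc.stronglyMeasurableAtFilter _ _) hwc.continuousAt
  have h2 : ∫ z in (0 : ℝ)..x, (∫ s in (0 : ℝ)..z, w s) * w' z = - ∫ z in (0 : ℝ)..x, w z ^ 2 := by
    rw [intervalIntegral.integral_mul_deriv_eq_deriv_mul (u := fun z => ∫ s in (0 : ℝ)..z, w s) (u' := w)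
      (v := w) (v' := w') (fun s _ => hW s) (fun s _ => hw s)
      (hwc.intervalIntegrable _ _) (hc.intervalIntegrable _ _)]
    rw [hwx, h0]
    simp [sq]
  rw [h1, intervalIntegral.integral_const_mul, h2]
  ring

end Pool.Agent.LibSM56
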