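import Pool.Agent.LibSM56.J_02

/-! SM56 J_05 (ONLY MATHLIB + Defs, SHORT/MEDIUM).  `ker_Q`: with `Y = 1 - y`, `QQ (s, x - s, y) = (1/2)(3Y² - 3(Y+x-s)² + (Y+x)²)`; split `[0,x]`
at the two kinks of `s ↦ kk x z s` (`z` and `x-z`), polynomial integrals.  `ker_Q'`: integrate by parts with
`g z = (z(x-z)/2)(Y² - xY + z(x-z)/2)`, `g' z = (1/2)(x-2z)(Y-z)(Y-(x-z))`, `g 0 = g x = 0`. -/

set_option autoImplicit false

namespace Pool.Agent.LibSM56

open MeasureTheory Set Filter Topology Complex ProbabilityTheory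
open scoped NNReal ComplexConjugate
open Pool.Agent.LibZM Pool.Agent.LibSM47

private lemma J_05_ftc (a b : ℝ) (F f : ℝ → ℝ) (h : ∀ s, HasDerivAt F (f s) s) (hc : Continuous f) :
    ∫ s in a..b, f s = F b - F a :=
  intervalIntegral.integral_eq_sub_of_hasDerivAt (fun s _ => h s) (hc.intervalIntegrable _ _)

private lemma J_05_kk_symm (x z s : ℝ) : kk x (x - z) s = kk x z s := by
  unfold kk
  have h : x - (x - z) = z := by ring
  rw [h]
  rw [min_min_min_comm, min_comm (x - z) z, ← min_min_min_comm]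

private lemma J_05_cont (x y z : ℝ) : Continuous fun s : ℝ => QQ (s, x - s, y) * kk x z s := by
  unfold QQ kk
  fun_prop

private lemma J_05_half (x y z : ℝ) (hz : 0 ≤ z) (hzx : z ≤ x - z) :
    ∫ s in (0 : ℝ)..x, QQ (s, x - s, y) * kk x z s =
      z * (x - z) / 2 * ((1 - y) ^ 2 - x * (1 - y) + z * (x - z) / 2) := by
  have hi : ∀ a b : ℝ, IntervalIntegrable (fun s : ℝ => QQ (s, x - s, y) * kk x z s) volume a b :=
    fun a b => (J_05_cont x y z).intervalIntegrable a b
  rw [← intervalIntegral.integral_add_adjacent_intervals (hi 0 z) (hi z x),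
    ← intervalIntegral.integral_add_adjacent_intervals (hi z (x - z)) (hi (x - z) x)]
  have e1 : ∫ s in (0 : ℝ)..z, QQ (s, x - s, y) * kk x z s =
      ∫ s in (0 : ℝ)..z, (1 / 2) * (3 * (1 - y) ^ 2 - 3 * (1 - y + x - s) ^ 2 + (1 - y + x) ^ 2) * s := by
    refine intervalIntegral.integral_congr fun s hs => ?_
    rw [uIcc_of_le hz] at hs
    have hk : kk x z s = s := by
      unfold kk
      rw [min_eq_right hs.2, min_eq_left]
      exact le_min (by linarith [hs.2]) (by linarith [hs.2])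
    simp only [hk]
    unfold QQ
    ring
  have e2 : ∫ s in z..(x - z), QQ (s, x - s, y) * kk x z s =
      ∫ s in z..(x - z), (1 / 2) * (3 * (1 - y) ^ 2 - 3 * (1 - y + x - s) ^ 2 + (1 - y + x) ^ 2) * z := by
    refine intervalIntegral.integral_congr fun s hs => ?_
    rw [uIcc_of_le hzx] at hs
    have hk : kk x z s = z := by
      unfold kk
      rw [min_eq_left hs.1, min_eq_left]
      exact le_min hzx (by linarith [hs.2])
    simp only [hk]
    unfold QQ
    ring
  have e3 : ∫ s in (x - z)..x, QQ (s, x - s, y) * kk x z s =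
      ∫ s in (x - z)..x, (1 / 2) * (3 * (1 - y) ^ 2 - 3 * (1 - y + x - s) ^ 2 + (1 - y + x) ^ 2) * (x - s) := by
    refine intervalIntegral.integral_congr fun s hs => ?_
    rw [uIcc_of_le (by linarith)] at hs
    have hk : kk x z s = x - s := by
      unfold kk
      rw [min_eq_left (show z ≤ s by linarith [hs.1]), min_eq_right (show x - s ≤ x - z by linarith [hs.1]),
        min_eq_right (show x - s ≤ z by linarith [hs.1])]
    simp only [hk]
    unfold QQ
    ring
  rw [e1, e2, e3]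
  rw [J_05_ftc 0 z (fun s => (1 / 2) * ((3 * (1 - y) ^ 2 + (1 - y + x) ^ 2) * (s ^ 2 / 2)
      - 3 * ((1 - y + x) ^ 2 * (s ^ 2 / 2) - 2 * (1 - y + x) * (s ^ 3 / 3) + s ^ 4 / 4))) _ ?_ (by fun_prop),
    J_05_ftc z (x - z) (fun s => (1 / 2) * ((3 * (1 - y) ^ 2 + (1 - y + x) ^ 2) * s
      - 3 * ((1 - y + x) ^ 2 * s - 2 * (1 - y + x) * (s ^ 2 / 2) + s ^ 3 / 3)) * z) _ ?_ (by fun_prop),
    J_05_ftc (x - z) x (fun s => (1 / 2) * ((3 * (1 - y) ^ 2 + (1 - y + x) ^ 2) * s
      - 3 * ((1 - y + x) ^ 2 * s - 2 * (1 - y + x) * (s ^ 2 / 2) + s ^ 3 / 3)) * x -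
      (1 / 2) * ((3 * (1 - y) ^ 2 + (1 - y + x) ^ 2) * (s ^ 2 / 2)
      - 3 * ((1 - y + x) ^ 2 * (s ^ 2 / 2) - 2 * (1 - y + x) * (s ^ 3 / 3) + s ^ 4 / 4))) _ ?_ (by fun_prop)]
  · ring
  · intro s
    have h1 := hasDerivAt_id s
    have h2 := h1.pow 2
    have h3 := h1.pow 3
    have h4 := h1.pow 4
    have H := ((((h1.const_mul (3 * (1 - y) ^ 2 + (1 - y + x) ^ 2)).sub
      ((((h1.const_mul ((1 - y + x) ^ 2)).sub ((h2.div_const 2).const_mul (2 * (1 - y + x)))).add
        (h3.div_const 3)).const_mul 3)).const_mul (1 / 2)).mul_const x).sub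
      ((((h2.div_const 2).const_mul (3 * (1 - y) ^ 2 + (1 - y + x) ^ 2)).sub
      (((((h2.div_const 2).const_mul ((1 - y + x) ^ 2)).sub ((h3.div_const 3).const_mul (2 * (1 - y + x)))).add
        (h4.div_const 4)).const_mul 3)).const_mul (1 / 2))
    refine H.congr_deriv ?_
    simp only [id]
    ring
  · intro s
    have h1 := hasDerivAt_id s
    have h2 := h1.pow 2
    have h3 := h1.pow 3
    have H := (((h1.const_mul (3 * (1 - y) ^ 2 + (1 - y + x) ^ 2)).sub
      ((((h1.const_mul ((1 - y + x) ^ 2)).sub ((h2.div_const 2).const_mul (2 * (1 - y + x)))).add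
        (h3.div_const 3)).const_mul 3)).const_mul (1 / 2)).mul_const z
    refine H.congr_deriv ?_
    simp only [id]
    ring
  · intro s
    have h1 := hasDerivAt_id s
    have h2 := h1.pow 2
    have h3 := h1.pow 3
    have h4 := h1.pow 4
    have H := ((((h2.div_const 2).const_mul (3 * (1 - y) ^ 2 + (1 - y + x) ^ 2)).sub
      (((((h2.div_const 2).const_mul ((1 - y + x) ^ 2)).sub ((h3.div_const 3).const_mul (2 * (1 - y + x)))).add
        (h4.div_const 4)).const_mul 3)).const_mul (1 / 2))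
    refine H.congr_deriv ?_
    simp only [id]
    ring

theorem ker_Q (x y z : ℝ) (hz : 0 ≤ z) (hzx : z ≤ x) :
    ∫ s in (0 : ℝ)..x, QQ (s, x - s, y) * kk x z s =
      z * (x - z) / 2 * ((1 - y) ^ 2 - x * (1 - y) + z * (x - z) / 2) := by
  rcases le_total z (x - z) with h | h
  · exact J_05_half x y z hz h
  · have h1 := J_05_half x y (x - z) (by linarith) (by linarith)
    simp only [J_05_kk_symm] at h1
    rw [h1]
    ring

theorem ker_Q' (x y : ℝ) (hx : 0 < x) (w w' : ℝ → ℝ) (hw : ∀ z, HasDerivAt w (w' z) z) (hc : Continuous w') :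
    ∫ z in (0 : ℝ)..x, ∫ s in (0 : ℝ)..x, (- w' z) * QQ (s, x - s, y) * kk x z s =
      (1 / 2) * ∫ z in (0 : ℝ)..x, w z * Vd (z, x - z, y) := by
  have hwc : Continuous w := continuous_iff_continuousAt.2 fun z => (hw z).continuousAt
  have e1 : ∫ z in (0 : ℝ)..x, ∫ s in (0 : ℝ)..x, (- w' z) * QQ (s, x - s, y) * kk x z s =
      ∫ z in (0 : ℝ)..x, - ((z * (x - z) / 2 * ((1 - y) ^ 2 - x * (1 - y) + z * (x - z) / 2)) * w' z) := by
    refine intervalIntegral.integral_congr fun z hz => ?_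
    rw [uIcc_of_le hx.le] at hz
    have e2 : ∀ s : ℝ, (- w' z) * QQ (s, x - s, y) * kk x z s = (- w' z) * (QQ (s, x - s, y) * kk x z s) :=
      fun s => by ring
    simp only [e2]
    rw [intervalIntegral.integral_const_mul, ker_Q x y z hz.1 hz.2]
    ring
  have hg : ∀ z ∈ uIcc (0 : ℝ) x, HasDerivAt
      (fun z : ℝ => z * (x - z) / 2 * ((1 - y) ^ 2 - x * (1 - y) + z * (x - z) / 2))
      ((1 / 2) * Vd (z, x - z, y)) z := by
    intro z _
    have h1 := hasDerivAt_id z
    have h2 := h1.mul (h1.const_sub x)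
    have h3 := (h2.div_const 2)
    have H := h3.mul ((h3.const_add ((1 - y) ^ 2 - x * (1 - y))))
    refine H.congr_deriv ?_
    simp only [id, Vd, Pi.mul_apply]
    ring
  have hVc : Continuous fun z : ℝ => (1 / 2) * Vd (z, x - z, y) := by
    unfold Vd
    fun_prop
  rw [e1, intervalIntegral.integral_neg,
    intervalIntegral.integral_mul_deriv_eq_deriv_mul hg (fun z _ => hw z)
      (hVc.intervalIntegrable _ _) (hc.intervalIntegrable _ _)]
  rw [← intervalIntegral.integral_const_mul]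
  have e3 : ∫ z in (0 : ℝ)..x, (1 / 2) * Vd (z, x - z, y) * w z = ∫ z in (0 : ℝ)..x, (1 / 2) * (w z * Vd (z, x - z, y)) :=
    intervalIntegral.integral_congr fun z _ => by ring
  rw [e3]
  ring

end Pool.Agent.LibSM56
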