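import Pool.Agent.LibSM56.J_03
import Pool.Agent.LibSM56.J_04
import Pool.Agent.LibSM56.J_05

/-! SM56 J_06 (MEDIUM).  For fixed `x > 0`, `y` put `w z = W (z, x - z, y)`; by the chain rule `w' z = fderiv W (z, x-z, y) (1, -1, 0) =
- dW W (z, x-z, y)`.  `J1 (dW W)`: `bil_eq` with `P = R = dW W`, `ker_sq`, and `tri_eq` backwards with `f = W²` (integrable: continuous with
compact support).  `J2 (dW W)`: `bil_eq` with `R = QQ`, `ker_Q'`, `tri_eq` with `f = W * Vd`.  `w 0 = W (0, x, y) = 0` by `h0`. -/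

set_option autoImplicit false

namespace Pool.Agent.LibSM56

open MeasureTheory Set Filter Topology Complex ProbabilityTheory
open scoped NNReal ComplexConjugate
open Pool.Agent.LibZM Pool.Agent.LibSM47

/-- The derivative in the direction `(-1, 1, 0)`. -/
noncomputable def dW (W : ℝ × ℝ × ℝ → ℝ) (x : ℝ × ℝ × ℝ) : ℝ := fderiv ℝ W x (-1, 1, 0)

private lemma J_06_cont (W : ℝ × ℝ × ℝ → ℝ) (hW : ContDiff ℝ 1 W) : Continuous (dW W) :=
  (hW.continuous_fderiv (by norm_num)).clm_apply continuous_const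

private lemma J_06_supp (W : ℝ × ℝ × ℝ → ℝ) (hc : HasCompactSupport W) : HasCompactSupport (dW W) :=
  hc.fderiv_apply ℝ (-1, 1, 0)

private lemma J_06_der (W : ℝ × ℝ × ℝ → ℝ) (hW : ContDiff ℝ 1 W) (x y z : ℝ) :
    HasDerivAt (fun z : ℝ => W (z, x - z, y)) (- dW W (z, x - z, y)) z := by
  have h1 : HasDerivAt (fun z : ℝ => ((z, x - z, y) : ℝ × ℝ × ℝ)) (1, -1, 0) z :=
    (hasDerivAt_id z).prodMk (((hasDerivAt_id z).const_sub x).prodMk (hasDerivAt_const z y))
  have h2 : HasFDerivAt W (fderiv ℝ W (z, x - z, y)) (z, x - z, y) :=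
    (hW.differentiable (by norm_num) _).hasFDerivAt
  have h3 := h2.comp_hasDerivAt z h1
  refine h3.congr_deriv ?_
  unfold dW
  rw [← map_neg]
  congr 1
  simp

private lemma J_06_dcont (W : ℝ × ℝ × ℝ → ℝ) (hW : ContDiff ℝ 1 W) (x y : ℝ) :
    Continuous fun z : ℝ => - dW W (z, x - z, y) := by
  have h := J_06_cont W hW
  fun_prop

theorem J1_dW (W : ℝ × ℝ × ℝ → ℝ) (hW : ContDiff ℝ 1 W) (hc : HasCompactSupport W)
    (ha : ∀ z z' y : ℝ, W (z', z, y) = - W (z, z', y)) (h0 : ∀ z' y : ℝ, W (0, z', y) = 0) :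
    J1 (dW W) = 2 * ∫ x in Oct, W x ^ 2 := by
  have hWc : Continuous W := hW.continuous
  have hint : IntegrableOn (fun x => 2 * W x ^ 2) Oct := by
    have h1 : Continuous fun x => 2 * W x ^ 2 := by fun_prop
    have h2 : HasCompactSupport fun x => 2 * W x ^ 2 := by
      have h3 := hc.comp_left (g := fun r : ℝ => 2 * r ^ 2) (by norm_num)
      exact h3
    exact (h1.integrable_of_hasCompactSupport h2).integrableOn
  unfold J1
  rw [bil_eq (dW W) (dW W) (J_06_cont W hW) (J_06_supp W hc) (J_06_cont W hW), ← integral_const_mul,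
    tri_eq _ hint]
  refine setIntegral_congr_fun measurableSet_Ioi fun x hx => ?_
  refine setIntegral_congr_fun measurableSet_Ioi fun y _ => ?_
  have hx' : (0 : ℝ) < x := hx
  have h := ker_sq x hx' (fun z => W (z, x - z, y)) (fun z => - dW W (z, x - z, y))
    (fun z => J_06_der W hW x y z) (J_06_dcont W hW x y) (h0 _ _) (fun z => by
      have e : x - (x - z) = z := by ring
      simp only [e]
      exact ha z (x - z) y)
  simp only [neg_mul_neg] at h
  rw [h, ← intervalIntegral.integral_const_mul]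

theorem J2_dW (W : ℝ × ℝ × ℝ → ℝ) (hW : ContDiff ℝ 1 W) (hc : HasCompactSupport W) :
    J2 (dW W) = (1 / 2) * ∫ x in Oct, W x * Vd x := by
  have hWc : Continuous W := hW.continuous
  have hVc : Continuous Vd := by unfold Vd; fun_prop
  have hQc : Continuous QQ := by unfold QQ; fun_prop
  have hint : IntegrableOn (fun x => (1 / 2) * (W x * Vd x)) Oct := by
    have h1 : Continuous fun x => (1 / 2) * (W x * Vd x) := by fun_prop
    have h2 : HasCompactSupport fun x => (1 / 2) * (W x * Vd x) := by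
      have h3 : HasCompactSupport (fun x => W x * Vd x) := hc.mul_right
      exact h3.comp_left (g := fun r : ℝ => (1 / 2) * r) (by norm_num)
    exact (h1.integrable_of_hasCompactSupport h2).integrableOn
  unfold J2
  rw [bil_eq (dW W) QQ (J_06_cont W hW) (J_06_supp W hc) hQc, ← integral_const_mul, tri_eq _ hint]
  refine setIntegral_congr_fun measurableSet_Ioi fun x hx => ?_
  refine setIntegral_congr_fun measurableSet_Ioi fun y _ => ?_
  have hx' : (0 : ℝ) < x := hx
  have h := ker_Q' x y hx' (fun z => W (z, x - z, y)) (fun z => - dW W (z, x - z, y))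
    (fun z => J_06_der W hW x y z) (J_06_dcont W hW x y)
  simp only [neg_neg] at h
  rw [h, ← intervalIntegral.integral_const_mul]

end Pool.Agent.LibSM56
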