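import Pool.Agent.LibSM56.J_06

/-! SM56 J_07 (SHORT).  `W = Vd ψ / 4`: antisymmetric because `Vd` is antisymmetric and `ψ` is symmetric; zero at `z = 0` because
`tsupport ψ ⊆ Oct`.  `2 ∫ W² = (1/8) ∫ Vd² ψ²`, `(1/2) ∫ W Vd = (1/8) ∫ Vd² ψ`, so
`2 J2 - J1 = (1/8) ∫_Oct Vd² (2ψ - ψ²)`.  Continuity of `dW W`: `ContDiff.continuous_fderiv`; support: `support_fderiv_subset`. -/

set_option autoImplicit false

namespace Pool.Agent.LibSM56

open MeasureTheory Set Filter Topology Complex ProbabilityTheory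
open scoped NNReal ComplexConjugate
open Pool.Agent.LibZM Pool.Agent.LibSM47

/-- The weight attached to the cut-off `ψ`. -/
noncomputable def Pw (ψ : ℝ × ℝ × ℝ → ℝ) : ℝ × ℝ × ℝ → ℝ := dW (fun x => Vd x * ψ x / 4)

private theorem J_07_Vd : ContDiff ℝ 1 Vd := by
  have h : ContDiff ℝ 1 (fun x : ℝ × ℝ × ℝ => (x.2.1 - x.1) * (1 - x.2.2 - x.1) * (1 - x.2.2 - x.2.1)) := by
    fun_prop
  exact h

private theorem J_07_W (ψ : ℝ × ℝ × ℝ → ℝ) (hψ : ContDiff ℝ 1 ψ) :
    ContDiff ℝ 1 (fun x => Vd x * ψ x / 4) :=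
  (J_07_Vd.mul hψ).div_const 4

theorem Pw_cont (ψ : ℝ × ℝ × ℝ → ℝ) (hψ : ContDiff ℝ 1 ψ) : Continuous (Pw ψ) := by
  have h := (J_07_W ψ hψ).continuous_fderiv (by norm_num)
  exact h.clm_apply continuous_const

theorem Pw_supp (ψ : ℝ × ℝ × ℝ → ℝ) : tsupport (Pw ψ) ⊆ tsupport ψ := by
  have h1 : tsupport (fun x => Vd x * ψ x / 4) ⊆ tsupport ψ := by
    refine closure_mono fun x hx => ?_
    rw [Function.mem_support] at hx ⊢
    intro h
    exact hx (by rw [h]; ring)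
  refine closure_minimal ?_ (isClosed_tsupport _)
  intro x hx
  refine h1 (support_fderiv_subset ℝ ?_)
  rw [Function.mem_support] at hx ⊢
  intro h
  refine hx ?_
  unfold Pw dW
  rw [h]
  rfl

theorem Pw_J (ψ : ℝ × ℝ × ℝ → ℝ) (hψ : ContDiff ℝ 1 ψ) (hc : HasCompactSupport ψ) (ho : tsupport ψ ⊆ Oct)
    (hs : ∀ z z' y : ℝ, ψ (z', z, y) = ψ (z, z', y)) :
    2 * J2 (Pw ψ) - J1 (Pw ψ) = (1 / 8) * ∫ x in Oct, Vd x ^ 2 * (2 * ψ x - ψ x ^ 2) := by
  have hW := J_07_W ψ hψ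
  have hWc : HasCompactSupport (fun x => Vd x * ψ x / 4) := by
    refine hc.mono' ?_
    intro x hx
    refine subset_tsupport _ ?_
    rw [Function.mem_support] at hx ⊢
    intro h
    exact hx (by rw [h]; ring)
  have ha : ∀ z z' y : ℝ, (fun x => Vd x * ψ x / 4) (z', z, y) = - (fun x => Vd x * ψ x / 4) (z, z', y) := by
    intro z z' y
    simp only [hs z z' y, Vd]
    ring
  have h0 : ∀ z' y : ℝ, (fun x => Vd x * ψ x / 4) (0, z', y) = 0 := by
    intro z' y
    have h : ψ (0, z', y) = 0 := by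
      refine image_eq_zero_of_notMem_tsupport fun h => ?_
      have h1 := ho h
      simp [Oct] at h1
    simp only [h]
    ring
  have e1 := J1_dW _ hW hWc ha h0
  have e2 := J2_dW _ hW hWc
  unfold Pw
  rw [e1, e2]
  have i1 : IntegrableOn (fun x => (Vd x * ψ x / 4) * Vd x) Oct := by
    have h : Continuous (fun x => (Vd x * ψ x / 4) * Vd x) := hW.continuous.mul J_07_Vd.continuous
    exact (h.integrable_of_hasCompactSupport hWc.mul_right).integrableOn
  have i2 : IntegrableOn (fun x => (Vd x * ψ x / 4) ^ 2) Oct := by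
    have h : Continuous (fun x => (Vd x * ψ x / 4) ^ 2) := hW.continuous.pow 2
    refine (h.integrable_of_hasCompactSupport ?_).integrableOn
    refine hWc.mono' ?_
    intro x hx
    refine subset_tsupport _ ?_
    rw [Function.mem_support] at hx ⊢
    intro h
    exact hx (by rw [h]; ring)
  have e3 : 2 * ((1 / 2) * ∫ x in Oct, (Vd x * ψ x / 4) * Vd x) - 2 * ∫ x in Oct, (Vd x * ψ x / 4) ^ 2 =
      (∫ x in Oct, (Vd x * ψ x / 4) * Vd x) - ∫ x in Oct, 2 * (Vd x * ψ x / 4) ^ 2 := by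
    rw [integral_const_mul]
    ring
  refine e3.trans ?_
  rw [← integral_sub i1 (i2.const_mul 2), ← integral_const_mul]
  refine integral_congr_ae (Eventually.of_forall fun x => ?_)
  simp only
  ring

end Pool.Agent.LibSM56
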