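import Pool.Agent.LibSM56.Defs

/-! SM56 J_08 (ONLY MATHLIB + Defs, MEDIUM).  Existence of the cut-off.  `Ω` is open, symmetric, inside `Oct` and bounded.  Choose a compact
`K ⊆ Ω` with `∫_{Ω \ K} Vd² < θ` (inner regularity of the finite measure `Vd² dx` on `Ω`: `IsOpen.exists_lt_isCompact`, or exhaust `Ω` by
the compact sets `{x | 1/n ≤ infDist x Ωᶜ}` and dominated convergence), a smooth `φ` with `0 ≤ φ ≤ 1`, `φ = 1` on `K ∪ σK` (`σ` the swap of the
first two coordinates), compact support in `Ω` (`exists_contDiff_tsupport_subset`, `exists_contMDiff_zero_one_...`, or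
`exists_smooth_zero_one...` as you find it), and `ψ (z,z',y) = φ (z,z',y) φ (z',z,y)`.  Then `0 ≤ ψ ≤ 1`, `ψ = 1` on `K`, so
`2ψ - ψ² ≥ 0` everywhere and `= 1` on `K`. -/

set_option autoImplicit false

namespace Pool.Agent.LibSM56

open MeasureTheory Set Filter Topology Complex ProbabilityTheory
open scoped NNReal ComplexConjugate
open Pool.Agent.LibZM Pool.Agent.LibSM47

private theorem J_08_vd : Continuous (fun x : ℝ × ℝ × ℝ => Vd x ^ 2) := by
  unfold Vd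
  fun_prop

theorem exists_cut (Ω : Set (ℝ × ℝ × ℝ)) (hΩ : IsOpen Ω) (hO : Ω ⊆ Oct) (hb : Bornology.IsBounded Ω)
    (hs : ∀ z z' y : ℝ, (z, z', y) ∈ Ω → (z', z, y) ∈ Ω) (θ : ℝ) (hθ : 0 < θ) :
    ∃ ψ : ℝ × ℝ × ℝ → ℝ, ContDiff ℝ 1 ψ ∧ HasCompactSupport ψ ∧ tsupport ψ ⊆ Ω ∧
      (∀ z z' y : ℝ, ψ (z', z, y) = ψ (z, z', y)) ∧
      (∫ x in Ω, Vd x ^ 2) - θ ≤ ∫ x in Oct, Vd x ^ 2 * (2 * ψ x - ψ x ^ 2) := by
  have hcl : IsCompact (closure Ω) := hb.isCompact_closure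
  obtain ⟨B, hB⟩ := hcl.exists_bound_of_continuousOn (f := fun x : ℝ × ℝ × ℝ => Vd x ^ 2)
    J_08_vd.continuousOn
  have hint : IntegrableOn (fun x : ℝ × ℝ × ℝ => Vd x ^ 2) Ω :=
    (J_08_vd.continuousOn.integrableOn_compact hcl).mono_set subset_closure
  have hvol : volume Ω ≠ ⊤ := hb.measure_lt_top.ne
  have hB1 : 0 < |B| + 1 := by positivity
  obtain ⟨K, hKΩ, hK, hKv⟩ := hΩ.measurableSet.exists_isCompact_diff_lt (μ := volume) hvol
    (ε := ENNReal.ofReal (θ / (|B| + 1))) (by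
      rw [Ne, ENNReal.ofReal_eq_zero, not_le]
      positivity)
  set σ : ℝ × ℝ × ℝ → ℝ × ℝ × ℝ := fun x => (x.2.1, x.1, x.2.2) with hσ
  have hσc : Continuous σ := by
    rw [hσ]
    fun_prop
  have hσΩ : ∀ x ∈ Ω, σ x ∈ Ω := fun x hx => hs x.1 x.2.1 x.2.2 hx
  have hK'c : IsCompact (K ∪ σ '' K) := hK.union (hK.image hσc)
  have hK'Ω : K ∪ σ '' K ⊆ Ω := by
    rintro x (hx | ⟨y, hy, rfl⟩)
    · exact hKΩ hx
    · exact hσΩ y (hKΩ hy)
  obtain ⟨L, hL, hKL, hLΩ⟩ := exists_compact_between hK'c hΩ hK'Ω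
  obtain ⟨f, hf0, hf1, hf2⟩ := exists_contMDiffMap_zero_one_of_isClosed (n := 1)
    (modelWithCornersSelf ℝ (ℝ × ℝ × ℝ)) (s := (interior L)ᶜ) (t := K ∪ σ '' K)
    isOpen_interior.isClosed_compl hK'c.isClosed (disjoint_compl_left_iff_subset.2 hKL)
  set φ : ℝ × ℝ × ℝ → ℝ := fun x => f x with hφ
  have hφc : ContDiff ℝ 1 φ := f.contMDiff.contDiff
  have hφsupp : Function.support φ ⊆ L := by
    intro x hx
    by_contra h
    exact hx (hf0 (fun h' => h (interior_subset h')))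
  have hφt : tsupport φ ⊆ L := closure_minimal hφsupp hL.isClosed
  have hσd : ContDiff ℝ 1 σ := by
    rw [hσ]
    fun_prop
  set ψ : ℝ × ℝ × ℝ → ℝ := fun x => φ x * φ (σ x) with hψ
  have hψd : ContDiff ℝ 1 ψ := hφc.mul (hφc.comp hσd)
  have hψs : tsupport ψ ⊆ L := (tsupport_mul_subset_left (f := φ) (g := fun x => φ (σ x))).trans hφt
  have hψc : HasCompactSupport ψ := hL.of_isClosed_subset (isClosed_tsupport ψ) hψs
  have hψ0 : ∀ x, 0 ≤ ψ x := fun x => mul_nonneg (hf2 x).1 (hf2 (σ x)).1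
  have hψ1 : ∀ x, ψ x ≤ 1 := fun x => mul_le_one₀ (hf2 x).2 (hf2 (σ x)).1 (hf2 (σ x)).2
  have hψK : ∀ x ∈ K, ψ x = 1 := by
    intro x hx
    have h1 : φ x = 1 := hf1 (Or.inl hx)
    have h2 : φ (σ x) = 1 := hf1 (Or.inr ⟨x, hx, rfl⟩)
    simp only [hψ, h1, h2, mul_one]
  refine ⟨ψ, hψd, hψc, hψs.trans hLΩ, fun z z' y => by simp only [hψ, hσ]; ring, ?_⟩
  have hg0 : ∀ x, 0 ≤ Vd x ^ 2 * (2 * ψ x - ψ x ^ 2) := by
    intro x
    have h1 := hψ0 x
    have h2 := hψ1 x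
    have h3 : 0 ≤ 2 * ψ x - ψ x ^ 2 := by nlinarith
    positivity
  have hgc : Continuous (fun x => Vd x ^ 2 * (2 * ψ x - ψ x ^ 2)) :=
    J_08_vd.mul ((continuous_const.mul hψd.continuous).sub (hψd.continuous.pow 2))
  have hgi : Integrable (fun x => Vd x ^ 2 * (2 * ψ x - ψ x ^ 2)) := by
    refine hgc.integrable_of_hasCompactSupport ?_
    refine hψc.mono fun x hx => ?_
    rw [Function.mem_support] at hx ⊢
    intro h
    exact hx (by rw [h]; ring)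
  have hstep1 : ∫ x in K, Vd x ^ 2 * (2 * ψ x - ψ x ^ 2) ≤
      ∫ x in Oct, Vd x ^ 2 * (2 * ψ x - ψ x ^ 2) :=
    setIntegral_mono_set hgi.integrableOn (Eventually.of_forall hg0)
      (HasSubset.Subset.eventuallyLE (hKΩ.trans hO))
  have hstep2 : ∫ x in K, Vd x ^ 2 * (2 * ψ x - ψ x ^ 2) = ∫ x in K, Vd x ^ 2 := by
    refine setIntegral_congr_fun hK.measurableSet fun x hx => ?_
    simp only [hψK x hx]
    ring
  have hstep3 : ∫ x in Ω, Vd x ^ 2 = (∫ x in K, Vd x ^ 2) + ∫ x in Ω \ K, Vd x ^ 2 := by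
    rw [← setIntegral_union disjoint_sdiff_right (hΩ.measurableSet.diff hK.measurableSet)
      (hint.mono_set hKΩ) (hint.mono_set sdiff_subset), union_diff_cancel hKΩ]
  have hstep4 : ∫ x in Ω \ K, Vd x ^ 2 ≤ θ := by
    have hlt : volume (Ω \ K) < ⊤ := hKv.trans ENNReal.ofReal_lt_top
    have h1 : ‖∫ x in Ω \ K, Vd x ^ 2‖ ≤ (|B| + 1) * volume.real (Ω \ K) :=
      norm_setIntegral_le_of_norm_le_const hlt fun x hx =>
        (hB x (subset_closure hx.1)).trans ((le_abs_self B).trans (by linarith))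
    have h2 : volume.real (Ω \ K) ≤ θ / (|B| + 1) := by
      rw [Measure.real]
      exact ENNReal.toReal_le_of_le_ofReal (by positivity) hKv.le
    have h3 := mul_le_mul_of_nonneg_left h2 hB1.le
    rw [mul_div_cancel₀ _ hB1.ne'] at h3
    exact (le_abs_self _).trans ((h1.trans h3))
  linarith

end Pool.Agent.LibSM56
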