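import Pool.Agent.LibSM56.Defs

/-! SM56 J_09 (ONLY MATHLIB + `bx`, MEDIUM/STRONG).  Uniform approximation by finite sums of smooth product weights on small boxes.
`b t = Real.smoothTransition (t + 1) - Real.smoothTransition t` is smooth, `0 ≤ b` (`Real.smoothTransition.monotone`, if it is there; else use
`|b| ≤ 1` and at most 27 terms), zero for `|t| ≥ 1`, and `∑_{j=-M}^{M} b (t - j) = 1` for `|t| ≤ M` (telescoping).  `K = tsupport P` is
compact; the balls `ball x (κ x / 2)`, `x ∈ K`, cover it: finite subcover `x_1, …, x_r`.  Take `N` with `1/N < min_i κ(x_i)/2` and with modulus of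
continuity of `P` at `2/N` at most `η` (uniform continuity: `hc.uniformContinuous_of_continuous hP` or similar), and
`Q v = ∑_{j ∈ [-M,M]³} P(j/N) b(N v.1 - j.1) b(N v.2.1 - j.2) b(N v.2.2 - j.3)`, `M` large (`P = 0` outside `[-M/N + 1, M/N - 1]³`).  Then
`P v - Q v = ∑ (P v - P(j/N)) b b b`, so `|P - Q| ≤ η`.  If `P (j/N) ≠ 0`, then `j/N ∈ K` is in some `ball x_i (κ x_i / 2)`, and the box is within
`κ x_i` of `x_i` (strictly inside).  Compact set: the union of the closed boxes `|v - j/N| ≤ 1/N` (sup norm) with `P (j/N) ≠ 0`; for it to be in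
`Ω`, choose `κ` smaller at the start (replace `κ x` by `min (κ x) ρ` with `ball x (2ρ) ⊆ Ω`, `ρ = ρ(x)`). -/

set_option autoImplicit false

namespace Pool.Agent.LibSM56

open MeasureTheory Set Filter Topology Complex ProbabilityTheory
open scoped NNReal ComplexConjugate
open Pool.Agent.LibZM Pool.Agent.LibSM47

private noncomputable def J_09_b (t : ℝ) : ℝ :=
  Real.smoothTransition (t + 1) - Real.smoothTransition t

private theorem J_09_b_smooth : ContDiff ℝ ((⊤ : ℕ∞) : WithTop ℕ∞) J_09_b := by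
  unfold J_09_b
  exact (Real.smoothTransition.contDiff.comp (contDiff_id.add contDiff_const)).sub
    Real.smoothTransition.contDiff

private theorem J_09_b_nonneg (t : ℝ) : 0 ≤ J_09_b t := by
  unfold J_09_b
  have := Real.smoothTransition.monotone (show t ≤ t + 1 by linarith)
  linarith

private theorem J_09_b_zero {t : ℝ} (h : 1 ≤ |t|) : J_09_b t = 0 := by
  unfold J_09_b
  rcases le_total 0 t with h0 | h0
  · rw [abs_of_nonneg h0] at h
    rw [Real.smoothTransition.one_of_one_le h, Real.smoothTransition.one_of_one_le (by linarith),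
      sub_self]
  · rw [abs_of_nonpos h0] at h
    rw [Real.smoothTransition.zero_of_nonpos h0, Real.smoothTransition.zero_of_nonpos (by linarith),
      sub_self]

/-- one factor of the partition of unity -/
private noncomputable def J_09_S (M : ℕ) (t : ℝ) : ℝ :=
  ∑ k ∈ Finset.range (2 * M + 1), J_09_b (t - ((k : ℝ) - M))

private theorem J_09_sum (M : ℕ) (t : ℝ) :
    J_09_S M t = Real.smoothTransition (t + M + 1) - Real.smoothTransition (t - M) := by
  have h := Finset.sum_range_sub' (fun k : ℕ => Real.smoothTransition (t + M + 1 - (k : ℝ)))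
    (2 * M + 1)
  have h2 : ∀ k ∈ Finset.range (2 * M + 1), J_09_b (t - ((k : ℝ) - M)) =
      Real.smoothTransition (t + M + 1 - (k : ℝ)) -
        Real.smoothTransition (t + M + 1 - ((k + 1 : ℕ) : ℝ)) := by
    intro k _
    unfold J_09_b
    push_cast
    congr 1 <;> congr 1 <;> ring
  unfold J_09_S
  rw [Finset.sum_congr rfl h2, h]
  push_cast
  congr 1 <;> congr 1 <;> ring

private theorem J_09_S_nonneg (M : ℕ) (t : ℝ) : 0 ≤ J_09_S M t :=
  Finset.sum_nonneg fun _ _ => J_09_b_nonneg _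

private theorem J_09_S_le (M : ℕ) (t : ℝ) : J_09_S M t ≤ 1 := by
  rw [J_09_sum]
  have h1 := Real.smoothTransition.le_one (t + M + 1)
  have h2 := Real.smoothTransition.nonneg (t - M)
  linarith

private theorem J_09_S_one (M : ℕ) {t : ℝ} (h : |t| ≤ M) : J_09_S M t = 1 := by
  have h1 := abs_le.1 h
  rw [J_09_sum, Real.smoothTransition.one_of_one_le (by linarith),
    Real.smoothTransition.zero_of_nonpos (by linarith), sub_zero]

/-- the bump of a node -/
private noncomputable def J_09_B (N : ℝ) (M : ℕ) (k : ℕ × ℕ × ℕ) (v : ℝ × ℝ × ℝ) : ℝ :=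
  J_09_b (N * v.1 - ((k.1 : ℝ) - M)) * J_09_b (N * v.2.1 - ((k.2.1 : ℝ) - M)) *
    J_09_b (N * v.2.2 - ((k.2.2 : ℝ) - M))

/-- the node -/
private noncomputable def J_09_p (N : ℝ) (M : ℕ) (k : ℕ × ℕ × ℕ) : ℝ × ℝ × ℝ :=
  (((k.1 : ℝ) - M) / N, ((k.2.1 : ℝ) - M) / N, ((k.2.2 : ℝ) - M) / N)

/-- all the nodes -/
private def J_09_R (M : ℕ) : Finset (ℕ × ℕ × ℕ) :=
  Finset.range (2 * M + 1) ×ˢ Finset.range (2 * M + 1) ×ˢ Finset.range (2 * M + 1)

private theorem J_09_B_nonneg (N : ℝ) (M : ℕ) (k : ℕ × ℕ × ℕ) (v : ℝ × ℝ × ℝ) :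
    0 ≤ J_09_B N M k v :=
  mul_nonneg (mul_nonneg (J_09_b_nonneg _) (J_09_b_nonneg _)) (J_09_b_nonneg _)

private theorem J_09_B_sum (N : ℝ) (M : ℕ) (v : ℝ × ℝ × ℝ) :
    ∑ k ∈ J_09_R M, J_09_B N M k v =
      J_09_S M (N * v.1) * J_09_S M (N * v.2.1) * J_09_S M (N * v.2.2) := by
  unfold J_09_R J_09_B J_09_S
  rw [Finset.sum_product]
  simp_rw [Finset.sum_product]
  simp only [← Finset.mul_sum, ← Finset.sum_mul]

private theorem J_09_near {N : ℝ} (hN : 0 < N) {t u : ℝ} (h : J_09_b (N * t - u) ≠ 0) :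
    |t - u / N| < 1 / N := by
  have h1 : |N * t - u| < 1 := by
    by_contra hcon
    exact h (J_09_b_zero (not_lt.1 hcon))
  have h2 : N * t - u = N * (t - u / N) := by
    field_simp
  rw [h2, abs_mul, abs_of_pos hN] at h1
  rw [lt_div_iff₀ hN]
  linarith

private theorem J_09_B_near {N : ℝ} (hN : 0 < N) {M : ℕ} {k : ℕ × ℕ × ℕ} {v : ℝ × ℝ × ℝ}
    (h : J_09_B N M k v ≠ 0) : dist v (J_09_p N M k) < 1 / N := by
  unfold J_09_B at h
  have h1 := left_ne_zero_of_mul (left_ne_zero_of_mul h)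
  have h2 := right_ne_zero_of_mul (left_ne_zero_of_mul h)
  have h3 := right_ne_zero_of_mul h
  rw [Prod.dist_eq, Prod.dist_eq]
  refine max_lt ?_ (max_lt ?_ ?_)
  · rw [Real.dist_eq]; exact J_09_near hN h1
  · rw [Real.dist_eq]; exact J_09_near hN h2
  · rw [Real.dist_eq]; exact J_09_near hN h3

private theorem J_09_approx {P : ℝ × ℝ × ℝ → ℝ} {N η δ : ℝ} {M : ℕ} (hN : 0 < N) (hη : 0 < η)
    (hδ : 1 / N < δ) (hu : ∀ u v, dist u v < δ → |P u - P v| ≤ η)
    (hM : ∀ v, P v ≠ 0 → |N * v.1| ≤ M ∧ |N * v.2.1| ≤ M ∧ |N * v.2.2| ≤ M) (v : ℝ × ℝ × ℝ) :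
    |P v - ∑ k ∈ J_09_R M, P (J_09_p N M k) * J_09_B N M k v| ≤ η := by
  set s := ∑ k ∈ J_09_R M, J_09_B N M k v with hs
  have hs0 : 0 ≤ s := Finset.sum_nonneg fun _ _ => J_09_B_nonneg _ _ _ _
  have hs1 : s ≤ 1 := by
    rw [hs, J_09_B_sum]
    have h1 := J_09_S_le M (N * v.1)
    have h2 := J_09_S_le M (N * v.2.1)
    have h3 := J_09_S_le M (N * v.2.2)
    have h1' := J_09_S_nonneg M (N * v.1)
    have h2' := J_09_S_nonneg M (N * v.2.1)
    have h3' := J_09_S_nonneg M (N * v.2.2)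
    exact mul_le_one₀ (mul_le_one₀ h1 h2' h2) h3' h3
  have hs2 : P v * (1 - s) = 0 := by
    by_cases hv : P v = 0
    · rw [hv, zero_mul]
    · obtain ⟨h1, h2, h3⟩ := hM v hv
      have h4 : s = 1 := by
        rw [hs, J_09_B_sum, J_09_S_one M h1, J_09_S_one M h2, J_09_S_one M h3]
        norm_num
      rw [h4, sub_self, mul_zero]
  have h5 : P v - ∑ k ∈ J_09_R M, P (J_09_p N M k) * J_09_B N M k v =
      P v * (1 - s) + ∑ k ∈ J_09_R M, (P v - P (J_09_p N M k)) * J_09_B N M k v := by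
    simp only [sub_mul, Finset.sum_sub_distrib, ← Finset.mul_sum]
    rw [← hs]
    ring
  rw [h5, hs2, zero_add]
  refine (Finset.abs_sum_le_sum_abs _ _).trans ?_
  have h6 : ∀ k ∈ J_09_R M, |(P v - P (J_09_p N M k)) * J_09_B N M k v| ≤ η * J_09_B N M k v := by
    intro k _
    rw [abs_mul, abs_of_nonneg (J_09_B_nonneg N M k v)]
    by_cases h7 : J_09_B N M k v = 0
    · rw [h7, mul_zero, mul_zero]
    · exact mul_le_mul_of_nonneg_right (hu _ _ ((J_09_B_near hN h7).trans hδ))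
        (J_09_B_nonneg _ _ _ _)
  refine (Finset.sum_le_sum h6).trans ?_
  rw [← Finset.mul_sum, ← hs]
  nlinarith

theorem approx_boxes (Ω : Set (ℝ × ℝ × ℝ)) (hΩ : IsOpen Ω) (P : ℝ × ℝ × ℝ → ℝ) (hP : Continuous P)
    (hc : HasCompactSupport P) (hs : tsupport P ⊆ Ω) (κ : ℝ × ℝ × ℝ → ℝ) (hκ : ∀ x ∈ Ω, 0 < κ x) (η : ℝ) (hη : 0 < η) :
    ∃ (n : ℕ) (a b c : Fin n → ℝ → ℝ) (x : Fin n → ℝ × ℝ × ℝ),
      (∀ i, x i ∈ Ω ∧ ContDiff ℝ ((⊤ : ℕ∞) : WithTop ℕ∞) (a i) ∧ ContDiff ℝ ((⊤ : ℕ∞) : WithTop ℕ∞) (b i) ∧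
        ContDiff ℝ ((⊤ : ℕ∞) : WithTop ℕ∞) (c i) ∧
        (∀ t, κ (x i) ≤ |t - (x i).1| → a i t = 0) ∧ (∀ t, κ (x i) ≤ |t - (x i).2.1| → b i t = 0) ∧
        (∀ t, κ (x i) ≤ |t - (x i).2.2| → c i t = 0)) ∧
      (∀ v, |P v - ∑ i, bx (a i) (b i) (c i) v| ≤ η) ∧
      ∃ K : Set (ℝ × ℝ × ℝ), IsCompact K ∧ K ⊆ Ω ∧ ∀ v, v ∉ K → ∑ i, bx (a i) (b i) (c i) v = 0 := by
  classical
  have hK : IsCompact (tsupport P) := hc
  -- the radii
  have hr : ∀ x : ℝ × ℝ × ℝ, ∃ r : ℝ, x ∈ tsupport P → 0 < r ∧ r ≤ κ x ∧ Metric.closedBall x r ⊆ Ω := by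
    intro x
    by_cases hx : x ∈ tsupport P
    · obtain ⟨ε, hε, hεΩ⟩ := Metric.isOpen_iff.1 hΩ x (hs hx)
      refine ⟨min (κ x) (ε / 2), fun _ => ⟨lt_min (hκ x (hs hx)) (by positivity), min_le_left _ _, ?_⟩⟩
      refine (Metric.closedBall_subset_ball ?_).trans hεΩ
      exact lt_of_le_of_lt (min_le_right _ _) (by linarith)
    · exact ⟨0, fun h => absurd h hx⟩
  choose r hr using hr
  obtain ⟨t, ht1, ht2⟩ := hK.elim_nhds_subcover (fun x => Metric.ball x (r x / 2))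
    (fun x hx => Metric.ball_mem_nhds x (by have := (hr x hx).1; positivity))
  -- uniform continuity
  have hUC := hc.uniformContinuous_of_continuous hP
  obtain ⟨δ, hδ, hu⟩ := Metric.uniformContinuous_iff.1 hUC η hη
  have hu' : ∀ u v, dist u v < δ → |P u - P v| ≤ η := by
    intro u v huv
    have h1 := hu huv
    rw [Real.dist_eq] at h1
    exact h1.le
  -- the scale
  have hN : ∃ N : ℕ, 1 ≤ N ∧ 1 / (N : ℝ) < δ ∧ ∀ x ∈ t, 1 / (N : ℝ) < r x / 2 := by
    have h1 : Tendsto (fun n : ℕ => 1 / (n : ℝ)) atTop (𝓝 0) := tendsto_one_div_atTop_nhds_zero_nat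
    have h2 : ∀ᶠ n : ℕ in atTop, 1 / (n : ℝ) < δ := h1.eventually_lt_const hδ
    have h3 : ∀ᶠ n : ℕ in atTop, ∀ x ∈ t, 1 / (n : ℝ) < r x / 2 := by
      rw [Filter.eventually_all_finset]
      intro x hx
      exact h1.eventually_lt_const (by have := (hr x (ht1 x hx)).1; positivity)
    obtain ⟨N, h4⟩ := ((eventually_ge_atTop 1).and (h2.and h3)).exists
    exact ⟨N, h4.1, h4.2.1, h4.2.2⟩
  obtain ⟨N, hN1, hNδ, hNt⟩ := hN
  have hN0 : (0 : ℝ) < N := by exact_mod_cast hN1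
  -- the range
  obtain ⟨R, hR⟩ := hK.isBounded.subset_closedBall (0 : ℝ × ℝ × ℝ)
  obtain ⟨M, hM⟩ := exists_nat_ge ((N : ℝ) * R)
  have hMs : ∀ v, P v ≠ 0 → |(N : ℝ) * v.1| ≤ M ∧ |(N : ℝ) * v.2.1| ≤ M ∧ |(N : ℝ) * v.2.2| ≤ M := by
    intro v hv
    have h1 := hR (subset_tsupport P hv)
    rw [mem_closedBall_zero_iff, Prod.norm_def, Prod.norm_def] at h1
    have h2 := (le_max_left _ _).trans h1
    have h3 := (le_max_left _ _).trans ((le_max_right _ _).trans h1)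
    have h4 := (le_max_right _ _).trans ((le_max_right _ _).trans h1)
    rw [Real.norm_eq_abs] at h2 h3 h4
    refine ⟨?_, ?_, ?_⟩
    · rw [abs_mul, abs_of_pos hN0]
      exact (mul_le_mul_of_nonneg_left h2 hN0.le).trans hM
    · rw [abs_mul, abs_of_pos hN0]
      exact (mul_le_mul_of_nonneg_left h3 hN0.le).trans hM
    · rw [abs_mul, abs_of_pos hN0]
      exact (mul_le_mul_of_nonneg_left h4 hN0.le).trans hM
  have happ := J_09_approx hN0 hη hNδ hu' hMs
  -- the nodes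
  set s := (J_09_R M).filter (fun k => P (J_09_p N M k) ≠ 0) with hsdef
  have hx : ∀ k : s, ∃ x ∈ t, dist (J_09_p N M (k : ℕ × ℕ × ℕ)) x < r x / 2 := by
    intro k
    have h1 := (Finset.mem_filter.1 k.2).2
    have h2 := ht2 (subset_tsupport P h1)
    simp only [Set.mem_iUnion] at h2
    obtain ⟨x, hx, hx2⟩ := h2
    exact ⟨x, hx, hx2⟩
  choose x hxt hxd using hx
  have hcoord : ∀ (k : s) (y u : ℝ), |u / (N : ℝ) - y| < r (x k) / 2 → ∀ τ : ℝ,
      κ (x k) ≤ |τ - y| → J_09_b ((N : ℝ) * τ - u) = 0 := by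
    intro k y u h1 τ h2
    by_contra h3
    have h4 := J_09_near hN0 h3
    have h5 := (hr _ (ht1 _ (hxt k))).2.1
    have h6 := hNt _ (hxt k)
    have h7 : |τ - y| ≤ |τ - u / N| + |u / N - y| := by
      have := abs_add_le (τ - u / N) (u / N - y)
      rwa [sub_add_sub_cancel] at this
    linarith
  have hdist : ∀ k : s, |((k : ℕ × ℕ × ℕ).1 - M : ℝ) / N - (x k).1| < r (x k) / 2 ∧
      |((k : ℕ × ℕ × ℕ).2.1 - M : ℝ) / N - (x k).2.1| < r (x k) / 2 ∧
      |((k : ℕ × ℕ × ℕ).2.2 - M : ℝ) / N - (x k).2.2| < r (x k) / 2 := by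
    intro k
    have h1 := hxd k
    rw [Prod.dist_eq, Prod.dist_eq] at h1
    have h2 := (le_max_left _ _).trans_lt h1
    have h3 := (le_max_left _ _).trans_lt ((le_max_right _ _).trans_lt h1)
    have h4 := (le_max_right _ _).trans_lt ((le_max_right _ _).trans_lt h1)
    rw [Real.dist_eq] at h2 h3 h4
    exact ⟨h2, h3, h4⟩
  set e := s.equivFin with he
  have hsum : ∀ v, ∑ i : Fin s.card, bx
      (fun τ => P (J_09_p N M (e.symm i : ℕ × ℕ × ℕ)) *
        J_09_b ((N : ℝ) * τ - (((e.symm i : ℕ × ℕ × ℕ).1 : ℝ) - M)))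
      (fun τ => J_09_b ((N : ℝ) * τ - (((e.symm i : ℕ × ℕ × ℕ).2.1 : ℝ) - M)))
      (fun τ => J_09_b ((N : ℝ) * τ - (((e.symm i : ℕ × ℕ × ℕ).2.2 : ℝ) - M))) v =
      ∑ k ∈ J_09_R M, P (J_09_p N M k) * J_09_B N M k v := by
    intro v
    have h1 : ∑ k ∈ J_09_R M, P (J_09_p N M k) * J_09_B N M k v =
        ∑ k ∈ s, P (J_09_p N M k) * J_09_B N M k v := by
      rw [hsdef, Finset.sum_filter]
      refine Finset.sum_congr rfl fun k _ => ?_
      by_cases h2 : P (J_09_p N M k) = 0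
      · rw [if_neg (by simpa using h2), h2, zero_mul]
      · rw [if_pos h2]
    rw [h1, ← Finset.sum_coe_sort s, ← Equiv.sum_comp e.symm]
    refine Finset.sum_congr rfl fun i _ => ?_
    unfold bx J_09_B
    ring
  refine ⟨s.card, _, _, _, fun i => x (e.symm i), fun i => ⟨?_, ?_, ?_, ?_, ?_, ?_, ?_⟩,
    fun v => by rw [hsum v]; exact happ v, ?_⟩
  · exact hs (ht1 _ (hxt _))
  · exact contDiff_const.mul (J_09_b_smooth.comp ((contDiff_const.mul contDiff_id).sub contDiff_const))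
  · exact J_09_b_smooth.comp ((contDiff_const.mul contDiff_id).sub contDiff_const)
  · exact J_09_b_smooth.comp ((contDiff_const.mul contDiff_id).sub contDiff_const)
  · intro τ hτ
    rw [hcoord _ _ _ (hdist (e.symm i)).1 τ hτ, mul_zero]
  · intro τ hτ
    exact hcoord _ _ _ (hdist (e.symm i)).2.1 τ hτ
  · intro τ hτ
    exact hcoord _ _ _ (hdist (e.symm i)).2.2 τ hτ
  · refine ⟨⋃ y ∈ t, Metric.closedBall y (r y), ?_, ?_, ?_⟩
    · exact t.isCompact_biUnion fun y _ => isCompact_closedBall y (r y)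
    · intro v hv
      simp only [Set.mem_iUnion] at hv
      obtain ⟨y, hy, hv⟩ := hv
      exact (hr y (ht1 y hy)).2.2 hv
    · intro v hv
      rw [hsum v]
      refine Finset.sum_eq_zero fun k hk => ?_
      by_contra h1
      have h2 := left_ne_zero_of_mul h1
      have h3 := J_09_B_near hN0 (right_ne_zero_of_mul h1)
      apply hv
      have hks : k ∈ s := Finset.mem_filter.2 ⟨hk, h2⟩
      have h4 := hxd ⟨k, hks⟩
      have h5 := hNt _ (hxt ⟨k, hks⟩)
      simp only [Set.mem_iUnion]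
      refine ⟨x ⟨k, hks⟩, hxt _, ?_⟩
      rw [Metric.mem_closedBall]
      have h6 := dist_triangle v (J_09_p N M k) (x ⟨k, hks⟩)
      linarith

end Pool.Agent.LibSM56
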