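import Pool.Agent.LibSM56.Defs

/-! SM56 J_10 (ONLY MATHLIB + Defs, MEDIUM).  Continuity of `J1`, `J2` in the sup norm.  If `v ∈ Oct5` and `P (pr v) ≠ 0` or `P' (pr v) ≠ 0`, then
`v.1 + v.2.1 + v.2.2.1 + v.2.2.2.1 + v.2.2.2.2 < 1`, so all coordinates are in `(0,1)`: the integrands live on a set of measure at most 1.
`|P P' - Q Q'| ≤ η (2M + η)`; there `|QQ| ≤ 10` (`QQ` at `pr' v` with all variables in `[0,1]`, sum at most 1). -/

set_option autoImplicit false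

namespace Pool.Agent.LibSM56

open MeasureTheory Set Filter Topology Complex ProbabilityTheory
open scoped NNReal ComplexConjugate
open Pool.Agent.LibZM Pool.Agent.LibSM47

/-- The part of the octant where the sum of the coordinates is less than one. -/
private def J_10_S : Set V5 :=
  Oct5 ∩ {v | v.1 + v.2.1 + v.2.2.1 + v.2.2.2.1 + v.2.2.2.2 < 1}

private def J_10_K : Set V5 :=
  (Icc (0 : ℝ) 1) ×ˢ (Icc (0 : ℝ) 1) ×ˢ (Icc (0 : ℝ) 1) ×ˢ (Icc (0 : ℝ) 1) ×ˢ (Icc (0 : ℝ) 1)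

private lemma J_10_measOct : MeasurableSet Oct5 := by
  unfold Oct5
  exact measurableSet_Ioi.prod (measurableSet_Ioi.prod (measurableSet_Ioi.prod
    (measurableSet_Ioi.prod measurableSet_Ioi)))

private lemma J_10_measS : MeasurableSet J_10_S := by
  unfold J_10_S
  refine J_10_measOct.inter ?_
  have hc : Continuous fun v : V5 => v.1 + v.2.1 + v.2.2.1 + v.2.2.2.1 + v.2.2.2.2 := by fun_prop
  exact (isOpen_lt hc continuous_const).measurableSet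

private lemma J_10_mem {v : V5} (hv : v ∈ Oct5) :
    0 < v.1 ∧ 0 < v.2.1 ∧ 0 < v.2.2.1 ∧ 0 < v.2.2.2.1 ∧ 0 < v.2.2.2.2 := by
  unfold Oct5 at hv
  simp only [Set.mem_prod, Set.mem_Ioi] at hv
  exact hv

private lemma J_10_sub : J_10_S ⊆ J_10_K := by
  rintro v ⟨hv, hs⟩
  obtain ⟨a, b, c, d, e⟩ := J_10_mem hv
  have hs' : v.1 + v.2.1 + v.2.2.1 + v.2.2.2.1 + v.2.2.2.2 < 1 := hs
  unfold J_10_K
  simp only [Set.mem_prod, Set.mem_Icc]
  refine ⟨⟨?_, ?_⟩, ⟨?_, ?_⟩, ⟨?_, ?_⟩, ⟨?_, ?_⟩, ⟨?_, ?_⟩⟩ <;> linarith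

private lemma J_10_volK : (volume : Measure V5) J_10_K = 1 := by
  unfold J_10_K
  rw [Measure.volume_eq_prod, Measure.prod_prod, Measure.volume_eq_prod, Measure.prod_prod,
    Measure.volume_eq_prod, Measure.prod_prod, Measure.volume_eq_prod, Measure.prod_prod,
    Real.volume_Icc]
  simp

private lemma J_10_volS : (volume : Measure V5) J_10_S ≤ 1 := by
  rw [← J_10_volK]
  exact measure_mono J_10_sub

private lemma J_10_int (f : V5 → ℝ) (hf : Continuous f) : IntegrableOn f J_10_S := by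
  have hK : IsCompact J_10_K := by
    unfold J_10_K
    exact isCompact_Icc.prod (isCompact_Icc.prod (isCompact_Icc.prod (isCompact_Icc.prod isCompact_Icc)))
  exact (hf.continuousOn.integrableOn_compact hK).mono_set J_10_sub

private lemma J_10_eq (P : ℝ × ℝ × ℝ → ℝ) (R : V5 → ℝ)
    (h1 : ∀ x, ¬ (0 < x.1 ∧ 0 < x.2.1 ∧ 0 < x.2.2 ∧ x.1 + x.2.1 + x.2.2 < 1) → P x = 0) :
    ∫ v in Oct5, P (pr v) * R v = ∫ v in J_10_S, P (pr v) * R v := by
  refine setIntegral_eq_of_subset_of_forall_sdiff_eq_zero J_10_measOct Set.inter_subset_left ?_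
  rintro v ⟨hv, hs⟩
  have h0 : P (pr v) = 0 := by
    refine h1 _ ?_
    rintro ⟨_, _, _, h⟩
    refine hs ⟨hv, ?_⟩
    have h' : (v.1 + v.2.1) + (v.2.2.1 + v.2.2.2.1) + v.2.2.2.2 < 1 := h
    change v.1 + v.2.1 + v.2.2.1 + v.2.2.2.1 + v.2.2.2.2 < 1
    linarith
  rw [h0, zero_mul]

private lemma J_10_diff (f g : V5 → ℝ) (hf : Continuous f) (hg : Continuous g) (C : ℝ) (hC : 0 ≤ C)
    (h : ∀ v ∈ J_10_S, |f v - g v| ≤ C) :
    |(∫ v in J_10_S, f v) - ∫ v in J_10_S, g v| ≤ C := by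
  rw [← integral_sub (J_10_int f hf) (J_10_int g hg)]
  have hlt : (volume : Measure V5) J_10_S < ⊤ := lt_of_le_of_lt J_10_volS ENNReal.one_lt_top
  have h1 := norm_setIntegral_le_of_norm_le_const (μ := (volume : Measure V5)) (f := fun v => f v - g v) (C := C)
    hlt (fun v hv => by rw [Real.norm_eq_abs]; exact h v hv)
  rw [Real.norm_eq_abs] at h1
  refine h1.trans ?_
  have h2 : (volume : Measure V5).real J_10_S ≤ 1 := by
    rw [Measure.real]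
    exact ENNReal.toReal_le_of_le_ofReal zero_le_one (by rw [ENNReal.ofReal_one]; exact J_10_volS)
  calc C * (volume : Measure V5).real J_10_S ≤ C * 1 := mul_le_mul_of_nonneg_left h2 hC
    _ = C := mul_one C

private lemma J_10_prc : Continuous pr := by
  unfold pr
  fun_prop

private lemma J_10_prc' : Continuous pr' := by
  unfold pr'
  fun_prop

private lemma J_10_QQc : Continuous QQ := by
  unfold QQ
  fun_prop

private lemma J_10_QQb {v : V5} (hv : v ∈ J_10_S) : |QQ (pr' v)| ≤ 10 := by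
  obtain ⟨a, b, c, d, e⟩ := J_10_mem hv.1
  have hs' : v.1 + v.2.1 + v.2.2.1 + v.2.2.2.1 + v.2.2.2.2 < 1 := hv.2
  have e1 : QQ (pr' v) = (1 / 2) * (3 * (1 - v.2.2.2.2) ^ 2 - 3 * (1 - v.2.2.2.2 + (v.2.1 + v.2.2.2.1)) ^ 2 +
    (1 + (v.1 + v.2.2.1) + (v.2.1 + v.2.2.2.1) - v.2.2.2.2) ^ 2) := rfl
  rw [e1]
  obtain ⟨z, hz⟩ : ∃ z, z = v.1 + v.2.2.1 := ⟨_, rfl⟩
  obtain ⟨w, hw⟩ : ∃ w, w = v.2.1 + v.2.2.2.1 := ⟨_, rfl⟩
  obtain ⟨y, hy⟩ : ∃ y, y = v.2.2.2.2 := ⟨_, rfl⟩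
  rw [← hz, ← hw, ← hy]
  have hz0 : 0 < z := by rw [hz]; linarith
  have hw0 : 0 < w := by rw [hw]; linarith
  have hy0 : 0 < y := by rw [hy]; linarith
  have hsum : z + w + y < 1 := by rw [hz, hw, hy]; linarith
  have q1 : (1 - y) ^ 2 ≤ 1 := by
    apply pow_le_one₀ <;> linarith
  have q1' : 0 ≤ (1 - y) ^ 2 := sq_nonneg _
  have q2 : (1 - y + w) ^ 2 ≤ 2 ^ 2 := by
    apply pow_le_pow_left₀ <;> linarith
  have q2' : 0 ≤ (1 - y + w) ^ 2 := sq_nonneg _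
  have q3 : (1 + z + w - y) ^ 2 ≤ 2 ^ 2 := by
    apply pow_le_pow_left₀ <;> linarith
  have q3' : 0 ≤ (1 + z + w - y) ^ 2 := sq_nonneg _
  rw [abs_le]
  constructor <;> linarith

theorem J_close (P P' : ℝ × ℝ × ℝ → ℝ) (hP : Continuous P) (hP' : Continuous P') (M η : ℝ) (hM : ∀ x, |P x| ≤ M)
    (hη : ∀ x, |P x - P' x| ≤ η)
    (h1 : ∀ x, ¬ (0 < x.1 ∧ 0 < x.2.1 ∧ 0 < x.2.2 ∧ x.1 + x.2.1 + x.2.2 < 1) → P x = 0)
    (h2 : ∀ x, ¬ (0 < x.1 ∧ 0 < x.2.1 ∧ 0 < x.2.2 ∧ x.1 + x.2.1 + x.2.2 < 1) → P' x = 0) :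
    |J1 P - J1 P'| ≤ η * (2 * M + η) ∧ |J2 P - J2 P'| ≤ 10 * η := by
  have hM0 : 0 ≤ M := (abs_nonneg _).trans (hM 0)
  have hη0 : 0 ≤ η := (abs_nonneg _).trans (hη 0)
  have hPp := hP.comp J_10_prc
  have hPp' := hP.comp J_10_prc'
  have hP'p := hP'.comp J_10_prc
  have hP'p' := hP'.comp J_10_prc'
  have hQ := J_10_QQc.comp J_10_prc'
  have hM' : ∀ x, |P' x| ≤ M + η := by
    intro x
    have e : P' x = P x - (P x - P' x) := by ring
    rw [e]
    exact (abs_sub _ _).trans (add_le_add (hM x) (hη x))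
  constructor
  · unfold J1
    rw [J_10_eq P (fun v => P (pr' v)) h1, J_10_eq P' (fun v => P' (pr' v)) h2]
    refine J_10_diff _ _ (hPp.mul hPp') (hP'p.mul hP'p') _ (mul_nonneg hη0 (by linarith)) ?_
    intro v _
    have e : P (pr v) * P (pr' v) - P' (pr v) * P' (pr' v) =
      P (pr v) * (P (pr' v) - P' (pr' v)) + (P (pr v) - P' (pr v)) * P' (pr' v) := by ring
    change |P (pr v) * P (pr' v) - P' (pr v) * P' (pr' v)| ≤ _
    rw [e]
    refine (abs_add_le _ _).trans ?_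
    rw [abs_mul, abs_mul]
    have a1 : |P (pr v)| * |P (pr' v) - P' (pr' v)| ≤ M * η :=
      mul_le_mul (hM _) (hη _) (abs_nonneg _) hM0
    have a2 : |P (pr v) - P' (pr v)| * |P' (pr' v)| ≤ η * (M + η) :=
      mul_le_mul (hη _) (hM' _) (abs_nonneg _) hη0
    linarith
  · unfold J2
    rw [J_10_eq P (fun v => QQ (pr' v)) h1, J_10_eq P' (fun v => QQ (pr' v)) h2]
    refine J_10_diff _ _ (hPp.mul hQ) (hP'p.mul hQ) _ (by linarith) ?_
    intro v hv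
    have e : P (pr v) * QQ (pr' v) - P' (pr v) * QQ (pr' v) = (P (pr v) - P' (pr v)) * QQ (pr' v) := by ring
    change |P (pr v) * QQ (pr' v) - P' (pr v) * QQ (pr' v)| ≤ _
    rw [e, abs_mul]
    have a1 : |P (pr v) - P' (pr v)| * |QQ (pr' v)| ≤ η * 10 :=
      mul_le_mul (hη _) (J_10_QQb hv) (abs_nonneg _) hη0
    linarith

end Pool.Agent.LibSM56
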