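import Pool.Agent.LibSM56.Defs

/-! SM56 J_11 (SHORT).  `ErrOK` for finite sums: `cP` is linear in `P` (`cP_sum`), `δ₀` = the minimum of the `δ₀`'s (and 1), `C` = sum of the constants
(replace each by its absolute value, `log T ≥ 0`), `T₀` = maximum (and 1). -/

set_option autoImplicit false

namespace Pool.Agent.LibSM56

open MeasureTheory Set Filter Topology Complex ProbabilityTheory
open scoped NNReal ComplexConjugate
open Pool.Agent.LibZM Pool.Agent.LibSM47

private theorem J_11_add {P Q : ℝ × ℝ × ℝ → ℝ} (T : ℝ) (q : ℕ × ℕ) :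
    cP (fun x => P x + Q x) T q = cP P T q + cP Q T q := by
  simp only [cP, mul_add, Finset.sum_add_distrib]

private theorem J_11_zero (T : ℝ) (q : ℕ × ℕ) : cP (fun _ => 0) T q = 0 := by
  simp [cP]

theorem cP_sum {n : ℕ} (P : Fin n → ℝ × ℝ × ℝ → ℝ) (T : ℝ) (q : ℕ × ℕ) :
    cP (fun x => ∑ i, P i x) T q = ∑ i, cP (P i) T q := by
  have h : ∀ s : Finset (Fin n), cP (fun x => ∑ i ∈ s, P i x) T q = ∑ i ∈ s, cP (P i) T q := by
    intro s
    induction s using Finset.induction_on with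
    | empty => simpa using J_11_zero T q
    | insert a s ha ih =>
      simp only [Finset.sum_insert ha]
      rw [J_11_add, ih]
  exact h Finset.univ

private theorem J_11_ok {P Q : ℝ × ℝ × ℝ → ℝ} (hP : ErrOK P) (hQ : ErrOK Q) :
    ErrOK (fun x => P x + Q x) := by
  intro ε₁ hε
  obtain ⟨δ1, hδ1, h1⟩ := hP ε₁ hε
  obtain ⟨δ2, hδ2, h2⟩ := hQ ε₁ hε
  refine ⟨min δ1 δ2, lt_min hδ1 hδ2, fun δ hδ hδ' => ?_⟩
  obtain ⟨C1, T1, h1⟩ := h1 δ hδ (hδ'.trans (min_le_left _ _))
  obtain ⟨C2, T2, h2⟩ := h2 δ hδ (hδ'.trans (min_le_right _ _))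
  refine ⟨C1 + C2, max T1 T2, fun T hT u hu hu' => ?_⟩
  have e1 := h1 T ((le_max_left _ _).trans hT) u hu hu'
  have e2 := h2 T ((le_max_right _ _).trans hT) u hu hu'
  simp only [J_11_add, add_mul, Finset.sum_add_distrib]
  refine le_trans (le_trans (le_of_eq ?_) (abs_add_le _ _)) (add_le_add e1 e2)
  congr 1
  ring

theorem ErrOK_sum {n : ℕ} (P : Fin n → ℝ × ℝ × ℝ → ℝ) (h : ∀ i, ErrOK (P i)) : ErrOK (fun x => ∑ i, P i x) := by
  have h' : ∀ s : Finset (Fin n), ErrOK (fun x => ∑ i ∈ s, P i x) := by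
    intro s
    induction s using Finset.induction_on with
    | empty =>
      intro ε₁ hε
      refine ⟨1, one_pos, fun δ hδ hδ' => ⟨0, 0, fun T hT u hu hu' => ?_⟩⟩
      simp [J_11_zero]
    | insert a s ha ih =>
      simp only [Finset.sum_insert ha]
      exact J_11_ok (h a) ih
  exact h' Finset.univ

end Pool.Agent.LibSM56
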