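import Pool.Agent.LibSM56.Defs

/-! SM56 J_12 (ONLY MATHLIB + Defs, MEDIUM).  One sided weights.  `J1`, `J2` are (bi)linear in `P` through `B(P,R) = ∫_{Oct5} P(pr v) R(pr' v)`, and
`B(P∘σ, R) = B(P, R)` (`σ (z,z',y) = (z',z,y)`): the change of variables `(α,β,γ,δ,y) ↦ (γ,δ,α,β,y)` maps `pr v` to `σ (pr v)` and fixes `pr' v`;
similarly `(α,β,γ,δ,y) ↦ (β,α,δ,γ,y)` fixes `pr v` and maps `pr' v` to `σ (pr' v)`.  With `P̃ = 2 χ P`, `χ + χ∘σ = 1`, `P∘σ = P`: `P̃ + P̃∘σ = 2 P`, so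
`4 B(P,P) = B(P̃ + P̃∘σ, P̃ + P̃∘σ) = 4 B(P̃,P̃)` and `2 B(P,QQ) = 2 B(P̃,QQ)`.  All integrands are integrable: continuous, bounded, and zero for
`v ∈ Oct5` outside of a bounded set (`P` has compact support). -/

set_option autoImplicit false

namespace Pool.Agent.LibSM56

open MeasureTheory Set Filter Topology Complex ProbabilityTheory
open scoped NNReal ComplexConjugate
open Pool.Agent.LibZM Pool.Agent.LibSM47

private theorem J_12_sw {X : Type} [MeasureSpace X] [SFinite (volume : Measure X)] :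
    MeasurePreserving (fun p : ℝ × ℝ × X => (p.2.1, p.1, p.2.2)) volume volume := by
  have h1 := measurePreserving_prodAssoc (volume : Measure ℝ) (volume : Measure ℝ) (volume : Measure X)
  have h0 := h1.symm
  have h2 := (Measure.measurePreserving_swap (μ := (volume : Measure ℝ))
    (ν := (volume : Measure ℝ))).prod (MeasurePreserving.id (volume : Measure X))
  exact (h1.comp h2).comp h0

private def J_12_T1 (v : V5) : V5 := (v.2.2.1, v.2.2.2.1, v.1, v.2.1, v.2.2.2.2)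

private def J_12_T2 (v : V5) : V5 := (v.2.1, v.1, v.2.2.2.1, v.2.2.1, v.2.2.2.2)

private theorem J_12_m1 : MeasurePreserving J_12_T1 (volume : Measure V5) volume := by
  have s1 : MeasurePreserving (fun p : V5 => ((p.2.1, p.1, p.2.2) : V5)) volume volume := J_12_sw
  have t2 : MeasurePreserving (fun p : ℝ × ℝ × ℝ × ℝ => ((p.2.1, p.1, p.2.2) : ℝ × ℝ × ℝ × ℝ))
    volume volume := J_12_sw
  have t3 : MeasurePreserving (fun p : ℝ × ℝ × ℝ => ((p.2.1, p.1, p.2.2) : ℝ × ℝ × ℝ))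
    volume volume := J_12_sw
  have s2 : MeasurePreserving (Prod.map id (fun p : ℝ × ℝ × ℝ × ℝ => ((p.2.1, p.1, p.2.2) : ℝ × ℝ × ℝ × ℝ)))
    (volume : Measure V5) volume := (MeasurePreserving.id (volume : Measure ℝ)).prod t2
  have u3 : MeasurePreserving (Prod.map id (fun p : ℝ × ℝ × ℝ => ((p.2.1, p.1, p.2.2) : ℝ × ℝ × ℝ)))
    (volume : Measure (ℝ × ℝ × ℝ × ℝ)) volume := (MeasurePreserving.id (volume : Measure ℝ)).prod t3
  have s3 : MeasurePreserving (Prod.map id (Prod.map id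
    (fun p : ℝ × ℝ × ℝ => ((p.2.1, p.1, p.2.2) : ℝ × ℝ × ℝ)))) (volume : Measure V5) volume :=
    (MeasurePreserving.id (volume : Measure ℝ)).prod u3
  exact s2.comp (s3.comp (s1.comp s2))

private theorem J_12_m2 : MeasurePreserving J_12_T2 (volume : Measure V5) volume := by
  have s1 : MeasurePreserving (fun p : V5 => ((p.2.1, p.1, p.2.2) : V5)) volume volume := J_12_sw
  have t3 : MeasurePreserving (fun p : ℝ × ℝ × ℝ => ((p.2.1, p.1, p.2.2) : ℝ × ℝ × ℝ))
    volume volume := J_12_sw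
  have u3 : MeasurePreserving (Prod.map id (fun p : ℝ × ℝ × ℝ => ((p.2.1, p.1, p.2.2) : ℝ × ℝ × ℝ)))
    (volume : Measure (ℝ × ℝ × ℝ × ℝ)) volume := (MeasurePreserving.id (volume : Measure ℝ)).prod t3
  have s3 : MeasurePreserving (Prod.map id (Prod.map id
    (fun p : ℝ × ℝ × ℝ => ((p.2.1, p.1, p.2.2) : ℝ × ℝ × ℝ)))) (volume : Measure V5) volume :=
    (MeasurePreserving.id (volume : Measure ℝ)).prod u3
  exact s3.comp s1

private def J_12_e1 : V5 ≃ᵐ V5 where
  toFun := J_12_T1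
  invFun := J_12_T1
  left_inv := fun _ => rfl
  right_inv := fun _ => rfl
  measurable_toFun := J_12_m1.measurable
  measurable_invFun := J_12_m1.measurable

private def J_12_e2 : V5 ≃ᵐ V5 where
  toFun := J_12_T2
  invFun := J_12_T2
  left_inv := fun _ => rfl
  right_inv := fun _ => rfl
  measurable_toFun := J_12_m2.measurable
  measurable_invFun := J_12_m2.measurable

private theorem J_12_B1 (F G : ℝ × ℝ × ℝ → ℝ) :
    ∫ v in Oct5, F ((pr v).2.1, (pr v).1, (pr v).2.2) * G (pr' v) = ∫ v in Oct5, F (pr v) * G (pr' v) := by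
  have h := J_12_m1.setIntegral_preimage_emb J_12_e1.measurableEmbedding
    (fun v => F (pr v) * G (pr' v)) Oct5
  have hp : J_12_T1 ⁻¹' Oct5 = Oct5 := by
    ext v
    simp only [mem_preimage, J_12_T1, Oct5, mem_prod, mem_Ioi]
    tauto
  rw [hp] at h
  rw [← h]
  refine integral_congr_ae (Eventually.of_forall fun v => ?_)
  have e1 : pr (J_12_T1 v) = ((pr v).2.1, (pr v).1, (pr v).2.2) := rfl
  have e2 : pr' (J_12_T1 v) = pr' v := by
    simp only [pr', J_12_T1, Prod.mk.injEq]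
    exact ⟨add_comm _ _, add_comm _ _, by trivial⟩
  dsimp only
  rw [e1, e2]

private theorem J_12_B2 (F G : ℝ × ℝ × ℝ → ℝ) :
    ∫ v in Oct5, F (pr v) * G ((pr' v).2.1, (pr' v).1, (pr' v).2.2) = ∫ v in Oct5, F (pr v) * G (pr' v) := by
  have h := J_12_m2.setIntegral_preimage_emb J_12_e2.measurableEmbedding
    (fun v => F (pr v) * G (pr' v)) Oct5
  have hp : J_12_T2 ⁻¹' Oct5 = Oct5 := by
    ext v
    simp only [mem_preimage, J_12_T2, Oct5, mem_prod, mem_Ioi]
    tauto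
  rw [hp] at h
  rw [← h]
  refine integral_congr_ae (Eventually.of_forall fun v => ?_)
  have e1 : pr' (J_12_T2 v) = ((pr' v).2.1, (pr' v).1, (pr' v).2.2) := rfl
  have e2 : pr (J_12_T2 v) = pr v := by
    simp only [pr, J_12_T2, Prod.mk.injEq]
    exact ⟨add_comm _ _, add_comm _ _, by trivial⟩
  dsimp only
  rw [e1, e2]

private theorem J_12_int {F G : ℝ × ℝ × ℝ → ℝ} (hF : Continuous F) (hc : HasCompactSupport F)
    (hG : Continuous G) : IntegrableOn (fun v : V5 => F (pr v) * G (pr' v)) Oct5 := by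
  obtain ⟨R, hR⟩ := hc.isCompact.isBounded.exists_norm_le
  have hpr : Continuous pr := by unfold pr; fun_prop
  have hpr' : Continuous pr' := by unfold pr'; fun_prop
  have hcon : Continuous fun v : V5 => F (pr v) * G (pr' v) := (hF.comp hpr).mul (hG.comp hpr')
  have hK : IsCompact (Icc (0 : V5) (R, R, R, R, R)) := isCompact_Icc
  have h1 : IntegrableOn (fun v : V5 => F (pr v) * G (pr' v)) (Icc (0 : V5) (R, R, R, R, R)) :=
    hcon.continuousOn.integrableOn_compact hK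
  have hO : MeasurableSet Oct5 := by
    unfold Oct5
    exact measurableSet_Ioi.prod (measurableSet_Ioi.prod (measurableSet_Ioi.prod
      (measurableSet_Ioi.prod measurableSet_Ioi)))
  refine h1.of_forall_diff_eq_zero hO fun v hv => ?_
  have hv1 : 0 < v.1 ∧ 0 < v.2.1 ∧ 0 < v.2.2.1 ∧ 0 < v.2.2.2.1 ∧ 0 < v.2.2.2.2 := hv.1
  obtain ⟨p1, p2, p3, p4, p5⟩ := hv1
  by_contra hne
  have hF0 : F (pr v) ≠ 0 := left_ne_zero_of_mul hne
  have hm : pr v ∈ tsupport F := subset_tsupport F hF0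
  have hn := hR _ hm
  have n1 : |(pr v).1| ≤ R := (norm_fst_le (pr v)).trans hn
  have n2 : |(pr v).2.1| ≤ R := (norm_fst_le (pr v).2).trans ((norm_snd_le (pr v)).trans hn)
  have n3 : |(pr v).2.2| ≤ R := (norm_snd_le (pr v).2).trans ((norm_snd_le (pr v)).trans hn)
  have q1 : v.1 + v.2.1 ≤ R := (le_abs_self _).trans n1
  have q2 : v.2.2.1 + v.2.2.2.1 ≤ R := (le_abs_self _).trans n2
  have q3 : v.2.2.2.2 ≤ R := (le_abs_self _).trans n3
  refine hv.2 ⟨⟨p1.le, p2.le, p3.le, p4.le, p5.le⟩, ⟨?_, ?_, ?_, ?_, q3⟩⟩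
  · show v.1 ≤ R
    linarith
  · show v.2.1 ≤ R
    linarith
  · show v.2.2.1 ≤ R
    linarith
  · show v.2.2.2.1 ≤ R
    linarith

theorem one_sided (P χ : ℝ × ℝ × ℝ → ℝ) (hP : Continuous P) (hc : HasCompactSupport P) (hχ : Continuous χ)
    (hs : ∀ z z' y : ℝ, P (z', z, y) = P (z, z', y)) (h1 : ∀ z z' y : ℝ, χ (z, z', y) + χ (z', z, y) = 1) :
    J1 (fun x => 2 * χ x * P x) = J1 P ∧ J2 (fun x => 2 * χ x * P x) = J2 P := by
  obtain ⟨Q, hQ⟩ : ∃ Q : ℝ × ℝ × ℝ → ℝ, Q = fun x => 2 * χ x * P x := ⟨_, rfl⟩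
  obtain ⟨S, hS⟩ : ∃ S : ℝ × ℝ × ℝ → ℝ, S = fun x => Q (x.2.1, x.1, x.2.2) := ⟨_, rfl⟩
  have hQc : Continuous Q := by
    rw [hQ]
    exact (continuous_const.mul hχ).mul hP
  have hQs : HasCompactSupport Q := by
    rw [hQ]
    exact hc.mul_left
  have hSc : Continuous S := by
    rw [hS]
    exact hQc.comp (by fun_prop)
  have hsum : ∀ x, Q x + S x = 2 * P x := by
    intro x
    obtain ⟨z, z', y⟩ := x
    rw [hS, hQ]
    dsimp only
    rw [hs z z' y]
    have := h1 z z' y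
    linear_combination 2 * P (z, z', y) * this
  have hSP : ∀ x, S x = 2 * P x - Q x := fun x => by rw [← hsum x]; ring
  have hSs : HasCompactSupport S := by
    have h2 : S = fun x => 2 * P x - Q x := funext hSP
    rw [h2]
    exact (hc.mul_left (f := fun _ => (2 : ℝ))).sub hQs
  have hQQ : Continuous QQ := by
    unfold QQ
    fun_prop
  have hS1 : ∀ G : ℝ × ℝ × ℝ → ℝ, ∫ v in Oct5, S (pr v) * G (pr' v) = ∫ v in Oct5, Q (pr v) * G (pr' v) := by
    intro G
    rw [hS]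
    exact J_12_B1 Q G
  have hS2 : ∀ F : ℝ × ℝ × ℝ → ℝ, ∫ v in Oct5, F (pr v) * S (pr' v) = ∫ v in Oct5, F (pr v) * Q (pr' v) := by
    intro F
    rw [hS]
    exact J_12_B2 F Q
  have hP2 : ∀ x, P x = (Q x + S x) / 2 := fun x => by rw [hsum x]; ring
  rw [← hQ]
  constructor
  · unfold J1
    have e1 : ∀ v : V5, P (pr v) * P (pr' v) = (1 / 4) * (Q (pr v) * Q (pr' v) + S (pr v) * Q (pr' v) +
        (Q (pr v) * S (pr' v) + S (pr v) * S (pr' v))) := by
      intro v
      rw [hP2 (pr v), hP2 (pr' v)]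
      ring
    simp_rw [e1]
    rw [integral_const_mul, integral_add, integral_add, integral_add, hS1 Q, hS2 Q, hS1 S, hS2 Q]
    · ring
    · exact J_12_int hQc hQs hSc
    · exact J_12_int hSc hSs hSc
    · exact J_12_int hQc hQs hQc
    · exact J_12_int hSc hSs hQc
    · exact (J_12_int hQc hQs hQc).add (J_12_int hSc hSs hQc)
    · exact (J_12_int hQc hQs hSc).add (J_12_int hSc hSs hSc)
  · unfold J2
    have e1 : ∀ v : V5, P (pr v) * QQ (pr' v) = (1 / 2) * (Q (pr v) * QQ (pr' v) + S (pr v) * QQ (pr' v)) := by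
      intro v
      rw [hP2 (pr v)]
      ring
    simp_rw [e1]
    rw [integral_const_mul, integral_add, hS1 QQ]
    · ring
    · exact J_12_int hQc hQs hQQ
    · exact J_12_int hSc hSs hQQ

end Pool.Agent.LibSM56
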