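import Pool.Agent.LibSM56.Defs

/-! # SM56: good points and the regions -/

set_option autoImplicit false

namespace Pool.Agent.LibSM56

open MeasureTheory Set Filter Topology Complex ProbabilityTheory
open scoped NNReal ComplexConjugate
open Pool.Agent.LibZM Pool.Agent.LibSM47

/-- The region is good near the point `x`: the error is under control for all smooth product weights supported near `x`. -/
def GoodAt (x : ℝ × ℝ × ℝ) : Prop :=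
  ∃ κ : ℝ, 0 < κ ∧ ∀ a b c : ℝ → ℝ, ContDiff ℝ ((⊤ : ℕ∞) : WithTop ℕ∞) a → ContDiff ℝ ((⊤ : ℕ∞) : WithTop ℕ∞) b →
    ContDiff ℝ ((⊤ : ℕ∞) : WithTop ℕ∞) c → (∀ t, κ ≤ |t - x.1| → a t = 0) → (∀ t, κ ≤ |t - x.2.1| → b t = 0) →
    (∀ t, κ ≤ |t - x.2.2| → c t = 0) → ErrOK (bx a b c)

/-- The part of the octant where orthogonality and the cross term are fine. -/
def Base : Set (ℝ × ℝ × ℝ) :=
  {x | 0 < x.1 ∧ 0 < x.2.1 ∧ 0 < x.2.2 ∧ x.1 + x.2.1 + x.2.2 < 1 ∧ x.1 + x.2.1 - x.2.2 < 1 / 2}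

/-- The region `{x ≤ 1/2, x+y ≤ 1} ∪ {x-1/2 ≤ y ≤ 3/2-2x, min(z,z') ≤ 1/2-y}`, `x = z+z'` (open form). -/
def OmA : Set (ℝ × ℝ × ℝ) :=
  {x | x ∈ Base ∧ (x.1 + x.2.1 < 1 / 2 ∨ (2 * (x.1 + x.2.1) + x.2.2 < 3 / 2 ∧ min x.1 x.2.1 < 1 / 2 - x.2.2))}

/-- The fallback region. -/
def OmF : Set (ℝ × ℝ × ℝ) :=
  {x | x ∈ Base ∧ (x.1 + x.2.1 < 1 / 2 ∨ 2 * x.2.2 < 1 - (x.1 + x.2.1))}

/-- The inner integral over all `z`. -/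
noncomputable def AF (x u : ℝ) : ℝ :=
  x ^ 7 / 210 - x ^ 6 * u / 15 + 2 * x ^ 5 * u ^ 2 / 5 - 2 * x ^ 4 * u ^ 3 / 3 + x ^ 3 * u ^ 4 / 3

/-- The inner integral over `min z (x-z) < u - 1/2`. -/
noncomputable def AP (x u : ℝ) : ℝ :=
  2 / 3 * x ^ 4 * u ^ 3 - 1 / 12 * x ^ 4 - 7 / 3 * x ^ 3 * u ^ 4 + 2 / 3 * x ^ 3 * u - 3 / 16 * x ^ 3
    + 16 / 5 * x ^ 2 * u ^ 5 - 2 * x ^ 2 * u ^ 2 + 9 / 8 * x ^ 2 * u - 13 / 80 * x ^ 2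
    - 32 / 15 * x * u ^ 6 + 8 / 3 * x * u ^ 3 - 9 / 4 * x * u ^ 2 + 13 / 20 * x * u - 1 / 16 * x
    + 64 / 105 * u ^ 7 - 4 / 3 * u ^ 4 + 3 / 2 * u ^ 3 - 13 / 20 * u ^ 2 + 1 / 8 * u - 1 / 112

end Pool.Agent.LibSM56
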