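import Pool.Agent.LibSM56.J_07
import Pool.Agent.LibSM56.J_08
import Pool.Agent.LibSM56.J_12
import Pool.Agent.LibSM56.Regions

/-! SM56 J_13 (MEDIUM).  From `exists_cut` (`θ/2·8`…) and `Pw_J`: `P₀ = Pw ψ` has `2 J2 - J1 ≥ (1/8) ∫_Ω Vd² - θ`, is continuous with compact
support in `Ω`, and symmetric (`Pw ψ (z',z,y) = Pw ψ (z,z',y)`: `W∘σ = -W` and the direction `(-1,1,0)` changes sign under `σ`: chain rule).
Then `P = 2 χ P₀` with `χ (z,z',y) = cl (1/2 + (z' - z)/(2 τ))`, `cl t = max 0 (min 1 t)` (so `χ + χ∘σ = 1`, `χ = 0` if `z ≥ z' + τ`), `one_sided`.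
`G` open and containing all `x ∈ Ω` with `x.1 ≤ x.2.1`: the compact sets `tsupport P₀ ∩ {z ≥ z' ... }`: `K ∩ {x | x.1 ≤ x.2.1 + τ}`, `K = tsupport P₀`,
is inside `G` for small `τ > 0` (compactness: otherwise points `x_n ∈ K \ G` with `x_n.1 ≤ x_n.2.1 + 1/n` have a limit point in
`K \ G` with `x.1 ≤ x.2.1`). -/

set_option autoImplicit false

namespace Pool.Agent.LibSM56

open MeasureTheory Set Filter Topology Complex ProbabilityTheory
open scoped NNReal ComplexConjugate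
open Pool.Agent.LibZM Pool.Agent.LibSM47

private noncomputable def J_13_s : (ℝ × ℝ × ℝ) →L[ℝ] (ℝ × ℝ × ℝ) :=
  ((ContinuousLinearMap.fst ℝ ℝ ℝ).comp (ContinuousLinearMap.snd ℝ ℝ (ℝ × ℝ))).prod
    ((ContinuousLinearMap.fst ℝ ℝ (ℝ × ℝ)).prod
      ((ContinuousLinearMap.snd ℝ ℝ ℝ).comp (ContinuousLinearMap.snd ℝ ℝ (ℝ × ℝ))))

private theorem J_13_s_apply (z z' y : ℝ) : J_13_s (z, z', y) = (z', z, y) := rfl

private theorem J_13_sym (ψ : ℝ × ℝ × ℝ → ℝ) (hψ : ContDiff ℝ 1 ψ)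
    (hs : ∀ z z' y : ℝ, ψ (z', z, y) = ψ (z, z', y)) (z z' y : ℝ) :
    Pw ψ (z', z, y) = Pw ψ (z, z', y) := by
  obtain ⟨W, hWd⟩ : ∃ W : ℝ × ℝ × ℝ → ℝ, W = fun x => Vd x * ψ x / 4 := ⟨_, rfl⟩
  have hW : ContDiff ℝ 1 W := by
    rw [hWd]
    unfold Vd
    fun_prop
  have h1 : (W ∘ J_13_s) = -W := by
    funext x
    obtain ⟨a, b, c⟩ := x
    simp only [Function.comp_apply, J_13_s_apply, Pi.neg_apply, hWd, Vd, hs a b c]
    ring
  have h2 := fderiv_comp (z, z', y) (hW.differentiable (by norm_num)).differentiableAt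
    (J_13_s.differentiableAt (x := (z, z', y)))
  rw [h1, J_13_s.fderiv, fderiv_neg] at h2
  have h3 := congrArg (fun L : (ℝ × ℝ × ℝ) →L[ℝ] ℝ => L ((-1, 1, 0) : ℝ × ℝ × ℝ)) h2
  simp only [ContinuousLinearMap.neg_apply, ContinuousLinearMap.comp_apply, J_13_s_apply] at h3
  have h4 : ((1, -1, 0) : ℝ × ℝ × ℝ) = -((-1, 1, 0) : ℝ × ℝ × ℝ) := by
    simp
  rw [h4, map_neg, neg_inj] at h3
  unfold Pw dW
  rw [← hWd]
  exact h3.symm

private theorem J_13_base : Base ⊆ Oct := by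
  intro x hx
  obtain ⟨h1, h2, h3, -⟩ := hx
  exact ⟨h1, h2, h3⟩

private theorem J_13_bdd : Bornology.IsBounded Base := by
  refine (Metric.isBounded_Icc ((0, 0, 0) : ℝ × ℝ × ℝ) (1, 1, 1)).subset ?_
  intro x hx
  obtain ⟨h1, h2, h3, h4, -⟩ := hx
  refine ⟨⟨h1.le, h2.le, h3.le⟩, ⟨?_, ?_, ?_⟩⟩
  · show x.1 ≤ 1
    linarith
  · show x.2.1 ≤ 1
    linarith
  · show x.2.2 ≤ 1
    linarith

theorem J_reach (Ω G : Set (ℝ × ℝ × ℝ)) (hΩ : IsOpen Ω) (hB : Ω ⊆ Base)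
    (hs : ∀ z z' y : ℝ, (z, z', y) ∈ Ω → (z', z, y) ∈ Ω) (hG : IsOpen G) (hGΩ : ∀ x ∈ Ω, x.1 ≤ x.2.1 → x ∈ G)
    (θ : ℝ) (hθ : 0 < θ) :
    ∃ P : ℝ × ℝ × ℝ → ℝ, Continuous P ∧ HasCompactSupport P ∧ tsupport P ⊆ Ω ∩ G ∧
      (1 / 8) * (∫ x in Ω, Vd x ^ 2) - θ ≤ 2 * J2 P - J1 P := by
  obtain ⟨ψ, hψ, hψc, hψΩ, hψs, hψi⟩ := exists_cut Ω hΩ (hB.trans J_13_base)
    (J_13_bdd.subset hB) hs (8 * θ) (by linarith)
  have hO : tsupport ψ ⊆ Oct := hψΩ.trans (hB.trans J_13_base)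
  have c0 := Pw_cont ψ hψ
  have k0 : tsupport (Pw ψ) ⊆ tsupport ψ := Pw_supp ψ
  have kc : HasCompactSupport (Pw ψ) := hψc.of_isClosed_subset (isClosed_tsupport _) k0
  have hJ := Pw_J ψ hψ hψc hO hψs
  have hsym := J_13_sym ψ hψ hψs
  -- the width
  obtain ⟨τ, hτ, hτG⟩ : ∃ τ : ℝ, 0 < τ ∧ ∀ x ∈ tsupport (Pw ψ), x.1 ≤ x.2.1 + τ → x ∈ G := by
    have hKc : IsCompact (tsupport (Pw ψ) ∩ Gᶜ) := kc.isCompact.inter_right hG.isClosed_compl
    rcases (tsupport (Pw ψ) ∩ Gᶜ).eq_empty_or_nonempty with he | hne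
    · refine ⟨1, one_pos, fun x hx _ => ?_⟩
      by_contra hn
      have : x ∈ tsupport (Pw ψ) ∩ Gᶜ := ⟨hx, hn⟩
      rw [he] at this
      exact this
    · obtain ⟨x0, hx0, hmin⟩ := hKc.exists_isMinOn hne
        (f := fun x : ℝ × ℝ × ℝ => x.1 - x.2.1) (by fun_prop)
      have hpos : 0 < x0.1 - x0.2.1 := by
        by_contra hcon
        push Not at hcon
        exact hx0.2 (hGΩ x0 (hψΩ (k0 hx0.1)) (by linarith))
      refine ⟨(x0.1 - x0.2.1) / 2, by linarith, fun x hx hxτ => ?_⟩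
      by_contra hn
      have h1 : x0.1 - x0.2.1 ≤ x.1 - x.2.1 := hmin ⟨hx, hn⟩
      linarith
  obtain ⟨χ, hχ⟩ : ∃ χ : ℝ × ℝ × ℝ → ℝ, ∀ x, χ x =
      max 0 (min 1 (1 / 2 + (x.2.1 - x.1) / (2 * τ))) := ⟨_, fun _ => rfl⟩
  have hχc : Continuous χ := by
    have : χ = fun x => max 0 (min 1 (1 / 2 + (x.2.1 - x.1) / (2 * τ))) := funext hχ
    rw [this]
    fun_prop
  have hχ1 : ∀ z z' y : ℝ, χ (z, z', y) + χ (z', z, y) = 1 := by
    intro z z' y
    rw [hχ, hχ]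
    have e : (z - z') / (2 * τ) = -((z' - z) / (2 * τ)) := by ring
    simp only [e]
    generalize (z' - z) / (2 * τ) = s
    rcases le_total (1 / 2) s with h | h
    · rw [min_eq_left (by linarith), max_eq_right (by linarith),
        min_eq_right (by linarith), max_eq_left (by linarith)]
      norm_num
    · rcases le_total s (-(1 / 2)) with h' | h'
      · rw [min_eq_right (by linarith), max_eq_left (by linarith),
          min_eq_left (by linarith), max_eq_right (by linarith)]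
        norm_num
      · rw [min_eq_right (by linarith), max_eq_right (by linarith),
          min_eq_right (by linarith), max_eq_right (by linarith)]
        ring
  obtain ⟨j1, j2⟩ := one_sided (Pw ψ) χ c0 kc hχc hsym hχ1
  have hsub : Function.support (fun x => 2 * χ x * Pw ψ x) ⊆
      tsupport (Pw ψ) ∩ {x | x.1 ≤ x.2.1 + τ} := by
    intro x hx
    rw [Function.mem_support] at hx
    have h1 : Pw ψ x ≠ 0 := right_ne_zero_of_mul hx
    have h2 : χ x ≠ 0 := right_ne_zero_of_mul (left_ne_zero_of_mul hx)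
    refine ⟨subset_tsupport _ h1, ?_⟩
    show x.1 ≤ x.2.1 + τ
    by_contra hcon
    push Not at hcon
    apply h2
    rw [hχ]
    have h3 : (x.2.1 - x.1) / (2 * τ) ≤ -(1 / 2) := by
      rw [div_le_iff₀ (by linarith)]
      linarith
    rw [min_eq_right (by linarith), max_eq_left (by linarith)]
  have hcl : IsClosed (tsupport (Pw ψ) ∩ {x : ℝ × ℝ × ℝ | x.1 ≤ x.2.1 + τ}) :=
    (isClosed_tsupport _).inter (isClosed_le (by fun_prop) (by fun_prop))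
  have hts : tsupport (fun x => 2 * χ x * Pw ψ x) ⊆
      tsupport (Pw ψ) ∩ {x | x.1 ≤ x.2.1 + τ} := closure_minimal hsub hcl
  refine ⟨fun x => 2 * χ x * Pw ψ x, by fun_prop, ?_, ?_, ?_⟩
  · exact kc.of_isClosed_subset (isClosed_tsupport _) (hts.trans inter_subset_left)
  · intro x hx
    have h1 := hts hx
    exact ⟨hψΩ (k0 h1.1), hτG x h1.1 h1.2⟩
  · rw [j1, j2, hJ]
    linarith

end Pool.Agent.LibSM56
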