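import Pool.Agent.LibSM56.J_09
import Pool.Agent.LibSM56.J_10
import Pool.Agent.LibSM56.J_11
import Pool.Agent.LibSM56.J_13

/-! SM56 J_14 (MEDIUM).  `G = {x | GoodAt x}` is open (`GoodAt x` with `κ` gives `GoodAt x'` with `κ/2` for `|x' - x| < κ/2` in the sup norm).
`P` from `J_reach` with `θ/2`; `approx_boxes` for `Ω ∩ G`, `κ x` = the radius of `GoodAt` (choose; 1 elsewhere), `η` small: `Q = ∑ bx` is `ErrOK`
(`ErrOK_sum` and `GoodAt (x i)`), `J_close` (`P`, `Q` vanish outside `Base`) gives `2 J2 Q - J1 Q ≥ 2 J2 P - J1 P - θ/2`.  `AdmP ε Q`: `Q` vanishes outside of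
a compact `K ⊆ Base`; the continuous functions `1 - (z+z'+y)`, `1/2 - (z+z'-y)` are positive on `K`, so `≥ ε` for some `ε ≤ 1/10`
(`IsCompact.exists_isMinOn`; `K` empty is trivial); `z+z' ≤ 3/4 - ε` is half of the sum of the two. -/

set_option autoImplicit false

namespace Pool.Agent.LibSM56

open MeasureTheory Set Filter Topology Complex ProbabilityTheory
open scoped NNReal ComplexConjugate
open Pool.Agent.LibZM Pool.Agent.LibSM47

theorem J_14_open : IsOpen {x : ℝ × ℝ × ℝ | GoodAt x} := by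
  rw [Metric.isOpen_iff]
  rintro x ⟨κ, hκ, h⟩
  refine ⟨κ / 2, by positivity, fun x' hx' => ⟨κ / 2, by positivity, fun a b c ha hb hc h1 h2 h3 => ?_⟩⟩
  rw [Metric.mem_ball, Prod.dist_eq, max_lt_iff, Prod.dist_eq, max_lt_iff, Real.dist_eq, Real.dist_eq,
    Real.dist_eq] at hx'
  obtain ⟨e1, e2, e3⟩ := hx'
  refine h a b c ha hb hc (fun t ht => h1 t ?_) (fun t ht => h2 t ?_) (fun t ht => h3 t ?_)
  · have := abs_sub_le t x'.1 x.1
    linarith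
  · have := abs_sub_le t x'.2.1 x.2.1
    linarith
  · have := abs_sub_le t x'.2.2 x.2.2
    linarith

private theorem J_14_min {K : Set (ℝ × ℝ × ℝ)} (hK : IsCompact K) {f : ℝ × ℝ × ℝ → ℝ} (hf : Continuous f)
    (h : ∀ x ∈ K, 0 < f x) : ∃ ε : ℝ, 0 < ε ∧ ∀ x ∈ K, ε ≤ f x := by
  rcases K.eq_empty_or_nonempty with h0 | h0
  · refine ⟨1, one_pos, fun x hx => ?_⟩
    rw [h0] at hx
    exact absurd hx (Set.notMem_empty x)
  · obtain ⟨x, hx, hmin⟩ := hK.exists_isMinOn h0 hf.continuousOn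
    exact ⟨f x, h x hx, fun y hy => hmin hy⟩

theorem J_boxes (Ω : Set (ℝ × ℝ × ℝ)) (hΩ : IsOpen Ω) (hB : Ω ⊆ Base) (hs : ∀ z z' y : ℝ, (z, z', y) ∈ Ω → (z', z, y) ∈ Ω)
    (hgood : ∀ x ∈ Ω, x.1 ≤ x.2.1 → GoodAt x) (θ : ℝ) (hθ : 0 < θ) :
    ∃ P : ℝ × ℝ × ℝ → ℝ, ∃ ε : ℝ, 0 < ε ∧ ε ≤ 1 / 10 ∧ AdmP ε P ∧ ErrOK P ∧
      (1 / 8) * (∫ x in Ω, Vd x ^ 2) - θ ≤ 2 * J2 P - J1 P := by
  classical
  have hGo := J_14_open
  obtain ⟨P, hPc, hPs, hPt, hPv⟩ := J_reach Ω {x | GoodAt x} hΩ hB hs hGo hgood (θ / 2) (by positivity)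
  obtain ⟨M0, hM0⟩ := hPc.bounded_above_of_compact_support hPs
  obtain ⟨M, hMd⟩ : ∃ M, M = max M0 0 := ⟨_, rfl⟩
  have hM00 : 0 ≤ M := by
    rw [hMd]
    exact le_max_right _ _
  have hM : ∀ x, |P x| ≤ M := fun x => by
    have := hM0 x
    rw [Real.norm_eq_abs] at this
    rw [hMd]
    exact this.trans (le_max_left _ _)
  obtain ⟨η, hηd⟩ : ∃ η, η = min 1 (θ / 2 / (21 + 2 * M)) := ⟨_, rfl⟩
  have hη : 0 < η := by
    rw [hηd]
    exact lt_min one_pos (by positivity)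
  have hη1 : η ≤ 1 := by
    rw [hηd]
    exact min_le_left _ _
  have hη2 : η * (21 + 2 * M) ≤ θ / 2 := by
    have h1 : η ≤ θ / 2 / (21 + 2 * M) := by
      rw [hηd]
      exact min_le_right _ _
    rwa [le_div_iff₀ (by positivity)] at h1
  obtain ⟨κ, hκd⟩ : ∃ κ : ℝ × ℝ × ℝ → ℝ, ∀ x, ∀ h : GoodAt x, κ x = h.choose :=
    ⟨fun x => if h : GoodAt x then h.choose else 1, fun x h => dif_pos h⟩
  have hκ : ∀ x ∈ Ω ∩ {x | GoodAt x}, 0 < κ x := by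
    rintro x ⟨-, hx⟩
    rw [hκd x hx]
    exact hx.choose_spec.1
  obtain ⟨n, a, b, c, x, hx, happ, K, hK, hKΩ, hK0⟩ := approx_boxes (Ω ∩ {x | GoodAt x}) (hΩ.inter hGo) P hPc hPs
    hPt κ hκ η hη
  obtain ⟨Q, hQ⟩ : ∃ Q : ℝ × ℝ × ℝ → ℝ, Q = fun v => ∑ i, bx (a i) (b i) (c i) v := ⟨_, rfl⟩
  have hQc : Continuous Q := by
    rw [hQ]
    refine continuous_finsetSum _ fun i _ => ?_
    obtain ⟨-, h1, h2, h3, -⟩ := hx i
    unfold bx
    exact ((h1.continuous.comp continuous_fst).mul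
      (h2.continuous.comp (continuous_fst.comp continuous_snd))).mul
      (h3.continuous.comp (continuous_snd.comp continuous_snd))
  have hQK : ∀ v, v ∉ K → Q v = 0 := fun v hv => by
    rw [hQ]
    exact hK0 v hv
  have hQs : HasCompactSupport Q := HasCompactSupport.intro hK hQK
  have hKB : ∀ v ∈ K, v ∈ Base := fun v hv => hB (hKΩ hv).1
  have hErr : ErrOK Q := by
    rw [hQ]
    refine ErrOK_sum (fun i => bx (a i) (b i) (c i)) fun i => ?_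
    obtain ⟨⟨-, hg⟩, h1, h2, h3, h4, h5, h6⟩ := hx i
    rw [hκd (x i) hg] at h4 h5 h6
    exact hg.choose_spec.2 (a i) (b i) (c i) h1 h2 h3 h4 h5 h6
  obtain ⟨ε1, hε1, hε1'⟩ := J_14_min hK (f := fun v => 1 - (v.1 + v.2.1 + v.2.2)) (by fun_prop)
    (fun v hv => by
      obtain ⟨-, -, -, h4, -⟩ := hKB v hv
      show 0 < 1 - (v.1 + v.2.1 + v.2.2)
      linarith)
  obtain ⟨ε2, hε2, hε2'⟩ := J_14_min hK (f := fun v => 1 / 2 - (v.1 + v.2.1 - v.2.2)) (by fun_prop)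
    (fun v hv => by
      obtain ⟨-, -, -, -, h5⟩ := hKB v hv
      show 0 < 1 / 2 - (v.1 + v.2.1 - v.2.2)
      linarith)
  have hz1 : ∀ x, ¬ (0 < x.1 ∧ 0 < x.2.1 ∧ 0 < x.2.2 ∧ x.1 + x.2.1 + x.2.2 < 1) → P x = 0 := by
    intro v hv
    by_contra h0
    have h1 : v ∈ Base := hB (hPt (subset_tsupport P (Function.mem_support.2 h0))).1
    obtain ⟨e1, e2, e3, e4, -⟩ := h1
    exact hv ⟨e1, e2, e3, e4⟩
  have hz2 : ∀ x, ¬ (0 < x.1 ∧ 0 < x.2.1 ∧ 0 < x.2.2 ∧ x.1 + x.2.1 + x.2.2 < 1) → Q x = 0 := by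
    intro v hv
    by_contra h0
    have h1 : v ∈ Base := hKB v (by
      by_contra h2
      exact h0 (hQK v h2))
    obtain ⟨e1, e2, e3, e4, -⟩ := h1
    exact hv ⟨e1, e2, e3, e4⟩
  obtain ⟨hJ1, hJ2⟩ := J_close P Q hPc hQc M η hM (fun v => by
    rw [hQ]
    exact happ v) hz1 hz2
  refine ⟨Q, min (min ε1 ε2) (1 / 10), lt_min (lt_min hε1 hε2) (by norm_num), min_le_right _ _,
    ⟨hQc, hQs, fun z z' y hz hz' hy hne => ?_⟩, hErr, ?_⟩
  · have hvK : (z, z', y) ∈ K := by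
      by_contra h2
      exact hne (hQK _ h2)
    have h1 := hε1' _ hvK
    have h2 := hε2' _ hvK
    simp only at h1 h2
    have h3 : min (min ε1 ε2) (1 / 10) ≤ ε1 := (min_le_left _ _).trans (min_le_left _ _)
    have h4 : min (min ε1 ε2) (1 / 10) ≤ ε2 := (min_le_left _ _).trans (min_le_right _ _)
    refine ⟨by linarith, by linarith, by linarith⟩
  · rw [abs_le] at hJ1 hJ2
    obtain ⟨j1, j1'⟩ := hJ1
    obtain ⟨j2, j2'⟩ := hJ2
    have h3 : η * (2 * M + η) + 20 * η ≤ η * (21 + 2 * M) := by nlinarith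
    linarith

end Pool.Agent.LibSM56
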