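import Pool.Agent.LibSM56.Regions

/-! SM56 V_01 (ONLY MATHLIB + Regions, SHORT).  The inner integrals.  `AF_eq`, `AP_eq`: polynomial integrals (values checked with exact
rationals).  `inner_z`: split `[0,x]` at `b` and `x-b`; the middle is zero, the third part is the mirror image of the first
(`z ↦ x - z`); end points have measure zero. -/

set_option autoImplicit false

namespace Pool.Agent.LibSM56

open MeasureTheory Set Filter Topology Complex ProbabilityTheory
open scoped NNReal ComplexConjugate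
open Pool.Agent.LibZM Pool.Agent.LibSM47

private theorem V_01_int (a0 a1 a2 a3 b : ℝ) :
    ∫ z in (0 : ℝ)..b, (a0 + a1 * z + a2 * z ^ 2 + a3 * z ^ 3) ^ 2 =
      a0 ^ 2 * b + a0 * a1 * b ^ 2 + (a1 ^ 2 + 2 * a0 * a2) / 3 * b ^ 3 +
        (a0 * a3 + a1 * a2) / 2 * b ^ 4 + (a2 ^ 2 + 2 * a1 * a3) / 5 * b ^ 5 +
        a2 * a3 / 3 * b ^ 6 + a3 ^ 2 / 7 * b ^ 7 := by
  have h : ∀ z ∈ uIcc (0 : ℝ) b, HasDerivAt (fun z : ℝ => a0 ^ 2 * z + a0 * a1 * z ^ 2 +
      (a1 ^ 2 + 2 * a0 * a2) / 3 * z ^ 3 + (a0 * a3 + a1 * a2) / 2 * z ^ 4 +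
      (a2 ^ 2 + 2 * a1 * a3) / 5 * z ^ 5 + a2 * a3 / 3 * z ^ 6 + a3 ^ 2 / 7 * z ^ 7)
      ((a0 + a1 * z + a2 * z ^ 2 + a3 * z ^ 3) ^ 2) z := by
    intro z _
    have h1 := (hasDerivAt_id' z).const_mul (a0 ^ 2)
    have h2 := (hasDerivAt_pow 2 z).const_mul (a0 * a1)
    have h3 := (hasDerivAt_pow 3 z).const_mul ((a1 ^ 2 + 2 * a0 * a2) / 3)
    have h4 := (hasDerivAt_pow 4 z).const_mul ((a0 * a3 + a1 * a2) / 2)
    have h5 := (hasDerivAt_pow 5 z).const_mul ((a2 ^ 2 + 2 * a1 * a3) / 5)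
    have h6 := (hasDerivAt_pow 6 z).const_mul (a2 * a3 / 3)
    have h7 := (hasDerivAt_pow 7 z).const_mul (a3 ^ 2 / 7)
    refine ((((((h1.fun_add h2).fun_add h3).fun_add h4).fun_add h5).fun_add h6).fun_add
      h7).congr_deriv ?_
    push_cast
    ring
  rw [intervalIntegral.integral_eq_sub_of_hasDerivAt h
    ((by fun_prop : Continuous fun z : ℝ =>
      (a0 + a1 * z + a2 * z ^ 2 + a3 * z ^ 3) ^ 2).intervalIntegrable _ _)]
  ring

private theorem V_01_f (x u b : ℝ) :
    ∫ z in (0 : ℝ)..b, ((x - 2 * z) * (u - z) * (u - (x - z))) ^ 2 =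
      ∫ z in (0 : ℝ)..b, (x * u * (u - x) + (x ^ 2 - 2 * u ^ 2 + 2 * u * x) * z +
        (-3 * x) * z ^ 2 + 2 * z ^ 3) ^ 2 := by
  refine intervalIntegral.integral_congr fun z _ => ?_
  ring

theorem AF_eq (x u : ℝ) : ∫ z in (0 : ℝ)..x, ((x - 2 * z) * (u - z) * (u - (x - z))) ^ 2 = AF x u := by
  rw [V_01_f, V_01_int]
  unfold AF
  ring

theorem AP_eq (x u : ℝ) : 2 * ∫ z in (0 : ℝ)..(u - 1 / 2), ((x - 2 * z) * (u - z) * (u - (x - z))) ^ 2 = AP x u := by
  rw [V_01_f, V_01_int]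
  unfold AP
  ring

theorem inner_z (x u b : ℝ) (hb : 0 ≤ b) (hbx : b ≤ x / 2) :
    ∫ z in (0 : ℝ)..x, (if min z (x - z) < b then ((x - 2 * z) * (u - z) * (u - (x - z))) ^ 2 else 0) =
      2 * ∫ z in (0 : ℝ)..b, ((x - 2 * z) * (u - z) * (u - (x - z))) ^ 2 := by
  set f : ℝ → ℝ := fun z => ((x - 2 * z) * (u - z) * (u - (x - z))) ^ 2 with hf
  set g : ℝ → ℝ := fun z => if min z (x - z) < b then f z else 0 with hg
  have hfc : Continuous f := by
    rw [hf]
    fun_prop
  have hgi : ∀ p q : ℝ, IntervalIntegrable g volume p q := by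
    intro p q
    rw [intervalIntegrable_iff]
    have h1 : IntegrableOn f (uIoc p q) := intervalIntegrable_iff.1 (hfc.intervalIntegrable p q)
    have h2 : g = Set.indicator {z | min z (x - z) < b} f := by
      ext z
      simp only [hg, Set.indicator, Set.mem_setOf_eq]
    rw [h2]
    exact h1.indicator (measurableSet_lt (by fun_prop) measurable_const)
  change ∫ z in (0 : ℝ)..x, g z = 2 * ∫ z in (0 : ℝ)..b, f z
  rw [← intervalIntegral.integral_add_adjacent_intervals (hgi 0 b) (hgi b x),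
    ← intervalIntegral.integral_add_adjacent_intervals (hgi b (x - b)) (hgi (x - b) x)]
  have e1 : ∫ z in (0 : ℝ)..b, g z = ∫ z in (0 : ℝ)..b, f z := by
    rw [intervalIntegral.integral_of_le hb, intervalIntegral.integral_of_le hb,
      integral_Ioc_eq_integral_Ioo, integral_Ioc_eq_integral_Ioo]
    refine setIntegral_congr_fun measurableSet_Ioo fun z hz => ?_
    simp only [hg]
    rw [if_pos ((min_le_left _ _).trans_lt hz.2)]
  have e2 : ∫ z in b..(x - b), g z = 0 := by
    rw [intervalIntegral.integral_of_le (by linarith), integral_Ioc_eq_integral_Ioo]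
    refine setIntegral_eq_zero_of_forall_eq_zero fun z hz => ?_
    simp only [hg]
    rw [if_neg (not_lt.2 (le_min hz.1.le (by linarith [hz.2])))]
  have e3 : ∫ z in (x - b)..x, g z = ∫ z in (0 : ℝ)..b, f z := by
    have e4 : ∫ z in (x - b)..x, g z = ∫ z in (x - b)..x, f z := by
      rw [intervalIntegral.integral_of_le (by linarith),
        intervalIntegral.integral_of_le (by linarith),
        integral_Ioc_eq_integral_Ioo, integral_Ioc_eq_integral_Ioo]
      refine setIntegral_congr_fun measurableSet_Ioo fun z hz => ?_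
      simp only [hg]
      rw [if_pos ((min_le_right _ _).trans_lt (by linarith [hz.1]))]
    have e5 := intervalIntegral.integral_comp_sub_left (a := 0) (b := b) f x
    rw [sub_zero] at e5
    rw [e4, ← e5]
    refine intervalIntegral.integral_congr fun z _ => ?_
    simp only [hf]
    ring
  rw [e1, e2, e3]
  ring

theorem inner_full (x u b : ℝ) (hx : 0 ≤ x) (hbx : x / 2 ≤ b) :
    ∫ z in (0 : ℝ)..x, (if min z (x - z) < b then ((x - 2 * z) * (u - z) * (u - (x - z))) ^ 2 else 0) = AF x u := by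
  rw [← AF_eq]
  refine intervalIntegral.integral_congr_ae ?_
  have h0 : ∀ᵐ z : ℝ, z ≠ x / 2 := compl_mem_ae_iff.2 (measure_singleton _)
  filter_upwards [h0] with z hz _
  refine if_pos ?_
  rcases lt_or_gt_of_ne hz with h | h
  · exact (min_le_left _ _).trans_lt (by linarith)
  · exact (min_le_right _ _).trans_lt (by linarith)

end Pool.Agent.LibSM56
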