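import Pool.Agent.LibSM56.V_01
import Pool.Agent.LibSM56.J_03

/-! SM56 V_02 (MEDIUM).  `∫_{OmA} Vd² = ∫_{Oct} indicator`, `tri_eq` (the indicator function is integrable: bounded, bounded support), and for
`x, y > 0`, `0 < z < x`: `(z, x-z, y) ∈ OmA ↔ x+y < 1 ∧ x-y < 1/2 ∧ (x < 1/2 ∨ (2x+y < 3/2 ∧ min z (x-z) < 1/2-y))`.
`0 < x < 1/2`: `y` in `(0, 1-x)`, all `z`.  `1/2 < x < 2/3`: `y` in `(x-1/2, 3/2-2x)`; for `y ≤ (1-x)/2` all `z` (`inner_full` with
`b = 1/2-y`), for `y ≥ (1-x)/2`: `inner_z` with `b = 1/2-y ≥ 0` and `AP_eq` with `u = 1-y`.  `x ≥ 2/3`: nothing.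
`Vd (z, x-z, y) = (x-2z)(u-z)(u-(x-z))`, `u = 1-y`.  Compare `LibSM47/H_05b.lean`. -/

set_option autoImplicit false

namespace Pool.Agent.LibSM56

open MeasureTheory Set Filter Topology Complex ProbabilityTheory
open scoped NNReal ComplexConjugate
open Pool.Agent.LibZM Pool.Agent.LibSM47

private lemma V_02_cont (F : ℝ → ℝ → ℝ) (hF : Continuous (Function.uncurry F)) (a b : ℝ → ℝ)
    (ha : Continuous a) (hb : Continuous b) :
    Continuous fun x => ∫ y in (a x)..(b x), F x y := by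
  have h : (fun x => ∫ y in (a x)..(b x), F x y) =
      fun x => (∫ y in (0 : ℝ)..(b x), F x y) - ∫ y in (0 : ℝ)..(a x), F x y := by
    funext x
    have hc : Continuous (F x) := hF.comp (by fun_prop : Continuous fun y : ℝ => (x, y))
    rw [intervalIntegral.integral_interval_sub_left (hc.intervalIntegrable _ _)
      (hc.intervalIntegrable _ _)]
  rw [h]
  exact (intervalIntegral.continuous_parametric_intervalIntegral_of_continuous hF hb).sub
    (intervalIntegral.continuous_parametric_intervalIntegral_of_continuous hF ha)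

private lemma V_02_open : IsOpen OmA := by
  have e : OmA = {x : ℝ × ℝ × ℝ | (0 < x.1 ∧ 0 < x.2.1 ∧ 0 < x.2.2 ∧ x.1 + x.2.1 + x.2.2 < 1 ∧
      x.1 + x.2.1 - x.2.2 < 1 / 2) ∧
      (x.1 + x.2.1 < 1 / 2 ∨ (2 * (x.1 + x.2.1) + x.2.2 < 3 / 2 ∧ min x.1 x.2.1 < 1 / 2 - x.2.2))} := rfl
  rw [e]
  have c1 : Continuous fun x : ℝ × ℝ × ℝ => x.1 := by fun_prop
  have c2 : Continuous fun x : ℝ × ℝ × ℝ => x.2.1 := by fun_prop
  have c3 : Continuous fun x : ℝ × ℝ × ℝ => x.2.2 := by fun_prop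
  have c4 : Continuous fun x : ℝ × ℝ × ℝ => x.1 + x.2.1 + x.2.2 := by fun_prop
  have c5 : Continuous fun x : ℝ × ℝ × ℝ => x.1 + x.2.1 - x.2.2 := by fun_prop
  have c6 : Continuous fun x : ℝ × ℝ × ℝ => x.1 + x.2.1 := by fun_prop
  have c7 : Continuous fun x : ℝ × ℝ × ℝ => 2 * (x.1 + x.2.1) + x.2.2 := by fun_prop
  have c8 : Continuous fun x : ℝ × ℝ × ℝ => min x.1 x.2.1 := by fun_prop
  have c9 : Continuous fun x : ℝ × ℝ × ℝ => 1 / 2 - x.2.2 := by fun_prop
  exact ((isOpen_lt continuous_const c1).inter ((isOpen_lt continuous_const c2).inter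
    ((isOpen_lt continuous_const c3).inter ((isOpen_lt c4 continuous_const).inter
      (isOpen_lt c5 continuous_const))))).inter
    ((isOpen_lt c6 continuous_const).union ((isOpen_lt c7 continuous_const).inter (isOpen_lt c8 c9)))

private lemma V_02_int : Integrable (OmA.indicator fun v => Vd v ^ 2) := by
  rw [integrable_indicator_iff V_02_open.measurableSet]
  have h1 : Continuous (fun v : ℝ × ℝ × ℝ => Vd v ^ 2) := by
    unfold Vd
    fun_prop
  have h2 : IntegrableOn (fun v : ℝ × ℝ × ℝ => Vd v ^ 2)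
      (Icc (0 : ℝ) 1 ×ˢ Icc (0 : ℝ) 1 ×ˢ Icc (0 : ℝ) 1) :=
    h1.continuousOn.integrableOn_compact (isCompact_Icc.prod (isCompact_Icc.prod isCompact_Icc))
  refine h2.mono_set ?_
  rintro ⟨z, z', y⟩ ⟨⟨h3, h4, h5, h6, h7⟩, -⟩
  simp only at h3 h4 h5 h6 h7
  refine ⟨⟨h3.le, ?_⟩, ⟨h4.le, ?_⟩, ⟨h5.le, ?_⟩⟩
  · show z ≤ 1
    linarith
  · show z' ≤ 1
    linarith
  · show y ≤ 1
    linarith

private lemma V_02_z (x y b : ℝ) (hx : 0 < x) (h : ∀ z ∈ Ioo (0 : ℝ) x, (z, x - z, y) ∈ OmA ↔ min z (x - z) < b) :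
    ∫ z in (0 : ℝ)..x, OmA.indicator (fun v => Vd v ^ 2) (z, x - z, y) =
      ∫ z in (0 : ℝ)..x, (if min z (x - z) < b then
        ((x - 2 * z) * ((1 - y) - z) * ((1 - y) - (x - z))) ^ 2 else 0) := by
  rw [intervalIntegral.integral_of_le hx.le, intervalIntegral.integral_of_le hx.le,
    integral_Ioc_eq_integral_Ioo, integral_Ioc_eq_integral_Ioo]
  refine setIntegral_congr_fun measurableSet_Ioo fun z hz => ?_
  by_cases hm : min z (x - z) < b
  · rw [if_pos hm, indicator_of_mem ((h z hz).2 hm)]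
    unfold Vd
    simp only
    ring
  · rw [if_neg hm, indicator_of_notMem fun h1 => hm ((h z hz).1 h1)]

private lemma V_02_zero (x y : ℝ) (hx : 0 < x) (h : ∀ z ∈ Ioo (0 : ℝ) x, (z, x - z, y) ∉ OmA) :
    ∫ z in (0 : ℝ)..x, OmA.indicator (fun v => Vd v ^ 2) (z, x - z, y) = 0 := by
  rw [intervalIntegral.integral_of_le hx.le, integral_Ioc_eq_integral_Ioo]
  exact setIntegral_eq_zero_of_forall_eq_zero fun z hz => indicator_of_notMem (h z hz) _

private lemma V_02_full (x y b : ℝ) (hx : 0 < x) (hb : x / 2 ≤ b)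
    (h : ∀ z ∈ Ioo (0 : ℝ) x, (z, x - z, y) ∈ OmA ↔ min z (x - z) < b) :
    ∫ z in (0 : ℝ)..x, OmA.indicator (fun v => Vd v ^ 2) (z, x - z, y) = AF x (1 - y) := by
  rw [V_02_z x y b hx h, inner_full x (1 - y) b hx.le hb]

private lemma V_02_part (x y : ℝ) (hx : 0 < x) (hb0 : 0 ≤ 1 / 2 - y) (hb : 1 / 2 - y ≤ x / 2)
    (h : ∀ z ∈ Ioo (0 : ℝ) x, (z, x - z, y) ∈ OmA ↔ min z (x - z) < 1 / 2 - y) :
    ∫ z in (0 : ℝ)..x, OmA.indicator (fun v => Vd v ^ 2) (z, x - z, y) = AP x (1 - y) := by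
  rw [V_02_z x y _ hx h, inner_z x (1 - y) _ hb0 hb, ← AP_eq]
  congr 2
  ring

/-- Integral over `y > 0` of a function living on a bounded interval. -/
private lemma V_02_y (F : ℝ → ℝ) (hF : Continuous F) (a b : ℝ) (ha : 0 ≤ a) (hab : a ≤ b) :
    IntegrableOn ((Ioo a b).indicator F) (Ioi 0) ∧
      ∫ y in Ioi (0 : ℝ), (Ioo a b).indicator F y = ∫ y in a..b, F y := by
  have hi : Integrable ((Ioo a b).indicator F) :=
    (integrable_indicator_iff measurableSet_Ioo).2
      ((hF.continuousOn.integrableOn_compact isCompact_Icc).mono_set Ioo_subset_Icc_self)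
  refine ⟨hi.integrableOn, ?_⟩
  rw [setIntegral_indicator measurableSet_Ioo, intervalIntegral.integral_of_le hab,
    integral_Ioc_eq_integral_Ioo]
  congr 2
  ext y
  constructor
  · rintro ⟨-, h⟩
    exact h
  · intro h
    exact ⟨lt_of_le_of_lt ha h.1, h⟩

private lemma V_02_yc (F : ℝ → ℝ) (hF : Continuous F) (a b : ℝ) (ha : 0 < a) (hab : a ≤ b) :
    IntegrableOn ((Ico a b).indicator F) (Ioi 0) ∧
      ∫ y in Ioi (0 : ℝ), (Ico a b).indicator F y = ∫ y in a..b, F y := by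
  have hi : Integrable ((Ico a b).indicator F) :=
    (integrable_indicator_iff measurableSet_Ico).2
      ((hF.continuousOn.integrableOn_compact isCompact_Icc).mono_set Ico_subset_Icc_self)
  refine ⟨hi.integrableOn, ?_⟩
  rw [setIntegral_indicator measurableSet_Ico, intervalIntegral.integral_of_le hab,
    integral_Ioc_eq_integral_Ioo, ← integral_Ico_eq_integral_Ioo]
  congr 2
  ext y
  constructor
  · rintro ⟨-, h⟩
    exact h
  · intro h
    exact ⟨lt_of_lt_of_le ha h.1, h⟩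

private lemma V_02_AFc (x : ℝ) : Continuous fun y : ℝ => AF x (1 - y) := by
  unfold AF
  fun_prop

private lemma V_02_APc (x : ℝ) : Continuous fun y : ℝ => AP x (1 - y) := by
  unfold AP
  fun_prop

/-- The case `x < 1/2`. -/
private lemma V_02_low (x : ℝ) (hx : 0 < x) (hx2 : x < 1 / 2) :
    ∫ y in Ioi (0 : ℝ), ∫ z in (0 : ℝ)..x, OmA.indicator (fun v => Vd v ^ 2) (z, x - z, y) =
      ∫ y in (0 : ℝ)..(1 - x), AF x (1 - y) := by
  rw [← (V_02_y _ (V_02_AFc x) 0 (1 - x) le_rfl (by linarith)).2]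
  refine setIntegral_congr_fun measurableSet_Ioi fun y hy => ?_
  rw [mem_Ioi] at hy
  by_cases h : y < 1 - x
  · rw [indicator_of_mem (show y ∈ Ioo 0 (1 - x) from ⟨hy, h⟩)]
    refine V_02_full x y x hx (by linarith) fun z hz => ?_
    constructor
    · intro _
      exact lt_of_le_of_lt (min_le_left _ _) hz.2
    · intro _
      refine ⟨⟨hz.1, ?_, hy, ?_, ?_⟩, Or.inl ?_⟩
      · show 0 < x - z
        linarith [hz.2]
      · show z + (x - z) + y < 1
        linarith
      · show z + (x - z) - y < 1 / 2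
        linarith
      · show z + (x - z) < 1 / 2
        linarith
  · rw [indicator_of_notMem fun h1 => h h1.2]
    refine V_02_zero x y hx fun z hz => ?_
    rintro ⟨⟨-, -, -, h4, -⟩, -⟩
    simp only at h4
    linarith

/-- The case `1/2 ≤ x < 2/3`. -/
private lemma V_02_mid (x : ℝ) (hx : 1 / 2 ≤ x) (hx2 : x < 2 / 3) :
    ∫ y in Ioi (0 : ℝ), ∫ z in (0 : ℝ)..x, OmA.indicator (fun v => Vd v ^ 2) (z, x - z, y) =
      (∫ y in (x - 1 / 2)..((1 - x) / 2), AF x (1 - y)) +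
        ∫ y in ((1 - x) / 2)..(3 / 2 - 2 * x), AP x (1 - y) := by
  have hx0 : 0 < x := by linarith
  rw [← (V_02_y _ (V_02_AFc x) (x - 1 / 2) ((1 - x) / 2) (by linarith) (by linarith)).2,
    ← (V_02_yc _ (V_02_APc x) ((1 - x) / 2) (3 / 2 - 2 * x) (by linarith) (by linarith)).2,
    ← integral_add (V_02_y _ (V_02_AFc x) (x - 1 / 2) ((1 - x) / 2) (by linarith) (by linarith)).1
      (V_02_yc _ (V_02_APc x) ((1 - x) / 2) (3 / 2 - 2 * x) (by linarith) (by linarith)).1]
  refine setIntegral_congr_fun measurableSet_Ioi fun y hy => ?_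
  rw [mem_Ioi] at hy
  have key : x - 1 / 2 < y → y < 3 / 2 - 2 * x →
      ∀ z ∈ Ioo (0 : ℝ) x, (z, x - z, y) ∈ OmA ↔ min z (x - z) < 1 / 2 - y := by
    intro h1 h2 z hz
    constructor
    · rintro ⟨-, h | h⟩
      · simp only at h
        linarith
      · exact h.2
    · intro h
      refine ⟨⟨hz.1, ?_, hy, ?_, ?_⟩, Or.inr ⟨?_, h⟩⟩
      · show 0 < x - z
        linarith [hz.2]
      · show z + (x - z) + y < 1
        linarith
      · show z + (x - z) - y < 1 / 2
        linarith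
      · show 2 * (z + (x - z)) + y < 3 / 2
        linarith
  by_cases c1 : x - 1 / 2 < y
  · by_cases c2 : y < 3 / 2 - 2 * x
    · by_cases c3 : y < (1 - x) / 2
      · rw [indicator_of_mem (show y ∈ Ioo (x - 1 / 2) ((1 - x) / 2) from ⟨c1, c3⟩),
          indicator_of_notMem fun h1 => absurd h1.1 (not_le.2 c3), add_zero]
        exact V_02_full x y (1 / 2 - y) hx0 (by linarith) (key c1 c2)
      · rw [indicator_of_notMem fun h1 => c3 h1.2,
          indicator_of_mem (show y ∈ Ico ((1 - x) / 2) (3 / 2 - 2 * x) from ⟨not_lt.1 c3, c2⟩), zero_add]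
        exact V_02_part x y hx0 (by linarith) (by linarith [not_lt.1 c3]) (key c1 c2)
    · rw [indicator_of_notMem fun h1 => c2 (by linarith [h1.2]),
        indicator_of_notMem fun h1 => c2 h1.2, add_zero]
      refine V_02_zero x y hx0 fun z hz => ?_
      rintro ⟨-, h | h⟩
      · simp only at h
        linarith
      · have h1 := h.1
        simp only at h1
        linarith
  · rw [indicator_of_notMem fun h1 => c1 h1.1,
      indicator_of_notMem fun h1 => c1 (by linarith [h1.1]), add_zero]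
    refine V_02_zero x y hx0 fun z hz => ?_
    rintro ⟨⟨-, -, -, -, h5⟩, -⟩
    simp only at h5
    linarith

/-- The case `2/3 ≤ x`. -/
private lemma V_02_high (x : ℝ) (hx : 2 / 3 ≤ x) :
    ∫ y in Ioi (0 : ℝ), ∫ z in (0 : ℝ)..x, OmA.indicator (fun v => Vd v ^ 2) (z, x - z, y) = 0 := by
  refine setIntegral_eq_zero_of_forall_eq_zero fun y hy => ?_
  refine V_02_zero x y (by linarith) fun z hz => ?_
  rintro ⟨⟨-, -, -, -, h5⟩, h | h⟩
  · simp only at h
    linarith
  · have h1 := h.1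
    simp only at h1 h5
    linarith

theorem OmA_iter : ∫ x in OmA, Vd x ^ 2 =
    (∫ x in (0 : ℝ)..(1 / 2), ∫ y in (0 : ℝ)..(1 - x), AF x (1 - y)) +
    ((∫ x in (1 / 2 : ℝ)..(2 / 3), ∫ y in (x - 1 / 2)..((1 - x) / 2), AF x (1 - y)) +
      ∫ x in (1 / 2 : ℝ)..(2 / 3), ∫ y in ((1 - x) / 2)..(3 / 2 - 2 * x), AP x (1 - y)) := by
  have h0 : ∫ x in OmA, Vd x ^ 2 = ∫ x in Oct, OmA.indicator (fun v => Vd v ^ 2) x := by
    rw [setIntegral_indicator V_02_open.measurableSet]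
    congr 2
    ext v
    constructor
    · intro h
      exact ⟨⟨h.1.1, h.1.2.1, h.1.2.2.1⟩, h⟩
    · intro h
      exact h.2
  rw [h0, tri_eq _ V_02_int.integrableOn]
  have hAFc : Continuous (Function.uncurry fun x y : ℝ => AF x (1 - y)) := by
    unfold AF Function.uncurry
    fun_prop
  have hAPc : Continuous (Function.uncurry fun x y : ℝ => AP x (1 - y)) := by
    unfold AP Function.uncurry
    fun_prop
  have cA : Continuous fun x : ℝ => ∫ y in (0 : ℝ)..(1 - x), AF x (1 - y) :=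
    V_02_cont _ hAFc (fun _ => 0) (fun x => 1 - x) (by fun_prop) (by fun_prop)
  have cB : Continuous fun x : ℝ => ∫ y in (x - 1 / 2)..((1 - x) / 2), AF x (1 - y) :=
    V_02_cont _ hAFc (fun x => x - 1 / 2) (fun x => (1 - x) / 2) (by fun_prop) (by fun_prop)
  have cC : Continuous fun x : ℝ => ∫ y in ((1 - x) / 2)..(3 / 2 - 2 * x), AP x (1 - y) :=
    V_02_cont _ hAPc (fun x => (1 - x) / 2) (fun x => 3 / 2 - 2 * x) (by fun_prop) (by fun_prop)
  have iA := V_02_y _ cA 0 (1 / 2) le_rfl (by norm_num)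
  have iB := V_02_yc (fun x => (∫ y in (x - 1 / 2)..((1 - x) / 2), AF x (1 - y)) +
    ∫ y in ((1 - x) / 2)..(3 / 2 - 2 * x), AP x (1 - y)) (cB.add cC) (1 / 2) (2 / 3) (by norm_num) (by norm_num)
  rw [← intervalIntegral.integral_add (cB.intervalIntegrable _ _) (cC.intervalIntegrable _ _),
    ← iA.2, ← iB.2, ← integral_add iA.1 iB.1]
  refine setIntegral_congr_fun measurableSet_Ioi fun x hx => ?_
  rw [mem_Ioi] at hx
  by_cases c1 : x < 1 / 2
  · rw [indicator_of_mem (show x ∈ Ioo (0 : ℝ) (1 / 2) from ⟨hx, c1⟩),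
      indicator_of_notMem fun h1 => absurd h1.1 (not_le.2 c1), add_zero]
    exact V_02_low x hx c1
  · by_cases c2 : x < 2 / 3
    · rw [indicator_of_notMem fun h1 => c1 h1.2,
        indicator_of_mem (show x ∈ Ico (1 / 2 : ℝ) (2 / 3) from ⟨not_lt.1 c1, c2⟩), zero_add]
      exact V_02_mid x (not_lt.1 c1) c2
    · rw [indicator_of_notMem fun h1 => c1 h1.2, indicator_of_notMem fun h1 => c2 h1.2, add_zero]
      exact V_02_high x (not_lt.1 c2)

end Pool.Agent.LibSM56
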