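import Pool.Agent.LibSM56.V_01
import Pool.Agent.LibSM56.J_03

/-! SM56 V_03 (MEDIUM).  As V_02 for the region `OmF`: `0 < x < 1/2`: `y` in `(0, 1-x)`; `1/2 < x < 2/3`: `y` in `(x-1/2, (1-x)/2)`
(then `x+y < 1` is automatic); `x ≥ 2/3`: nothing.  Always all `z` in `(0,x)` (`AF_eq`). -/

set_option autoImplicit false

namespace Pool.Agent.LibSM56

open MeasureTheory Set Filter Topology Complex ProbabilityTheory
open scoped NNReal ComplexConjugate
open Pool.Agent.LibZM Pool.Agent.LibSM47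

private theorem V_03_F1 : Continuous (fun x : ℝ => ∫ y in (0 : ℝ)..(1 - x), AF x (1 - y)) := by
  refine intervalIntegral.continuous_parametric_intervalIntegral_of_continuous
    (f := fun x y : ℝ => AF x (1 - y)) ?_ (by fun_prop)
  simp only [Function.uncurry_def, AF]
  fun_prop

private theorem V_03_F2 :
    Continuous (fun x : ℝ => ∫ y in (x - 1 / 2)..((1 - x) / 2), AF x (1 - y)) := by
  have hc : Continuous (Function.uncurry fun x y : ℝ => AF x (1 - y)) := by
    simp only [Function.uncurry_def, AF]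
    fun_prop
  have h : (fun x : ℝ => ∫ y in (x - 1 / 2)..((1 - x) / 2), AF x (1 - y)) =
      fun x : ℝ => (∫ y in (0 : ℝ)..((1 - x) / 2), AF x (1 - y)) -
        ∫ y in (0 : ℝ)..(x - 1 / 2), AF x (1 - y) := by
    ext x
    have hx : Continuous fun y : ℝ => AF x (1 - y) := by
      simp only [AF]
      fun_prop
    rw [intervalIntegral.integral_interval_sub_left (hx.intervalIntegrable _ _)
      (hx.intervalIntegrable _ _)]
  rw [h]
  exact (intervalIntegral.continuous_parametric_intervalIntegral_of_continuous hc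
    (by fun_prop)).sub (intervalIntegral.continuous_parametric_intervalIntegral_of_continuous hc
    (by fun_prop))

private theorem V_03_y (C : ℝ → Prop) [DecidablePred C] (g : ℝ → ℝ) {p q : ℝ} (hp : 0 ≤ p)
    (hpq : p ≤ q) (hC : ∀ y, 0 < y → (C y ↔ p < y ∧ y < q)) :
    ∫ y in Ioi (0 : ℝ), (if C y then g y else 0) = ∫ y in p..q, g y := by
  rw [intervalIntegral.integral_of_le hpq, integral_Ioc_eq_integral_Ioo,
    ← integral_indicator measurableSet_Ioi, ← integral_indicator measurableSet_Ioo]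
  congr 1
  ext y
  by_cases hy : 0 < y
  · rw [indicator_of_mem (show y ∈ Ioi (0 : ℝ) from hy)]
    by_cases h : C y
    · rw [if_pos h, indicator_of_mem (show y ∈ Ioo p q from (hC y hy).1 h)]
    · rw [if_neg h, indicator_of_notMem]
      exact fun h' => h ((hC y hy).2 h')
  · rw [indicator_of_notMem (show y ∉ Ioi (0 : ℝ) from hy), indicator_of_notMem]
    exact fun h' => hy (hp.trans_lt h'.1)

private theorem V_03_open : IsOpen OmF := by
  have e1 : IsOpen {x : ℝ × ℝ × ℝ | 0 < x.1} := isOpen_lt continuous_const (by fun_prop)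
  have e2 : IsOpen {x : ℝ × ℝ × ℝ | 0 < x.2.1} := isOpen_lt continuous_const (by fun_prop)
  have e3 : IsOpen {x : ℝ × ℝ × ℝ | 0 < x.2.2} := isOpen_lt continuous_const (by fun_prop)
  have e4 : IsOpen {x : ℝ × ℝ × ℝ | x.1 + x.2.1 + x.2.2 < 1} :=
    isOpen_lt (by fun_prop) continuous_const
  have e5 : IsOpen {x : ℝ × ℝ × ℝ | x.1 + x.2.1 - x.2.2 < 1 / 2} :=
    isOpen_lt (by fun_prop) continuous_const
  have e6 : IsOpen {x : ℝ × ℝ × ℝ | x.1 + x.2.1 < 1 / 2} :=
    isOpen_lt (by fun_prop) continuous_const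
  have e7 : IsOpen {x : ℝ × ℝ × ℝ | 2 * x.2.2 < 1 - (x.1 + x.2.1)} :=
    isOpen_lt (by fun_prop) (by fun_prop)
  have hB : IsOpen Base := e1.inter (e2.inter (e3.inter (e4.inter e5)))
  exact hB.inter (e6.union e7)

private theorem V_03_int : IntegrableOn (fun x : ℝ × ℝ × ℝ => Vd x ^ 2) OmF := by
  have hc : Continuous (fun x : ℝ × ℝ × ℝ => Vd x ^ 2) := by
    unfold Vd
    fun_prop
  have hK : IsCompact (Icc ((0 : ℝ), (0 : ℝ), (0 : ℝ)) (1, 1, 1)) := isCompact_Icc
  refine (hc.continuousOn.integrableOn_compact hK).mono_set ?_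
  rintro ⟨z, z', y⟩ ⟨⟨h1, h2, h3, h4, h5⟩, -⟩
  simp only at h1 h2 h3 h4 h5
  refine ⟨⟨h1.le, h2.le, h3.le⟩, ⟨?_, ?_, ?_⟩⟩
  · change z ≤ 1
    linarith
  · change z' ≤ 1
    linarith
  · change y ≤ 1
    linarith

private theorem V_03_z {x y : ℝ} (hx : 0 < x) (hy : 0 < y) :
    ∫ z in (0 : ℝ)..x, OmF.indicator (fun x : ℝ × ℝ × ℝ => Vd x ^ 2) (z, x - z, y) =
      if x + y < 1 ∧ x - y < 1 / 2 ∧ (x < 1 / 2 ∨ 2 * y < 1 - x) then AF x (1 - y) else 0 := by
  have key : ∀ z ∈ Ioo (0 : ℝ) x, ((z, x - z, y) ∈ OmF ↔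
      x + y < 1 ∧ x - y < 1 / 2 ∧ (x < 1 / 2 ∨ 2 * y < 1 - x)) := by
    intro z hz
    have hzx : z + (x - z) = x := by ring
    constructor
    · rintro ⟨⟨h1, h2, h3, h4, h5⟩, h6⟩
      simp only [hzx] at h4 h5 h6
      exact ⟨h4, h5, h6⟩
    · rintro ⟨h4, h5, h6⟩
      refine ⟨⟨hz.1, ?_, hy, ?_, ?_⟩, ?_⟩
      · change 0 < x - z
        linarith [hz.2]
      · change z + (x - z) + y < 1
        rwa [hzx]
      · change z + (x - z) - y < 1 / 2
        rwa [hzx]
      · change z + (x - z) < 1 / 2 ∨ 2 * y < 1 - (z + (x - z))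
        rwa [hzx]
  rw [intervalIntegral.integral_of_le hx.le, integral_Ioc_eq_integral_Ioo]
  by_cases h : x + y < 1 ∧ x - y < 1 / 2 ∧ (x < 1 / 2 ∨ 2 * y < 1 - x)
  · rw [if_pos h, ← AF_eq, intervalIntegral.integral_of_le hx.le, integral_Ioc_eq_integral_Ioo]
    refine setIntegral_congr_fun measurableSet_Ioo fun z hz => ?_
    refine (indicator_of_mem ((key z hz).2 h) _).trans ?_
    simp only [Vd]
    ring
  · rw [if_neg h]
    refine setIntegral_eq_zero_of_forall_eq_zero fun z hz => ?_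
    rw [indicator_of_notMem]
    exact fun h' => h ((key z hz).1 h')

theorem OmF_iter : ∫ x in OmF, Vd x ^ 2 =
    (∫ x in (0 : ℝ)..(1 / 2), ∫ y in (0 : ℝ)..(1 - x), AF x (1 - y)) +
    ∫ x in (1 / 2 : ℝ)..(2 / 3), ∫ y in (x - 1 / 2)..((1 - x) / 2), AF x (1 - y) := by
  have hO : Oct ∩ OmF = OmF := by
    refine inter_eq_right.2 ?_
    rintro ⟨z, z', y⟩ ⟨⟨h1, h2, h3, h4, h5⟩, -⟩
    exact ⟨h1, h2, h3⟩
  have hm : MeasurableSet OmF := V_03_open.measurableSet
  have h1 : ∫ x in OmF, Vd x ^ 2 = ∫ x in Oct, OmF.indicator (fun x => Vd x ^ 2) x := by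
    rw [setIntegral_indicator hm, hO]
  have hint : IntegrableOn (OmF.indicator fun x => Vd x ^ 2) Oct :=
    ((integrable_indicator_iff hm).2 V_03_int).integrableOn
  rw [h1, tri_eq _ hint]
  have h2 : ∫ x in Ioi (0 : ℝ), ∫ y in Ioi (0 : ℝ), ∫ z in (0 : ℝ)..x,
      OmF.indicator (fun x : ℝ × ℝ × ℝ => Vd x ^ 2) (z, x - z, y) =
      ∫ x in Ioi (0 : ℝ), ∫ y in Ioi (0 : ℝ),
        if x + y < 1 ∧ x - y < 1 / 2 ∧ (x < 1 / 2 ∨ 2 * y < 1 - x) then AF x (1 - y) else 0 := by
    refine setIntegral_congr_fun measurableSet_Ioi fun x hx => ?_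
    refine setIntegral_congr_fun measurableSet_Ioi fun y hy => ?_
    exact V_03_z hx hy
  rw [h2, intervalIntegral.integral_of_le (by norm_num : (0 : ℝ) ≤ 1 / 2),
    intervalIntegral.integral_of_le (by norm_num : (1 / 2 : ℝ) ≤ 2 / 3),
    integral_Ioc_eq_integral_Ioo, integral_Ioc_eq_integral_Ioo,
    ← integral_indicator measurableSet_Ioi, ← integral_indicator measurableSet_Ioo,
    ← integral_indicator measurableSet_Ioo]
  have i1 : Integrable ((Ioo (0 : ℝ) (1 / 2)).indicator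
      fun x : ℝ => ∫ y in (0 : ℝ)..(1 - x), AF x (1 - y)) :=
    (integrable_indicator_iff measurableSet_Ioo).2
      ((V_03_F1.continuousOn.integrableOn_compact isCompact_Icc).mono_set Ioo_subset_Icc_self)
  have i2 : Integrable ((Ioo (1 / 2 : ℝ) (2 / 3)).indicator
      fun x : ℝ => ∫ y in (x - 1 / 2)..((1 - x) / 2), AF x (1 - y)) :=
    (integrable_indicator_iff measurableSet_Ioo).2
      ((V_03_F2.continuousOn.integrableOn_compact isCompact_Icc).mono_set Ioo_subset_Icc_self)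
  rw [← integral_add i1 i2]
  refine integral_congr_ae ?_
  have h0 : ∀ᵐ x : ℝ, x ≠ 1 / 2 := compl_mem_ae_iff.2 (measure_singleton _)
  filter_upwards [h0] with x hx
  by_cases hx0 : 0 < x
  · rw [indicator_of_mem (show x ∈ Ioi (0 : ℝ) from hx0)]
    rcases lt_or_gt_of_ne hx with h | h
    · rw [indicator_of_mem (show x ∈ Ioo (0 : ℝ) (1 / 2) from ⟨hx0, h⟩),
        indicator_of_notMem (show x ∉ Ioo (1 / 2 : ℝ) (2 / 3) from fun h' => by linarith [h'.1]),
        add_zero]
      refine V_03_y _ _ le_rfl (by linarith) fun y hy => ?_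
      constructor
      · rintro ⟨h3, -, -⟩
        exact ⟨hy, by linarith⟩
      · rintro ⟨-, h3⟩
        exact ⟨by linarith, by linarith, Or.inl h⟩
    · rw [indicator_of_notMem (show x ∉ Ioo (0 : ℝ) (1 / 2) from fun h' => by linarith [h'.2]),
        zero_add]
      by_cases h3 : x < 2 / 3
      · rw [indicator_of_mem (show x ∈ Ioo (1 / 2 : ℝ) (2 / 3) from ⟨h, h3⟩)]
        refine V_03_y _ _ (by linarith) (by linarith) fun y hy => ?_
        constructor
        · rintro ⟨h4, h5, h6 | h6⟩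
          · linarith
          · exact ⟨by linarith, by linarith⟩
        · rintro ⟨h4, h5⟩
          exact ⟨by linarith, by linarith, Or.inr (by linarith)⟩
      · rw [indicator_of_notMem (show x ∉ Ioo (1 / 2 : ℝ) (2 / 3) from fun h' => h3 h'.2)]
        refine setIntegral_eq_zero_of_forall_eq_zero fun y hy => ?_
        rw [if_neg]
        rintro ⟨h4, h5, h6 | h6⟩
        · linarith
        · linarith
  · rw [indicator_of_notMem (show x ∉ Ioi (0 : ℝ) from hx0),
      indicator_of_notMem (show x ∉ Ioo (0 : ℝ) (1 / 2) from fun h' => hx0 h'.1),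
      indicator_of_notMem (show x ∉ Ioo (1 / 2 : ℝ) (2 / 3) from fun h' => hx0 (by linarith [h'.1])),
      add_zero]

end Pool.Agent.LibSM56
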