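import Pool.Agent.LibSM56.Regions

/-! SM56 V_04 (ONLY MATHLIB + Regions, SHORT/MEDIUM).  Explicit polynomial integrals, values checked with exact rationals.  The `y`-integrals are
(as polynomials in `x`)
`v1: -x^8/210 + x^7/210 - x^6/30 + 2x^5/15 - x^4/6 + x^3/15`,
`v2: -57/140 x^8 + 2467/1120 x^7 - 189/40 x^6 + 1189/240 x^5 - 81/32 x^4 + 121/240 x^3`,
`v3: -2643/1120 x^8 + 6661/1120 x^7 - 33/5 x^6 + 1501/240 x^5 - 895/128 x^4 + 179/30 x^3 - 237/80 x^2 + 107/140 x - 67/840`.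
Prove these first (with an explicit antiderivative in `y` and `intervalIntegral.integral_eq_sub_of_hasDerivAt`, or by `simp`/`ring`), then integrate in
`x`.  Compare `LibSM47/H_05a.lean` (`F_05a_poly`). -/

set_option autoImplicit false

namespace Pool.Agent.LibSM56

open MeasureTheory Set Filter Topology Complex ProbabilityTheory
open scoped NNReal ComplexConjugate
open Pool.Agent.LibZM Pool.Agent.LibSM47

private theorem V_04_poly (L : List ℝ) (n : ℕ) (a b : ℝ) :
    ∫ x in a..b, ∑ i ∈ Finset.range n, L.getD i 0 * x ^ i =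
      ∑ i ∈ Finset.range n, L.getD i 0 * ((b ^ (i + 1) - a ^ (i + 1)) / ((i : ℝ) + 1)) := by
  rw [intervalIntegral.integral_finsetSum]
  · refine Finset.sum_congr rfl fun i _ => ?_
    rw [intervalIntegral.integral_const_mul, integral_pow]
  · intro i _
    exact Continuous.intervalIntegrable (by fun_prop) _ _

private theorem V_04_AF (x a b : ℝ) : ∫ u in a..b, AF x u =
    x ^ 7 / 210 * (b - a) - x ^ 6 / 15 * ((b ^ 2 - a ^ 2) / 2) + 2 * x ^ 5 / 5 * ((b ^ 3 - a ^ 3) / 3)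
      - 2 * x ^ 4 / 3 * ((b ^ 4 - a ^ 4) / 4) + x ^ 3 / 3 * ((b ^ 5 - a ^ 5) / 5) := by
  have h1 : (fun u : ℝ => AF x u) = fun u : ℝ => ∑ i ∈ Finset.range 5,
      ([x ^ 7 / 210, -(x ^ 6 / 15), 2 * x ^ 5 / 5, -(2 * x ^ 4 / 3), x ^ 3 / 3] : List ℝ).getD i 0 *
        u ^ i := by
    funext u
    simp only [Finset.sum_range_succ, Finset.sum_range_zero, AF, List.getD_cons_succ,
      List.getD_cons_zero]
    ring
  rw [h1, V_04_poly]
  simp only [Finset.sum_range_succ, Finset.sum_range_zero, List.getD_cons_succ,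
      List.getD_cons_zero]
  push_cast
  ring

private theorem V_04_AP (x a b : ℝ) : ∫ u in a..b, AP x u =
    (-(x ^ 4 / 12) - 3 / 16 * x ^ 3 - 13 / 80 * x ^ 2 - x / 16 - 1 / 112) * (b - a)
      + (2 / 3 * x ^ 3 + 9 / 8 * x ^ 2 + 13 / 20 * x + 1 / 8) * ((b ^ 2 - a ^ 2) / 2)
      + (-(2 * x ^ 2) - 9 / 4 * x - 13 / 20) * ((b ^ 3 - a ^ 3) / 3)
      + (2 / 3 * x ^ 4 + 8 / 3 * x + 3 / 2) * ((b ^ 4 - a ^ 4) / 4)
      + (-(7 / 3 * x ^ 3) - 4 / 3) * ((b ^ 5 - a ^ 5) / 5)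
      + 16 / 5 * x ^ 2 * ((b ^ 6 - a ^ 6) / 6)
      - 32 / 15 * x * ((b ^ 7 - a ^ 7) / 7)
      + 64 / 105 * ((b ^ 8 - a ^ 8) / 8) := by
  have h1 : (fun u : ℝ => AP x u) = fun u : ℝ => ∑ i ∈ Finset.range 8,
      ([-(x ^ 4 / 12) - 3 / 16 * x ^ 3 - 13 / 80 * x ^ 2 - x / 16 - 1 / 112,
        2 / 3 * x ^ 3 + 9 / 8 * x ^ 2 + 13 / 20 * x + 1 / 8,
        -(2 * x ^ 2) - 9 / 4 * x - 13 / 20,
        2 / 3 * x ^ 4 + 8 / 3 * x + 3 / 2,
        -(7 / 3 * x ^ 3) - 4 / 3, 16 / 5 * x ^ 2, -(32 / 15 * x), 64 / 105] : List ℝ).getD i 0 *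
        u ^ i := by
    funext u
    simp only [Finset.sum_range_succ, Finset.sum_range_zero, AP, List.getD_cons_succ,
      List.getD_cons_zero]
    ring
  rw [h1, V_04_poly]
  simp only [Finset.sum_range_succ, Finset.sum_range_zero, List.getD_cons_succ,
      List.getD_cons_zero]
  push_cast
  ring

theorem val1 : ∫ x in (0 : ℝ)..(1 / 2), ∫ y in (0 : ℝ)..(1 - x), AF x (1 - y) = 241 / 774144 := by
  have h : ∀ x : ℝ, (∫ y in (0 : ℝ)..(1 - x), AF x (1 - y)) = ∑ i ∈ Finset.range 9,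
      ([0, 0, 0, 1 / 15, -(1 / 6), 2 / 15, -(1 / 30), 1 / 210, -(1 / 210)] : List ℝ).getD i 0 *
        x ^ i := by
    intro x
    rw [intervalIntegral.integral_comp_sub_left (fun u => AF x u) 1, V_04_AF]
    simp only [Finset.sum_range_succ, Finset.sum_range_zero, List.getD_cons_succ,
      List.getD_cons_zero]
    ring
  simp only [h]
  rw [V_04_poly]
  simp only [Finset.sum_range_succ, Finset.sum_range_zero, List.getD_cons_succ,
      List.getD_cons_zero]
  push_cast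
  norm_num

theorem val2 : ∫ x in (1 / 2 : ℝ)..(2 / 3), ∫ y in (x - 1 / 2)..((1 - x) / 2), AF x (1 - y) = 14508517 / 135444234240 := by
  have h : ∀ x : ℝ, (∫ y in (x - 1 / 2)..((1 - x) / 2), AF x (1 - y)) = ∑ i ∈ Finset.range 9,
      ([0, 0, 0, 121 / 240, -(81 / 32), 1189 / 240, -(189 / 40), 2467 / 1120,
        -(57 / 140)] : List ℝ).getD i 0 * x ^ i := by
    intro x
    rw [intervalIntegral.integral_comp_sub_left (fun u => AF x u) 1, V_04_AF]
    simp only [Finset.sum_range_succ, Finset.sum_range_zero, List.getD_cons_succ,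
      List.getD_cons_zero]
    ring
  simp only [h]
  rw [V_04_poly]
  simp only [Finset.sum_range_succ, Finset.sum_range_zero, List.getD_cons_succ,
      List.getD_cons_zero]
  push_cast
  norm_num

theorem val3 : ∫ x in (1 / 2 : ℝ)..(2 / 3), ∫ y in ((1 - x) / 2)..(3 / 2 - 2 * x), AP x (1 - y) = 639395 / 27088846848 := by
  have h : ∀ x : ℝ, (∫ y in ((1 - x) / 2)..(3 / 2 - 2 * x), AP x (1 - y)) = ∑ i ∈ Finset.range 9,
      ([-(67 / 840), 107 / 140, -(237 / 80), 179 / 30, -(895 / 128), 1501 / 240, -(33 / 5),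
        6661 / 1120, -(2643 / 1120)] : List ℝ).getD i 0 * x ^ i := by
    intro x
    rw [intervalIntegral.integral_comp_sub_left (fun u => AP x u) 1, V_04_AP]
    simp only [Finset.sum_range_succ, Finset.sum_range_zero, List.getD_cons_succ,
      List.getD_cons_zero]
    ring
  simp only [h]
  rw [V_04_poly]
  simp only [Finset.sum_range_succ, Finset.sum_range_zero, List.getD_cons_succ,
      List.getD_cons_zero]
  push_cast
  norm_num

end Pool.Agent.LibSM56
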