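import Pool.Agent.LibSM56.Defs
import Pool.Agent.LibSM47.M_A1a
import Pool.Agent.LibSM47.M_A1b
import Pool.Agent.LibSM47.M_A1c

/-! SM56 W_01 (SHORT).  Copy of `LibSM47/M_A1d.lean` (`CS_main`) with `cc P T` replaced by an arbitrary real family `c` and `DD P T` by
`Dc c T`. -/

set_option autoImplicit false

namespace Pool.Agent.LibSM56

open MeasureTheory Set Filter Topology Complex ProbabilityTheory
open scoped NNReal ComplexConjugate
open Pool.Agent.LibZM Pool.Agent.LibSM47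

private theorem W_01_cont (c : ℕ × ℕ → ℝ) (T : ℝ) : Continuous (Dc c T) := by
  unfold Dc
  exact continuous_finset_sum _ fun q _ => continuous_const.mul ((cont_ch _).comp continuous_neg)

private theorem W_01_bd (c : ℕ × ℕ → ℝ) (T t : ℝ) : ‖Dc c T t‖ ≤ ∑ q ∈ idx T, |c q| := by
  unfold Dc
  refine (norm_sum_le _ _).trans (Finset.sum_le_sum fun q _ => ?_)
  rw [norm_mul, norm_ch, mul_one, Complex.norm_real, Real.norm_eq_abs]

private theorem W_01_idx_pos {T : ℝ} {q : ℕ × ℕ} (h : q ∈ idx T) : 1 ≤ q.1 ∧ 1 ≤ q.2 := by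
  unfold idx at h
  rw [Finset.mem_filter, Finset.mem_product, Finset.mem_Icc, Finset.mem_Icc] at h
  exact ⟨h.1.1.1, h.1.2.1⟩

private theorem W_01_int_sq (V u : ℝ) : Integrable (fun t => ‖LibPH.z21 t‖ ^ 2) (gam V u) := by
  refine (int_pow V u 6).congr (Eventually.of_forall fun t => ?_)
  exact (norm_z21 t).symm

private theorem W_01_norm_tw (n m : ℕ) (t : ℝ) : ‖LibPH.tw n m t‖ = 1 := by
  unfold LibPH.tw
  rw [← neg_mul, ← Complex.ofReal_neg]
  exact Complex.norm_exp_ofReal_mul_I _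

private theorem W_01_int_z21 (V u : ℝ) (n m : ℕ) : Integrable (fun t => LibPH.z21 t * LibPH.tw n m t) (gam V u) := by
  have h2 := W_01_int_sq V u
  have hc : Continuous (fun t => LibPH.z21 t * LibPH.tw n m t) := by
    refine LibPH.w03_cont.mul ?_
    unfold LibPH.tw
    fun_prop
  refine ((integrable_const (1 : ℝ)).add h2).mono' hc.aestronglyMeasurable (Eventually.of_forall fun t => ?_)
  show ‖LibPH.z21 t * LibPH.tw n m t‖ ≤ 1 + ‖LibPH.z21 t‖ ^ 2
  rw [norm_mul, W_01_norm_tw, mul_one]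
  nlinarith [sq_nonneg (‖LibPH.z21 t‖ - 1), norm_nonneg (LibPH.z21 t)]

theorem CS_c (c : ℕ × ℕ → ℝ) (T V u : ℝ) :
    2 * (∑ q ∈ idx T, c q * (II V u q.1 q.2).re) ^ 2 ≤
      M6 V u * ((∫ t, ‖Dc c T t‖ ^ 2 ∂(gam V u)) + (∫ t, XX t * Dc c T t ^ 2 ∂(gam V u)).re) := by
  have h := cs_abstract (gam V u) (f := LibPH.z21) (D := Dc c T) (X := XX) LibPH.w03_cont (W_01_cont c T) cont_XX
    norm_XX conj_z21 (B := ∑ q ∈ idx T, |c q|) (W_01_bd c T) (W_01_int_sq V u)
  have h1 : (∫ t, LibPH.z21 t * conj (Dc c T t) ∂(gam V u)).re = ∑ q ∈ idx T, c q * (II V u q.1 q.2).re := by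
    have e1 : ∀ t, LibPH.z21 t * conj (Dc c T t) =
        ∑ q ∈ idx T, (c q : ℂ) * (LibPH.z21 t * LibPH.tw q.2 q.1 t) := by
      intro t
      have e2 : conj (Dc c T t) = ∑ q ∈ idx T, (c q : ℂ) * LibPH.tw q.2 q.1 t := by
        unfold Dc
        rw [map_sum]
        refine Finset.sum_congr rfl fun q hq => ?_
        rw [map_mul, Complex.conj_ofReal, conj_ch, ch_tw (W_01_idx_pos hq).1 (W_01_idx_pos hq).2]
      rw [e2, Finset.mul_sum]
      exact Finset.sum_congr rfl fun q _ => by ring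
    have e3 : (∫ t, LibPH.z21 t * conj (Dc c T t) ∂(gam V u)) = ∑ q ∈ idx T, (c q : ℂ) * II V u q.1 q.2 := by
      rw [integral_congr_ae (Eventually.of_forall e1)]
      rw [integral_finsetSum _ fun q _ => (W_01_int_z21 V u q.2 q.1).const_mul _]
      refine Finset.sum_congr rfl fun q _ => ?_
      rw [integral_const_mul]
      rfl
    rw [e3, Complex.re_sum]
    exact Finset.sum_congr rfl fun q _ => by rw [Complex.re_ofReal_mul]
  have h2 : (∫ t, ‖LibPH.z21 t‖ ^ 2 ∂(gam V u)) = M6 V u := by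
    unfold M6
    exact integral_congr_ae (Eventually.of_forall fun t => norm_z21 t)
  rw [h1, h2] at h
  exact h

end Pool.Agent.LibSM56
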