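import Pool.Agent.LibSM56.Defs
import Pool.Agent.LibSM47.M_A1c
import Pool.Agent.LibSM47.M_A2b

/-! SM56 W_03 (SHORT/MEDIUM).  Copy of `LibSM47/M_A2d.lean` (`D_sq`) with abstract coefficients `c T q`, `|c T q| ≤ M T`, supported on
`mn ≤ T^{1-ε}`. -/

set_option autoImplicit false

namespace Pool.Agent.LibSM56

open MeasureTheory Set Filter Topology Complex ProbabilityTheory
open scoped NNReal ComplexConjugate
open Pool.Agent.LibZM Pool.Agent.LibSM47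

private theorem W_03_mem {T : ℝ} {q : ℕ × ℕ} (hT : 0 ≤ T) (hq : q ∈ idx T) :
    1 ≤ q.1 ∧ 1 ≤ q.2 ∧ (q.1 : ℝ) ≤ T ∧ (q.2 : ℝ) ≤ T ∧ Nat.Coprime q.1 q.2 := by
  unfold idx at hq
  rw [Finset.mem_filter, Finset.mem_product, Finset.mem_Icc, Finset.mem_Icc] at hq
  obtain ⟨⟨⟨h1, h2⟩, h3, h4⟩, h5⟩ := hq
  exact ⟨h1, h3, (Nat.le_floor_iff hT).1 h2, (Nat.le_floor_iff hT).1 h4, h5⟩

private theorem W_03_card {T : ℝ} (hT : 0 ≤ T) : ((idx T).card : ℝ) ≤ T ^ 2 := by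
  have h1 : (idx T).card ≤ ⌊T⌋₊ * ⌊T⌋₊ := by
    unfold idx
    refine (Finset.card_filter_le _ _).trans ?_
    rw [Finset.card_product, Nat.card_Icc]
    simp
  have h2 : (⌊T⌋₊ : ℝ) ≤ T := Nat.floor_le hT
  have h3 : (0 : ℝ) ≤ (⌊T⌋₊ : ℝ) := Nat.cast_nonneg _
  calc ((idx T).card : ℝ) ≤ ((⌊T⌋₊ * ⌊T⌋₊ : ℕ) : ℝ) := by exact_mod_cast h1
    _ = (⌊T⌋₊ : ℝ) * ⌊T⌋₊ := by push_cast; ring
    _ ≤ T * T := mul_le_mul h2 h2 h3 hT
    _ = T ^ 2 := by ring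

private theorem W_03_mul {r r' : ℝ} (hr : 0 < r) (hr' : 0 < r') (t : ℝ) :
    ch r (-t) * conj (ch r' (-t)) = ch (r' / r) t := by
  rw [conj_ch]
  unfold ch
  rw [← Complex.exp_add, Real.log_div hr'.ne' hr.ne']
  congr 1
  push_cast
  ring

private theorem W_03_int (r V u : ℝ) : Integrable (fun t => ch r t) (gam V u) :=
  Integrable.of_bound (cont_ch r).aestronglyMeasurable 1 (ae_of_all _ fun t => (norm_ch r t).le)

private theorem W_03_sum (c : ℕ × ℕ → ℝ) {T : ℝ} (hT : 0 ≤ T) (V u : ℝ) :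
    ((∫ t, ‖Dc c T t‖ ^ 2 ∂(gam V u) : ℝ) : ℂ) =
      ∑ q ∈ idx T, ∑ q' ∈ idx T, ((c q * c q' : ℝ) : ℂ) *
        ∫ t, ch (((q'.1 : ℝ) / q'.2) / ((q.1 : ℝ) / q.2)) t ∂(gam V u) := by
  have h1 : ∀ t, ((‖Dc c T t‖ ^ 2 : ℝ) : ℂ) = ∑ q ∈ idx T, ∑ q' ∈ idx T,
      ((c q * c q' : ℝ) : ℂ) * ch (((q'.1 : ℝ) / q'.2) / ((q.1 : ℝ) / q.2)) t := by
    intro t
    have h2 : ((‖Dc c T t‖ ^ 2 : ℝ) : ℂ) = Dc c T t * conj (Dc c T t) := by
      rw [Complex.mul_conj, Complex.normSq_eq_norm_sq]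
    rw [h2]
    unfold Dc
    rw [map_sum, Finset.sum_mul_sum]
    refine Finset.sum_congr rfl fun q hq => Finset.sum_congr rfl fun q' hq' => ?_
    obtain ⟨a1, a2, -⟩ := W_03_mem hT hq
    obtain ⟨b1, b2, -⟩ := W_03_mem hT hq'
    have a1' : (0 : ℝ) < q.1 := by exact_mod_cast a1
    have a2' : (0 : ℝ) < q.2 := by exact_mod_cast a2
    have b1' : (0 : ℝ) < q'.1 := by exact_mod_cast b1
    have b2' : (0 : ℝ) < q'.2 := by exact_mod_cast b2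
    rw [map_mul, Complex.conj_ofReal, mul_mul_mul_comm, W_03_mul (by positivity) (by positivity)]
    push_cast
    ring
  rw [← integral_complex_ofReal]
  simp_rw [h1]
  rw [integral_finsetSum]
  · refine Finset.sum_congr rfl fun q _ => ?_
    rw [integral_finsetSum]
    · refine Finset.sum_congr rfl fun q' _ => ?_
      rw [integral_const_mul]
    · intro q' _
      exact (W_03_int _ V u).const_mul _
  · intro q _
    refine integrable_finsetSum _ fun q' _ => ?_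
    exact (W_03_int _ V u).const_mul _

private theorem W_03_ne {q q' : ℕ × ℕ} (h1 : Nat.Coprime q.1 q.2) (h2 : Nat.Coprime q'.1 q'.2)
    (hq1 : 1 ≤ q.1) (hne : q ≠ q') : q'.1 * q.2 ≠ q'.2 * q.1 := by
  intro h
  have h3 : q'.1 ∣ q.1 := by
    have : q'.1 ∣ q'.2 * q.1 := ⟨q.2, h.symm⟩
    exact h2.dvd_of_dvd_mul_left this
  have h4 : q.1 ∣ q'.1 := by
    have : q.1 ∣ q'.1 * q.2 := ⟨q'.2, by rw [h, mul_comm]⟩
    exact h1.dvd_of_dvd_mul_right this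
  have h5 : q.1 = q'.1 := Nat.dvd_antisymm h4 h3
  have h6 : q.2 = q'.2 := by
    rw [← h5, mul_comm q'.2] at h
    exact Nat.eq_of_mul_eq_mul_left hq1 h
  exact hne (Prod.ext h5 h6)

private theorem W_03_exp {ε δ T L : ℝ} (hT : 0 < T) (hL : 1 / (2 * T ^ (1 - ε)) ≤ |L|) :
    Real.exp (-((T ^ (1 - δ)) ^ 2 * L ^ 2 / 2)) ≤ Real.exp (-(1 / 8) * T ^ (2 * ε - 2 * δ)) := by
  refine Real.exp_le_exp.2 ?_
  have hY : 0 < T ^ (1 - ε) := Real.rpow_pos_of_pos hT _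
  have hW : 0 < T ^ (ε - δ) := Real.rpow_pos_of_pos hT _
  have h1 : T ^ (1 - δ) = T ^ (1 - ε) * T ^ (ε - δ) := by
    rw [← Real.rpow_add hT]
    congr 1
    ring
  have h2 : T ^ (2 * ε - 2 * δ) = (T ^ (ε - δ)) ^ 2 := by
    rw [sq, ← Real.rpow_add hT]
    congr 1
    ring
  rw [h1, h2]
  have h3 : 1 / 2 ≤ T ^ (1 - ε) * |L| := by
    have h4 := mul_le_mul_of_nonneg_left hL hY.le
    have h5 : T ^ (1 - ε) * (1 / (2 * T ^ (1 - ε))) = 1 / 2 := by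
      field_simp
    rw [h5] at h4
    exact h4
  have h4 : (1 / 2) ^ 2 ≤ (T ^ (1 - ε) * |L|) ^ 2 :=
    pow_le_pow_left₀ (by norm_num) h3 2
  rw [mul_pow, sq_abs] at h4
  have h5 := mul_le_mul_of_nonneg_right h4 (sq_nonneg (T ^ (ε - δ)))
  have h6 : (T ^ (1 - ε) * T ^ (ε - δ)) ^ 2 * L ^ 2 / 2 =
      ((T ^ (1 - ε)) ^ 2 * L ^ 2 * (T ^ (ε - δ)) ^ 2) / 2 := by ring
  rw [h6]
  linarith

theorem D_sq_c (c : ℝ → ℕ × ℕ → ℝ) (M ε δ : ℝ) (hε : 0 < ε) (hδ : 0 < δ) (hδ1 : δ ≤ ε / 4) (hε' : ε ≤ 1 / 10)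
    (hM : 0 < M) (hc : ∀ T : ℝ, 2 ≤ T → ∀ q ∈ idx T, |c T q| ≤ M * T ∧ (c T q ≠ 0 → (q.1 : ℝ) * q.2 ≤ T ^ (1 - ε))) :
    ∃ T₀ : ℝ, ∀ T : ℝ, T₀ ≤ T → ∀ u : ℝ,
      |(∫ t, ‖Dc (c T) T t‖ ^ 2 ∂(gam (T ^ (1 - δ)) u)) - ∑ q ∈ idx T, c T q ^ 2| ≤ 1 := by
  have ha0 : 0 < 2 * ε - 2 * δ := by linarith
  have hlim : Tendsto (fun T : ℝ => M ^ 2 * ((T ^ (2 * ε - 2 * δ)) ^ (6 / (2 * ε - 2 * δ)) *
      Real.exp (-(1 / 8) * T ^ (2 * ε - 2 * δ)))) atTop (𝓝 0) := by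
    have h1 := (tendsto_rpow_mul_exp_neg_mul_atTop_nhds_zero (6 / (2 * ε - 2 * δ)) (1 / 8)
      (by norm_num)).comp (tendsto_rpow_atTop ha0)
    have h2 := h1.const_mul (M ^ 2)
    rw [mul_zero] at h2
    exact h2
  obtain ⟨T₁, hT₁⟩ := eventually_atTop.1 (hlim.eventually_le_const zero_lt_one)
  refine ⟨max T₁ 2, fun T hT u => ?_⟩
  have hT2 : 2 ≤ T := (le_max_right _ _).trans hT
  have hT0 : 0 < T := by linarith
  have hfin := hT₁ T ((le_max_left _ _).trans hT)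
  have h6 : (T ^ (2 * ε - 2 * δ)) ^ (6 / (2 * ε - 2 * δ)) = T ^ 6 := by
    rw [← Real.rpow_mul hT0.le, mul_div_cancel₀ _ ha0.ne']
    exact_mod_cast Real.rpow_natCast T 6
  rw [h6] at hfin
  set E : ℝ := Real.exp (-(1 / 8) * T ^ (2 * ε - 2 * δ)) with hE
  have hE0 : 0 ≤ E := (Real.exp_pos _).le
  have hb : ∀ q ∈ idx T, |c T q| ≤ M * T := fun q hq => (hc T hT2 q hq).1
  have hS : ∑ q ∈ idx T, |c T q| ≤ M * T ^ 3 := by
    calc ∑ q ∈ idx T, |c T q| ≤ ∑ q ∈ idx T, M * T := Finset.sum_le_sum hb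
      _ = (idx T).card * (M * T) := by rw [Finset.sum_const, nsmul_eq_mul]
      _ ≤ T ^ 2 * (M * T) := mul_le_mul_of_nonneg_right (W_03_card hT0.le) (by positivity)
      _ = M * T ^ 3 := by ring
  have hS0 : 0 ≤ ∑ q ∈ idx T, |c T q| := Finset.sum_nonneg fun _ _ => abs_nonneg _
  have hterm : ∀ q ∈ idx T, ∀ q' ∈ idx T,
      ‖((c T q * c T q' : ℝ) : ℂ) *
        (∫ t, ch (((q'.1 : ℝ) / q'.2) / ((q.1 : ℝ) / q.2)) t ∂(gam (T ^ (1 - δ)) u)) -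
        (if q' = q then ((c T q ^ 2 : ℝ) : ℂ) else 0)‖ ≤ |c T q| * |c T q'| * E := by
    intro q hq q' hq'
    obtain ⟨a1, a2, a3, a4, a5⟩ := W_03_mem hT0.le hq
    obtain ⟨b1, b2, b3, b4, b5⟩ := W_03_mem hT0.le hq'
    have a1' : (0 : ℝ) < q.1 := by exact_mod_cast a1
    have a2' : (0 : ℝ) < q.2 := by exact_mod_cast a2
    have b1' : (0 : ℝ) < q'.1 := by exact_mod_cast b1
    have b2' : (0 : ℝ) < q'.2 := by exact_mod_cast b2
    have hnn : 0 ≤ |c T q| * |c T q'| * E := by positivity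
    by_cases hqq : q' = q
    · subst hqq
      have h1 : ((q'.1 : ℝ) / q'.2) / ((q'.1 : ℝ) / q'.2) = 1 := by
        field_simp
      have h2 : ∀ t, ch 1 t = 1 := by
        intro t
        unfold ch
        simp
      rw [h1, if_pos rfl]
      simp_rw [h2]
      rw [integral_const]
      simp only [probReal_univ, one_smul, mul_one]
      rw [sq, sub_self, norm_zero]
      exact hnn
    · rw [if_neg hqq, sub_zero, norm_mul, Complex.norm_real, Real.norm_eq_abs, abs_mul]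
      by_cases hz : c T q = 0
      · rw [hz]
        simp
      by_cases hz' : c T q' = 0
      · rw [hz']
        simp
      refine mul_le_mul_of_nonneg_left ?_ (by positivity)
      have h1 := (hc T hT2 q hq).2 hz
      have h2 := (hc T hT2 q' hq').2 hz'
      have h3 : ((q'.1 : ℝ) / q'.2) / ((q.1 : ℝ) / q.2) =
          ((q'.1 * q.2 : ℕ) : ℝ) / ((q'.2 * q.1 : ℕ) : ℝ) := by
        push_cast
        field_simp
      have hY : 0 < T ^ (1 - ε) := Real.rpow_pos_of_pos hT0 _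
      rw [ch_int, h3]
      refine W_03_exp hT0 ?_
      refine log_gap_prod (Nat.mul_pos b1 a2) (Nat.mul_pos b2 a1)
        (W_03_ne a5 b5 a1 (fun h => hqq h.symm)) ?_ ?_
      · exact Real.one_le_rpow (by linarith) (by linarith)
      · push_cast
        calc (q'.1 : ℝ) * q.2 * (q'.2 * q.1) = (q'.1 * q'.2) * (q.1 * q.2) := by ring
          _ ≤ T ^ (1 - ε) * T ^ (1 - ε) := mul_le_mul h2 h1 (by positivity) hY.le
          _ = (T ^ (1 - ε)) ^ 2 := by ring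
  have hmain : (((∫ t, ‖Dc (c T) T t‖ ^ 2 ∂(gam (T ^ (1 - δ)) u)) - ∑ q ∈ idx T, c T q ^ 2 : ℝ) : ℂ) =
      ∑ q ∈ idx T, ∑ q' ∈ idx T, (((c T q * c T q' : ℝ) : ℂ) *
        (∫ t, ch (((q'.1 : ℝ) / q'.2) / ((q.1 : ℝ) / q.2)) t ∂(gam (T ^ (1 - δ)) u)) -
        (if q' = q then ((c T q ^ 2 : ℝ) : ℂ) else 0)) := by
    rw [Complex.ofReal_sub, W_03_sum (c T) hT0.le, Complex.ofReal_sum, ← Finset.sum_sub_distrib]
    refine Finset.sum_congr rfl fun q hq => ?_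
    rw [Finset.sum_sub_distrib, Finset.sum_ite_eq' (idx T) q, if_pos hq]
  calc |(∫ t, ‖Dc (c T) T t‖ ^ 2 ∂(gam (T ^ (1 - δ)) u)) - ∑ q ∈ idx T, c T q ^ 2|
      = ‖(((∫ t, ‖Dc (c T) T t‖ ^ 2 ∂(gam (T ^ (1 - δ)) u)) - ∑ q ∈ idx T, c T q ^ 2 : ℝ) : ℂ)‖ := by
        rw [Complex.norm_real, Real.norm_eq_abs]
    _ ≤ ∑ q ∈ idx T, ∑ q' ∈ idx T, |c T q| * |c T q'| * E := by
        rw [hmain]
        refine (norm_sum_le _ _).trans (Finset.sum_le_sum fun q hq => ?_)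
        exact (norm_sum_le _ _).trans (Finset.sum_le_sum fun q' hq' => hterm q hq q' hq')
    _ = (∑ q ∈ idx T, |c T q|) * (∑ q ∈ idx T, |c T q|) * E := by
        rw [Finset.sum_mul_sum, Finset.sum_mul]
        refine Finset.sum_congr rfl fun q _ => ?_
        rw [Finset.sum_mul]
    _ ≤ (M * T ^ 3) * (M * T ^ 3) * E := by
        refine mul_le_mul_of_nonneg_right ?_ hE0
        exact mul_le_mul hS hS hS0 (by positivity)
    _ = M ^ 2 * (T ^ 6 * E) := by ring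
    _ ≤ 1 := hfin

end Pool.Agent.LibSM56
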