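import Pool.Agent.LibSM56.Defs
import Pool.Agent.LibSM47.FaceC

/-! SM56 W_04.  Cross term with abstract coefficients: `‖∫ X D²‖ ≤ (∑|c|)² T^{-3/2} ≤ M²` by `cross_small`
(`ρ = (m/n)(m'/n') ≤ T^{1-2ε}`). -/

set_option autoImplicit false

namespace Pool.Agent.LibSM56

open MeasureTheory Set Filter Topology Complex ProbabilityTheory
open scoped NNReal ComplexConjugate
open Pool.Agent.LibZM Pool.Agent.LibSM47

private lemma W_04_ch (r s t : ℝ) (hr : 0 < r) (hs : 0 < s) : ch r t * ch s t = ch (r * s) t := by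
  unfold ch
  rw [← Complex.exp_add, Real.log_mul hr.ne' hs.ne']
  congr 1
  push_cast
  ring

private lemma W_04_int (V u ρ : ℝ) : Integrable (fun t => XX t * ch ρ (-t)) (gam V u) := by
  have hcont : Continuous (fun t => XX t * ch ρ (-t)) :=
    cont_XX.mul ((cont_ch ρ).comp continuous_neg)
  refine Integrable.of_bound hcont.aestronglyMeasurable 1 ?_
  exact Filter.Eventually.of_forall fun t => by
    rw [norm_mul, norm_XX, norm_ch]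
    norm_num

private lemma W_04_pos {T : ℝ} {q : ℕ × ℕ} (hq : q ∈ idx T) : 0 < (q.1 : ℝ) / q.2 := by
  simp only [idx, Finset.mem_filter, Finset.mem_product, Finset.mem_Icc] at hq
  obtain ⟨⟨⟨hm1, _⟩, hn1, _⟩, _⟩ := hq
  have hm : (0 : ℝ) < q.1 := by exact_mod_cast hm1
  have hn : (0 : ℝ) < q.2 := by exact_mod_cast hn1
  exact div_pos hm hn

private lemma W_04_expand (c : ℕ × ℕ → ℝ) (T t : ℝ) : XX t * Dc c T t ^ 2 =
    ∑ q ∈ idx T, ∑ q' ∈ idx T, ((c q * c q' : ℝ) : ℂ) *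
      (XX t * ch (((q.1 : ℝ) / q.2) * ((q'.1 : ℝ) / q'.2)) (-t)) := by
  unfold Dc
  rw [pow_two, Finset.sum_mul_sum, Finset.mul_sum]
  refine Finset.sum_congr rfl fun q hq => ?_
  rw [Finset.mul_sum]
  refine Finset.sum_congr rfl fun q' hq' => ?_
  rw [← W_04_ch _ _ _ (W_04_pos hq) (W_04_pos hq')]
  push_cast
  ring

private lemma W_04_integral (c : ℕ × ℕ → ℝ) (T V u : ℝ) :
    ∫ t, XX t * Dc c T t ^ 2 ∂(gam V u) =
    ∑ q ∈ idx T, ∑ q' ∈ idx T, ((c q * c q' : ℝ) : ℂ) *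
      ∫ t, XX t * ch (((q.1 : ℝ) / q.2) * ((q'.1 : ℝ) / q'.2)) (-t) ∂(gam V u) := by
  have h1 : (fun t => XX t * Dc c T t ^ 2) = fun t => ∑ q ∈ idx T, ∑ q' ∈ idx T,
      ((c q * c q' : ℝ) : ℂ) *
      (XX t * ch (((q.1 : ℝ) / q.2) * ((q'.1 : ℝ) / q'.2)) (-t)) := by
    funext t
    exact W_04_expand c T t
  rw [h1, integral_finsetSum]
  · refine Finset.sum_congr rfl fun q hq => ?_
    rw [integral_finsetSum]
    · refine Finset.sum_congr rfl fun q' hq' => ?_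
      rw [integral_const_mul]
    · intro q' _
      exact (W_04_int V u _).const_mul _
  · intro q _
    exact integrable_finsetSum _ fun q' _ => (W_04_int V u _).const_mul _

theorem D_cross_c (c : ℝ → ℕ × ℕ → ℝ) (M ε ε₁ δ : ℝ) (hε : 0 < ε) (hε1 : 0 < ε₁) (hδ : 0 < δ) (hδ1 : δ ≤ ε / 10)
    (hε' : ε ≤ 1 / 10) (hM : 0 < M)
    (hs : ∀ T : ℝ, 2 ≤ T → ∑ q ∈ idx T, |c T q| ≤ M * T ^ (3 / 4 : ℝ))
    (hc : ∀ T : ℝ, 2 ≤ T → ∀ q ∈ idx T, c T q ≠ 0 → (q.1 : ℝ) / q.2 ≤ T ^ (1 / 2 - ε)) :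
    ∃ T₀ : ℝ, ∀ T : ℝ, T₀ ≤ T → ∀ u : ℝ, ε₁ * T ≤ u → u ≤ T →
      ‖∫ t, XX t * Dc (c T) T t ^ 2 ∂(gam (T ^ (1 - δ)) u)‖ ≤ M ^ 2 := by
  obtain ⟨T₀, hT₀⟩ := cross_small ε ε₁ δ hε hε1 hδ hδ1 hε'
  refine ⟨max T₀ 2, ?_⟩
  intro T hT u hu1 hu2
  have hT0 : T₀ ≤ T := (le_max_left _ _).trans hT
  have hT2 : (2 : ℝ) ≤ T := (le_max_right _ _).trans hT
  have hTpos : 0 < T := by linarith
  have hterm : ∀ q ∈ idx T, ∀ q' ∈ idx T, ‖((c T q * c T q' : ℝ) : ℂ) *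
      ∫ t, XX t * ch (((q.1 : ℝ) / q.2) * ((q'.1 : ℝ) / q'.2)) (-t) ∂(gam (T ^ (1 - δ)) u)‖ ≤
      |c T q| * |c T q'| * T ^ (-(3 / 2) : ℝ) := by
    intro q hq q' hq'
    rw [norm_mul, Complex.norm_real, Real.norm_eq_abs, abs_mul]
    by_cases h1 : c T q = 0
    · rw [h1]
      simp
    by_cases h2 : c T q' = 0
    · rw [h2]
      simp
    refine mul_le_mul_of_nonneg_left ?_ (mul_nonneg (abs_nonneg _) (abs_nonneg _))
    have hp := W_04_pos hq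
    have hp' := W_04_pos hq'
    refine hT₀ T hT0 u hu1 hu2 _ (mul_pos hp hp') ?_
    have hr := hc T hT2 q hq h1
    have hr' := hc T hT2 q' hq' h2
    calc ((q.1 : ℝ) / q.2) * ((q'.1 : ℝ) / q'.2) ≤ T ^ (1 / 2 - ε) * T ^ (1 / 2 - ε) :=
          mul_le_mul hr hr' hp'.le (Real.rpow_nonneg hTpos.le _)
      _ = T ^ (1 - 2 * ε) := by
          rw [← Real.rpow_add hTpos]
          congr 1
          ring
  rw [W_04_integral]
  have hsum : ‖∑ q ∈ idx T, ∑ q' ∈ idx T, ((c T q * c T q' : ℝ) : ℂ) *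
      ∫ t, XX t * ch (((q.1 : ℝ) / q.2) * ((q'.1 : ℝ) / q'.2)) (-t) ∂(gam (T ^ (1 - δ)) u)‖ ≤
      (∑ q ∈ idx T, |c T q|) ^ 2 * T ^ (-(3 / 2) : ℝ) := by
    rw [pow_two, Finset.sum_mul_sum, Finset.sum_mul]
    refine norm_sum_le_of_le _ fun q hq => ?_
    rw [Finset.sum_mul]
    exact norm_sum_le_of_le _ fun q' hq' => hterm q hq q' hq'
  refine hsum.trans ?_
  have hS0 : 0 ≤ ∑ q ∈ idx T, |c T q| := Finset.sum_nonneg fun q _ => abs_nonneg _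
  have hT32 : 0 ≤ T ^ (-(3 / 2) : ℝ) := Real.rpow_nonneg hTpos.le _
  have h3 : (∑ q ∈ idx T, |c T q|) ^ 2 ≤ M ^ 2 * T ^ (3 / 2 : ℝ) := by
    calc (∑ q ∈ idx T, |c T q|) ^ 2 ≤ (M * T ^ (3 / 4 : ℝ)) ^ 2 :=
          pow_le_pow_left₀ hS0 (hs T hT2) 2
      _ = M ^ 2 * T ^ (3 / 2 : ℝ) := by
          rw [mul_pow, ← Real.rpow_natCast (T ^ (3 / 4 : ℝ)) 2, ← Real.rpow_mul hTpos.le]
          congr 2
          norm_num
  calc (∑ q ∈ idx T, |c T q|) ^ 2 * T ^ (-(3 / 2) : ℝ)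
      ≤ M ^ 2 * T ^ (3 / 2 : ℝ) * T ^ (-(3 / 2) : ℝ) := mul_le_mul_of_nonneg_right h3 hT32
    _ = M ^ 2 := by
        rw [mul_assoc, ← Real.rpow_add hTpos]
        norm_num

end Pool.Agent.LibSM56
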