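import Pool.Agent.LibSM56.W_02
import Pool.Agent.LibSM47.M_B1

/-! SM56 W_05 (SHORT).  `|cP| ≤ M hh(m) (mn)^{-1/2}`, `hh m ≤ d(m) ≤ C m^{1/8}` (`hh_le_card`, `card_div_le` of LibSM47/M_B1), and the terms vanish
unless `mn ≤ T^{1-ε} ≤ T`: `∑_{m ≤ T} m^{-1/2+1/8} ∑_{n ≤ T/m} n^{-1/2} ≤ ∑_{m ≤ T} m^{-3/8} · 2 (T/m)^{1/2} = 2 T^{1/2} ∑ m^{-7/8} ≤ 16 T^{1/2+1/8}·…`
`≤ C T^{3/4}`. -/

set_option autoImplicit false

namespace Pool.Agent.LibSM56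

open MeasureTheory Set Filter Topology Complex ProbabilityTheory
open scoped NNReal ComplexConjugate
open Pool.Agent.LibZM Pool.Agent.LibSM47

private theorem W_05_half (N : ℕ) : ∑ n ∈ Finset.Icc 1 N, (n : ℝ) ^ (-(1 / 2) : ℝ) ≤
    2 * (N : ℝ) ^ (1 / 2 : ℝ) := by
  have key : ∀ n : ℕ, ((n : ℝ)) ^ (-(1 / 2) : ℝ) = 1 / √(n : ℝ) := by
    intro n
    rw [Real.rpow_neg (Nat.cast_nonneg _), ← Real.sqrt_eq_rpow, one_div]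
  simp only [key, ← Real.sqrt_eq_rpow]
  induction N with
  | zero => simp
  | succ N ih =>
    rw [Finset.sum_Icc_succ_top (by omega)]
    have h0 : (0 : ℝ) ≤ N := Nat.cast_nonneg _
    have h1 : √(N : ℝ) ^ 2 = N := Real.sq_sqrt h0
    have h2 : √((N + 1 : ℕ) : ℝ) ^ 2 = N + 1 := by
      rw [Real.sq_sqrt (Nat.cast_nonneg _)]
      push_cast
      ring
    have h3 : 0 < √((N + 1 : ℕ) : ℝ) := Real.sqrt_pos.2 (by positivity)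
    have h4 : 0 ≤ √(N : ℝ) := Real.sqrt_nonneg _
    have h5 : 1 / √((N + 1 : ℕ) : ℝ) ≤ 2 * √((N + 1 : ℕ) : ℝ) - 2 * √(N : ℝ) := by
      rw [div_le_iff₀ h3]
      nlinarith [sq_nonneg (√((N + 1 : ℕ) : ℝ) - √(N : ℝ))]
    linarith

private theorem W_05_half' (s : Finset ℕ) (X : ℝ) (hX : 0 ≤ X) (hs : ∀ n ∈ s, 1 ≤ n ∧ (n : ℝ) ≤ X) :
    ∑ n ∈ s, (n : ℝ) ^ (-(1 / 2) : ℝ) ≤ 2 * X ^ (1 / 2 : ℝ) := by
  have h1 : s ⊆ Finset.Icc 1 ⌊X⌋₊ := fun n hn =>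
    Finset.mem_Icc.2 ⟨(hs n hn).1, Nat.le_floor (hs n hn).2⟩
  refine (Finset.sum_le_sum_of_subset_of_nonneg h1 fun n _ _ =>
    Real.rpow_nonneg (Nat.cast_nonneg _) _).trans ?_
  refine (W_05_half _).trans ?_
  have h2 : ((⌊X⌋₊ : ℕ) : ℝ) ^ (1 / 2 : ℝ) ≤ X ^ (1 / 2 : ℝ) :=
    Real.rpow_le_rpow (Nat.cast_nonneg _) (Nat.floor_le hX) (by norm_num)
  linarith

theorem cP_sum_le (P : ℝ × ℝ × ℝ → ℝ) (ε : ℝ) (hε : 0 < ε) (hP : AdmP ε P) : ∃ M : ℝ, 0 < M ∧ ∀ T : ℝ, 2 ≤ T →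
    ∑ q ∈ idx T, |cP P T q| ≤ M * T ^ (3 / 4 : ℝ) := by
  classical
  obtain ⟨M, hM, hb⟩ := cP_bound P ε hP
  obtain ⟨C, hC, hc⟩ := card_div_le (1 / 8) (by norm_num)
  have hsum : Summable (fun n : ℕ => (n : ℝ) ^ (-(9 / 8) : ℝ)) :=
    Real.summable_nat_rpow.2 (by norm_num)
  obtain ⟨Z, hZ⟩ : ∃ Z : ℝ, Z = ∑' n : ℕ, (n : ℝ) ^ (-(9 / 8) : ℝ) := ⟨_, rfl⟩
  have hZ0 : 0 ≤ Z := by
    rw [hZ]
    exact tsum_nonneg fun n => Real.rpow_nonneg (Nat.cast_nonneg _) _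
  refine ⟨M * C * (2 * Z) + 1, by positivity, fun T hT => ?_⟩
  have hT0 : 0 < T := by linarith
  obtain ⟨F, hF⟩ : ∃ F : ℕ × ℕ → ℝ, ∀ q, F q = if (q.1 : ℝ) * q.2 ≤ T then
      (q.1 : ℝ) ^ (-(3 / 8) : ℝ) * (q.2 : ℝ) ^ (-(1 / 2) : ℝ) else 0 := ⟨_, fun _ => rfl⟩
  have hF0 : ∀ q, 0 ≤ F q := by
    intro q
    rw [hF]
    split_ifs
    · exact mul_nonneg (Real.rpow_nonneg (Nat.cast_nonneg _) _)
        (Real.rpow_nonneg (Nat.cast_nonneg _) _)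
    · exact le_rfl
  have h1 : ∀ q ∈ idx T, |cP P T q| ≤ M * C * F q := by
    intro q hq
    obtain ⟨b1, b2⟩ := hb T hT q hq
    by_cases h0 : cP P T q = 0
    · rw [h0, abs_zero]
      exact mul_nonneg (by positivity) (hF0 q)
    · have h2 := (b2 h0).1
      have h3 : T ^ (1 - ε) ≤ T := by
        calc T ^ (1 - ε) ≤ T ^ (1 : ℝ) :=
              Real.rpow_le_rpow_of_exponent_le (by linarith) (by linarith)
          _ = T := Real.rpow_one T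
      have hq' : 1 ≤ q.1 ∧ 1 ≤ q.2 := by
        unfold idx at hq
        rw [Finset.mem_filter, Finset.mem_product, Finset.mem_Icc, Finset.mem_Icc] at hq
        exact ⟨hq.1.1.1, hq.1.2.1⟩
      have m0 : (0 : ℝ) < q.1 := by exact_mod_cast hq'.1
      have n0 : (0 : ℝ) < q.2 := by exact_mod_cast hq'.2
      rw [hF, if_pos (h2.trans h3)]
      have h4 : hh q.1 ≤ C * (q.1 : ℝ) ^ (1 / 8 : ℝ) := (hh_le_card q.1).trans (hc q.1 hq'.1)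
      have e1 : (q.1 : ℝ) ^ (1 / 8 : ℝ) * (q.1 : ℝ) ^ (-(1 / 2) : ℝ) =
          (q.1 : ℝ) ^ (-(3 / 8) : ℝ) := by
        rw [← Real.rpow_add m0]
        norm_num
      calc |cP P T q| ≤ M * hh q.1 * ((q.1 : ℝ) * q.2) ^ (-(1 / 2) : ℝ) := b1
        _ ≤ M * (C * (q.1 : ℝ) ^ (1 / 8 : ℝ)) * ((q.1 : ℝ) * q.2) ^ (-(1 / 2) : ℝ) := by
            gcongr
        _ = M * C * (((q.1 : ℝ) ^ (1 / 8 : ℝ) * (q.1 : ℝ) ^ (-(1 / 2) : ℝ)) *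
            (q.2 : ℝ) ^ (-(1 / 2) : ℝ)) := by
            rw [Real.mul_rpow m0.le n0.le]
            ring
        _ = _ := by rw [e1]
  have h2 : ∑ q ∈ idx T, F q ≤ ∑ m ∈ Finset.Icc 1 ⌊T⌋₊, ∑ n ∈ Finset.Icc 1 ⌊T⌋₊, F (m, n) := by
    rw [← Finset.sum_product' (Finset.Icc 1 ⌊T⌋₊) (Finset.Icc 1 ⌊T⌋₊) (fun m n => F (m, n))]
    apply Finset.sum_le_sum_of_subset_of_nonneg
    · unfold idx
      exact Finset.filter_subset _ _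
    · intro q _ _
      exact hF0 q
  have h3 : ∀ m ∈ Finset.Icc 1 ⌊T⌋₊, ∑ n ∈ Finset.Icc 1 ⌊T⌋₊, F (m, n) ≤
      2 * T ^ (3 / 4 : ℝ) * (m : ℝ) ^ (-(9 / 8) : ℝ) := by
    intro m hm
    rw [Finset.mem_Icc] at hm
    have m0 : (0 : ℝ) < m := by exact_mod_cast hm.1
    have hmT : (m : ℝ) ≤ T := (Nat.le_floor_iff hT0.le).1 hm.2
    simp only [hF]
    rw [← Finset.sum_filter, ← Finset.mul_sum]
    have h4 := W_05_half' ((Finset.Icc 1 ⌊T⌋₊).filter fun n : ℕ => (m : ℝ) * n ≤ T) (T / m)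
      (by positivity) (by
        intro n hn
        rw [Finset.mem_filter, Finset.mem_Icc] at hn
        refine ⟨hn.1.1, ?_⟩
        rw [le_div_iff₀ m0]
        linarith [hn.2])
    have e1 : (m : ℝ) ^ (-(3 / 8) : ℝ) * (2 * (T / m) ^ (1 / 2 : ℝ)) =
        2 * T ^ (1 / 2 : ℝ) * ((m : ℝ) ^ (1 / 4 : ℝ) * (m : ℝ) ^ (-(9 / 8) : ℝ)) := by
      rw [Real.div_rpow hT0.le m0.le, ← Real.rpow_add m0]
      have e2 : (m : ℝ) ^ (-(3 / 8) : ℝ) / (m : ℝ) ^ (1 / 2 : ℝ) =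
          (m : ℝ) ^ (1 / 4 + -(9 / 8) : ℝ) := by
        rw [← Real.rpow_sub m0]
        congr 1
        norm_num
      rw [← e2]
      ring
    have e3 : T ^ (1 / 2 : ℝ) * T ^ (1 / 4 : ℝ) = T ^ (3 / 4 : ℝ) := by
      rw [← Real.rpow_add hT0]
      norm_num
    calc (m : ℝ) ^ (-(3 / 8) : ℝ) * _ ≤ (m : ℝ) ^ (-(3 / 8) : ℝ) * (2 * (T / m) ^ (1 / 2 : ℝ)) :=
          mul_le_mul_of_nonneg_left h4 (Real.rpow_nonneg m0.le _)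
      _ = 2 * T ^ (1 / 2 : ℝ) * ((m : ℝ) ^ (1 / 4 : ℝ) * (m : ℝ) ^ (-(9 / 8) : ℝ)) := e1
      _ ≤ 2 * T ^ (1 / 2 : ℝ) * (T ^ (1 / 4 : ℝ) * (m : ℝ) ^ (-(9 / 8) : ℝ)) := by
          have h5 : (m : ℝ) ^ (1 / 4 : ℝ) ≤ T ^ (1 / 4 : ℝ) :=
            Real.rpow_le_rpow m0.le hmT (by norm_num)
          gcongr
      _ = _ := by rw [← e3]; ring
  have h4 : ∑ m ∈ Finset.Icc 1 ⌊T⌋₊, (m : ℝ) ^ (-(9 / 8) : ℝ) ≤ Z := by
    rw [hZ]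
    exact hsum.sum_le_tsum _ fun n _ => Real.rpow_nonneg (Nat.cast_nonneg _) _
  have hTp : 0 ≤ T ^ (3 / 4 : ℝ) := Real.rpow_nonneg hT0.le _
  calc ∑ q ∈ idx T, |cP P T q| ≤ ∑ q ∈ idx T, M * C * F q := Finset.sum_le_sum h1
    _ = M * C * ∑ q ∈ idx T, F q := by rw [Finset.mul_sum]
    _ ≤ M * C * ∑ m ∈ Finset.Icc 1 ⌊T⌋₊, 2 * T ^ (3 / 4 : ℝ) * (m : ℝ) ^ (-(9 / 8) : ℝ) := by
        apply mul_le_mul_of_nonneg_left _ (by positivity)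
        exact h2.trans (Finset.sum_le_sum h3)
    _ = M * C * (2 * T ^ (3 / 4 : ℝ) * ∑ m ∈ Finset.Icc 1 ⌊T⌋₊, (m : ℝ) ^ (-(9 / 8) : ℝ)) := by
        rw [← Finset.mul_sum]
    _ ≤ M * C * (2 * T ^ (3 / 4 : ℝ) * Z) := by
        apply mul_le_mul_of_nonneg_left _ (by positivity)
        exact mul_le_mul_of_nonneg_left h4 (by positivity)
    _ ≤ (M * C * (2 * Z) + 1) * T ^ (3 / 4 : ℝ) := by
        have e : M * C * (2 * T ^ (3 / 4 : ℝ) * Z) = M * C * (2 * Z) * T ^ (3 / 4 : ℝ) := by ring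
        rw [e]
        apply mul_le_mul_of_nonneg_right _ hTp
        linarith

end Pool.Agent.LibSM56
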