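import Pool.Agent.LibSM56.Defs

/-! SM56 W_06 (SHORT, elementary).  The algebra of the window theorem.  With `S1' = B := (a J1 + θ₁) L^5` (an upper bound for `∫‖D‖² + Re ∫ X D²`) and
`S2 ≥ (a J2 - θ₂) L^7`, `2 S2² ≤ M6 · S`, `S ≤ B`, `B > 0`: since `S2² ≥ 2 S2 (B L²) - (B L²)²`,
`M6 ≥ M6 S / B ≥ 2 (2 S2 L² - B L⁴) ≥ 2 (2 (a J2 - θ₂) - (a J1 + θ₁)) L^9`. -/

set_option autoImplicit false

namespace Pool.Agent.LibSM56

open MeasureTheory Set Filter Topology Complex ProbabilityTheory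
open scoped NNReal ComplexConjugate
open Pool.Agent.LibZM Pool.Agent.LibSM47

theorem window_alg (M S B S2 L p q : ℝ) (hL : 0 < L) (hM : 0 ≤ M) (hcs : 2 * S2 ^ 2 ≤ M * S) (hSB : S ≤ B) (hB : 0 < B)
    (hB1 : B ≤ p * L ^ 5) (hS2 : q * L ^ 7 ≤ S2) : 2 * (2 * q - p) * L ^ 9 ≤ M := by
  have h1 : 2 * S2 ^ 2 ≤ M * B := hcs.trans (mul_le_mul_of_nonneg_left hSB hM)
  have h2 : (4 * S2 * L ^ 2 - 2 * B * L ^ 4) * B ≤ M * B := by
    nlinarith [sq_nonneg (S2 - B * L ^ 2)]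
  have h4 : 4 * S2 * L ^ 2 - 2 * B * L ^ 4 ≤ M := le_of_mul_le_mul_right h2 hB
  have h5 : q * L ^ 7 * L ^ 2 ≤ S2 * L ^ 2 := mul_le_mul_of_nonneg_right hS2 (by positivity)
  have h6 : B * L ^ 4 ≤ p * L ^ 5 * L ^ 4 := mul_le_mul_of_nonneg_right hB1 (by positivity)
  have h7 : q * L ^ 7 * L ^ 2 = q * L ^ 9 := by ring
  have h8 : p * L ^ 5 * L ^ 4 = p * L ^ 9 := by ring
  linarith

end Pool.Agent.LibSM56
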