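import Pool.Agent.LibSM56.W_01
import Pool.Agent.LibSM56.W_03
import Pool.Agent.LibSM56.W_04
import Pool.Agent.LibSM56.W_05
import Pool.Agent.LibSM56.W_06

/-! SM56 W_08 (MEDIUM).  The window theorem for one weight, from S1, S2 (hypotheses here, proved in section F), `CS_c`, `D_sq_c`, `D_cross_c`
(with `c T = cP P T`: `cP_bound`, `cP_sum_le`; `|cP| ≤ M hh(m) ≤ M m ≤ M T`), `ErrOK` with `δ = min δ₀ (ε/20) (1/1000)`, and `window_alg` with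
`B = (a J1 + θ/16) L^5`-like constants (add `θ/8 L^5` so that `B > 0` even if `J1 = 0`: `J1 ≥ 0` follows from `S1_limit` since the sums are `≥ 0`).
Compare `LibSM47/M_W1.lean`. -/

set_option autoImplicit false

namespace Pool.Agent.LibSM56

open MeasureTheory Set Filter Topology Complex ProbabilityTheory
open scoped NNReal ComplexConjugate
open Pool.Agent.LibZM Pool.Agent.LibSM47

private theorem W_08_small {T : ℝ} {q : ℕ × ℕ} (hq : q ∈ idx T) :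
    hh q.1 * ((q.1 : ℝ) * q.2) ^ (-(1 / 2) : ℝ) ≤ T := by
  unfold idx at hq
  rw [Finset.mem_filter, Finset.mem_product, Finset.mem_Icc, Finset.mem_Icc] at hq
  obtain ⟨⟨⟨h1, h2⟩, ⟨h3, -⟩⟩, -⟩ := hq
  have hT : 0 ≤ T := by
    by_contra h
    have h4 : ⌊T⌋₊ = 0 := Nat.floor_of_nonpos (not_le.1 h).le
    omega
  have h5 : (q.1 : ℝ) ≤ T := (Nat.cast_le.2 h2).trans (Nat.floor_le hT)
  have h6 : hh q.1 ≤ T :=
    (hh_le_card q.1).trans ((Nat.cast_le.2 (Nat.card_divisors_le_self q.1)).trans h5)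
  have h7 : (1 : ℝ) ≤ (q.1 : ℝ) * q.2 := by
    have h8 : (1 : ℝ) ≤ q.1 := by exact_mod_cast h1
    have h9 : (1 : ℝ) ≤ q.2 := by exact_mod_cast h3
    exact one_le_mul_of_one_le_of_one_le h8 h9
  have h10 : ((q.1 : ℝ) * q.2) ^ (-(1 / 2) : ℝ) ≤ 1 :=
    Real.rpow_le_one_of_one_le_of_nonpos h7 (by norm_num)
  have h11 : 0 ≤ ((q.1 : ℝ) * q.2) ^ (-(1 / 2) : ℝ) := Real.rpow_nonneg (by linarith) _
  calc hh q.1 * ((q.1 : ℝ) * q.2) ^ (-(1 / 2) : ℝ) ≤ T * 1 := mul_le_mul h6 h10 h11 hT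
    _ = T := mul_one T

theorem window_P' (P : ℝ × ℝ × ℝ → ℝ) (ε ε₁ θ : ℝ) (hε : 0 < ε) (hε' : ε ≤ 1 / 10) (hε1 : 0 < ε₁) (hθ : 0 < θ)
    (hP : AdmP ε P) (hE : ErrOK P)
    (h1 : Tendsto (fun T : ℝ => (∑ q ∈ idx T, cP P T q ^ 2) / (Real.log T) ^ 5) atTop (𝓝 (LibZM.Aconst 3 * J1 P)))
    (h2 : ∀ θ' : ℝ, 0 < θ' → ∃ T₀ : ℝ, ∀ T : ℝ, T₀ ≤ T → ∀ u : ℝ, ε₁ * T ≤ u → u ≤ T →
      |(∑ q ∈ idx T, cP P T q * mainT u q) - LibZM.Aconst 3 * J2 P * (Real.log T) ^ 7| ≤ θ' * (Real.log T) ^ 7) :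
    ∃ δ T₀ : ℝ, 0 < δ ∧ δ ≤ 1 / 1000 ∧ ∀ T : ℝ, T₀ ≤ T → ∀ u : ℝ, ε₁ * T ≤ u → u ≤ T →
      (LibZM.Aconst 3 * (2 * (2 * J2 P - J1 P)) - θ) * (Real.log T) ^ 9 ≤ M6 (T ^ (1 - δ)) u := by
  obtain ⟨x1, hx1⟩ : ∃ x : ℝ, x = LibZM.Aconst 3 * J1 P := ⟨_, rfl⟩
  obtain ⟨x2, hx2⟩ : ∃ x : ℝ, x = LibZM.Aconst 3 * J2 P := ⟨_, rfl⟩
  obtain ⟨Mb, hMb0, hMb⟩ := cP_bound P ε hP
  obtain ⟨Ms, hMs0, hMs⟩ := cP_sum_le P ε hε hP
  obtain ⟨δ0, hδ0, hδE⟩ := hE ε₁ hε1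
  obtain ⟨δ, hδ, hδ1, hδ2, hδ3⟩ : ∃ δ : ℝ, 0 < δ ∧ δ ≤ δ0 ∧ δ ≤ ε / 20 ∧ δ ≤ 1 / 1000 :=
    ⟨min δ0 (min (ε / 20) (1 / 1000)), lt_min hδ0 (lt_min (by positivity) (by norm_num)),
      min_le_left _ _, (min_le_right _ _).trans (min_le_left _ _),
      (min_le_right _ _).trans (min_le_right _ _)⟩
  have hc1 : ∀ T : ℝ, 2 ≤ T → ∀ q ∈ idx T,
      |cP P T q| ≤ Mb * T ∧ (cP P T q ≠ 0 → (q.1 : ℝ) * q.2 ≤ T ^ (1 - ε)) := by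
    intro T hT q hq
    obtain ⟨h3, h4⟩ := hMb T hT q hq
    refine ⟨h3.trans ?_, fun h => (h4 h).1⟩
    rw [mul_assoc]
    exact mul_le_mul_of_nonneg_left (W_08_small hq) hMb0.le
  obtain ⟨T1, hT1⟩ := D_sq_c (cP P) Mb ε δ hε hδ (by linarith) hε' hMb0 hc1
  obtain ⟨T2, hT2⟩ := D_cross_c (cP P) Ms ε ε₁ δ hε hε1 hδ (by linarith) hε' hMs0 hMs
    (fun T hT q hq h => ((hMb T hT q hq).2 h).2.1)
  obtain ⟨C, T3, hT3⟩ := hδE δ hδ hδ1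
  obtain ⟨T4, hT4⟩ := h2 (θ / 16) (by positivity)
  rw [← hx1] at h1
  have hJ1 : 0 ≤ x1 := by
    refine ge_of_tendsto h1 ?_
    filter_upwards [eventually_ge_atTop (1 : ℝ)] with T hT
    exact div_nonneg (Finset.sum_nonneg fun q _ => sq_nonneg _)
      (pow_nonneg (Real.log_nonneg hT) 5)
  have hS1' : ∀ᶠ T : ℝ in atTop,
      (∑ q ∈ idx T, cP P T q ^ 2) / (Real.log T) ^ 5 < x1 + θ / 16 :=
    h1.eventually (gt_mem_nhds (by linarith))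
  have hlog : ∀ᶠ T : ℝ in atTop, max (16 * C / θ) (max (16 * (1 + Ms ^ 2) / θ) 1) ≤ Real.log T :=
    Real.tendsto_log_atTop.eventually_ge_atTop _
  obtain ⟨T5, hT5⟩ := (hS1'.and hlog).exists_forall_of_atTop
  refine ⟨δ, max (max T1 T2) (max (max T3 T4) T5), hδ, hδ3, fun T hT u hu1 hu2 => ?_⟩
  have g1 : T1 ≤ T := (le_max_left _ _).trans ((le_max_left _ _).trans hT)
  have g2 : T2 ≤ T := (le_max_right _ _).trans ((le_max_left _ _).trans hT)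
  have g3 : T3 ≤ T :=
    (le_max_left _ _).trans ((le_max_left _ _).trans ((le_max_right _ _).trans hT))
  have g4 : T4 ≤ T :=
    (le_max_right _ _).trans ((le_max_left _ _).trans ((le_max_right _ _).trans hT))
  have g5 : T5 ≤ T := (le_max_right _ _).trans ((le_max_right _ _).trans hT)
  obtain ⟨g6, g7⟩ := hT5 T g5
  have k1 := hT1 T g1 u
  have k2 := hT2 T g2 u hu1 hu2
  have k3 := hT3 T g3 u hu1 hu2
  have k4 := hT4 T g4 u hu1 hu2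
  have k5 := CS_c (cP P T) T (T ^ (1 - δ)) u
  obtain ⟨L, hL⟩ : ∃ L : ℝ, L = Real.log T := ⟨_, rfl⟩
  rw [← hL] at g6 g7 k3 k4 ⊢
  obtain ⟨S, hS⟩ : ∃ S : ℝ, S = ∑ q ∈ idx T, cP P T q *
    (II (T ^ (1 - δ)) u q.1 q.2).re := ⟨_, rfl⟩
  obtain ⟨S2, hS2⟩ : ∃ S2 : ℝ, S2 = ∑ q ∈ idx T, cP P T q * mainT u q := ⟨_, rfl⟩
  obtain ⟨S1, hS1e⟩ : ∃ S1 : ℝ, S1 = ∑ q ∈ idx T, cP P T q ^ 2 := ⟨_, rfl⟩
  obtain ⟨N, hN⟩ : ∃ N : ℝ, N = ∫ t, ‖Dc (cP P T) T t‖ ^ 2 ∂(gam (T ^ (1 - δ)) u) := ⟨_, rfl⟩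
  obtain ⟨X, hX⟩ : ∃ X : ℂ, X = ∫ t, XX t * Dc (cP P T) T t ^ 2 ∂(gam (T ^ (1 - δ)) u) :=
    ⟨_, rfl⟩
  obtain ⟨M, hM⟩ : ∃ M : ℝ, M = M6 (T ^ (1 - δ)) u := ⟨_, rfl⟩
  rw [← hS, ← hS2] at k3
  rw [← hS2, ← hx2] at k4
  rw [← hS1e] at g6 k1
  rw [← hN] at k1 k5
  rw [← hX] at k2 k5
  rw [← hS, ← hM] at k5
  rw [← hM]
  have hM0 : 0 ≤ M := by
    rw [hM]
    unfold M6
    exact integral_nonneg fun t => by positivity
  have hL1 : 16 * C / θ ≤ L := (le_max_left _ _).trans g7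
  have hL2 : 16 * (1 + Ms ^ 2) / θ ≤ L := (le_max_left _ _).trans ((le_max_right _ _).trans g7)
  have hL3 : 1 ≤ L := (le_max_right _ _).trans ((le_max_right _ _).trans g7)
  rw [div_le_iff₀ hθ] at hL1 hL2
  have hL0 : 0 < L := by linarith
  have hL5p : 1 ≤ L ^ 5 := one_le_pow₀ hL3
  have hL4p : L ≤ L ^ 5 := by
    have := pow_le_pow_right₀ hL3 (show 1 ≤ 5 by norm_num)
    rwa [pow_one] at this
  -- the denominator
  have m1 : N + X.re ≤ (x1 + θ / 8) * L ^ 5 := by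
    have h3 : S1 ≤ (x1 + θ / 16) * L ^ 5 := by
      have := (div_lt_iff₀ (by linarith : (0 : ℝ) < L ^ 5)).1 g6
      exact this.le
    have h4 : X.re ≤ Ms ^ 2 := (Complex.re_le_norm X).trans k2
    have h5 : N ≤ S1 + 1 := by
      have := (abs_le.1 k1).2
      linarith
    have h6 : 1 + Ms ^ 2 ≤ θ / 16 * L ^ 5 := by
      have h7 : θ / 16 * L ≤ θ / 16 * L ^ 5 := mul_le_mul_of_nonneg_left hL4p (by positivity)
      linarith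
    have h8 : (x1 + θ / 8) * L ^ 5 = (x1 + θ / 16) * L ^ 5 + θ / 16 * L ^ 5 := by ring
    linarith
  have m2 : (x2 - θ / 8) * L ^ 7 ≤ S := by
    have h3 := (abs_le.1 k3).1
    have h4 := (abs_le.1 k4).1
    have h5 : C * L ^ 6 ≤ θ / 16 * L ^ 7 := by
      have h6 : C ≤ θ / 16 * L := by linarith
      calc C * L ^ 6 ≤ θ / 16 * L * L ^ 6 := mul_le_mul_of_nonneg_right h6 (by positivity)
        _ = θ / 16 * L ^ 7 := by ring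
    have h7 : (x2 - θ / 8) * L ^ 7 = x2 * L ^ 7 - θ / 16 * L ^ 7 - θ / 16 * L ^ 7 := by ring
    linarith
  have m3 := window_alg M (N + X.re) ((x1 + θ / 8) * L ^ 5) S L (x1 + θ / 8) (x2 - θ / 8) hL0 hM0
    k5 m1 (by positivity) le_rfl m2
  refine le_trans (mul_le_mul_of_nonneg_right ?_ (by positivity)) m3
  have h7 : LibZM.Aconst 3 * (2 * (2 * J2 P - J1 P)) =
      2 * (2 * (LibZM.Aconst 3 * J2 P) - LibZM.Aconst 3 * J1 P) := by ring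
  rw [h7, ← hx1, ← hx2]
  linarith

end Pool.Agent.LibSM56
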