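import Pool.Agent.LibSM56.J_14
import Pool.Agent.LibSM56.W_07
import Pool.Agent.LibSM56.W_08
import Pool.Agent.LibSM56.V_02
import Pool.Agent.LibSM56.V_03
import Pool.Agent.LibSM56.V_04

/-! SM56 W_09 (SHORT/MEDIUM).  `interval_all'`: `J_boxes` with `θ' = θ/(8 Aconst 3)`, `window_P'` with `θ/4` (and monotonicity: `(log T)^9 ≥ 0`),
then `interval_of_window`; if the constant is not positive use that the right side is `≥ 0` (or take `θ`-monotonicity: the case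
`A ≤ 0` is trivial because then `A - θ < 0`).  `OmA_ok`, `OmF_ok`: open, inside `Base`, symmetric.  `OmA_value`, `OmF_value`: from `OmA_iter`,
`val1`, `val2`, `val3`. -/

set_option autoImplicit false

namespace Pool.Agent.LibSM56

open MeasureTheory Set Filter Topology Complex ProbabilityTheory
open scoped NNReal ComplexConjugate
open Pool.Agent.LibZM Pool.Agent.LibSM47

theorem interval_all' (Ω : Set (ℝ × ℝ × ℝ)) (hΩ : IsOpen Ω) (hB : Ω ⊆ Base)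
    (hs : ∀ z z' y : ℝ, (z, z', y) ∈ Ω → (z', z, y) ∈ Ω) (hgood : ∀ x ∈ Ω, x.1 ≤ x.2.1 → GoodAt x)
    (h1 : ∀ (P : ℝ × ℝ × ℝ → ℝ) (ε : ℝ), 0 < ε → AdmP ε P →
      Tendsto (fun T : ℝ => (∑ q ∈ idx T, cP P T q ^ 2) / (Real.log T) ^ 5) atTop (𝓝 (LibZM.Aconst 3 * J1 P)))
    (h2 : ∀ (P : ℝ × ℝ × ℝ → ℝ) (ε ε₁ : ℝ), 0 < ε → 0 < ε₁ → AdmP ε P → ∀ θ' : ℝ, 0 < θ' →
      ∃ T₀ : ℝ, ∀ T : ℝ, T₀ ≤ T → ∀ u : ℝ, ε₁ * T ≤ u → u ≤ T →
      |(∑ q ∈ idx T, cP P T q * mainT u q) - LibZM.Aconst 3 * J2 P * (Real.log T) ^ 7| ≤ θ' * (Real.log T) ^ 7)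
    (θ : ℝ) (hθ : 0 < θ) :
    ∃ δ T₀ : ℝ, 0 < δ ∧ ∀ T : ℝ, T₀ ≤ T → ∀ a b : ℝ, 0 ≤ a → b ≤ T → T ^ (1 - δ) ≤ b - a →
      (LibZM.Aconst 3 * (2 * ((1 / 8) * ∫ x in Ω, Vd x ^ 2)) - θ) * (b - a) * (Real.log T) ^ 9 ≤
        ∫ t in a..b, ‖riemannZeta (crit t)‖ ^ 6 := by
  have hA3 : 0 < LibZM.Aconst 3 := LibZM.Aconst_pos (κ := 3) (by norm_num)
  obtain ⟨J, hJ⟩ : ∃ J, J = (1 / 8) * ∫ x in Ω, Vd x ^ 2 := ⟨_, rfl⟩
  rw [← hJ]
  rcases le_or_gt (LibZM.Aconst 3 * (2 * J)) 0 with hA | hA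
  · refine ⟨1, 1, one_pos, fun T hT a b ha hb hab => ?_⟩
    have e1 : 0 ≤ b - a := le_trans (Real.rpow_nonneg (by linarith) _) hab
    have e2 : 0 ≤ ∫ t in a..b, ‖riemannZeta (crit t)‖ ^ 6 :=
      intervalIntegral.integral_nonneg (by linarith) fun t _ => by positivity
    have e3 : 0 ≤ Real.log T := Real.log_nonneg hT
    have e4 : (LibZM.Aconst 3 * (2 * J) - θ) * (b - a) * (Real.log T) ^ 9 ≤ 0 := by
      have : (LibZM.Aconst 3 * (2 * J) - θ) * (b - a) ≤ 0 :=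
        mul_nonpos_of_nonpos_of_nonneg (by linarith) e1
      exact mul_nonpos_of_nonpos_of_nonneg this (by positivity)
    linarith
  refine interval_of_window (LibZM.Aconst 3 * (2 * J)) hA (fun θ₁ ε₁ hθ₁ hε₁ => ?_) θ hθ
  obtain ⟨P, ε, hε, hε', hP, hE, hPJ⟩ := J_boxes Ω hΩ hB hs hgood (θ₁ / (8 * LibZM.Aconst 3))
    (by positivity)
  obtain ⟨δ, T₀, hδ, hδ', h⟩ := window_P' P ε ε₁ (θ₁ / 2) hε hε' hε₁ (by positivity) hP hE
    (h1 P ε hε hP) (h2 P ε ε₁ hε hε₁ hP)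
  refine ⟨δ, max T₀ 1, hδ, hδ', fun T hT u hu1 hu2 => ?_⟩
  have hT0 : T₀ ≤ T := (le_max_left _ _).trans hT
  have hT1 : 1 ≤ T := (le_max_right _ _).trans hT
  refine le_trans ?_ (h T hT0 u hu1 hu2)
  have e3 : 0 ≤ Real.log T := Real.log_nonneg hT1
  refine mul_le_mul_of_nonneg_right ?_ (by positivity)
  rw [← hJ] at hPJ
  have e4 := mul_le_mul_of_nonneg_left hPJ hA3.le
  have e5 : LibZM.Aconst 3 * (J - θ₁ / (8 * LibZM.Aconst 3)) = LibZM.Aconst 3 * J - θ₁ / 8 := by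
    field_simp
  rw [e5] at e4
  linarith

private theorem W_09_base : IsOpen Base := by
  have h1 : IsOpen {x : ℝ × ℝ × ℝ | 0 < x.1} := isOpen_lt (by fun_prop) (by fun_prop)
  have h2 : IsOpen {x : ℝ × ℝ × ℝ | 0 < x.2.1} := isOpen_lt (by fun_prop) (by fun_prop)
  have h3 : IsOpen {x : ℝ × ℝ × ℝ | 0 < x.2.2} := isOpen_lt (by fun_prop) (by fun_prop)
  have h4 : IsOpen {x : ℝ × ℝ × ℝ | x.1 + x.2.1 + x.2.2 < 1} := isOpen_lt (by fun_prop) (by fun_prop)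
  have h5 : IsOpen {x : ℝ × ℝ × ℝ | x.1 + x.2.1 - x.2.2 < 1 / 2} :=
    isOpen_lt (by fun_prop) (by fun_prop)
  exact h1.inter (h2.inter (h3.inter (h4.inter h5)))

private theorem W_09_symm {z z' y : ℝ} (h : (z, z', y) ∈ Base) : (z', z, y) ∈ Base := by
  obtain ⟨h1, h2, h3, h4, h5⟩ := h
  simp only at h1 h2 h3 h4 h5
  refine ⟨h2, h1, h3, ?_, ?_⟩ <;> simp only <;> linarith

theorem OmA_ok : IsOpen OmA ∧ OmA ⊆ Base ∧ ∀ z z' y : ℝ, (z, z', y) ∈ OmA → (z', z, y) ∈ OmA := by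
  refine ⟨?_, fun x hx => hx.1, ?_⟩
  · have h1 : IsOpen {x : ℝ × ℝ × ℝ | x.1 + x.2.1 < 1 / 2} := isOpen_lt (by fun_prop) (by fun_prop)
    have h2 : IsOpen {x : ℝ × ℝ × ℝ | 2 * (x.1 + x.2.1) + x.2.2 < 3 / 2} :=
      isOpen_lt (by fun_prop) (by fun_prop)
    have h3 : IsOpen {x : ℝ × ℝ × ℝ | min x.1 x.2.1 < 1 / 2 - x.2.2} :=
      isOpen_lt (by fun_prop) (by fun_prop)
    exact W_09_base.inter (h1.union (h2.inter h3))
  · rintro z z' y ⟨h1, h2⟩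
    refine ⟨W_09_symm h1, ?_⟩
    simp only at h2 ⊢
    rw [add_comm z' z, min_comm z' z]
    exact h2

theorem OmF_ok : IsOpen OmF ∧ OmF ⊆ Base ∧ ∀ z z' y : ℝ, (z, z', y) ∈ OmF → (z', z, y) ∈ OmF := by
  refine ⟨?_, fun x hx => hx.1, ?_⟩
  · have h1 : IsOpen {x : ℝ × ℝ × ℝ | x.1 + x.2.1 < 1 / 2} := isOpen_lt (by fun_prop) (by fun_prop)
    have h2 : IsOpen {x : ℝ × ℝ × ℝ | 2 * x.2.2 < 1 - (x.1 + x.2.1)} :=
      isOpen_lt (by fun_prop) (by fun_prop)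
    exact W_09_base.inter (h1.union h2)
  · rintro z z' y ⟨h1, h2⟩
    refine ⟨W_09_symm h1, ?_⟩
    simp only at h2 ⊢
    rw [add_comm z' z]
    exact h2

theorem OmA_value : (1 / 8) * (∫ x in OmA, Vd x ^ 2) = 14967713 / 373248 / 725760 := by
  rw [OmA_iter, val1, val2, val3]
  norm_num

theorem OmF_value : (1 / 8) * (∫ x in OmF, Vd x ^ 2) = 56673877 / 1492992 / 725760 := by
  rw [OmF_iter, val1, val2]
  norm_num

end Pool.Agent.LibSM56
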