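import Pool.Agent.LibSM56.W_02
import Pool.Agent.LibSM56.Regions
import Pool.Agent.LibSM47.FaceC

/-! SM56 W_10 (MEDIUM).  The region of LibSM47 is good.  `cP_errR`: copy of `LibSM47/M_B4.lean` (`errR_sum`; `reg1`, `reg2`, `reg3` of M_B1, `pw_sum` of
FaceA) with `cc` replaced by `cP`: `|cP| ≤ M hh(m) (mn)^{-1/2}` (`cP_bound`) and the support hypothesis.  `good_47`: at `x` with `3(x.1+x.2.1)/2 + x.2.2 < 1`
and `x ∈ Base` take `ε` with `3(z+z')/2+y ≤ 1-2ε`-slack and `κ = ε/10` (also `κ < ` all coordinates, so that `bx a b c` has compact support in the open octant and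
is `AdmP`); `ErrOK`: `δ₀ = min (1/100) (ε/100)`, `one_fraction` with `η = ε/1000`, as in `LibSM47/M_B6.lean` (`II_sum'`); `errS_sum` of M_B5. -/

set_option autoImplicit false

namespace Pool.Agent.LibSM56

open MeasureTheory Set Filter Topology Complex ProbabilityTheory
open scoped NNReal ComplexConjugate
open Pool.Agent.LibZM Pool.Agent.LibSM47

private theorem W_10_pw (m : ℕ) : 1 ≤ pw m := by
  unfold pw
  refine Nat.succ_le_of_lt (Finset.prod_pos fun p hp => ?_)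
  have := Nat.prime_of_mem_primeFactors (Finset.mem_filter.1 hp).1
  exact pow_pos this.pos _

private theorem W_10_point (η T : ℝ) (hη0 : 0 < η) (hη1 : η ≤ 1) (hT : 2 ≤ T) (m n : ℕ)
    (hm : 1 ≤ m) (hn : 1 ≤ n) (hnT : (n : ℝ) ≤ T) :
    ((m : ℝ) * n) ^ (-(1 / 2) : ℝ) * (m : ℝ) ^ η * errR η T m n ≤
      (m : ℝ) ^ (η - 1 / 2) * (n : ℝ) ^ (-(1 / 2) : ℝ) +
      (m : ℝ) ^ (η + 1 / 2) * (n : ℝ) ^ (-(3 / 2) : ℝ) +
      ((m : ℝ) ^ (2 * η - 1) * (n : ℝ) ^ (-(1 / 2) : ℝ)) * T ^ (1 / 4 : ℝ) +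
      ((m : ℝ) ^ (2 * η) * (n : ℝ) ^ (-(3 / 2) : ℝ)) * T ^ (1 / 4 : ℝ) +
      (m : ℝ) ^ (η - 1) +
      ((m : ℝ) ^ (1 / 2 + 9 * η) * √(pw m : ℝ)) * (2 * T ^ η) +
      ((m : ℝ) ^ (2 * η - 1) * (n : ℝ) ^ (-(1 / 2) : ℝ)) * T ^ (1 / 2 : ℝ) := by
  obtain ⟨a, ha⟩ : ∃ a : ℝ, a = m := ⟨_, rfl⟩
  obtain ⟨b, hb⟩ : ∃ b : ℝ, b = n := ⟨_, rfl⟩
  have ha1 : 1 ≤ a := by
    rw [ha]
    exact_mod_cast hm
  have hb1 : 1 ≤ b := by
    rw [hb]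
    exact_mod_cast hn
  unfold errR
  rw [← ha, ← hb]
  rw [← hb] at hnT
  have ha0 : 0 < a := by linarith
  have hb0 : 0 < b := by linarith
  have hT0 : 0 < T := by linarith
  obtain ⟨u, hu⟩ : ∃ u : ℝ, u = a ^ (-(1 / 2) + η) := ⟨_, rfl⟩
  obtain ⟨r, hr⟩ : ∃ r : ℝ, r = b ^ (-(1 / 2) : ℝ) := ⟨_, rfl⟩
  have hX : (a * b) ^ (-(1 / 2) : ℝ) * a ^ η = u * r := by
    rw [Real.mul_rpow ha0.le hb0.le, hu, hr, Real.rpow_add ha0]
    ring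
  have f0 : a ^ (η - 1 / 2) = u := by
    rw [hu]
    congr 1
    ring
  have f1 : a ^ (η + 1 / 2) = a * u := by
    rw [hu, show η + 1 / 2 = 1 + (-(1 / 2) + η) by ring, Real.rpow_add ha0, Real.rpow_one]
  have f2 : b ^ (-(3 / 2) : ℝ) = r / b := by
    rw [hr, show (-(3 / 2) : ℝ) = -(1 / 2) - 1 by ring, Real.rpow_sub_one hb0.ne']
  have f3 : a ^ (2 * η - 1) = u * u := by
    rw [hu, ← Real.rpow_add ha0]
    congr 1
    ring
  have f4 : a ^ (2 * η) = a * (u * u) := by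
    rw [← f3, show 2 * η = 1 + (2 * η - 1) by ring, Real.rpow_add ha0, Real.rpow_one]
    congr 2
    ring
  have f5 : √(b / a) * (u * r) = a ^ (η - 1) := by
    have e1 : √(b / a) = a ^ (-(1 / 2) : ℝ) * b ^ (1 / 2 : ℝ) := by
      rw [Real.sqrt_eq_rpow, Real.div_rpow hb0.le ha0.le, Real.rpow_neg ha0.le]
      ring
    have e2 : b ^ (1 / 2 : ℝ) * r = 1 := by
      rw [hr, ← Real.rpow_add hb0]
      norm_num
    have e3 : a ^ (-(1 / 2) : ℝ) * u = a ^ (η - 1) := by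
      rw [hu, ← Real.rpow_add ha0]
      congr 1
      ring
    rw [e1, ← e3]
    linear_combination (a ^ (-(1 / 2) : ℝ) * u) * e2
  have f6 : a ^ (η - 1) * a ^ (3 / 2 + 8 * η) = a ^ (1 / 2 + 9 * η) := by
    rw [← Real.rpow_add ha0]
    congr 1
    ring
  have f7 : (1 + b / a) ^ η ≤ 2 * T ^ η := by
    have e1 : 1 + b / a ≤ 2 * T := by
      have : b / a ≤ b := div_le_self hb0.le ha1
      linarith
    have e2 : (1 + b / a) ^ η ≤ (2 * T) ^ η := Real.rpow_le_rpow (by positivity) e1 hη0.le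
    rw [Real.mul_rpow (by norm_num) hT0.le] at e2
    have e3 : (2 : ℝ) ^ η ≤ 2 := by
      have := Real.rpow_le_rpow_of_exponent_le (by norm_num : (1 : ℝ) ≤ 2) hη1
      rwa [Real.rpow_one] at this
    exact e2.trans (mul_le_mul_of_nonneg_right e3 (by positivity))
  rw [hX, f0, f1, f2, f3, f4, ← hu, ← hr, ← f6]
  have e : u * r * ((1 + a / b) * (1 + u * T ^ (1 / 4 : ℝ)) +
      √(b / a) * (1 + a ^ (3 / 2 + 8 * η) * √(pw m : ℝ) * (1 + b / a) ^ η) + u * T ^ (1 / 2 : ℝ)) =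
      u * r + a * u * (r / b) + (u * u * r) * T ^ (1 / 4 : ℝ) +
      (a * (u * u) * (r / b)) * T ^ (1 / 4 : ℝ) + √(b / a) * (u * r) +
      ((√(b / a) * (u * r)) * a ^ (3 / 2 + 8 * η) * √(pw m : ℝ)) * (1 + b / a) ^ η +
      (u * u * r) * T ^ (1 / 2 : ℝ) := by
    field_simp
    ring
  rw [e, f5]
  gcongr

private theorem W_10_supp (P : ℝ × ℝ × ℝ → ℝ) (ε : ℝ) (hε : 0 < ε) (hP : AdmP ε P)
    (hs : ∀ z z' y : ℝ, 0 ≤ z → 0 ≤ z' → 0 ≤ y → P (z, z', y) ≠ 0 → 3 * (z + z') / 2 + y ≤ 1 - ε)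
    (T : ℝ) (hT : 2 ≤ T) (q : ℕ × ℕ) (hq : q ∈ idx T) (hne : cP P T q ≠ 0) :
    (q.1 : ℝ) ^ (3 / 2 : ℝ) * q.2 ≤ T ^ (1 - ε) ∧ (q.1 : ℝ) ≤ T ^ (3 / 5 : ℝ) := by
  obtain ⟨hc, hcs, hA⟩ := hP
  obtain ⟨m, n⟩ := q
  simp only [idx, Finset.mem_filter, Finset.mem_product, Finset.mem_Icc] at hq
  obtain ⟨⟨⟨hm1, _⟩, hn1, _⟩, _⟩ := hq
  have hm : (1 : ℝ) ≤ m := by exact_mod_cast hm1
  have hn : (1 : ℝ) ≤ n := by exact_mod_cast hn1
  have hm0 : (0 : ℝ) < m := by linarith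
  have hn0 : (0 : ℝ) < n := by linarith
  have hT0 : (0 : ℝ) < T := by linarith
  have hT1 : (1 : ℝ) ≤ T := by linarith
  have hlT : 0 < Real.log T := Real.log_pos (by linarith)
  have hlm : 0 ≤ Real.log m := Real.log_nonneg hm
  have hln : 0 ≤ Real.log n := Real.log_nonneg hn
  have hs0 : ∑ x ∈ m.divisorsAntidiagonal, (Nat.totient x.1 : ℝ) / x.1 *
      P (Real.log x.1 / Real.log T, Real.log x.2 / Real.log T, Real.log n / Real.log T) ≠ 0 := by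
    intro h0
    apply hne
    simp only [cP]
    rw [h0, mul_zero]
  obtain ⟨x, hx, hx0⟩ := Finset.exists_ne_zero_of_sum_ne_zero hs0
  rw [Nat.mem_divisorsAntidiagonal] at hx
  obtain ⟨hxm, hmne⟩ := hx
  have hx1 : x.1 ≠ 0 := by
    rintro h
    rw [h, zero_mul] at hxm
    exact hmne hxm.symm
  have hx2 : x.2 ≠ 0 := by
    rintro h
    rw [h, mul_zero] at hxm
    exact hmne hxm.symm
  have hx1' : (1 : ℝ) ≤ x.1 := by exact_mod_cast Nat.one_le_iff_ne_zero.2 hx1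
  have hx2' : (1 : ℝ) ≤ x.2 := by exact_mod_cast Nat.one_le_iff_ne_zero.2 hx2
  have hl1 : 0 ≤ Real.log x.1 := Real.log_nonneg hx1'
  have hl2 : 0 ≤ Real.log x.2 := Real.log_nonneg hx2'
  have hPne := right_ne_zero_of_mul hx0
  obtain ⟨_, h2, _⟩ := hA _ _ _ (div_nonneg hl1 hlT.le) (div_nonneg hl2 hlT.le)
    (div_nonneg hln hlT.le) hPne
  have h1 := hs _ _ _ (div_nonneg hl1 hlT.le) (div_nonneg hl2 hlT.le)
    (div_nonneg hln hlT.le) hPne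
  have hlog : Real.log x.1 / Real.log T + Real.log x.2 / Real.log T =
      Real.log m / Real.log T := by
    rw [← add_div, ← Real.log_mul (by linarith) (by linarith)]
    congr 2
    exact_mod_cast hxm
  rw [hlog] at h1 h2
  obtain ⟨X, hX⟩ : ∃ X, X = Real.log m / Real.log T := ⟨_, rfl⟩
  obtain ⟨Y, hY⟩ : ∃ Y, Y = Real.log n / Real.log T := ⟨_, rfl⟩
  rw [← hX, ← hY] at h1 h2
  have hmx : Real.log m = Real.log T * X := by rw [hX]; field_simp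
  have hny : Real.log n = Real.log T * Y := by rw [hY]; field_simp
  have hmT : (m : ℝ) = T ^ X := by
    rw [Real.rpow_def_of_pos hT0, ← hmx, Real.exp_log hm0]
  have hnT : (n : ℝ) = T ^ Y := by
    rw [Real.rpow_def_of_pos hT0, ← hny, Real.exp_log hn0]
  refine ⟨?_, ?_⟩
  · simp only
    rw [hmT, hnT, ← Real.rpow_mul hT0.le, ← Real.rpow_add hT0]
    exact Real.rpow_le_rpow_of_exponent_le hT1 (by linarith)
  · simp only
    rw [hmT]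
    exact Real.rpow_le_rpow_of_exponent_le hT1 (by linarith)

theorem cP_errR (P : ℝ × ℝ × ℝ → ℝ) (ε : ℝ) (hε : 0 < ε) (hε' : ε ≤ 1 / 10) (hP : AdmP ε P)
    (hs : ∀ z z' y : ℝ, 0 ≤ z → 0 ≤ z' → 0 ≤ y → P (z, z', y) ≠ 0 → 3 * (z + z') / 2 + y ≤ 1 - ε) :
    ∃ C : ℝ, 0 < C ∧ ∀ T : ℝ, 2 ≤ T →
      ∑ q ∈ idx T, |cP P T q| * errR (ε / 1000) T q.1 q.2 ≤ C * T ^ (1 - ε / 4) := by
  obtain ⟨η, hη⟩ : ∃ η, η = ε / 1000 := ⟨_, rfl⟩
  rw [← hη]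
  have hη0 : 0 < η := by
    rw [hη]
    positivity
  have hε1 : ε < 1 := by linarith
  obtain ⟨M, hM, hcc⟩ := cP_bound P ε hP
  obtain ⟨D, hD, hdiv⟩ := card_div_le η hη0
  obtain ⟨C1, hC1, h1⟩ := reg1 (η - 1 / 2) ε (by linarith) hε hε1
  obtain ⟨C2, hC2, h2⟩ := reg2 (η + 1 / 2) ε (by linarith) hε hε1
  obtain ⟨C3, hC3, h3⟩ := reg1 (2 * η - 1) ε (by linarith) hε hε1
  obtain ⟨C4, hC4, h4⟩ := reg2 (2 * η) ε (by linarith) hε hε1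
  obtain ⟨C5, hC5, h5⟩ := pw_sum η hη0
  refine ⟨M * D * (C1 + C2 + C3 + C4 + C5 + 2 * C5 + C3), by positivity, fun T hT => ?_⟩
  have hT0 : 0 < T := by linarith
  have hT1 : 1 ≤ T := by linarith
  have hpt : ∀ q ∈ reg ε T, |cP P T q| * errR η T q.1 q.2 ≤ M * D *
      ((q.1 : ℝ) ^ (η - 1 / 2) * (q.2 : ℝ) ^ (-(1 / 2) : ℝ) +
      (q.1 : ℝ) ^ (η + 1 / 2) * (q.2 : ℝ) ^ (-(3 / 2) : ℝ) +
      ((q.1 : ℝ) ^ (2 * η - 1) * (q.2 : ℝ) ^ (-(1 / 2) : ℝ)) * T ^ (1 / 4 : ℝ) +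
      ((q.1 : ℝ) ^ (2 * η) * (q.2 : ℝ) ^ (-(3 / 2) : ℝ)) * T ^ (1 / 4 : ℝ) +
      (q.1 : ℝ) ^ (η - 1) +
      ((q.1 : ℝ) ^ (1 / 2 + 9 * η) * √(pw q.1 : ℝ)) * (2 * T ^ η) +
      ((q.1 : ℝ) ^ (2 * η - 1) * (q.2 : ℝ) ^ (-(1 / 2) : ℝ)) * T ^ (1 / 2 : ℝ)) := by
    intro q hq
    have hqi : q ∈ idx T := (Finset.mem_filter.1 hq).1
    have hq2 := Finset.mem_product.1 (Finset.mem_filter.1 hqi).1
    have hm := Finset.mem_Icc.1 hq2.1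
    have hn := Finset.mem_Icc.1 hq2.2
    have hnT : (q.2 : ℝ) ≤ T := by
      have h1 : (q.2 : ℝ) ≤ (⌊T⌋₊ : ℝ) := by exact_mod_cast hn.2
      exact h1.trans (Nat.floor_le hT0.le)
    have hp := W_10_point η T hη0 (by linarith) hT q.1 q.2 hm.1 hn.1 hnT
    have herr : 0 ≤ errR η T q.1 q.2 := by
      unfold errR
      positivity
    have hb : |cP P T q| ≤ M * D * (((q.1 : ℝ) * q.2) ^ (-(1 / 2) : ℝ) * (q.1 : ℝ) ^ η) := by
      refine (hcc T hT q hqi).1.trans ?_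
      have h6 : hh q.1 ≤ D * (q.1 : ℝ) ^ η := (hh_le_card q.1).trans (hdiv q.1 hm.1)
      calc M * hh q.1 * ((q.1 : ℝ) * q.2) ^ (-(1 / 2) : ℝ)
          ≤ M * (D * (q.1 : ℝ) ^ η) * ((q.1 : ℝ) * q.2) ^ (-(1 / 2) : ℝ) := by gcongr
        _ = M * D * (((q.1 : ℝ) * q.2) ^ (-(1 / 2) : ℝ) * (q.1 : ℝ) ^ η) := by ring
    calc |cP P T q| * errR η T q.1 q.2
        ≤ M * D * (((q.1 : ℝ) * q.2) ^ (-(1 / 2) : ℝ) * (q.1 : ℝ) ^ η) * errR η T q.1 q.2 :=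
          mul_le_mul_of_nonneg_right hb herr
      _ = M * D * (((q.1 : ℝ) * q.2) ^ (-(1 / 2) : ℝ) * (q.1 : ℝ) ^ η * errR η T q.1 q.2) := by
          ring
      _ ≤ _ := mul_le_mul_of_nonneg_left hp (by positivity)
  have hreg : ∑ q ∈ idx T, |cP P T q| * errR η T q.1 q.2 =
      ∑ q ∈ reg ε T, |cP P T q| * errR η T q.1 q.2 := by
    unfold reg
    symm
    apply Finset.sum_filter_of_ne
    intro q hq hne
    have hc : cP P T q ≠ 0 := by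
      intro h
      apply hne
      rw [h, abs_zero, zero_mul]
    exact W_10_supp P ε hε hP hs T hT q hq hc
  have hfl : (1 : ℕ) ≤ ⌊T⌋₊ := Nat.le_floor (by exact_mod_cast hT1)
  have hS5 : ∑ m ∈ Finset.Icc 1 ⌊T⌋₊, (m : ℝ)⁻¹ * (pw m : ℝ) ^ (1 / 2 : ℝ) ≤ C5 * T ^ η := by
    refine (h5 ⌊T⌋₊ hfl).trans ?_
    have h6 : ((⌊T⌋₊ : ℕ) : ℝ) ^ η ≤ T ^ η :=
      Real.rpow_le_rpow (Nat.cast_nonneg _) (Nat.floor_le hT0.le) hη0.le
    gcongr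
  have b1 : ∑ q ∈ reg ε T, (q.1 : ℝ) ^ (η - 1 / 2) * (q.2 : ℝ) ^ (-(1 / 2) : ℝ) ≤
      C1 * T ^ (1 - ε / 4) := by
    refine (h1 T hT).trans ?_
    have : T ^ ((1 - ε) / 2) ≤ T ^ (1 - ε / 4) :=
      Real.rpow_le_rpow_of_exponent_le hT1 (by linarith)
    gcongr
  have b2 : ∑ q ∈ reg ε T, (q.1 : ℝ) ^ (η + 1 / 2) * (q.2 : ℝ) ^ (-(3 / 2) : ℝ) ≤
      C2 * T ^ (1 - ε / 4) := by
    refine (h2 T hT).trans ?_
    have : T ^ ((3 / 5) * (η + 1 / 2 + 1)) ≤ T ^ (1 - ε / 4) :=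
      Real.rpow_le_rpow_of_exponent_le hT1 (by linarith)
    gcongr
  have b3 : ∀ θ : ℝ, θ ≤ 1 / 2 → (∑ q ∈ reg ε T, (q.1 : ℝ) ^ (2 * η - 1) *
      (q.2 : ℝ) ^ (-(1 / 2) : ℝ)) * T ^ θ ≤ C3 * T ^ (1 - ε / 4) := by
    intro θ hθ
    have h6 := h3 T hT
    have h7 : T ^ ((1 - ε) / 2) * T ^ θ ≤ T ^ (1 - ε / 4) := by
      rw [← Real.rpow_add hT0]
      exact Real.rpow_le_rpow_of_exponent_le hT1 (by linarith)
    calc _ ≤ (C3 * T ^ ((1 - ε) / 2)) * T ^ θ := by gcongr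
      _ = C3 * (T ^ ((1 - ε) / 2) * T ^ θ) := by ring
      _ ≤ _ := by gcongr
  have b4 : (∑ q ∈ reg ε T, (q.1 : ℝ) ^ (2 * η) * (q.2 : ℝ) ^ (-(3 / 2) : ℝ)) *
      T ^ (1 / 4 : ℝ) ≤ C4 * T ^ (1 - ε / 4) := by
    have h6 := h4 T hT
    have h7 : T ^ ((3 / 5) * (2 * η + 1)) * T ^ (1 / 4 : ℝ) ≤ T ^ (1 - ε / 4) := by
      rw [← Real.rpow_add hT0]
      exact Real.rpow_le_rpow_of_exponent_le hT1 (by linarith)
    calc _ ≤ (C4 * T ^ ((3 / 5) * (2 * η + 1))) * T ^ (1 / 4 : ℝ) := by gcongr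
      _ = C4 * (T ^ ((3 / 5) * (2 * η + 1)) * T ^ (1 / 4 : ℝ)) := by ring
      _ ≤ _ := by gcongr
  have b5 : ∑ q ∈ reg ε T, (q.1 : ℝ) ^ (η - 1) ≤ C5 * T ^ (1 - ε / 4) := by
    have h6 := reg3 ε hε hε1 (fun m => (m : ℝ) ^ (η - 1)) (fun m => by positivity) T hT
    have h7 : ∑ m ∈ Finset.Icc 1 ⌊T⌋₊, (m : ℝ) ^ (η - 1) * (m : ℝ) ^ (-(3 / 2) : ℝ) ≤
        ∑ m ∈ Finset.Icc 1 ⌊T⌋₊, (m : ℝ)⁻¹ * (pw m : ℝ) ^ (1 / 2 : ℝ) := by
      apply Finset.sum_le_sum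
      intro m hm
      have hm1 : (1 : ℝ) ≤ m := by exact_mod_cast (Finset.mem_Icc.1 hm).1
      have hm0 : (0 : ℝ) < m := by linarith
      have h8 : (m : ℝ) ^ (η - 1) * (m : ℝ) ^ (-(3 / 2) : ℝ) ≤ (m : ℝ)⁻¹ := by
        rw [← Real.rpow_add hm0, ← Real.rpow_neg_one]
        exact Real.rpow_le_rpow_of_exponent_le hm1 (by linarith)
      have h9 : (1 : ℝ) ≤ (pw m : ℝ) ^ (1 / 2 : ℝ) :=
        Real.one_le_rpow (by exact_mod_cast W_10_pw m) (by norm_num)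
      exact h8.trans (le_mul_of_one_le_right (by positivity) h9)
    have h10 : T ^ (1 - ε) * T ^ η ≤ T ^ (1 - ε / 4) := by
      rw [← Real.rpow_add hT0]
      exact Real.rpow_le_rpow_of_exponent_le hT1 (by linarith)
    calc _ ≤ T ^ (1 - ε) * ∑ m ∈ Finset.Icc 1 ⌊T⌋₊, (m : ℝ) ^ (η - 1) *
          (m : ℝ) ^ (-(3 / 2) : ℝ) := h6
      _ ≤ T ^ (1 - ε) * (C5 * T ^ η) := by
          have := h7.trans hS5
          gcongr
      _ = C5 * (T ^ (1 - ε) * T ^ η) := by ring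
      _ ≤ _ := by gcongr
  have b6 : (∑ q ∈ reg ε T, (q.1 : ℝ) ^ (1 / 2 + 9 * η) * √(pw q.1 : ℝ)) * (2 * T ^ η) ≤
      2 * C5 * T ^ (1 - ε / 4) := by
    have h6 := reg3 ε hε hε1 (fun m => (m : ℝ) ^ (1 / 2 + 9 * η) * √(pw m : ℝ))
      (fun m => by positivity) T hT
    have h7 : ∑ m ∈ Finset.Icc 1 ⌊T⌋₊, (m : ℝ) ^ (1 / 2 + 9 * η) * √(pw m : ℝ) *
        (m : ℝ) ^ (-(3 / 2) : ℝ) ≤
        T ^ (9 * η) * ∑ m ∈ Finset.Icc 1 ⌊T⌋₊, (m : ℝ)⁻¹ * (pw m : ℝ) ^ (1 / 2 : ℝ) := by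
      rw [Finset.mul_sum]
      apply Finset.sum_le_sum
      intro m hm
      have hm1 : (1 : ℝ) ≤ m := by exact_mod_cast (Finset.mem_Icc.1 hm).1
      have hm0 : (0 : ℝ) < m := by linarith
      have hmT : (m : ℝ) ≤ T := by
        have h1 : (m : ℝ) ≤ (⌊T⌋₊ : ℝ) := by exact_mod_cast (Finset.mem_Icc.1 hm).2
        exact h1.trans (Nat.floor_le hT0.le)
      have h8 : (m : ℝ) ^ (1 / 2 + 9 * η) * (m : ℝ) ^ (-(3 / 2) : ℝ) =
          (m : ℝ) ^ (9 * η) * (m : ℝ)⁻¹ := by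
        rw [← Real.rpow_add hm0, ← Real.rpow_neg_one, ← Real.rpow_add hm0]
        congr 1
        ring
      have h9 : (m : ℝ) ^ (9 * η) ≤ T ^ (9 * η) :=
        Real.rpow_le_rpow hm0.le hmT (by positivity)
      rw [Real.sqrt_eq_rpow]
      calc (m : ℝ) ^ (1 / 2 + 9 * η) * (pw m : ℝ) ^ (1 / 2 : ℝ) * (m : ℝ) ^ (-(3 / 2) : ℝ)
          = (m : ℝ) ^ (1 / 2 + 9 * η) * (m : ℝ) ^ (-(3 / 2) : ℝ) * (pw m : ℝ) ^ (1 / 2 : ℝ) := by
            ring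
        _ = (m : ℝ) ^ (9 * η) * ((m : ℝ)⁻¹ * (pw m : ℝ) ^ (1 / 2 : ℝ)) := by
            rw [h8]
            ring
        _ ≤ _ := by gcongr
    have h10 : T ^ (1 - ε) * T ^ (9 * η) * T ^ η * T ^ η ≤ T ^ (1 - ε / 4) := by
      rw [← Real.rpow_add hT0, ← Real.rpow_add hT0, ← Real.rpow_add hT0]
      exact Real.rpow_le_rpow_of_exponent_le hT1 (by linarith)
    calc _ ≤ (T ^ (1 - ε) * ∑ m ∈ Finset.Icc 1 ⌊T⌋₊, (m : ℝ) ^ (1 / 2 + 9 * η) *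
          √(pw m : ℝ) * (m : ℝ) ^ (-(3 / 2) : ℝ)) * (2 * T ^ η) := by gcongr
      _ ≤ (T ^ (1 - ε) * (T ^ (9 * η) * (C5 * T ^ η))) * (2 * T ^ η) := by
          have := h7.trans (mul_le_mul_of_nonneg_left hS5 (by positivity : 0 ≤ T ^ (9 * η)))
          gcongr
      _ = 2 * C5 * (T ^ (1 - ε) * T ^ (9 * η) * T ^ η * T ^ η) := by ring
      _ ≤ _ := by gcongr
  rw [hreg]
  refine (Finset.sum_le_sum hpt).trans ?_
  rw [← Finset.mul_sum, mul_assoc (M * D)]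
  apply mul_le_mul_of_nonneg_left _ (by positivity)
  simp only [Finset.sum_add_distrib, ← Finset.sum_mul]
  have b3a := b3 (1 / 4) (by norm_num)
  have b3b := b3 (1 / 2) le_rfl
  linarith

private theorem W_10_II (P : ℝ × ℝ × ℝ → ℝ) (ε ε₁ δ : ℝ) (hε : 0 < ε) (hε1 : 0 < ε₁) (hε' : ε ≤ 1 / 10)
    (hδ : 0 < δ) (hδ1 : δ ≤ ε / 100) (hP : AdmP ε P)
    (hR : ∃ C : ℝ, 0 < C ∧ ∀ T : ℝ, 2 ≤ T → ∑ q ∈ idx T, |cP P T q| * errR (ε / 1000) T q.1 q.2 ≤ C * T ^ (1 - ε / 4)) :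
    ∃ C T₀ : ℝ, ∀ T : ℝ, T₀ ≤ T → ∀ u : ℝ, ε₁ * T ≤ u → u ≤ T →
      |(∑ q ∈ idx T, cP P T q * (II (T ^ (1 - δ)) u q.1 q.2).re)
        - (∑ q ∈ idx T, cP P T q * (((q.1 : ℝ) * q.2) ^ (-(1 / 2) : ℝ) *
          mainS q.1 (Real.log (u / (2 * Real.pi)) + Real.log q.1 - Real.log q.2)))| ≤ C * (Real.log T) ^ 6 := by
  obtain ⟨C, T₀, hC, hone⟩ := one_fraction ε₁ δ (ε / 1000) hε1 hδ (by linarith)
    (by positivity) (by linarith)
  obtain ⟨CS, hCS, hS⟩ := errS_sum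
  obtain ⟨CR, hCR, hR⟩ := hR
  obtain ⟨M, hMp, hM⟩ := cP_bound P ε hP
  have hM0 : 0 ≤ M := hMp.le
  refine ⟨C * M * CS + C * CR, max T₀ (Real.exp 1), fun T hT u hu1 hu2 => ?_⟩
  have hT0 : T₀ ≤ T := (le_max_left _ _).trans hT
  have hTe : Real.exp 1 ≤ T := (le_max_right _ _).trans hT
  have hT2 : 2 ≤ T := by
    have := Real.add_one_le_exp (1 : ℝ)
    linarith
  have hTpos : 0 < T := by linarith
  have hL : 1 ≤ Real.log T := by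
    rw [Real.le_log_iff_exp_le hTpos]
    exact hTe
  have hL0 : 0 ≤ Real.log T := zero_le_one.trans hL
  rw [← Finset.sum_sub_distrib]
  have hterm : ∀ q ∈ idx T, |cP P T q * (II (T ^ (1 - δ)) u q.1 q.2).re -
      cP P T q * (((q.1 : ℝ) * q.2) ^ (-(1 / 2) : ℝ) *
        mainS q.1 (Real.log (u / (2 * Real.pi)) + Real.log q.1 - Real.log q.2))| ≤
      C * M * Real.log T * (hh q.1 * ((q.1 : ℝ) * q.2)⁻¹ * errS q.1) +
        C * T ^ (9 * δ - 1) * (|cP P T q| * errR (ε / 1000) T q.1 q.2) := by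
    intro q hq
    have hcb := (hM T hT2 q hq).1
    simp only [idx, Finset.mem_filter, Finset.mem_product, Finset.mem_Icc] at hq
    obtain ⟨⟨⟨h1, h2⟩, h3, h4⟩, h5⟩ := hq
    have h2' : (q.1 : ℝ) ≤ T := (Nat.le_floor_iff hTpos.le).mp h2
    have h4' : (q.2 : ℝ) ≤ T := (Nat.le_floor_iff hTpos.le).mp h4
    have hk := hone T hT0 u hu1 hu2 q.1 q.2 h1 h3 h5.symm h2' h4'
    have hmn : (0 : ℝ) < (q.1 : ℝ) * q.2 := by
      have : (0 : ℝ) < (q.1 : ℝ) := by exact_mod_cast h1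
      have : (0 : ℝ) < (q.2 : ℝ) := by exact_mod_cast h3
      positivity
    have hr0 : 0 ≤ ((q.1 : ℝ) * q.2) ^ (-(1 / 2) : ℝ) := Real.rpow_nonneg hmn.le _
    have hrr : ((q.1 : ℝ) * q.2) ^ (-(1 / 2) : ℝ) * ((q.1 : ℝ) * q.2) ^ (-(1 / 2) : ℝ) =
        ((q.1 : ℝ) * q.2)⁻¹ := by
      rw [← Real.rpow_add hmn, ← Real.rpow_neg_one]
      norm_num
    have hh0 : 0 ≤ hh q.1 := by
      unfold hh
      exact Finset.sum_nonneg fun d _ => by positivity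
    have hS0 : 0 ≤ errS q.1 := by
      unfold errS
      exact Finset.sum_nonneg fun d _ => by positivity
    rw [← mul_sub, abs_mul]
    have hre : |(II (T ^ (1 - δ)) u q.1 q.2).re - ((q.1 : ℝ) * q.2) ^ (-(1 / 2) : ℝ) *
        mainS q.1 (Real.log (u / (2 * Real.pi)) + Real.log q.1 - Real.log q.2)| ≤
        C * ((q.1 : ℝ) * q.2) ^ (-(1 / 2) : ℝ) * Real.log T * errS q.1 +
          C * T ^ (9 * δ - 1) * errR (ε / 1000) T q.1 q.2 := by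
      refine le_trans ?_ hk
      have h6 := Complex.abs_re_le_norm (II (T ^ (1 - δ)) u q.1 q.2 -
        ((((q.1 : ℝ) * q.2) ^ (-(1 / 2) : ℝ) *
          mainS q.1 (Real.log (u / (2 * Real.pi)) + Real.log q.1 - Real.log q.2) : ℝ) : ℂ))
      rw [Complex.sub_re, Complex.ofReal_re] at h6
      exact h6
    have hc : |cP P T q| ≤ hh q.1 * ((q.1 : ℝ) * q.2) ^ (-(1 / 2) : ℝ) * M := by
      refine hcb.trans (le_of_eq ?_)
      ring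
    calc |cP P T q| * |(II (T ^ (1 - δ)) u q.1 q.2).re - ((q.1 : ℝ) * q.2) ^ (-(1 / 2) : ℝ) *
        mainS q.1 (Real.log (u / (2 * Real.pi)) + Real.log q.1 - Real.log q.2)|
        ≤ |cP P T q| * (C * ((q.1 : ℝ) * q.2) ^ (-(1 / 2) : ℝ) * Real.log T * errS q.1 +
          C * T ^ (9 * δ - 1) * errR (ε / 1000) T q.1 q.2) :=
          mul_le_mul_of_nonneg_left hre (abs_nonneg _)
      _ = |cP P T q| * (C * ((q.1 : ℝ) * q.2) ^ (-(1 / 2) : ℝ) * Real.log T * errS q.1) +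
          C * T ^ (9 * δ - 1) * (|cP P T q| * errR (ε / 1000) T q.1 q.2) := by ring
      _ ≤ (hh q.1 * ((q.1 : ℝ) * q.2) ^ (-(1 / 2) : ℝ) * M) *
            (C * ((q.1 : ℝ) * q.2) ^ (-(1 / 2) : ℝ) * Real.log T * errS q.1) +
          C * T ^ (9 * δ - 1) * (|cP P T q| * errR (ε / 1000) T q.1 q.2) := by
          refine add_le_add (mul_le_mul_of_nonneg_right hc ?_) le_rfl
          exact mul_nonneg (mul_nonneg (mul_nonneg hC.le hr0) hL0) hS0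
      _ = C * M * Real.log T * (hh q.1 * (((q.1 : ℝ) * q.2) ^ (-(1 / 2) : ℝ) *
            ((q.1 : ℝ) * q.2) ^ (-(1 / 2) : ℝ)) * errS q.1) +
          C * T ^ (9 * δ - 1) * (|cP P T q| * errR (ε / 1000) T q.1 q.2) := by ring
      _ = C * M * Real.log T * (hh q.1 * ((q.1 : ℝ) * q.2)⁻¹ * errS q.1) +
          C * T ^ (9 * δ - 1) * (|cP P T q| * errR (ε / 1000) T q.1 q.2) := by rw [hrr]
  have hsum : |∑ q ∈ idx T, (cP P T q * (II (T ^ (1 - δ)) u q.1 q.2).re -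
      cP P T q * (((q.1 : ℝ) * q.2) ^ (-(1 / 2) : ℝ) *
        mainS q.1 (Real.log (u / (2 * Real.pi)) + Real.log q.1 - Real.log q.2)))| ≤
      C * M * Real.log T * (∑ q ∈ idx T, hh q.1 * ((q.1 : ℝ) * q.2)⁻¹ * errS q.1) +
        C * T ^ (9 * δ - 1) * (∑ q ∈ idx T, |cP P T q| * errR (ε / 1000) T q.1 q.2) := by
    refine (Finset.abs_sum_le_sum_abs _ _).trans ((Finset.sum_le_sum hterm).trans ?_)
    rw [Finset.sum_add_distrib, ← Finset.mul_sum, ← Finset.mul_sum]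
  refine hsum.trans ?_
  have hA : C * M * Real.log T * (∑ q ∈ idx T, hh q.1 * ((q.1 : ℝ) * q.2)⁻¹ * errS q.1) ≤
      C * M * CS * Real.log T ^ 6 := by
    calc C * M * Real.log T * (∑ q ∈ idx T, hh q.1 * ((q.1 : ℝ) * q.2)⁻¹ * errS q.1)
        ≤ C * M * Real.log T * (CS * (Real.log T) ^ 5) :=
          mul_le_mul_of_nonneg_left (hS T hT2) (mul_nonneg (mul_nonneg hC.le hM0) hL0)
      _ = C * M * CS * Real.log T ^ 6 := by ring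
  have hB : C * T ^ (9 * δ - 1) *
      (∑ q ∈ idx T, |cP P T q| * errR (ε / 1000) T q.1 q.2) ≤ C * CR * Real.log T ^ 6 := by
    have hT1 : 0 ≤ T ^ (9 * δ - 1) := Real.rpow_nonneg hTpos.le _
    calc C * T ^ (9 * δ - 1) * (∑ q ∈ idx T, |cP P T q| * errR (ε / 1000) T q.1 q.2)
        ≤ C * T ^ (9 * δ - 1) * (CR * T ^ (1 - ε / 4)) :=
          mul_le_mul_of_nonneg_left (hR T hT2) (mul_nonneg hC.le hT1)
      _ = C * CR * (T ^ (9 * δ - 1) * T ^ (1 - ε / 4)) := by ring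
      _ = C * CR * T ^ (9 * δ - 1 + (1 - ε / 4)) := by rw [← Real.rpow_add hTpos]
      _ ≤ C * CR * 1 := by
          refine mul_le_mul_of_nonneg_left ?_ (mul_nonneg hC.le hCR.le)
          exact Real.rpow_le_one_of_one_le_of_nonpos (by linarith) (by linarith)
      _ ≤ C * CR * Real.log T ^ 6 :=
          mul_le_mul_of_nonneg_left (one_le_pow₀ hL) (mul_nonneg hC.le hCR.le)
  calc C * M * Real.log T * (∑ q ∈ idx T, hh q.1 * ((q.1 : ℝ) * q.2)⁻¹ * errS q.1) +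
        C * T ^ (9 * δ - 1) * (∑ q ∈ idx T, |cP P T q| * errR (ε / 1000) T q.1 q.2)
      ≤ C * M * CS * Real.log T ^ 6 + C * CR * Real.log T ^ 6 := add_le_add hA hB
    _ = (C * M * CS + C * CR) * Real.log T ^ 6 := by ring

theorem good_47 (x : ℝ × ℝ × ℝ) (hx : x ∈ Base) (h : 3 * (x.1 + x.2.1) / 2 + x.2.2 < 1) : GoodAt x := by
  obtain ⟨hx1, hx2, hx3, _, hx5⟩ := hx
  obtain ⟨ε, hεd⟩ : ∃ ε : ℝ, ε = min (1 / 10) (min ((1 - (3 * (x.1 + x.2.1) / 2 + x.2.2)) / 2)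
    ((1 / 2 - (x.1 + x.2.1 - x.2.2)) / 2)) := ⟨_, rfl⟩
  have hε : 0 < ε := by
    rw [hεd]
    refine lt_min (by norm_num) (lt_min ?_ ?_) <;> linarith
  have hε' : ε ≤ 1 / 10 := by
    rw [hεd]
    exact min_le_left _ _
  have e1 : 3 * (x.1 + x.2.1) / 2 + x.2.2 ≤ 1 - 2 * ε := by
    have : ε ≤ (1 - (3 * (x.1 + x.2.1) / 2 + x.2.2)) / 2 := by
      rw [hεd]
      exact (min_le_right _ _).trans (min_le_left _ _)
    linarith
  have e2 : x.1 + x.2.1 - x.2.2 ≤ 1 / 2 - 2 * ε := by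
    have : ε ≤ (1 / 2 - (x.1 + x.2.1 - x.2.2)) / 2 := by
      rw [hεd]
      exact (min_le_right _ _).trans (min_le_right _ _)
    linarith
  refine ⟨ε / 10, by positivity, fun a b c ha hb hc ha0 hb0 hc0 => ?_⟩
  have hnz : ∀ z z' y : ℝ, bx a b c (z, z', y) ≠ 0 →
      |z - x.1| < ε / 10 ∧ |z' - x.2.1| < ε / 10 ∧ |y - x.2.2| < ε / 10 := by
    intro z z' y hne
    have h1 : a z * b z' * c y ≠ 0 := hne
    refine ⟨?_, ?_, ?_⟩
    · by_contra hh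
      exact h1 (by rw [ha0 z (not_lt.1 hh), zero_mul, zero_mul])
    · by_contra hh
      exact h1 (by rw [hb0 z' (not_lt.1 hh), mul_zero, zero_mul])
    · by_contra hh
      exact h1 (by rw [hc0 y (not_lt.1 hh), mul_zero])
  have hcont : Continuous (bx a b c) := by
    unfold bx
    exact ((ha.continuous.comp continuous_fst).mul
      (hb.continuous.comp (continuous_fst.comp continuous_snd))).mul
      (hc.continuous.comp (continuous_snd.comp continuous_snd))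
  have hcs : HasCompactSupport (bx a b c) := by
    refine HasCompactSupport.intro (K := Icc (x.1 - ε / 10) (x.1 + ε / 10) ×ˢ
      (Icc (x.2.1 - ε / 10) (x.2.1 + ε / 10) ×ˢ Icc (x.2.2 - ε / 10) (x.2.2 + ε / 10)))
      (isCompact_Icc.prod (isCompact_Icc.prod isCompact_Icc)) fun v hv => ?_
    by_contra hne
    apply hv
    obtain ⟨z, z', y⟩ := v
    obtain ⟨h1, h2, h3⟩ := hnz z z' y hne
    rw [abs_lt] at h1 h2 h3
    refine ⟨⟨?_, ?_⟩, ⟨?_, ?_⟩, ⟨?_, ?_⟩⟩ <;> simp only <;> linarith [h1.1, h1.2, h2.1, h2.2, h3.1, h3.2]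
  have hAdm : AdmP ε (bx a b c) := by
    refine ⟨hcont, hcs, fun z z' y _ _ _ hne => ?_⟩
    obtain ⟨h1, h2, h3⟩ := hnz z z' y hne
    rw [abs_lt] at h1 h2 h3
    refine ⟨?_, ?_, ?_⟩ <;> linarith [h1.1, h1.2, h2.1, h2.2, h3.1, h3.2]
  have hsup : ∀ z z' y : ℝ, 0 ≤ z → 0 ≤ z' → 0 ≤ y → bx a b c (z, z', y) ≠ 0 →
      3 * (z + z') / 2 + y ≤ 1 - ε := by
    intro z z' y _ _ _ hne
    obtain ⟨h1, h2, h3⟩ := hnz z z' y hne
    rw [abs_lt] at h1 h2 h3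
    linarith [h1.1, h1.2, h2.1, h2.2, h3.1, h3.2]
  have hR := cP_errR (bx a b c) ε hε hε' hAdm hsup
  intro ε₁ hε1
  refine ⟨ε / 100, by positivity, fun δ hδ hδ1 => ?_⟩
  obtain ⟨C, T₀, hC⟩ := W_10_II (bx a b c) ε ε₁ δ hε hε1 hε' hδ hδ1 hAdm hR
  exact ⟨C, T₀, hC⟩

end Pool.Agent.LibSM56
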