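import Pool.Agent.LibSM56.Defs
import Pool.Agent.LibSM56.F_Main

/-! # Board SM56-W: the two arithmetic sums `S1`, `S2` for the weights `cP P T`: definitions -/

set_option autoImplicit false

namespace Pool.Agent.LibSM56.WL

open MeasureTheory Set Filter Topology
open Pool.Agent.LibZM Pool.Agent.LibSM47

/-- A continuous cutoff: `1` for `|t| ≤ 1`, `0` for `|t| ≥ 2`. -/
noncomputable def ct (t : ℝ) : ℝ := max 0 (min 1 (2 - |t|))

/-- The test function in five variables. -/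
noncomputable def gW (P R : ℝ × ℝ × ℝ → ℝ) (x : V5) : ℝ :=
  P (x.1, x.2.1, x.2.2.2.2) * (R (x.2.2.1, x.2.2.2.1, x.2.2.2.2) * (ct x.2.2.1 * ct x.2.2.2.1))

/-- `∑_{de = m} (φ(d)/d) R(log d, log e, log n)/log T`. -/
noncomputable def inS (R : ℝ × ℝ × ℝ → ℝ) (T : ℝ) (q : ℕ × ℕ) : ℝ :=
  ∑ x ∈ q.1.divisorsAntidiagonal, (Nat.totient x.1 : ℝ) / x.1 *
    R (Real.log x.1 / Real.log T, Real.log x.2 / Real.log T, Real.log q.2 / Real.log T)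

/-- The double sums. -/
noncomputable def wS (P R : ℝ × ℝ × ℝ → ℝ) (T : ℝ) : ℝ :=
  ∑ q ∈ idx T, ((q.1 : ℝ) * q.2)⁻¹ * (inS P T q * inS R T q)

/-- Support condition on the octant. -/
def Sup1 (P : ℝ × ℝ × ℝ → ℝ) : Prop :=
  ∀ z z' y : ℝ, 0 ≤ z → 0 ≤ z' → 0 ≤ y → P (z, z', y) ≠ 0 → z + z' ≤ 1 ∧ y ≤ 1

/-- The coefficient of `c₀ L` in `S2`. -/
noncomputable def A1 (x : ℝ × ℝ × ℝ) : ℝ := 1 - x.2.2 + (x.1 + x.2.1) - 3 * x.2.1

end Pool.Agent.LibSM56.WL
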